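import Pool.Agent.Lib.P6a08f9.Nil

/-!
Bases adapted to the lower central filtration, and weighted bounds for the group law.
-/

open Set Filter Topology

namespace Pool.Agent.Lib.P6a08f9

namespace ExpLaw

variable {V : Type*} [NormedAddCommGroup V] [NormedSpace ℝ V] (G : ExpLaw V)

/-- a basis adapted to the filtration `F`, with weights `w` -/
structure Adapted {n : ℕ} (b : Module.Basis (Fin n) ℝ V) (w : Fin n → ℕ) : Prop where
  /-- weights are positive -/
  one_le : ∀ i, 1 ≤ w i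
  /-- the filtration in coordinates -/
  mem_iff : ∀ j x, x ∈ G.F j ↔ ∀ i, w i < j → b.repr x i = 0

theorem exists_adapted_set {N : ℕ} (h : G.Nilp N) : ∀ d j, j + d = N →
    ∃ s : Set V, s ⊆ (G.F j : Set V) ∧ LinearIndepOn ℝ id s ∧
      ∀ i, j ≤ i → Submodule.span ℝ (s ∩ (G.F i : Set V)) = G.F i := by
  intro d
  induction d with
  | zero =>
    intro j hj
    refine ⟨∅, Set.empty_subset _, linearIndepOn_empty ℝ id, fun i hi => ?_⟩
    rw [Set.empty_inter, Submodule.span_empty]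
    symm
    rw [eq_bot_iff]
    have : N ≤ i := by omega
    exact (G.F_anti this).trans h.le
  | succ d ih =>
    intro j hj
    obtain ⟨s, hs1, hs2, hs3⟩ := ih (j + 1) (by omega)
    have hst : s ⊆ (G.F j : Set V) := hs1.trans (G.F_succ_le j)
    obtain ⟨t, ht1, ht2, ht3, ht4⟩ := exists_linearIndepOn_id_extension hs2 hst
    refine ⟨t, ht1, ht4, fun i hi => ?_⟩
    apply le_antisymm
    · rw [Submodule.span_le]; exact Set.inter_subset_right
    · rcases Nat.eq_or_lt_of_le hi with h1 | h1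
      · subst h1
        rw [Set.inter_eq_left.2 ht1]
        exact ht3
      · conv_lhs => rw [← hs3 i h1]
        exact Submodule.span_mono (Set.inter_subset_inter_left _ ht2)

theorem exists_adapted [FiniteDimensional ℝ V] {N n : ℕ} (h : G.Nilp N)
    (hn : Module.finrank ℝ V = n) :
    ∃ (b : Module.Basis (Fin n) ℝ V) (w : Fin n → ℕ), G.Adapted b w := by
  classical
  obtain ⟨s, hs1, hs2, hs3⟩ := G.exists_adapted_set h N 0 (by omega)
  have hspan : Submodule.span ℝ s = ⊤ := by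
    have := hs3 0 le_rfl
    rw [Set.inter_eq_left.2 hs1] at this
    exact this
  have hli : LinearIndependent ℝ (fun x : s => (x : V)) := hs2
  set b0 : Module.Basis s ℝ V := Module.Basis.mk hli (by
    rw [Subtype.range_coe]; exact hspan.ge) with hb0
  have : Finite s := Module.Finite.finite_basis b0
  let _ : Fintype s := Fintype.ofFinite s
  have hcard : Fintype.card s = n := by
    rw [← hn, Module.finrank_eq_card_basis b0]
  set e := Fintype.equivFinOfCardEq hcard with he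
  set b := b0.reindex e with hb
  have hbs : ∀ i, b i ∈ s := by
    intro i
    rw [hb, Module.Basis.reindex_apply, hb0, Module.Basis.mk_apply]
    exact (e.symm i).2
  have hsb : ∀ x ∈ s, ∃ i, b i = x := by
    intro x hx
    refine ⟨e ⟨x, hx⟩, ?_⟩
    rw [hb, Module.Basis.reindex_apply, hb0, Module.Basis.mk_apply]
    simp
  set w : Fin n → ℕ := fun i => Nat.findGreatest (fun j => b i ∈ G.F j) N with hw
  have hwi : ∀ i j, j ≤ w i ↔ b i ∈ G.F j := by
    intro i j
    constructor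
    · intro hj
      refine G.F_anti hj ?_
      exact Nat.findGreatest_spec (P := fun j => b i ∈ G.F j) (Nat.zero_le N)
        Submodule.mem_top
    · intro hj
      refine Nat.le_findGreatest ?_ hj
      by_contra hN
      have h1 := G.F_anti (Nat.le_of_lt (not_le.1 hN)) hj
      rw [h] at h1
      exact b.ne_zero i ((Submodule.mem_bot ℝ).1 h1)
  refine ⟨b, w, fun i => (hwi i 1).2 Submodule.mem_top, fun j x => ?_⟩
  have himg : b '' {i | j ≤ w i} = s ∩ (G.F j : Set V) := by
    ext y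
    constructor
    · rintro ⟨i, hi, rfl⟩
      exact ⟨hbs i, (hwi i j).1 hi⟩
    · rintro ⟨h1, h2⟩
      obtain ⟨i, rfl⟩ := hsb y h1
      exact ⟨i, (hwi i j).2 h2, rfl⟩
  rw [← hs3 j (Nat.zero_le j), ← himg, Module.Basis.mem_span_image]
  constructor
  · intro h1 i hi
    by_contra h2
    have := h1 (Finsupp.mem_support_iff.2 h2)
    exact absurd hi (not_lt.2 this)
  · intro h1 i hi
    by_contra h2
    exact (Finsupp.mem_support_iff.1 hi) (h1 i (not_le.1 h2))

variable {G} {n : ℕ} {b : Module.Basis (Fin n) ℝ V} {w : Fin n → ℕ}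

theorem Adapted.basis_mem (h : G.Adapted b w) (i : Fin n) : b i ∈ G.F (w i) := by
  rw [h.mem_iff]
  intro k hk
  have : i ≠ k := by rintro rfl; exact lt_irrefl _ hk
  rw [Module.Basis.repr_self, Finsupp.single_apply, if_neg this]

theorem Adapted.coeff_zero (h : G.Adapted b w) (i j k : Fin n) (hk : w k < w i + w j) :
    b.repr (G.ad (b i) (b j)) k = 0 :=
  (h.mem_iff _ _).1 (G.ad_mem_F_add (w i) (h.basis_mem i) (h.basis_mem j)) k hk

/-- weighted bounds on the coordinates of weight at most `m` -/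
def BLe (b : Module.Basis (Fin n) ℝ V) (w : Fin n → ℕ) (t A : ℝ) (m : ℕ) (x : V) : Prop :=
  ∀ i, w i ≤ m → |b.repr x i| ≤ A * t ^ (w i)

theorem BLe.mono {t A B : ℝ} {m m' : ℕ} {x : V} (h : BLe b w t A m x) (ht : 0 ≤ t)
    (hAB : A ≤ B) (hm : m' ≤ m) : BLe b w t B m' x := fun i hi =>
  (h i (hi.trans hm)).trans (mul_le_mul_of_nonneg_right hAB (pow_nonneg ht _))

theorem BLe.add {t A B : ℝ} {m : ℕ} {x y : V} (hx : BLe b w t A m x) (hy : BLe b w t B m y) :
    BLe b w t (A + B) m (x + y) := by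
  intro i hi
  rw [map_add, Finsupp.add_apply, add_mul]
  exact (abs_add_le _ _).trans (add_le_add (hx i hi) (hy i hi))

theorem BLe.smul {t A : ℝ} {m : ℕ} {x : V} (hx : BLe b w t A m x) (c : ℝ) :
    BLe b w t (|c| * A) m (c • x) := by
  intro i hi
  rw [map_smul, Finsupp.smul_apply, smul_eq_mul, abs_mul, mul_assoc]
  exact mul_le_mul_of_nonneg_left (hx i hi) (abs_nonneg c)

theorem BLe.neg {t A : ℝ} {m : ℕ} {x : V} (hx : BLe b w t A m x) : BLe b w t A m (-x) := by
  intro i hi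
  rw [map_neg, Finsupp.neg_apply, abs_neg]
  exact hx i hi

theorem BLe.sum {ι : Type*} {s : Finset ι} {t : ℝ} {A : ι → ℝ} {m : ℕ} {x : ι → V}
    (hx : ∀ k ∈ s, BLe b w t (A k) m (x k)) :
    BLe b w t (∑ k ∈ s, A k) m (∑ k ∈ s, x k) := by
  intro i hi
  rw [map_sum, Finsupp.finsetSum_apply, Finset.sum_mul]
  exact (Finset.abs_sum_le_sum_abs _ _).trans (Finset.sum_le_sum fun k hk => hx k hk i hi)

theorem Adapted.exists_ad_bound (h : G.Adapted b w) : ∃ K : ℝ, 0 ≤ K ∧ ∀ t : ℝ, 1 ≤ t →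
    ∀ A B : ℝ, 0 ≤ A → 0 ≤ B → ∀ m x y, BLe b w t A m x → BLe b w t B m y →
      BLe b w t (K * A * B) (m + 1) (G.ad x y) := by
  set K : ℝ := ∑ i, ∑ j, ∑ k, |b.repr (G.ad (b i) (b j)) k| with hK
  have hK0 : 0 ≤ K := Finset.sum_nonneg fun i _ => Finset.sum_nonneg fun j _ =>
    Finset.sum_nonneg fun k _ => abs_nonneg _
  refine ⟨K, hK0, fun t ht A B hA hB m x y hx hy k hk => ?_⟩
  have ht0 : 0 ≤ t := zero_le_one.trans ht
  have h1 : b.repr (G.ad x y) k = ∑ i, ∑ j, b.repr x i * (b.repr y j *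
      b.repr (G.ad (b i) (b j)) k) := by
    conv_lhs => rw [← b.sum_repr x, ← b.sum_repr y]
    simp only [map_sum, map_smul, _root_.sum_apply, _root_.smul_apply,
      Finsupp.finsetSum_apply, Finsupp.smul_apply, smul_eq_mul, Finset.mul_sum]
    rw [Finset.sum_comm]
    refine Finset.sum_congr rfl fun i _ => Finset.sum_congr rfl fun j _ => ?_
    ring
  rw [h1]
  refine (Finset.abs_sum_le_sum_abs _ _).trans ?_
  have h2 : ∀ i j, |b.repr x i * (b.repr y j * b.repr (G.ad (b i) (b j)) k)| ≤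
      |b.repr (G.ad (b i) (b j)) k| * (A * B * t ^ (w k)) := by
    intro i j
    by_cases hw : w k < w i + w j
    · rw [h.coeff_zero i j k hw]; simp
    · have hi1 := h.one_le i
      have hj1 := h.one_le j
      have hxi := hx i (by omega)
      have hyj := hy j (by omega)
      rw [abs_mul, abs_mul]
      have h3 : |b.repr x i| * |b.repr y j| ≤ A * B * t ^ (w k) := by
        calc |b.repr x i| * |b.repr y j| ≤ (A * t ^ (w i)) * (B * t ^ (w j)) :=
              mul_le_mul hxi hyj (abs_nonneg _) (mul_nonneg hA (pow_nonneg ht0 _))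
          _ = A * B * t ^ (w i + w j) := by rw [pow_add]; ring
          _ ≤ A * B * t ^ (w k) :=
              mul_le_mul_of_nonneg_left (pow_le_pow_right₀ ht (not_lt.1 hw)) (mul_nonneg hA hB)
      calc |b.repr x i| * (|b.repr y j| * |b.repr (G.ad (b i) (b j)) k|)
          = |b.repr (G.ad (b i) (b j)) k| * (|b.repr x i| * |b.repr y j|) := by ring
        _ ≤ _ := mul_le_mul_of_nonneg_left h3 (abs_nonneg _)
  calc ∑ i, |∑ j, b.repr x i * (b.repr y j * b.repr (G.ad (b i) (b j)) k)|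
      ≤ ∑ i, ∑ j, |b.repr (G.ad (b i) (b j)) k| * (A * B * t ^ (w k)) := by
        refine Finset.sum_le_sum fun i _ => (Finset.abs_sum_le_sum_abs _ _).trans ?_
        exact Finset.sum_le_sum fun j _ => h2 i j
    _ ≤ ∑ i, ∑ j, (∑ k, |b.repr (G.ad (b i) (b j)) k|) * (A * B * t ^ (w k)) := by
        refine Finset.sum_le_sum fun i _ => Finset.sum_le_sum fun j _ => ?_
        refine mul_le_mul_of_nonneg_right ?_ (mul_nonneg (mul_nonneg hA hB) (pow_nonneg ht0 _))
        exact Finset.single_le_sum (f := fun k => |b.repr (G.ad (b i) (b j)) k|)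
          (fun k _ => abs_nonneg _) (Finset.mem_univ k)
    _ = K * A * B * t ^ (w k) := by
        simp only [← Finset.sum_mul]
        rw [hK]; ring

theorem Adapted.exists_ad_pow_bound (h : G.Adapted b w) (k : ℕ) (A : ℝ) (hA : 0 ≤ A) :
    ∃ C : ℝ, 0 ≤ C ∧ ∀ t : ℝ, 1 ≤ t →
    ∀ m x y, BLe b w t A m x → BLe b w t A m y →
      BLe b w t C (m + 1) (((G.ad x) ^ (k + 1)) y) := by
  obtain ⟨K, hK, hKb⟩ := h.exists_ad_bound
  induction k with
  | zero =>
    refine ⟨K * A * A, by positivity, fun t ht m x y hx hy => ?_⟩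
    rw [zero_add, pow_one]
    exact hKb t ht A A hA hA m x y hx hy
  | succ k ih =>
    obtain ⟨C, hC, hCb⟩ := ih
    refine ⟨K * A * C, by positivity, fun t ht m x y hx hy => ?_⟩
    rw [pow_succ', _root_.mul_apply_eq_comp]
    have h1 := hCb t ht m x y hx hy
    exact hKb t ht A C hA hC m x _ hx (h1.mono (zero_le_one.trans ht) le_rfl (Nat.le_succ m))

theorem Λ_smul_self (y : V) (s : ℝ) : G.Λ (s • y) y = y := by
  have h := G.Λ_sub_eq (s • y) y 0 (by
    rw [zero_add, pow_one, map_smul, _root_.smul_apply, G.ad_self, smul_zero])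
  rw [h]; simp

theorem line_hasDerivAt (x y : V) (s : ℝ) :
    HasDerivAt (fun s : ℝ => G.mul x (s • y)) (G.dL x (s • y) y) s := by
  have h1 : HasDerivAt (fun s : ℝ => s • y) ((1 : ℝ) • y) s := (hasDerivAt_id s).smul_const y
  rw [one_smul] at h1
  exact (G.hasFDerivAt_left x (s • y)).comp_hasDerivAt s h1

theorem Λ_dL_line (x y : V) (s : ℝ) : G.Λ (G.mul x (s • y)) (G.dL x (s • y) y) = y := by
  have := DFunLike.congr_fun (G.Λ_comp_dL x (s • y)) y
  rw [Λ_smul_self] at this
  exact this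

theorem Adapted.exists_law_bound [FiniteDimensional ℝ V] (h : G.Adapted b w) {N : ℕ} (hN : G.Nilp N) (A : ℝ)
    (hA : 0 ≤ A) (m : ℕ) : ∃ C : ℝ, 0 ≤ C ∧ ∀ t : ℝ, 1 ≤ t → ∀ x y : V,
      (∀ m, BLe b w t A m x) → (∀ m, BLe b w t A m y) → ∀ s ∈ Icc (0 : ℝ) 1,
        BLe b w t C m (G.mul x (s • y)) ∧ BLe b w t C m (G.dL x (s • y) y) := by
  induction m with
  | zero =>
    refine ⟨0, le_rfl, fun t ht x y _ _ s hs => ⟨fun i hi => ?_, fun i hi => ?_⟩⟩ <;>
    · have := h.one_le i; omega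
  | succ m ih =>
    obtain ⟨C, hC, hCb⟩ := ih
    choose D hD hDb using fun k => h.exists_ad_pow_bound k C hC
    set C' : ℝ := A + ∑ k ∈ Finset.range N,
      |((-1 : ℝ) ^ (k + 1) / ((k + 2).factorial : ℝ))| * D k with hC'
    have hC'0 : 0 ≤ C' := add_nonneg hA (Finset.sum_nonneg fun k _ =>
      mul_nonneg (abs_nonneg _) (hD k))
    refine ⟨A + C', add_nonneg hA hC'0, fun t ht x y hx hy => ?_⟩
    have ht0 : 0 ≤ t := zero_le_one.trans ht
    have hder : ∀ s ∈ Icc (0 : ℝ) 1, BLe b w t C' (m + 1) (G.dL x (s • y) y) := by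
      intro s hs
      obtain ⟨h1, h2⟩ := hCb t ht x y hx hy s hs
      have h3 := Λ_dL_line (G := G) x y s
      rw [G.Λ_sub_eq _ _ N (hN.ad_pow _ _ (Nat.le_succ N))] at h3
      have h4 : G.dL x (s • y) y = y + -(∑ k ∈ Finset.range N,
          ((-1 : ℝ) ^ (k + 1) / ((k + 2).factorial : ℝ)) •
            ((G.ad (G.mul x (s • y))) ^ (k + 1)) (G.dL x (s • y) y)) := by
        rw [← sub_eq_add_neg, eq_sub_iff_add_eq]; exact h3
      rw [h4]
      refine (hy (m + 1)).add (BLe.neg (BLe.sum fun k _ => ?_))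
      exact (hDb k t ht m _ _ h1 h2).smul _
    intro s hs
    refine ⟨?_, (hder s hs).mono ht0 (by linarith) le_rfl⟩
    intro i hi
    set P : V →L[ℝ] ℝ := LinearMap.toContinuousLinearMap (b.coord i) with hP
    have hPa : ∀ v, P v = b.repr v i := fun v => rfl
    have h5 : ∀ s ∈ Icc (0 : ℝ) 1, HasDerivWithinAt (fun s : ℝ => P (G.mul x (s • y)))
        (P (G.dL x (s • y) y)) (Icc 0 1) s := by
      intro s _
      exact (P.hasFDerivAt.comp_hasDerivAt s (line_hasDerivAt (G := G) x y s)).hasDerivWithinAt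
    have h6 := (convex_Icc (0 : ℝ) 1).norm_image_sub_le_of_norm_hasDerivWithin_le
      (C := C' * t ^ (w i)) h5 (fun s hs => by
        rw [Real.norm_eq_abs, hPa]; exact hder s hs i hi) (left_mem_Icc.2 zero_le_one) hs
    rw [zero_smul, G.mul_zero, Real.norm_eq_abs, Real.norm_eq_abs, sub_zero, hPa, hPa] at h6
    have h7 : C' * t ^ (w i) * |s| ≤ C' * t ^ (w i) := by
      have : |s| ≤ 1 := by rw [abs_of_nonneg hs.1]; exact hs.2
      exact mul_le_of_le_one_right (mul_nonneg hC'0 (pow_nonneg ht0 _)) this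
    have h8 := hx (m + 1) i hi
    calc |b.repr (G.mul x (s • y)) i|
        = |(b.repr (G.mul x (s • y)) i - b.repr x i) + b.repr x i| := by rw [sub_add_cancel]
      _ ≤ _ := abs_add_le _ _
      _ ≤ C' * t ^ (w i) + A * t ^ (w i) := add_le_add (h6.trans h7) h8
      _ = (A + C') * t ^ (w i) := by ring

/-- The weighted box. -/
def Bx (b : Module.Basis (Fin n) ℝ V) (w : Fin n → ℕ) (t A : ℝ) (x : V) : Prop :=
  ∀ i, |b.repr x i| ≤ A * t ^ (w i)

theorem Bx.neg {t A : ℝ} {x : V} (h : Bx b w t A x) : Bx b w t A (-x) := by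
  intro i
  rw [map_neg, Finsupp.neg_apply, abs_neg]; exact h i

theorem Bx.mono {t A B : ℝ} {x : V} (h : Bx b w t A x) (ht : 0 ≤ t) (hAB : A ≤ B) :
    Bx b w t B x := fun i => (h i).trans (mul_le_mul_of_nonneg_right hAB (pow_nonneg ht _))

theorem Adapted.exists_box [FiniteDimensional ℝ V] (h : G.Adapted b w) {N : ℕ} (hN : G.Nilp N) (A : ℝ) (hA : 0 ≤ A) :
    ∃ C : ℝ, A ≤ C ∧ ∀ t : ℝ, 1 ≤ t → ∀ x y : V, Bx b w t A x → Bx b w t A y →
      Bx b w t C (G.mul x y) ∧ Bx b w t C (G.dL x 0 y) := by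
  obtain ⟨C, hC, hCb⟩ := h.exists_law_bound hN A hA (∑ i, w i)
  have hw : ∀ i, w i ≤ ∑ i, w i := fun i =>
    Finset.single_le_sum (f := w) (fun _ _ => Nat.zero_le _) (Finset.mem_univ i)
  refine ⟨A + C, by linarith, fun t ht x y hx hy => ?_⟩
  have ht0 : 0 ≤ t := zero_le_one.trans ht
  have h1 := (hCb t ht x y (fun m i _ => hx i) (fun m i _ => hy i) 1
    (right_mem_Icc.2 zero_le_one)).1
  have h2 := (hCb t ht x y (fun m i _ => hx i) (fun m i _ => hy i) 0
    (left_mem_Icc.2 zero_le_one)).2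
  rw [one_smul] at h1
  rw [zero_smul] at h2
  exact ⟨fun i => (h1.mono ht0 (by linarith) le_rfl) i (hw i),
    fun i => (h2.mono ht0 (by linarith) le_rfl) i (hw i)⟩

/-- coordinates of the left-invariant vector fields -/
theorem Adapted.exists_L_bound [FiniteDimensional ℝ V] (h : G.Adapted b w) {N : ℕ} (hN : G.Nilp N) (A : ℝ) :
    ∃ C : ℝ, 0 ≤ C ∧ ∀ t : ℝ, 1 ≤ t → ∀ x : V, Bx b w t A x → ∀ j i,
      |b.repr (G.dL x 0 (b j)) i| * t ^ (w j) ≤ C * t ^ (w i) := by
  obtain ⟨C, hC, hCb⟩ := h.exists_box hN (max A 1) (le_max_of_le_right zero_le_one)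
  have hC0 : 0 ≤ C := le_trans (le_max_of_le_right zero_le_one) hC
  refine ⟨C, hC0, fun t ht x hx j i => ?_⟩
  have ht0 : 0 ≤ t := zero_le_one.trans ht
  have h1 : Bx b w t (max A 1) (t ^ (w j) • b j) := by
    intro k
    rw [map_smul, Finsupp.smul_apply, Module.Basis.repr_self, Finsupp.single_apply, smul_eq_mul]
    by_cases hjk : j = k
    · subst hjk
      rw [if_pos rfl, mul_one, abs_of_nonneg (pow_nonneg ht0 _)]
      exact le_mul_of_one_le_left (pow_nonneg ht0 _) (le_max_right _ _)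
    · rw [if_neg hjk, MulZeroClass.mul_zero, abs_zero]
      positivity
  have h2 := (hCb t ht x _ (hx.mono ht0 (le_max_left _ _)) h1).2 i
  rw [map_smul, map_smul, Finsupp.smul_apply, smul_eq_mul, abs_mul,
    abs_of_nonneg (pow_nonneg ht0 _)] at h2
  rwa [mul_comm]

theorem Adapted.det_eq_one [FiniteDimensional ℝ V] (h : G.Adapted b w) (f : V →L[ℝ] V)
    (hf : ∀ i, f (b i) - b i ∈ G.F (w i + 1)) : LinearMap.det (f : V →ₗ[ℝ] V) = 1 := by
  classical
  rw [← LinearMap.det_toMatrix b]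
  set M := LinearMap.toMatrix b b (f : V →ₗ[ℝ] V) with hM
  have hM1 : ∀ k i, w k ≤ w i → M k i = if k = i then 1 else 0 := by
    intro k i hki
    have h1 := (h.mem_iff _ _).1 (hf i) k (by omega)
    rw [map_sub, Finsupp.sub_apply, sub_eq_zero] at h1
    rw [hM, LinearMap.toMatrix_apply]
    change b.repr (f (b i)) k = _
    rw [h1, Module.Basis.repr_self, Finsupp.single_apply]
    simp only [eq_comm]
  have hbt : M.BlockTriangular (fun i => OrderDual.toDual (w i)) := by
    intro k i hki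
    have hlt : w k < w i := hki
    rw [hM1 k i hlt.le, if_neg]
    rintro rfl; exact lt_irrefl _ hlt
  rw [hbt.det]
  refine Finset.prod_eq_one fun a _ => ?_
  have : M.toSquareBlock (fun i => OrderDual.toDual (w i)) a = 1 := by
    ext ⟨k, hk⟩ ⟨i, hi⟩
    simp only [Matrix.toSquareBlock_def, Matrix.of_apply, Matrix.one_apply, Subtype.mk.injEq]
    refine hM1 k i ?_
    have h1 : OrderDual.toDual (w k) = OrderDual.toDual (w i) := hk.trans hi.symm
    exact (OrderDual.toDual_inj.1 h1).le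
  rw [this, Matrix.det_one]

end ExpLaw

end Pool.Agent.Lib.P6a08f9
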