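import Pool.Agent.Lib.P6a08f9.Fill

/-!
Asymptotics of the signed volume of small straight simplices.
-/

open MeasureTheory Set Filter Topology

namespace Pool.Agent.Lib.P6a08f9

namespace ExpLaw

variable {V : Type*} [NormedAddCommGroup V] [NormedSpace ℝ V] (G : ExpLaw V) {k : ℕ}

theorem bar_zero (s : Fin (k + 1) → ℝ) (N : ℕ) : G.bar s (0 : Fin (k + 1) → V) N = 0 := by
  induction N with
  | zero => rfl
  | succ N ih =>
    rw [bar, ih, res]
    simp [G.mul_zero]

theorem bar_diff (s : Fin (k + 1) → ℝ) (a : Fin (k + 1) → V) (N : ℕ) :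
    ∃ v : V, HasDerivAt (fun ε : ℝ => G.bar s (ε • a) N) v 0 := by
  have h1 : ContDiff ℝ ((⊤ : ℕ∞) : WithTop ℕ∞) (fun ε : ℝ => G.bar s (ε • a) N) :=
    (G.bar_contDiff N).comp (contDiff_const.prodMk (contDiff_id.smul contDiff_const))
  exact ⟨_, (h1.differentiable (by simp) 0).hasDerivAt⟩

theorem bar_hasDerivAt {s : Fin (k + 1) → ℝ} (hs : ∑ j, s j = 1) (a : Fin (k + 1) → V) (N : ℕ) :
    HasDerivAt (fun ε : ℝ => G.bar s (ε • a) (N + 1)) (∑ j, s j • a j) 0 := by
  obtain ⟨v, hv⟩ := G.bar_diff s a N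
  have hz : G.bar s ((0 : ℝ) • a) N = 0 := by rw [zero_smul, G.bar_zero]
  have h1 : HasDerivAt (fun ε : ℝ => G.bar s (ε • a) N +
      ∑ j, s j • G.mul (-(G.bar s (ε • a) N)) ((ε • a) j)) (v + ∑ j, s j • (-v + a j)) 0 := by
    refine hv.add (HasDerivAt.fun_sum fun j _ => HasDerivAt.const_smul (s j) ?_)
    have h2 : HasDerivAt (fun ε : ℝ => (ε • a) j) (a j) 0 := by
      have := (hasDerivAt_id (0 : ℝ)).smul_const (a j)
      rw [one_smul] at this
      exact this
    refine G.hasDerivAt_mul_zero hv.neg h2 ?_ ?_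
    · rw [hz, neg_zero]
    · simp
  have h3 : HasDerivAt (fun ε : ℝ => G.bar s (ε • a) (N + 1)) (v + ∑ j, s j • (-v + a j)) 0 := h1
  have h4 : v + ∑ j, s j • (-v + a j) = ∑ j, s j • a j := by
    simp only [smul_add, smul_neg, Finset.sum_add_distrib, Finset.sum_neg_distrib,
      ← Finset.sum_smul, hs, one_smul]
    abel
  rwa [h4] at h3

end ExpLaw

variable {m : ℕ}

theorem volI_eq (σ : LipSimplex (m + 1) (m + 1)) :
    volI σ = ∫ s in cubeU (m + 1), detE (m + 1) (fun j => fderiv ℝ (sq σ) s (stdE (m + 1) j)) := by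
  rw [volI]
  refine setIntegral_eq_of_subset_of_ae_sdiff_eq_zero measurableSet_Icc.nullMeasurableSet ?_ ?_
  · intro s hs
    have := mem_cubeU.1 hs
    exact ⟨fun i => by linarith [(this i).1], fun i => by linarith [(this i).2]⟩
  · have hnull : volume (⋃ i : Fin (m + 1), ({s : Fin (m + 1) → ℝ | s i = 0} ∪
        {s : Fin (m + 1) → ℝ | s i = 1})) = 0 := by
      refine measure_iUnion_null fun i => measure_union_null ?_ ?_
      · exact Measure.pi_hyperplane (fun _ => (volume : Measure ℝ)) i 0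
      · exact Measure.pi_hyperplane (fun _ => (volume : Measure ℝ)) i 1
    have hae : ∀ᵐ s : Fin (m + 1) → ℝ, s ∉ (⋃ i : Fin (m + 1),
        ({s : Fin (m + 1) → ℝ | s i = 0} ∪ {s : Fin (m + 1) → ℝ | s i = 1})) :=
      measure_eq_zero_iff_ae_notMem.1 hnull
    filter_upwards [hae] with s hs hsB
    have hex : ∃ i, s i < 0 ∨ 1 < s i := by
      by_contra hcon
      push Not at hcon
      refine hsB.2 (mem_cubeU.2 fun i => ?_)
      simp only [Set.mem_iUnion, not_exists, Set.mem_union, Set.mem_ofPred_eq, not_or] at hs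
      exact ⟨lt_of_le_of_ne (hcon i).1 (Ne.symm (hs i).1), lt_of_le_of_ne (hcon i).2 (hs i).2⟩
    obtain ⟨i, hi⟩ := hex
    exact (detE (m + 1)).toMultilinearMap.map_coord_zero i (fderiv_sq_outside σ hi)

/-- Jacobian matrix of the cubical parametrisation of the simplex -/
noncomputable def Jm (k : ℕ) (s : Fin k → ℝ) : Matrix (Fin k) (Fin k) ℝ :=
  Matrix.of fun j i => fderiv ℝ (fun s : Fin k → ℝ => duffy s i.succ) s (stdE k j)

theorem Yp_update {k : ℕ} (s : Fin k → ℝ) (j i : Fin k) (h : j ≤ i) (τ : ℝ) :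
    Yp (s + τ • stdE k j) i.succ = Yp s i.succ := by
  rw [Yp, Yp]
  refine Finset.prod_congr rfl fun l _ => ?_
  split_ifs with hl
  · have hlj : l ≠ j := by
      rintro rfl
      have h1 : (i.succ : ℕ) ≤ (l.castSucc : ℕ) := hl
      have h2 : (l : ℕ) ≤ (i : ℕ) := h
      simp at h1; omega
    simp [stdE, Pi.single_eq_of_ne hlj]
  · rfl

theorem Jm_zero {k : ℕ} (s : Fin k → ℝ) (j i : Fin k) (h : j < i) : Jm k s j i = 0 := by
  rw [Jm, Matrix.of_apply]
  refine fderiv_eq_zero_of_indep _ _ _ (Filter.Eventually.of_forall fun τ => ?_)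
  rw [duffy_succ, duffy_succ, Yp_update s j i h.le]
  have : i ≠ j := h.ne'
  simp [stdE, Pi.single_eq_of_ne this]

theorem Jm_diag {k : ℕ} (s : Fin k → ℝ) (i : Fin k) : Jm k s i i = -Yp s i.succ := by
  rw [Jm, Matrix.of_apply]
  have hd : DifferentiableAt ℝ (fun s : Fin k → ℝ => duffy s i.succ) s :=
    ((contDiff_pi.1 duffy_contDiff i.succ).differentiable (by simp) s)
  have h1 : HasDerivAt (fun τ : ℝ => s + τ • stdE k i) ((1 : ℝ) • stdE k i) 0 :=
    ((hasDerivAt_id (0 : ℝ)).smul_const _).const_add s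
  rw [one_smul] at h1
  have h2 : HasFDerivAt (fun s : Fin k → ℝ => duffy s i.succ)
      (fderiv ℝ (fun s : Fin k → ℝ => duffy s i.succ) s) (s + (0 : ℝ) • stdE k i) := by
    rw [zero_smul, add_zero]; exact hd.hasFDerivAt
  have h3 := h2.comp_hasDerivAt (0 : ℝ) h1
  have h4 : ((fun s : Fin k → ℝ => duffy s i.succ) ∘ fun τ : ℝ => s + τ • stdE k i) =
      fun τ : ℝ => (1 - (s i + τ)) * Yp s i.succ := by
    funext τ
    rw [Function.comp_apply, duffy_succ, Yp_update s i i le_rfl]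
    simp [stdE]
  rw [h4] at h3
  have h5 : HasDerivAt (fun τ : ℝ => (1 - (s i + τ)) * Yp s i.succ) (-1 * Yp s i.succ) 0 := by
    refine HasDerivAt.mul_const ?_ _
    exact ((hasDerivAt_id (0 : ℝ)).const_add (s i)).const_sub 1
  have h6 := h3.unique h5
  rw [h6]; ring

theorem Jm_det {k : ℕ} (s : Fin k → ℝ) : (Jm k s).det = (-1) ^ k * ∏ i : Fin k, Yp s i.succ := by
  rw [Matrix.det_of_isLowerTriangular]
  · simp only [Jm_diag]
    rw [Finset.prod_neg]
    simp
  · intro j i hij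
    exact Jm_zero s j i hij

theorem Jm_sum {k : ℕ} (s : Fin k → ℝ) (j : Fin k) :
    ∑ i : Fin (k + 1), fderiv ℝ (fun s : Fin k → ℝ => duffy s i) s (stdE k j) = 0 := by
  have hd : ∀ i, DifferentiableAt ℝ (fun s : Fin k → ℝ => duffy s i) s := fun i =>
    ((contDiff_pi.1 duffy_contDiff i).differentiable (by simp) s)
  have h1 : HasFDerivAt (fun s : Fin k → ℝ => ∑ i, duffy s i)
      (∑ i : Fin (k + 1), fderiv ℝ (fun s : Fin k → ℝ => duffy s i) s) s :=
    HasFDerivAt.fun_sum fun i _ => (hd i).hasFDerivAt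
  have h2 : (fun s : Fin k → ℝ => ∑ i, duffy s i) = fun _ => 1 := by
    funext s; exact sum_ordParam _
  rw [h2] at h1
  have h3 := h1.unique (hasFDerivAt_const _ _)
  have h4 := DFunLike.congr_fun h3 (stdE k j)
  simpa using h4

theorem detE_Jm (s : Fin m → ℝ) (a : Fin (m + 1) → E m) :
    detE m (fun j => ∑ i : Fin (m + 1),
      fderiv ℝ (fun s : Fin m → ℝ => duffy s i) s (stdE m j) • a i) =
      (Jm m s).det * detE m (fun i => a i.succ - a 0) := by
  have h1 : ∀ j, ∑ i : Fin (m + 1),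
      fderiv ℝ (fun s : Fin m → ℝ => duffy s i) s (stdE m j) • a i =
      ∑ i : Fin m, Jm m s j i • (a i.succ - a 0) := by
    intro j
    have h2 := Jm_sum s j
    rw [Fin.sum_univ_succ] at h2
    rw [Fin.sum_univ_succ]
    simp only [smul_sub, Finset.sum_sub_distrib, ← Finset.sum_smul]
    have h3 : ∑ i : Fin m, Jm m s j i =
        -fderiv ℝ (fun s : Fin m → ℝ => duffy s 0) s (stdE m j) := by
      rw [eq_neg_iff_add_eq_zero, add_comm]; exact h2
    rw [h3, neg_smul, sub_neg_eq_add, add_comm]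
    rfl
  simp only [h1]
  rw [detE_apply, detE_apply, ← Matrix.det_mul]
  congr 1
  ext j l
  simp [Matrix.mul_apply]

section smooth

variable {n : ℕ} (G : ExpLieGroup n) (N : ℕ) {k : ℕ}

/-- the straight simplex in cube coordinates, with its vertices as parameters -/
noncomputable def Φs (p : (Fin k → ℝ) × (Fin (k + 1) → E n)) : E n :=
  G.law.bar (duffy p.1) p.2 (N + 1)

theorem Φs_contDiff : ContDiff ℝ ((⊤ : ℕ∞) : WithTop ℕ∞) (Φs G N (k := k)) :=
  (G.law.bar_contDiff (N + 1)).comp ((duffy_contDiff.comp contDiff_fst).prodMk contDiff_snd)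

theorem Φs_zero (s : Fin k → ℝ) : Φs G N (s, 0) = 0 := G.law.bar_zero _ _

theorem Φs_hasFDerivAt (p : (Fin k → ℝ) × (Fin (k + 1) → E n)) :
    HasFDerivAt (Φs G N) (fderiv ℝ (Φs G N) p) p :=
  ((Φs_contDiff G N).differentiable (by simp) p).hasFDerivAt

theorem Φs_vert (s : Fin k → ℝ) (a : Fin (k + 1) → E n) :
    fderiv ℝ (Φs G N) (s, 0) (0, a) = ∑ i, duffy s i • a i := by
  have h1 : HasDerivAt (fun ε : ℝ => (s, ε • a)) ((0 : Fin k → ℝ), a) 0 := by
    have h2 : HasDerivAt (fun ε : ℝ => ε • a) ((1 : ℝ) • a) 0 :=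
      (hasDerivAt_id (0 : ℝ)).smul_const a
    rw [one_smul] at h2
    exact (hasDerivAt_const (0 : ℝ) s).prodMk h2
  have h3 : HasFDerivAt (Φs G N) (fderiv ℝ (Φs G N) (s, 0)) (s, (0 : ℝ) • a) := by
    rw [zero_smul]; exact Φs_hasFDerivAt G N _
  have h4 := h3.comp_hasDerivAt (0 : ℝ) h1
  have e : (Φs G N ∘ fun ε : ℝ => (s, ε • a)) =
    fun ε : ℝ => G.law.bar (duffy s) (ε • a) (N + 1) := rfl
  rw [e] at h4
  have h5 : HasDerivAt (fun ε : ℝ => G.law.bar (duffy s) (ε • a) (N + 1))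
      (∑ i, duffy s i • a i) 0 := G.law.bar_hasDerivAt (sum_ordParam _) a N
  exact h4.unique h5

theorem Φs_hor (s v : Fin k → ℝ) (a : Fin (k + 1) → E n) :
    fderiv ℝ (fun s => Φs G N (s, a)) s v = fderiv ℝ (Φs G N) (s, a) (v, 0) := by
  have h1 : HasFDerivAt (fun s : Fin k → ℝ => (s, a))
      (ContinuousLinearMap.inl ℝ (Fin k → ℝ) (Fin (k + 1) → E n)) s :=
    (hasFDerivAt_id (𝕜 := ℝ) s).prodMk (hasFDerivAt_const (𝕜 := ℝ) a s)
  have h2 := (Φs_hasFDerivAt G N (s, a)).comp s h1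
  have h3 : HasFDerivAt (fun s => Φs G N (s, a)) _ s := h2
  rw [h3.fderiv]; rfl

theorem Φs_snd_contDiff : ContDiff ℝ ((⊤ : ℕ∞) : WithTop ℕ∞) (fderiv ℝ (Φs G N (k := k))) :=
  (Φs_contDiff G N).fderiv_right (by simp)

theorem Φs_snd_hasFDerivAt (p : (Fin k → ℝ) × (Fin (k + 1) → E n)) :
    HasFDerivAt (fderiv ℝ (Φs G N)) (fderiv ℝ (fderiv ℝ (Φs G N)) p) p :=
  ((Φs_snd_contDiff G N).differentiable (by simp) p).hasFDerivAt

/-- the first order part -/
noncomputable def lvec (s : Fin k → ℝ) (a : Fin (k + 1) → E n) (v : Fin k → ℝ) : E n :=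
  ∑ i : Fin (k + 1), fderiv ℝ (fun s : Fin k → ℝ => duffy s i) s v • a i

theorem Φs_mixed (s v : Fin k → ℝ) (a : Fin (k + 1) → E n) :
    fderiv ℝ (fderiv ℝ (Φs G N)) (s, 0) (0, a) (v, 0) = lvec s a v := by
  have hsym : IsSymmSndFDerivAt ℝ (Φs G N (k := k)) (s, 0) :=
    ((Φs_contDiff G N).contDiffAt).isSymmSndFDerivAt (by
      rw [minSmoothness_of_isRCLikeNormedField]
      change (((2 : ℕ∞)) : WithTop ℕ∞) ≤ _
      exact WithTop.coe_le_coe.2 le_top)
  rw [hsym]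
  have h1 : HasFDerivAt (fun s : Fin k → ℝ => (s, (0 : Fin (k + 1) → E n)))
      (ContinuousLinearMap.inl ℝ (Fin k → ℝ) (Fin (k + 1) → E n)) s :=
    (hasFDerivAt_id (𝕜 := ℝ) s).prodMk (hasFDerivAt_const (𝕜 := ℝ) _ s)
  have h2 := (Φs_snd_hasFDerivAt G N (s, 0)).comp s h1
  have h3 := h2.clm_apply (hasFDerivAt_const ((0 : Fin k → ℝ), a) s)
  have h4 : (fun y : Fin k → ℝ => ((fderiv ℝ (Φs G N) ∘ fun s : Fin k → ℝ =>
      (s, (0 : Fin (k + 1) → E n))) y) ((0 : Fin k → ℝ), a)) =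
      fun s => ∑ i, duffy s i • a i := by
    funext s'
    exact Φs_vert G N s' a
  rw [h4] at h3
  have h5 : HasFDerivAt (fun s : Fin k → ℝ => ∑ i, duffy s i • a i)
      (∑ i, (fderiv ℝ (fun s : Fin k → ℝ => duffy s i) s).smulRight (a i)) s := by
    refine HasFDerivAt.fun_sum fun i _ => ?_
    exact (((contDiff_pi.1 duffy_contDiff i).differentiable (by simp) s).hasFDerivAt).smul_const
      (a i)
  have h6 := DFunLike.congr_fun (h3.unique h5) v
  simp only [_root_.sum_apply, ContinuousLinearMap.smulRight_apply] at h6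
  rw [lvec, ← h6]
  simp

theorem unif_close {X A B : Type*} [PseudoMetricSpace X] [NormedAddCommGroup A] [NormedSpace ℝ A]
    [NormedAddCommGroup B] [NormedSpace ℝ B] {K : Set X}
    (hK : IsCompact K) {H : X → A →L[ℝ] A →L[ℝ] B} (hH : Continuous H) {η : ℝ} (hη : 0 < η) :
    ∃ δ : ℝ, 0 < δ ∧ ∀ x ∈ K, ∀ y ∈ K, dist x y < δ → ‖H x - H y‖ < η := by
  have huc : @UniformContinuousOn X (A →L[ℝ] A →L[ℝ] B) _ PseudoMetricSpace.toUniformSpace H K :=
    hK.uniformContinuousOn_of_continuous hH.continuousOn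
  obtain ⟨δ, hδ, h⟩ := Metric.uniformContinuousOn_iff.1 huc η hη
  refine ⟨δ, hδ, fun x hx y hy hxy => ?_⟩
  calc ‖H x - H y‖ = dist (H x) (H y) := (dist_eq_norm (H x) (H y)).symm
    _ < η := h x hx y hy hxy

theorem Φs_close {η : ℝ} (hη : 0 < η) : ∃ r0 : ℝ, 0 < r0 ∧ ∀ s ∈ Icc (fun _ : Fin k => (0 : ℝ))
    (fun _ => 1), ∀ a : Fin (k + 1) → E n, ‖a‖ ≤ r0 → ∀ j,
    ‖fderiv ℝ (fun s => Φs G N (s, a)) s (stdE k j) - lvec s a (stdE k j)‖ ≤ η * ‖a‖ := by
  set H := fderiv ℝ (fderiv ℝ (Φs G N (k := k))) with hH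
  have hHc : Continuous H := (Φs_snd_contDiff G N).continuous_fderiv (by simp)
  have hK : IsCompact ((Icc (fun _ : Fin k => (0 : ℝ)) (fun _ => 1)) ×ˢ
      (Metric.closedBall (0 : Fin (k + 1) → E n) 1)) := isCompact_Icc.prod (isCompact_closedBall _ _)
  obtain ⟨δ, hδ, hδ'⟩ := unif_close hK hHc hη
  refine ⟨min (δ / 2) 1, lt_min (half_pos hδ) one_pos, fun s hs a ha j => ?_⟩
  set r0 := min (δ / 2) 1 with hr0
  set f : (Fin (k + 1) → E n) → E n := fun a => fderiv ℝ (Φs G N) (s, a) (stdE k j, 0) with hf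
  set f' : (Fin (k + 1) → E n) → (Fin (k + 1) → E n) →L[ℝ] E n := fun a =>
    ((H (s, a)).comp (ContinuousLinearMap.inr ℝ (Fin k → ℝ) (Fin (k + 1) → E n))).flip
      (stdE k j, 0) with hf'
  have hfd : ∀ a, HasFDerivAt f (f' a) a := by
    intro a
    have h1 : HasFDerivAt (fun a : Fin (k + 1) → E n => (s, a))
        (ContinuousLinearMap.inr ℝ (Fin k → ℝ) (Fin (k + 1) → E n)) a :=
      (hasFDerivAt_const (𝕜 := ℝ) s a).prodMk (hasFDerivAt_id (𝕜 := ℝ) a)
    have h2 := (Φs_snd_hasFDerivAt G N (s, a)).comp a h1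
    have h3 := h2.clm_apply (hasFDerivAt_const (stdE k j, (0 : Fin (k + 1) → E n)) a)
    refine h3.congr_fderiv ?_
    ext v
    simp [hf', hH]
  have hbound : ∀ a' ∈ Metric.closedBall (0 : Fin (k + 1) → E n) r0, ‖f' a' - f' 0‖ ≤ η := by
    intro a' ha'
    rw [mem_closedBall_zero_iff] at ha'
    have h1 := hδ' (s, a') ⟨hs, by
      rw [mem_closedBall_zero_iff]; exact ha'.trans (min_le_right _ _)⟩ (s, 0) ⟨hs, by simp⟩ (by
      rw [Prod.dist_eq, dist_self, max_eq_right dist_nonneg, dist_zero_right]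
      calc ‖a'‖ ≤ δ / 2 := ha'.trans (min_le_left _ _)
        _ < δ := half_lt_self hδ)
    refine ContinuousLinearMap.opNorm_le_bound _ hη.le fun v => ?_
    have h2 : (f' a' - f' 0) v = (H (s, a') - H (s, 0)) (0, v) (stdE k j, 0) := by
      simp [hf']
    rw [h2]
    have h3 : ‖((0 : Fin k → ℝ), v)‖ = ‖v‖ := by
      rw [Prod.norm_def]; simp
    have h4 : ‖(stdE k j, (0 : Fin (k + 1) → E n))‖ ≤ 1 := by
      rw [Prod.norm_def]
      simp [norm_stdE]
    calc ‖(H (s, a') - H (s, 0)) (0, v) (stdE k j, 0)‖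
        ≤ ‖(H (s, a') - H (s, 0)) (0, v)‖ * ‖(stdE k j, (0 : Fin (k + 1) → E n))‖ :=
          ContinuousLinearMap.le_opNorm _ _
      _ ≤ ‖(H (s, a') - H (s, 0)) (0, v)‖ * 1 :=
          mul_le_mul_of_nonneg_left h4 (norm_nonneg _)
      _ ≤ (‖H (s, a') - H (s, 0)‖ * ‖((0 : Fin k → ℝ), v)‖) * 1 :=
          mul_le_mul_of_nonneg_right (ContinuousLinearMap.le_opNorm _ _) zero_le_one
      _ ≤ η * ‖v‖ := by
          rw [mul_one, h3]
          exact mul_le_mul_of_nonneg_right h1.le (norm_nonneg _)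
  have hr00 : 0 ≤ r0 := le_min (half_pos hδ).le zero_le_one
  have h5 := (convex_closedBall (0 : Fin (k + 1) → E n) r0).norm_image_sub_le_of_norm_hasFDerivWithin_le'
    (f := f) (f' := f') (φ := f' 0) (C := η) (fun x _ => (hfd x).hasFDerivWithinAt) hbound
    (Metric.mem_closedBall_self hr00) (mem_closedBall_zero_iff.2 ha)
  have h6 : f 0 = 0 := by
    have h7 := Φs_hor G N s (stdE k j) 0
    simp only [hf]
    rw [← h7]
    have h8 : (fun s : Fin k → ℝ => Φs G N (s, 0)) = fun _ => 0 := by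
      funext s; exact Φs_zero G N s
    rw [h8]; simp
  have h7 : f' 0 (a - 0) = lvec s a (stdE k j) := by
    rw [sub_zero, ← Φs_mixed G N s (stdE k j) a]
    simp [hf', hH]
  rw [h6, h7, sub_zero, sub_zero] at h5
  rw [Φs_hor]
  exact h5

end smooth

theorem det_close {n : ℕ} (C : ℝ) {ε : ℝ} (hε : 0 < ε) : ∃ η : ℝ, 0 < η ∧ η ≤ 1 ∧
    ∀ u v : Fin n → E n, ‖v‖ ≤ C → ‖u - v‖ ≤ η → |detE n u - detE n v| ≤ ε := by
  have hc : Continuous (fun u : Fin n → E n => detE n u) := (detE n).cont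
  have hK : IsCompact (Metric.closedBall (0 : Fin n → E n) (C + 1)) := isCompact_closedBall _ _
  have huc := hK.uniformContinuousOn_of_continuous hc.continuousOn
  rw [Metric.uniformContinuousOn_iff] at huc
  obtain ⟨δ, hδ, hδ'⟩ := huc ε hε
  refine ⟨min (δ / 2) 1, lt_min (half_pos hδ) one_pos, min_le_right _ _, fun u v hv huv => ?_⟩
  have h1 : ‖u‖ ≤ C + 1 := by
    calc ‖u‖ = ‖v + (u - v)‖ := by rw [add_sub_cancel]
      _ ≤ ‖v‖ + ‖u - v‖ := norm_add_le _ _
      _ ≤ C + 1 := add_le_add hv (huv.trans (min_le_right _ _))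
  have h2 := hδ' u (mem_closedBall_zero_iff.2 h1) v (mem_closedBall_zero_iff.2 (by linarith)) (by
    rw [dist_eq_norm]
    calc ‖u - v‖ ≤ δ / 2 := huv.trans (min_le_left _ _)
      _ < δ := half_lt_self hδ)
  rw [Real.dist_eq] at h2
  exact h2.le

theorem det_close_scaled {n : ℕ} (C : ℝ) {ε : ℝ} (hε : 0 < ε) : ∃ η : ℝ, 0 < η ∧
    ∀ r : ℝ, 0 < r → ∀ u v : Fin n → E n, (∀ j, ‖v j‖ ≤ C * r) → (∀ j, ‖u j - v j‖ ≤ η * r) →
      |detE n u - detE n v| ≤ ε * r ^ n := by
  obtain ⟨η, hη, hη1, h⟩ := det_close (n := n) (max C 0) hε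
  refine ⟨η, hη, fun r hr u v hv huv => ?_⟩
  have hsc : ∀ u : Fin n → E n, detE n u = r ^ n * detE n (fun j => r⁻¹ • u j) := by
    intro u
    have h1 := (detE n).toMultilinearMap.map_smul_univ (fun _ => r) (fun j => r⁻¹ • u j)
    simp only [smul_smul, mul_inv_cancel₀ hr.ne', one_smul, Finset.prod_const, Finset.card_univ,
      Fintype.card_fin, smul_eq_mul] at h1
    exact h1
  rw [hsc u, hsc v, ← mul_sub, abs_mul, abs_of_pos (pow_pos hr n), mul_comm]
  refine mul_le_mul_of_nonneg_right ?_ (pow_pos hr n).le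
  refine h _ _ ?_ ?_
  · refine (pi_norm_le_iff_of_nonneg (le_max_right _ _)).2 fun j => ?_
    rw [norm_smul, norm_inv, Real.norm_eq_abs, abs_of_pos hr, inv_mul_le_iff₀ hr, mul_comm r]
    exact (hv j).trans (mul_le_mul_of_nonneg_right (le_max_left _ _) hr.le)
  · refine (pi_norm_le_iff_of_nonneg hη.le).2 fun j => ?_
    rw [Pi.sub_apply, ← smul_sub, norm_smul, norm_inv, Real.norm_eq_abs, abs_of_pos hr,
      inv_mul_le_iff₀ hr, mul_comm r]
    exact huv j

theorem lvec_bound (n k : ℕ) : ∃ C : ℝ, 0 ≤ C ∧ ∀ s ∈ Icc (fun _ : Fin k => (0 : ℝ)) (fun _ => 1),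
    ∀ a : Fin (k + 1) → E n, ∀ j, ‖lvec s a (stdE k j)‖ ≤ C * ‖a‖ := by
  have hc : Continuous (fun s : Fin k → ℝ => ∑ j : Fin k, ∑ i : Fin (k + 1),
      |fderiv ℝ (fun s : Fin k → ℝ => duffy s i) s (stdE k j)|) := by
    refine continuous_finsetSum _ fun j _ => continuous_finsetSum _ fun i _ => ?_
    exact (((contDiff_pi.1 duffy_contDiff i).continuous_fderiv (by simp)).clm_apply
      continuous_const).abs
  obtain ⟨C, hC⟩ := (isCompact_Icc (a := fun _ : Fin k => (0 : ℝ))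
    (b := fun _ => 1)).exists_bound_of_continuousOn hc.continuousOn
  refine ⟨max C 0, le_max_right _ _, fun s hs a j => ?_⟩
  have h1 := hC s hs
  rw [Real.norm_eq_abs] at h1
  have h2 : ∑ i : Fin (k + 1), |fderiv ℝ (fun s : Fin k → ℝ => duffy s i) s (stdE k j)| ≤ C := by
    refine le_trans ?_ ((le_abs_self _).trans h1)
    exact Finset.single_le_sum (f := fun j => ∑ i : Fin (k + 1),
      |fderiv ℝ (fun s : Fin k → ℝ => duffy s i) s (stdE k j)|)
      (fun j _ => Finset.sum_nonneg fun i _ => abs_nonneg _) (Finset.mem_univ j)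
  rw [lvec]
  calc ‖∑ i : Fin (k + 1), fderiv ℝ (fun s : Fin k → ℝ => duffy s i) s (stdE k j) • a i‖
      ≤ ∑ i : Fin (k + 1), |fderiv ℝ (fun s : Fin k → ℝ => duffy s i) s (stdE k j)| * ‖a‖ := by
        refine norm_sum_le_of_le _ fun i _ => ?_
        rw [norm_smul, Real.norm_eq_abs]
        exact mul_le_mul_of_nonneg_left (norm_le_pi_norm a i) (abs_nonneg _)
    _ = (∑ i : Fin (k + 1), |fderiv ℝ (fun s : Fin k → ℝ => duffy s i) s (stdE k j)|) * ‖a‖ := by
        rw [Finset.sum_mul]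
    _ ≤ max C 0 * ‖a‖ :=
        mul_le_mul_of_nonneg_right (h2.trans (le_max_left _ _)) (norm_nonneg _)

theorem v0_ne_zero (k : ℕ) : ∫ s in cubeU k, (Jm k s).det ≠ 0 := by
  simp only [Jm_det]
  rw [integral_const_mul]
  refine mul_ne_zero (pow_ne_zero _ (by norm_num)) ?_
  refine ne_of_gt ?_
  have hcont : Continuous (fun s : Fin k → ℝ => ∏ i : Fin k, Yp s i.succ) :=
    continuous_finsetProd _ fun i _ => (Yp_contDiff i.succ).continuous
  have hsub : cubeU k ⊆ Icc (fun _ : Fin k => (0 : ℝ)) (fun _ => 1) := by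
    intro s hs
    have := mem_cubeU.1 hs
    exact ⟨fun i => (this i).1.le, fun i => (this i).2.le⟩
  have hint : IntegrableOn (fun s : Fin k → ℝ => ∏ i : Fin k, Yp s i.succ) (cubeU k) :=
    (hcont.continuousOn.integrableOn_compact isCompact_Icc).mono_set hsub
  have hpos : ∀ s ∈ cubeU k, 0 < ∏ i : Fin k, Yp s i.succ := fun s hs =>
    Finset.prod_pos fun i _ => Yp_pos (fun j => (mem_cubeU.1 hs j).1) _
  rw [setIntegral_pos_iff_support_of_nonneg_ae]
  · have h1 : cubeU k ⊆ Function.support (fun s : Fin k → ℝ => ∏ i : Fin k, Yp s i.succ) ∩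
        cubeU k := fun s hs => ⟨(hpos s hs).ne', hs⟩
    refine lt_of_lt_of_le ?_ (measure_mono h1)
    refine isOpen_cubeU.measure_pos volume ⟨fun _ => 1 / 2, mem_cubeU.2 fun i => ?_⟩
    norm_num
  · rw [Filter.EventuallyLE, ae_restrict_iff' isOpen_cubeU.measurableSet]
    exact Filter.Eventually.of_forall fun s hs => (hpos s hs).le
  · exact hint

/-- Asymptotics of the signed volume of small straight simplices. -/
theorem asym (G : ExpLieGroup (m + 1)) (N : ℕ) : ∃ v0 : ℝ, v0 ≠ 0 ∧ ∀ ε : ℝ, 0 < ε →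
    ∃ r0 : ℝ, 0 < r0 ∧ ∀ r : ℝ, 0 < r → r ≤ r0 → ∀ a : Fin (m + 2) → E (m + 1),
      (∀ i, ‖a i‖ ≤ r) →
      |volI (straight G (N + 1) a) - v0 * detE (m + 1) (fun i => a i.succ - a 0)| ≤
        ε * r ^ (m + 1) := by
  refine ⟨_, v0_ne_zero (m + 1), fun ε hε => ?_⟩
  obtain ⟨C, hC, hCb⟩ := lvec_bound (m + 1) (m + 1)
  obtain ⟨η, hη, hdet⟩ := det_close_scaled (n := m + 1) C hε
  obtain ⟨r0, hr0, hclose⟩ := Φs_close G N (k := m + 1) hη
  refine ⟨r0, hr0, fun r hr hrr a ha => ?_⟩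
  have hna : ‖a‖ ≤ r := (pi_norm_le_iff_of_nonneg hr.le).2 ha
  have hsub : cubeU (m + 1) ⊆ Icc (fun _ : Fin (m + 1) => (0 : ℝ)) (fun _ => 1) := by
    intro s hs
    have := mem_cubeU.1 hs
    exact ⟨fun i => (this i).1.le, fun i => (this i).2.le⟩
  have hvol : volume (cubeU (m + 1)) ≤ 1 := by
    refine (measure_mono hsub).trans ?_
    rw [Real.volume_Icc_pi]; simp
  have hvol' : volume (cubeU (m + 1)) < ⊤ := hvol.trans_lt ENNReal.one_lt_top
  set f : (Fin (m + 1) → ℝ) → ℝ := fun s => detE (m + 1)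
    (fun j => fderiv ℝ (fun s => Φs G N (s, a)) s (stdE (m + 1) j)) with hf
  have hfc : Continuous f := by
    refine (detE (m + 1)).cont.comp (continuous_pi fun j => ?_)
    have h1 : ContDiff ℝ ((⊤ : ℕ∞) : WithTop ℕ∞) (fun s => Φs G N (s, a)) :=
      (Φs_contDiff G N).comp (contDiff_id.prodMk contDiff_const)
    exact (h1.continuous_fderiv (by simp)).clm_apply continuous_const
  have h1 : volI (straight G (N + 1) a) = ∫ s in cubeU (m + 1), f s := by
    rw [volI_eq]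
    refine setIntegral_congr_fun isOpen_cubeU.measurableSet fun s hs => ?_
    have h2 : sq (straight G (N + 1) a) =ᶠ[𝓝 s] fun s => Φs G N (s, a) := by
      filter_upwards [isOpen_cubeU.mem_nhds hs] with s' hs'
      have h3 : clampV s' = s' := by
        funext i
        exact cl_of_mem (mem_cubeU.1 hs' i).1.le (mem_cubeU.1 hs' i).2.le
      change G.law.bar (duffy (clampV s')) a (N + 1) = _
      rw [h3]; rfl
    simp only [hf]
    rw [h2.fderiv_eq]
  have hJc : Continuous (fun s : Fin (m + 1) → ℝ => (Jm (m + 1) s).det) := by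
    refine Continuous.matrix_det (continuous_matrix fun j i => ?_)
    simp only [Jm, Matrix.of_apply]
    exact ((contDiff_pi.1 duffy_contDiff i.succ).continuous_fderiv (by simp)).clm_apply
      continuous_const
  have hfi : IntegrableOn f (cubeU (m + 1)) :=
    (hfc.continuousOn.integrableOn_compact isCompact_Icc).mono_set hsub
  have hJi : IntegrableOn (fun s : Fin (m + 1) → ℝ => (Jm (m + 1) s).det) (cubeU (m + 1)) :=
    (hJc.continuousOn.integrableOn_compact isCompact_Icc).mono_set hsub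
  set dd := detE (m + 1) (fun i => a i.succ - a 0) with hdd
  rw [h1, ← integral_mul_const, ← integral_sub hfi (hJi.mul_const dd)]
  have h2 : ∀ s ∈ cubeU (m + 1), ‖f s - (Jm (m + 1) s).det * dd‖ ≤ ε * r ^ (m + 1) := by
    intro s hs
    rw [hdd, ← detE_Jm, Real.norm_eq_abs]
    refine hdet r hr _ _ (fun j => ?_) (fun j => ?_)
    · exact (hCb s (hsub hs) a j).trans (mul_le_mul_of_nonneg_left hna hC)
    · exact (hclose s (hsub hs) a (hna.trans hrr) j).trans
        (mul_le_mul_of_nonneg_left hna hη.le)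
  have h3 := norm_setIntegral_le_of_norm_le_const hvol' h2
  rw [Real.norm_eq_abs] at h3
  refine h3.trans ?_
  have h4 : volume.real (cubeU (m + 1)) ≤ 1 := by
    rw [Measure.real]
    exact ENNReal.toReal_mono ENNReal.one_ne_top hvol |>.trans (by simp)
  exact mul_le_of_le_one_right (by positivity) h4

end Pool.Agent.Lib.P6a08f9
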