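import Pool.Agent.Lib.P6a08f9.Straight

/-!
Points of a weighted box of scale `t` are joined to the identity by 1-chains of mass `≤ C t`.
-/

open MeasureTheory Set Filter Topology
open scoped ENNReal

namespace Pool.Agent.Lib.P6a08f9

variable {n : ℕ}

theorem ordInterior_sub {k : ℕ} : ordInterior k ⊆ Icc (fun _ => (0 : ℝ)) (fun _ => 1) := by
  rw [← Yc_image]
  rintro _ ⟨s, hs, rfl⟩
  have hs' := mem_cubeU.1 hs
  constructor
  · intro i; exact Yp_nonneg (fun j => (hs' j).1.le) _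
  · intro i
    change (∏ l : Fin k, if i.castSucc ≤ l.castSucc then s l else 1) ≤ (1 : ℝ)
    refine Finset.prod_le_one (fun l _ => ?_) (fun l _ => ?_)
    · split_ifs
      · exact (hs' l).1.le
      · exact zero_le_one
    · split_ifs
      · exact (hs' l).2.le
      · exact le_rfl

theorem volume_ordInterior {k : ℕ} : volume (ordInterior k) ≤ 1 := by
  refine (measure_mono ordInterior_sub).trans ?_
  rw [Real.volume_Icc_pi]
  simp

theorem simplexVol_le_of_bound (G : ExpLieGroup n) {k : ℕ} (σ : LipSimplex n k) (C : ℝ)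
    (h : ∀ y ∈ ordInterior k, Real.sqrt (gram G σ y).det ≤ C) :
    simplexVol G σ ≤ ENNReal.ofReal C := by
  rw [simplexVol]
  calc ∫⁻ y in ordInterior k, ENNReal.ofReal (Real.sqrt (gram G σ y).det)
      ≤ ∫⁻ y in ordInterior k, ENNReal.ofReal C :=
        setLIntegral_mono' isOpen_ordInterior.measurableSet
          fun y hy => ENNReal.ofReal_le_ofReal (h y hy)
    _ = ENNReal.ofReal C * volume (ordInterior k) := by
        rw [lintegral_const, Measure.restrict_apply_univ]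
    _ ≤ ENNReal.ofReal C * 1 := mul_le_mul_right volume_ordInterior _
    _ = ENNReal.ofReal C := mul_one _

section path

variable (G : ExpLieGroup n) (N : ℕ)

/-- points as `0`-simplices -/
noncomputable def pt (x : E n) : LipSimplex n 0 := straight G N (fun _ : Fin 1 => x)

/-- `y` is joined to the identity by a 1-chain of mass at most `ℓ` -/
def Nle (y : E n) (ℓ : ℝ) : Prop :=
  ∃ a : LipChain n 1, boundary 0 a = Finsupp.single (pt G N y) 1 - Finsupp.single (pt G N 0) 1 ∧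
    mass G a ≤ ENNReal.ofReal ℓ

variable {G N}

theorem Nle.mono {y : E n} {ℓ ℓ' : ℝ} (h : Nle G N y ℓ) (hl : ℓ ≤ ℓ') : Nle G N y ℓ' := by
  obtain ⟨a, h1, h2⟩ := h
  exact ⟨a, h1, h2.trans (ENNReal.ofReal_le_ofReal hl)⟩

theorem Nle_zero {ℓ : ℝ} : Nle G N 0 ℓ :=
  ⟨0, by simp, by rw [mass_zero]; exact bot_le⟩

theorem pt_trans (hN : G.law.Nilp N) (h x : E n) : (pt G N x).trans G h = pt G N (G.mul h x) :=
  (straight_trans G hN h _).symm

theorem Nle.mul (hN : G.law.Nilp N) {y z : E n} {ℓ ℓ' : ℝ} (hl : 0 ≤ ℓ) (hl' : 0 ≤ ℓ')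
    (hy : Nle G N y ℓ) (hz : Nle G N z ℓ') : Nle G N (G.mul y z) (ℓ + ℓ') := by
  obtain ⟨a, ha1, ha2⟩ := hy
  obtain ⟨b, hb1, hb2⟩ := hz
  refine ⟨a + ctrans G y 1 b, ?_, ?_⟩
  · rw [map_add, boundary_ctrans, hb1, ha1, map_sub, ctrans_single, ctrans_single,
      pt_trans hN, pt_trans hN]
    have : G.mul y 0 = y := G.mul_zero y
    rw [this]
    abel
  · rw [ENNReal.ofReal_add hl hl']
    exact (mass_add_le G _ _).trans (add_le_add ha2 ((mass_ctrans_le G y b).trans hb2))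

theorem Nle.neg (hN : G.law.Nilp N) {y : E n} {ℓ : ℝ} (hy : Nle G N y ℓ) : Nle G N (-y) ℓ := by
  obtain ⟨a, ha1, ha2⟩ := hy
  refine ⟨-ctrans G (-y) 1 a, ?_, ?_⟩
  · rw [map_neg, boundary_ctrans, ha1, map_sub, ctrans_single, ctrans_single,
      pt_trans hN, pt_trans hN]
    have h1 : G.mul (-y) 0 = -y := G.mul_zero _
    have h2 : G.mul (-y) y = 0 := G.neg_mul y
    rw [h1, h2]
    abel
  · rw [mass_neg]
    exact (mass_ctrans_le G (-y) a).trans ha2

theorem bar_segment (hN : G.law.Nilp N) (X : E n) {s : Fin 2 → ℝ} (hs : ∑ j, s j = 1) :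
    G.law.bar s (![0, X] : Fin 2 → E n) N = s 1 • X := by
  refine hN.res_unique hs _ (hN.res_bar hs _) ?_
  rw [Fin.sum_univ_two] at hs
  have h0 : s 0 = 1 - s 1 := by linarith
  have hres : G.law.res s (![0, X] : Fin 2 → E n) (s 1 • X) =
      s 0 • G.law.mul (-(s 1 • X)) 0 + s 1 • G.law.mul (-(s 1 • X)) X := Fin.sum_univ_two _
  rw [hres]
  have h1 : G.law.mul (-(s 1 • X)) X = (1 - s 1) • X := by
    have := G.law.line (-(s 1)) 1 X
    rw [one_smul, neg_smul] at this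
    rw [this]
    congr 1; ring
  rw [h1, G.law.mul_zero, h0, smul_neg, smul_smul, smul_smul, mul_comm, neg_add_cancel]

theorem Nle_line (hN : G.law.Nilp N) (X : E n) : Nle G N X ‖X‖ := by
  refine ⟨Finsupp.single (straight G N (![0, X] : Fin 2 → E n)) 1, ?_, ?_⟩
  · rw [boundary_single, Fin.sum_univ_two, straight_face, straight_face]
    have h1 : (![0, X] : Fin 2 → E n) ∘ (0 : Fin 2).succAbove = fun _ : Fin 1 => X := by
      funext j; fin_cases j; rfl
    have h2 : (![0, X] : Fin 2 → E n) ∘ (1 : Fin 2).succAbove = fun _ : Fin 1 => 0 := by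
      funext j; fin_cases j; rfl
    rw [h1, h2]
    simp only [Fin.val_zero, pow_zero, one_smul, Fin.val_one, pow_one, neg_smul]
    rw [← sub_eq_add_neg]; rfl
  · rw [mass_single]
    simp only [Int.natAbs_one, Nat.cast_one, one_mul]
    refine simplexVol_le_of_bound G _ _ fun y hy => ?_
    have hc : ∀ y ∈ ordInterior 1, (straight G N (![0, X] : Fin 2 → E n)).coord y =
        (1 - y 0) • X := by
      intro y hy
      rw [coord_of_mem _ (ordParam_mem hy)]
      have := bar_segment hN X (sum_ordParam y)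
      change G.law.bar (ordParam y) (![0, X] : Fin 2 → E n) N = _
      rw [this]
      congr 1
    have hd : fderiv ℝ (straight G N (![0, X] : Fin 2 → E n)).coord y (Pi.single 0 1) = -X := by
      have h1 : (straight G N (![0, X] : Fin 2 → E n)).coord =ᶠ[𝓝 y]
          fun y : Fin 1 → ℝ => (1 - y 0) • X := by
        filter_upwards [isOpen_ordInterior.mem_nhds hy] with y' hy'
        exact hc y' hy'
      rw [h1.fderiv_eq]
      have h2 : HasFDerivAt (fun y : Fin 1 → ℝ => y 0) (ContinuousLinearMap.proj 0) y :=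
        (ContinuousLinearMap.proj (R := ℝ) (φ := fun _ : Fin 1 => ℝ) 0).hasFDerivAt
      have h3 := (h2.const_sub 1).smul_const X
      rw [h3.fderiv]
      simp
    have hg : gram G (straight G N (![0, X] : Fin 2 → E n)) y =
        Matrix.of fun _ _ => ‖X‖ ^ 2 := by
      ext i j
      have hi : i = 0 := Subsingleton.elim _ _
      have hj : j = 0 := Subsingleton.elim _ _
      subst hi hj
      simp only [gram, Matrix.of_apply, hd, hc y hy, triv_eq, map_neg, inner_neg_neg]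
      rw [ExpLaw.Λ_smul_self, real_inner_self_eq_norm_sq]
    rw [hg, Matrix.det_unique]
    simp

end path

namespace ExpLaw

section Bx

variable {V : Type*} [NormedAddCommGroup V] [NormedSpace ℝ V] {b : Module.Basis (Fin n) ℝ V}
  {w : Fin n → ℕ} {G : ExpLaw V}

theorem Bx.add {t A B : ℝ} {x y : V} (hx : Bx b w t A x) (hy : Bx b w t B y) :
    Bx b w t (A + B) (x + y) := by
  intro i
  rw [map_add, Finsupp.add_apply, add_mul]
  exact (abs_add_le _ _).trans (add_le_add (hx i) (hy i))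

theorem Bx.sub {t A B : ℝ} {x y : V} (hx : Bx b w t A x) (hy : Bx b w t B y) :
    Bx b w t (A + B) (x - y) := by
  rw [sub_eq_add_neg]; exact hx.add hy.neg

theorem Bx.zero {t A : ℝ} (ht : 0 ≤ t) (hA : 0 ≤ A) : Bx b w t A 0 := by
  intro i
  rw [map_zero, Finsupp.zero_apply, abs_zero]
  exact mul_nonneg hA (pow_nonneg ht _)

theorem Adapted.Bx_smul (h : G.Adapted b w) {k : ℕ} {v : V} (hv : v ∈ G.F k) {t s : ℝ}
    (ht : 1 ≤ t) (hs : |s| ≤ 1) : Bx b w t (∑ i, |b.repr v i|) ((s * t ^ k) • v) := by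
  intro i
  have ht0 : 0 ≤ t := zero_le_one.trans ht
  have hsum : |b.repr v i| ≤ ∑ i, |b.repr v i| :=
    Finset.single_le_sum (f := fun i => |b.repr v i|) (fun _ _ => abs_nonneg _)
      (Finset.mem_univ i)
  have hsum0 : 0 ≤ ∑ i, |b.repr v i| := (abs_nonneg _).trans hsum
  rw [map_smul, Finsupp.smul_apply, smul_eq_mul, abs_mul, abs_mul, abs_of_nonneg (pow_nonneg ht0 k)]
  by_cases hk : w i < k
  · rw [(h.mem_iff k v).1 hv i hk]
    simp only [abs_zero, MulZeroClass.mul_zero]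
    exact mul_nonneg hsum0 (pow_nonneg ht0 _)
  · have h1 : t ^ k ≤ t ^ (w i) := pow_le_pow_right₀ ht (not_lt.1 hk)
    calc |s| * t ^ k * |b.repr v i| ≤ 1 * t ^ (w i) * |b.repr v i| := by
          refine mul_le_mul_of_nonneg_right ?_ (abs_nonneg _)
          exact mul_le_mul hs h1 (pow_nonneg ht0 _) zero_le_one
      _ ≤ (∑ i, |b.repr v i|) * t ^ (w i) := by
          rw [one_mul, mul_comm]
          exact mul_le_mul_of_nonneg_right hsum (pow_nonneg ht0 _)

end Bx

end ExpLaw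

section ballbox

open ExpLaw

variable {G : ExpLieGroup n} {N : ℕ} {b : Module.Basis (Fin n) ℝ (E n)} {w : Fin n → ℕ}

/-- The predicate on vectors used in the ball-box theorem. -/
def LL (G : ExpLieGroup n) (N : ℕ) (b : Module.Basis (Fin n) ℝ (E n)) (w : Fin n → ℕ) (k : ℕ)
    (v : E n) : Prop :=
  ∃ A C : ℝ, 0 ≤ A ∧ 0 ≤ C ∧ ∀ t : ℝ, 1 ≤ t → ∀ s : ℝ, |s| ≤ 1 →
    ∃ z ∈ G.law.F (k + 1), Bx b w t A z ∧ Nle G N ((s * t ^ k) • v + z) (C * t)

/-- multiplying two elements which are known modulo `F (k+1)` -/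
theorem mul_mod (hN : G.law.Nilp N) {k : ℕ} {p q : E n} (hq : q ∈ G.law.F k) :
    G.mul p q - (p + q) ∈ G.law.F (k + 1) := by
  have h1 := hN.mul_add_left p 0 hq
  rw [zero_add, G.law.mul_zero] at h1
  convert h1 using 1
  change G.mul p q - (p + q) = G.mul p q - p - q
  abel

theorem combine (h : G.law.Adapted b w) (hN : G.law.Nilp N) {k : ℕ} (A B : ℝ) (hA : 0 ≤ A)
    (hB : 0 ≤ B) : ∃ C : ℝ, 0 ≤ C ∧ ∀ t : ℝ, 1 ≤ t → ∀ u v z₁ z₂ : E n, u ∈ G.law.F k →
      v ∈ G.law.F k → z₁ ∈ G.law.F (k + 1) → z₂ ∈ G.law.F (k + 1) → Bx b w t A u →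
      Bx b w t A v → Bx b w t B z₁ → Bx b w t B z₂ → ∀ ℓ₁ ℓ₂ : ℝ, 0 ≤ ℓ₁ → 0 ≤ ℓ₂ →
      Nle G N (u + z₁) ℓ₁ → Nle G N (v + z₂) ℓ₂ →
      ∃ z ∈ G.law.F (k + 1), Bx b w t C z ∧ Nle G N ((u + v) + z) (ℓ₁ + ℓ₂) := by
  obtain ⟨C, hC, hCb⟩ := h.exists_box hN (A + B) (by positivity)
  refine ⟨C + (A + A), by linarith, fun t ht u v z₁ z₂ hu hv hz₁ hz₂ bu bv bz₁ bz₂ ℓ₁ ℓ₂ hℓ₁
    hℓ₂ n₁ n₂ => ?_⟩
  have hq : v + z₂ ∈ G.law.F k := Submodule.add_mem _ hv (G.law.F_succ_le _ hz₂)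
  have h1 := mul_mod hN (p := u + z₁) hq
  refine ⟨G.mul (u + z₁) (v + z₂) - (u + v), ?_, ?_, ?_⟩
  · have : G.mul (u + z₁) (v + z₂) - (u + v) =
      (G.mul (u + z₁) (v + z₂) - (u + z₁ + (v + z₂))) + (z₁ + z₂) := by abel
    rw [this]
    exact Submodule.add_mem _ h1 (Submodule.add_mem _ hz₁ hz₂)
  · exact ((hCb t ht _ _ (bu.add bz₁) (bv.add bz₂)).1).sub (bu.add bv)
  · rw [add_sub_cancel]
    exact n₁.mul hN hℓ₁ hℓ₂ n₂

theorem LL_add (h : G.law.Adapted b w) (hN : G.law.Nilp N) {k : ℕ} {u v : E n}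
    (hu : u ∈ G.law.F k) (hv : v ∈ G.law.F k) (lu : LL G N b w k u) (lv : LL G N b w k v) :
    LL G N b w k (u + v) := by
  obtain ⟨A1, C1, hA1, hC1, h1⟩ := lu
  obtain ⟨A2, C2, hA2, hC2, h2⟩ := lv
  have hs1 : 0 ≤ ∑ i, |b.repr u i| := Finset.sum_nonneg fun _ _ => abs_nonneg _
  have hs2 : 0 ≤ ∑ i, |b.repr v i| := Finset.sum_nonneg fun _ _ => abs_nonneg _
  obtain ⟨C, hC, hCb⟩ := combine h hN (k := k) ((∑ i, |b.repr u i|) + ∑ i, |b.repr v i|)
    (A1 + A2) (by positivity) (by positivity)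
  refine ⟨C, C1 + C2, hC, by positivity, fun t ht s hs => ?_⟩
  have ht0 : 0 ≤ t := zero_le_one.trans ht
  obtain ⟨z₁, hz₁, bz₁, n₁⟩ := h1 t ht s hs
  obtain ⟨z₂, hz₂, bz₂, n₂⟩ := h2 t ht s hs
  obtain ⟨z, hz, bz, nz⟩ := hCb t ht _ _ z₁ z₂ (Submodule.smul_mem _ (s * t ^ k) hu)
    (Submodule.smul_mem _ (s * t ^ k) hv) hz₁ hz₂
    ((h.Bx_smul hu ht hs).mono ht0 (by linarith)) ((h.Bx_smul hv ht hs).mono ht0 (by linarith))
    (bz₁.mono ht0 (by linarith)) (bz₂.mono ht0 (by linarith)) _ _ (by positivity) (by positivity)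
    n₁ n₂
  refine ⟨z, hz, bz, ?_⟩
  rw [smul_add]
  exact nz.mono (by ring_nf; exact le_rfl)

theorem LL_smul_le {k : ℕ} {v : E n} (lv : LL G N b w k v) {c : ℝ} (hc : |c| ≤ 1) :
    LL G N b w k (c • v) := by
  obtain ⟨A, C, hA, hC, h1⟩ := lv
  refine ⟨A, C, hA, hC, fun t ht s hs => ?_⟩
  have : |s * c| ≤ 1 := by
    rw [abs_mul]; exact mul_le_one₀ hs (abs_nonneg _) hc
  obtain ⟨z, hz, bz, nz⟩ := h1 t ht (s * c) this
  refine ⟨z, hz, bz, ?_⟩
  rw [smul_smul]
  convert nz using 3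
  ring

theorem LL_zero {k : ℕ} : LL G N b w k 0 := by
  refine ⟨0, 0, le_rfl, le_rfl, fun t ht s hs => ⟨0, Submodule.zero_mem _,
    Bx.zero (zero_le_one.trans ht) le_rfl, ?_⟩⟩
  rw [smul_zero, add_zero]; exact Nle_zero

theorem LL_nsmul (h : G.law.Adapted b w) (hN : G.law.Nilp N) {k : ℕ} {v : E n}
    (hv : v ∈ G.law.F k) (lv : LL G N b w k v) (m : ℕ) : LL G N b w k ((m : ℝ) • v) := by
  induction m with
  | zero => simpa using LL_zero
  | succ m ih =>
    rw [Nat.cast_succ, add_smul, one_smul]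
    exact LL_add h hN (Submodule.smul_mem _ _ hv) hv ih lv

theorem LL_smul (h : G.law.Adapted b w) (hN : G.law.Nilp N) {k : ℕ} {v : E n}
    (hv : v ∈ G.law.F k) (lv : LL G N b w k v) (c : ℝ) : LL G N b w k (c • v) := by
  obtain ⟨m, hm⟩ := exists_nat_gt |c|
  have hm0 : (0 : ℝ) < m := (abs_nonneg c).trans_lt hm
  have h1 : |c / m| ≤ 1 := by
    rw [abs_div, abs_of_pos hm0, div_le_one hm0]; exact hm.le
  have h2 := LL_nsmul h hN (Submodule.smul_mem _ (c / m) hv) (LL_smul_le lv h1) m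
  rwa [smul_smul, mul_div_cancel₀ _ hm0.ne'] at h2

theorem LL_one (hN : G.law.Nilp N) (v : E n) : LL G N b w 1 v := by
  refine ⟨0, ‖v‖, le_rfl, norm_nonneg _, fun t ht s hs => ⟨0, Submodule.zero_mem _,
    Bx.zero (zero_le_one.trans ht) le_rfl, ?_⟩⟩
  rw [add_zero]
  refine (Nle_line hN _).mono ?_
  rw [norm_smul, pow_one, norm_mul, Real.norm_eq_abs, Real.norm_eq_abs,
    abs_of_nonneg (zero_le_one.trans ht), mul_comm ‖v‖]
  refine mul_le_mul_of_nonneg_right ?_ (norm_nonneg _)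
  exact mul_le_of_le_one_left (zero_le_one.trans ht) hs

theorem LL_bracket (h : G.law.Adapted b w) (hN : G.law.Nilp N) {k : ℕ} (y : E n) {v : E n}
    (hv : v ∈ G.law.F k) (lv : LL G N b w k v) : LL G N b w (k + 1) (G.law.ad y v) := by
  obtain ⟨A, C, hA, hC, h1⟩ := lv
  have hsv : 0 ≤ ∑ i, |b.repr v i| := Finset.sum_nonneg fun _ _ => abs_nonneg _
  have hsy : 0 ≤ ∑ i, |b.repr y i| := Finset.sum_nonneg fun _ _ => abs_nonneg _
  have hsb : 0 ≤ ∑ i, |b.repr (G.law.ad y v) i| := Finset.sum_nonneg fun _ _ => abs_nonneg _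
  set A0 := (∑ i, |b.repr v i|) + (∑ i, |b.repr y i|) + A with hA0
  have hA00 : 0 ≤ A0 := by positivity
  obtain ⟨B1, hB1, hB1b⟩ := h.exists_box hN A0 hA00
  have hB10 : 0 ≤ B1 := hA00.trans hB1
  obtain ⟨B2, hB2, hB2b⟩ := h.exists_box hN B1 hB10
  have hB20 : 0 ≤ B2 := hB10.trans hB2
  obtain ⟨B3, hB3, hB3b⟩ := h.exists_box hN B2 hB20
  have hB30 : 0 ≤ B3 := hB20.trans hB3
  refine ⟨B3 + ∑ i, |b.repr (G.law.ad y v) i|, 2 * (‖y‖ + C), by positivity, by positivity,
    fun t ht s hs => ?_⟩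
  have ht0 : 0 ≤ t := zero_le_one.trans ht
  obtain ⟨z, hz, bz, nz⟩ := h1 t ht s hs
  set q : E n := (s * t ^ k) • v + z with hq
  have hqF : q ∈ G.law.F k :=
    Submodule.add_mem _ (Submodule.smul_mem _ _ hv) (G.law.F_succ_le _ hz)
  have bq : Bx b w t A0 q := ((h.Bx_smul hv ht hs).add bz).mono ht0 (by rw [hA0]; linarith)
  have bty : Bx b w t A0 (t • y) := by
    have h2 := h.Bx_smul (k := 1) (v := y) Submodule.mem_top (s := 1) ht (by simp)
    rw [one_mul, pow_one] at h2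
    exact h2.mono ht0 (by rw [hA0]; linarith)
  set cm : E n := G.mul (G.mul (G.mul (t • y) q) (-(t • y))) (-q) with hcm
  have bcm : Bx b w t B3 cm := by
    have e1 := (hB1b t ht _ _ bty bq).1
    have e2 := (hB2b t ht _ _ e1 (bty.neg.mono ht0 hB1)).1
    exact (hB3b t ht _ _ e2 (bq.neg.mono ht0 (hB1.trans hB2))).1
  have hmem := hN.comm_mem (t • y) hqF
  have had : G.law.ad (t • y) q = (s * t ^ (k + 1)) • G.law.ad y v + t • G.law.ad y z := by
    rw [hq, map_smul, _root_.smul_apply, map_add, map_smul, smul_add, smul_smul]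
    congr 2
    rw [pow_succ]; ring
  refine ⟨cm - (s * t ^ (k + 1)) • G.law.ad y v, ?_, ?_, ?_⟩
  · have e1 : cm - (s * t ^ (k + 1)) • G.law.ad y v =
        (cm - G.law.ad (t • y) q) + t • G.law.ad y z := by rw [had]; abel
    rw [e1]
    refine Submodule.add_mem _ hmem (Submodule.smul_mem _ _ ?_)
    exact G.law.ad_mem_F y hz
  · exact bcm.sub (h.Bx_smul (G.law.ad_mem_F y hv) ht hs)
  · rw [add_sub_cancel]
    have n1 : Nle G N (t • y) (‖y‖ * t) := (Nle_line hN _).mono (by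
      rw [norm_smul, Real.norm_eq_abs, abs_of_nonneg ht0, mul_comm])
    have hy0 : 0 ≤ ‖y‖ * t := by positivity
    have hC0 : 0 ≤ C * t := by positivity
    have e1 := (n1.mul hN hy0 hC0 nz).mul hN (by positivity) hy0 (n1.neg hN)
    have e2 := e1.mul hN (by positivity) hC0 (nz.neg hN)
    exact e2.mono (by linarith)

theorem LL_all (h : G.law.Adapted b w) (hN : G.law.Nilp N) (k : ℕ) :
    ∀ v ∈ G.law.F (k + 1), LL G N b w (k + 1) v := by
  induction k with
  | zero => intro v _; exact LL_one hN v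
  | succ k ih =>
    intro v hv
    change v ∈ Submodule.span ℝ {z | ∃ x : E n, ∃ y ∈ G.law.F (k + 1), G.law.ad x y = z} at hv
    induction hv using Submodule.span_induction with
    | mem z hz =>
      obtain ⟨x, y, hy, rfl⟩ := hz
      exact LL_bracket h hN x hy (ih y hy)
    | zero => exact LL_zero
    | add u v hu hv ihu ihv => exact LL_add h hN hu hv ihu ihv
    | smul c u hu ihu => exact LL_smul h hN hu ihu c

/-- uniform version over a set of basis vectors of weight `k + 1` -/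
theorem UL (h : G.law.Adapted b w) (hN : G.law.Nilp N) (k : ℕ) (A : ℝ) (hA : 1 ≤ A)
    (S : Finset (Fin n)) (hS : ∀ i ∈ S, w i = k + 1) :
    ∃ A' C : ℝ, 0 ≤ A' ∧ 0 ≤ C ∧ ∀ t : ℝ, 1 ≤ t → ∀ c : Fin n → ℝ,
      (∀ i ∈ S, |c i| ≤ A * t ^ (w i)) →
      ∃ z ∈ G.law.F (k + 2), Bx b w t A' z ∧ Nle G N ((∑ i ∈ S, c i • b i) + z) (C * t) := by
  classical
  have hA0 : 0 < A := zero_lt_one.trans_le hA
  induction S using Finset.induction_on with
  | empty =>
    refine ⟨0, 0, le_rfl, le_rfl, fun t ht c _ => ⟨0, Submodule.zero_mem _,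
      Bx.zero (zero_le_one.trans ht) le_rfl, ?_⟩⟩
    rw [Finset.sum_empty, add_zero]; exact Nle_zero
  | insert j S hj ih =>
    obtain ⟨A1, C1, hA1, hC1, h1⟩ := ih (fun i hi => hS i (Finset.mem_insert_of_mem hi))
    have hwj : w j = k + 1 := hS j (Finset.mem_insert_self j S)
    have hbj : b j ∈ G.law.F (k + 1) := by
      have := h.basis_mem j; rwa [hwj] at this
    obtain ⟨A2, C2, hA2, hC2, h2⟩ := LL_smul h hN hbj (LL_all h hN k _ hbj) A
    obtain ⟨C, hC, hCb⟩ := combine h hN (k := k + 1) A (A1 + A2) hA0.le (by positivity)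
    refine ⟨C, C1 + C2, hC, by positivity, fun t ht c hc => ?_⟩
    have ht0 : 0 < t := zero_lt_one.trans_le ht
    obtain ⟨z₁, hz₁, bz₁, n₁⟩ := h1 t ht c (fun i hi => hc i (Finset.mem_insert_of_mem hi))
    have hcj := hc j (Finset.mem_insert_self j S)
    rw [hwj] at hcj
    set s : ℝ := c j / (A * t ^ (k + 1)) with hs
    have hpos : 0 < A * t ^ (k + 1) := by positivity
    have hs1 : |s| ≤ 1 := by
      rw [hs, abs_div, abs_of_pos hpos, div_le_one hpos]; exact hcj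
    obtain ⟨z₂, hz₂, bz₂, n₂⟩ := h2 t ht s hs1
    have hsc : (s * t ^ (k + 1)) • A • b j = c j • b j := by
      rw [smul_smul]
      congr 1
      rw [hs]; field_simp
    rw [hsc] at n₂
    have bu : Bx b w t A (∑ i ∈ S, c i • b i) := by
      intro l
      have e1 : b.repr (∑ i ∈ S, c i • b i) l = if l ∈ S then c l else 0 := by
        rw [map_sum, Finsupp.finsetSum_apply]
        simp only [map_smul, Finsupp.smul_apply, Module.Basis.repr_self, Finsupp.single_apply,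
          smul_eq_mul, mul_ite, mul_one, MulZeroClass.mul_zero]
        rw [Finset.sum_ite_eq' S l (fun i => c i)]
      rw [e1]
      split_ifs with hl
      · exact hc l (Finset.mem_insert_of_mem hl)
      · rw [abs_zero]; positivity
    have bv : Bx b w t A (c j • b j) := by
      intro l
      rw [map_smul, Finsupp.smul_apply, Module.Basis.repr_self, Finsupp.single_apply, smul_eq_mul]
      by_cases hjl : j = l
      · subst hjl
        rw [if_pos rfl, mul_one, hwj]; exact hcj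
      · rw [if_neg hjl, MulZeroClass.mul_zero, abs_zero]; positivity
    have huF : (∑ i ∈ S, c i • b i) ∈ G.law.F (k + 1) := by
      refine Submodule.sum_mem _ fun i hi => Submodule.smul_mem _ _ ?_
      have := h.basis_mem i
      rwa [hS i (Finset.mem_insert_of_mem hi)] at this
    obtain ⟨z, hz, bz, nz⟩ := hCb t ht _ _ z₁ z₂ huF (Submodule.smul_mem _ (c j) hbj) hz₁ hz₂
      bu bv (bz₁.mono ht0.le (by linarith)) (bz₂.mono ht0.le (by linarith)) _ _
      (by positivity) (by positivity) n₁ n₂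
    refine ⟨z, hz, bz, ?_⟩
    rw [Finset.sum_insert hj, add_comm (c j • b j)]
    exact nz.mono (by linarith)

theorem BB_step (h : G.law.Adapted b w) (hN : G.law.Nilp N) (k : ℕ)
    (ih : ∀ A : ℝ, 1 ≤ A → ∃ C : ℝ, 0 ≤ C ∧ ∀ t : ℝ, 1 ≤ t → ∀ x ∈ G.law.F (k + 2),
      Bx b w t A x → Nle G N x (C * t)) :
    ∀ A : ℝ, 1 ≤ A → ∃ C : ℝ, 0 ≤ C ∧ ∀ t : ℝ, 1 ≤ t → ∀ x ∈ G.law.F (k + 1),
      Bx b w t A x → Nle G N x (C * t) := by
  classical
  intro A hA
  have hA0 : 0 < A := zero_lt_one.trans_le hA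
  set S : Finset (Fin n) := Finset.univ.filter (fun i => w i = k + 1) with hS
  obtain ⟨A', C', hA', hC', hU⟩ := UL h hN k A hA S (fun i hi => (Finset.mem_filter.1 hi).2)
  obtain ⟨B, hB, hBb⟩ := h.exists_box hN (A + A') (by positivity)
  obtain ⟨C'', hC'', hD⟩ := ih B (by linarith)
  refine ⟨C' + C'', by positivity, fun t ht x hx bx => ?_⟩
  have ht0 : 0 < t := zero_lt_one.trans_le ht
  obtain ⟨z, hz, bz, nz⟩ := hU t ht (fun i => b.repr x i) (fun i _ => bx i)
  set u : E n := ∑ i ∈ S, b.repr x i • b i with hu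
  set g : E n := u + z with hg
  have hur : ∀ l, b.repr u l = if w l = k + 1 then b.repr x l else 0 := by
    intro l
    rw [hu, map_sum, Finsupp.finsetSum_apply]
    simp only [map_smul, Finsupp.smul_apply, Module.Basis.repr_self, Finsupp.single_apply,
      smul_eq_mul, mul_ite, mul_one, MulZeroClass.mul_zero]
    rw [Finset.sum_ite_eq' S l (fun i => b.repr x i)]
    simp [hS]
  have hxu : x - u ∈ G.law.F (k + 2) := by
    rw [h.mem_iff]
    intro l hl
    rw [map_sub, Finsupp.sub_apply, hur]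
    split_ifs with h1
    · exact sub_self _
    · rw [sub_zero]
      exact (h.mem_iff (k + 1) x).1 hx l (by omega)
  have bu : Bx b w t A u := by
    intro l
    rw [hur]
    split_ifs
    · exact bx l
    · rw [abs_zero]; positivity
  have bg : Bx b w t (A + A') g := bu.add bz
  have e1 : x = g + ((x - u) - z) := by rw [hg]; abel
  have h2 : (x - u) - z ∈ G.law.F (k + 2) := Submodule.sub_mem _ hxu hz
  have h3 := hN.mul_add_left (-g) g h2
  rw [G.law.neg_mul_self, sub_zero, ← e1] at h3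
  have h4 : G.mul (-g) x ∈ G.law.F (k + 2) := by
    have h5 : G.mul (-g) x = (G.law.mul (-g) x - ((x - u) - z)) + ((x - u) - z) := by
      change G.mul (-g) x = (G.mul (-g) x - ((x - u) - z)) + ((x - u) - z)
      abel
    rw [h5]
    exact Submodule.add_mem _ (G.law.F_succ_le _ h3) h2
  have h6 : Bx b w t B (G.mul (-g) x) :=
    (hBb t ht _ _ bg.neg (bx.mono ht0.le (by linarith))).1
  have n2 := hD t ht _ h4 h6
  have n3 := nz.mul hN (by positivity) (by positivity) n2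
  have e2 : G.mul g (G.mul (-g) x) = x := G.law.mul_neg_cancel g x
  rw [e2] at n3
  exact n3.mono (by linarith)

theorem ball_box (h : G.law.Adapted b w) (hN : G.law.Nilp N) (A : ℝ) :
    ∃ C : ℝ, 0 ≤ C ∧ ∀ t : ℝ, 1 ≤ t → ∀ x : E n, Bx b w t A x → Nle G N x (C * t) := by
  have key : ∀ d k, k + d = N → ∀ A : ℝ, 1 ≤ A → ∃ C : ℝ, 0 ≤ C ∧ ∀ t : ℝ, 1 ≤ t →
      ∀ x ∈ G.law.F (k + 1), Bx b w t A x → Nle G N x (C * t) := by
    intro d
    induction d with
    | zero =>
      intro k hk A _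
      refine ⟨0, le_rfl, fun t _ x hx _ => ?_⟩
      have h1 : G.law.F (k + 1) ≤ G.law.F N := G.law.F_anti (by omega)
      have h2 := h1 hx
      rw [hN] at h2
      rw [(Submodule.mem_bot ℝ).1 h2]
      exact Nle_zero
    | succ d ih =>
      intro k hk
      exact BB_step h hN k (ih (k + 1) (by omega))
  obtain ⟨C, hC, hCb⟩ := key N 0 (by omega) (max A 1) (le_max_right _ _)
  exact ⟨C, hC, fun t ht x bx => hCb t ht x Submodule.mem_top
    (bx.mono (zero_le_one.trans ht) (le_max_left _ _))⟩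

end ballbox

end Pool.Agent.Lib.P6a08f9
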