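import Pool.Agent.Lib.P6a08f9.Defs

/-!
Basic facts on chain complexes: `∂ ∂ = 0` for Lipschitz chains and for chains of tuples,
properties of the mass.
-/

open MeasureTheory
open scoped ENNReal

namespace Pool.Agent.Lib.P6a08f9

theorem alt_sum_zero {A : Type*} [AddCommGroup A] {k : ℕ} (Φ : Fin (k + 3) → Fin (k + 2) → A)
    (h : ∀ (i j : Fin (k + 2)), i ≤ j → Φ j.succ i = Φ i.castSucc j) :
    ∑ j : Fin (k + 3), ((-1 : ℤ) ^ (j : ℕ)) • ∑ i : Fin (k + 2), ((-1 : ℤ) ^ (i : ℕ)) • Φ j i
      = 0 := by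
  classical
  simp only [Finset.smul_sum, smul_smul]
  rw [← Finset.univ.sum_product' Finset.univ
    (fun (j : Fin (k + 3)) (i : Fin (k + 2)) => ((-1 : ℤ) ^ (j : ℕ) * (-1) ^ (i : ℕ)) • Φ j i)]
  rw [Finset.univ_product_univ]
  rw [← Finset.sum_filter_add_sum_filter_not Finset.univ
    (fun p : Fin (k + 3) × Fin (k + 2) => (p.2 : ℕ) < (p.1 : ℕ))]
  rw [add_eq_zero_iff_eq_neg, ← Finset.sum_neg_distrib]
  refine Finset.sum_bij'
    (fun (p : Fin (k + 3) × Fin (k + 2)) (_ : p ∈ _) =>
      ((⟨(p.2 : ℕ), by omega⟩ : Fin (k + 3)), (⟨(p.1 : ℕ) - 1, by omega⟩ : Fin (k + 2))))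
    (fun (p : Fin (k + 3) × Fin (k + 2)) (_ : p ∈ _) =>
      ((⟨(p.2 : ℕ) + 1, by omega⟩ : Fin (k + 3)),
        (⟨min (p.1 : ℕ) (k + 1), by omega⟩ : Fin (k + 2)))) ?_ ?_ ?_ ?_ ?_
  · rintro ⟨j, i⟩ hp
    simp only [Finset.mem_filter, Finset.mem_univ, true_and] at hp ⊢
    omega
  · rintro ⟨j, i⟩ hp
    simp only [Finset.mem_filter, Finset.mem_univ, true_and] at hp ⊢
    omega
  · rintro ⟨j, i⟩ hp
    simp only [Finset.mem_filter, Finset.mem_univ, true_and] at hp ⊢
    ext
    · simp; omega
    · simp; omega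
  · rintro ⟨j, i⟩ hp
    simp only [Finset.mem_filter, Finset.mem_univ, true_and] at hp ⊢
    ext
    · simp; omega
    · simp
  · rintro ⟨j, i⟩ hp
    simp only [Finset.mem_filter, Finset.mem_univ, true_and] at hp ⊢
    have hj0 : j ≠ 0 := by intro h0; subst h0; simp at hp
    obtain ⟨j', rfl⟩ := Fin.exists_succ_eq.2 hj0
    have hij : i ≤ j' := by
      have : (i : ℕ) < (j' : ℕ) + 1 := by simpa using hp
      exact Fin.mk_le_mk.2 (by omega)
    rw [h i j' hij, ← neg_smul]
    congr 1
    simp only [Fin.val_succ, Nat.add_sub_cancel]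
    ring

theorem succAbove_comm {k : ℕ} (i j : Fin (k + 2)) (hij : i ≤ j) (l : Fin (k + 1)) :
    j.succ.succAbove (i.succAbove l) = i.castSucc.succAbove (j.succAbove l) := by
  have hij' : (i : ℕ) ≤ j := hij
  ext
  simp only [Fin.succAbove, Fin.lt_def]
  split_ifs <;> simp at * <;> omega

theorem faceMap_faceMap {k : ℕ} (i j : Fin (k + 2)) (hij : i ≤ j) (p : Splx k) :
    faceMap j.succ (faceMap i p) = faceMap i.castSucc (faceMap j p) := by
  apply Subtype.ext
  change (j.succ.insertNth 0 (i.insertNth 0 p.1 : Fin (k + 2) → ℝ) : Fin (k + 3) → ℝ) =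
    i.castSucc.insertNth 0 (j.insertNth 0 p.1 : Fin (k + 2) → ℝ)
  have hij' : (i : ℕ) ≤ j := hij
  have h1 : i.castSucc.succAbove j = j.succ := by
    rw [Fin.succAbove_of_le_castSucc]
    exact Fin.mk_le_mk.2 (by simpa using hij')
  have h2 : j.succ.succAbove i = i.castSucc := by
    rw [Fin.succAbove_of_castSucc_lt]
    exact Fin.mk_lt_mk.2 (by simp; omega)
  funext l
  refine Fin.succAboveCases j.succ ?_ (fun l => ?_) l
  · rw [Fin.insertNth_apply_same]
    conv_rhs => rw [← h1]
    rw [Fin.insertNth_apply_succAbove, Fin.insertNth_apply_same]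
  · rw [Fin.insertNth_apply_succAbove]
    refine Fin.succAboveCases i ?_ (fun l => ?_) l
    · rw [Fin.insertNth_apply_same, h2, Fin.insertNth_apply_same]
    · rw [Fin.insertNth_apply_succAbove, succAbove_comm i j hij l, Fin.insertNth_apply_succAbove,
        Fin.insertNth_apply_succAbove]

variable {n : ℕ}

theorem LipSimplex.face_face {k : ℕ} (σ : LipSimplex n (k + 2)) (i j : Fin (k + 2))
    (hij : i ≤ j) : (σ.face j.succ).face i = (σ.face i.castSucc).face j := by
  apply Subtype.ext
  funext p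
  change σ.1 (faceMap j.succ (faceMap i p)) = σ.1 (faceMap i.castSucc (faceMap j p))
  rw [faceMap_faceMap i j hij]

theorem boundary_single {k : ℕ} (σ : LipSimplex n (k + 1)) (m : ℤ) :
    boundary k (Finsupp.single σ m) =
      ∑ i : Fin (k + 2), ((-1 : ℤ) ^ (i : ℕ)) • Finsupp.single (σ.face i) m := by
  simp [boundary, AddMonoidHom.finsetSum_apply]

theorem boundary_boundary {k : ℕ} (a : LipChain n (k + 2)) :
    boundary k (boundary (k + 1) a) = 0 := by
  induction a using Finsupp.induction_linear with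
  | zero => simp
  | add f g hf hg => rw [map_add, map_add, hf, hg, add_zero]
  | single σ m =>
    rw [boundary_single]
    simp only [map_sum, map_zsmul, boundary_single]
    exact alt_sum_zero (fun j i => Finsupp.single ((σ.face j).face i) m)
      (fun i j hij => by rw [σ.face_face i j hij])

/-! ### Chains of tuples -/

/-- chains of ordered tuples of points -/
abbrev TupleChain (X : Type*) (k : ℕ) : Type _ := (Fin (k + 1) → X) →₀ ℤ

/-- the boundary operator on chains of tuples -/
noncomputable def tboundary {X : Type*} (k : ℕ) : TupleChain X (k + 1) →+ TupleChain X k :=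
  Finsupp.liftAddHom fun g =>
    ∑ i : Fin (k + 2), ((-1 : ℤ) ^ (i : ℕ)) • Finsupp.singleAddHom (g ∘ i.succAbove)

theorem tboundary_single {X : Type*} {k : ℕ} (g : Fin (k + 2) → X) (m : ℤ) :
    tboundary k (Finsupp.single g m) =
      ∑ i : Fin (k + 2), ((-1 : ℤ) ^ (i : ℕ)) • Finsupp.single (g ∘ i.succAbove) m := by
  simp [tboundary, AddMonoidHom.finsetSum_apply]

theorem tboundary_tboundary {X : Type*} {k : ℕ} (a : TupleChain X (k + 2)) :
    tboundary k (tboundary (k + 1) a) = 0 := by
  induction a using Finsupp.induction_linear with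
  | zero => simp
  | add f g hf hg => rw [map_add, map_add, hf, hg, add_zero]
  | single g m =>
    rw [tboundary_single]
    simp only [map_sum, map_zsmul, tboundary_single]
    refine alt_sum_zero (fun j i => Finsupp.single ((g ∘ j.succAbove) ∘ i.succAbove) m)
      (fun i j hij => ?_)
    congr 1
    funext l
    simp only [Function.comp_apply]
    rw [succAbove_comm i j hij l]

/-! ### Mass -/

variable (G : ExpLieGroup n)

theorem mass_single {k : ℕ} (σ : LipSimplex n k) (m : ℤ) :
    mass G (Finsupp.single σ m) = (m.natAbs : ℝ≥0∞) * simplexVol G σ := by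
  rw [mass, Finsupp.sum_single_index]; simp

theorem mass_zero {k : ℕ} : mass G (0 : LipChain n k) = 0 := by
  rw [mass, Finsupp.sum_zero_index]

theorem mass_eq_tsum {k : ℕ} (a : LipChain n k) :
    mass G a = ∑' σ, ((a σ).natAbs : ℝ≥0∞) * simplexVol G σ := by
  rw [mass, Finsupp.sum, tsum_eq_sum]
  intro σ hσ
  rw [Finsupp.notMem_support_iff.1 hσ]; simp

theorem mass_add_le {k : ℕ} (a b : LipChain n k) : mass G (a + b) ≤ mass G a + mass G b := by
  rw [mass_eq_tsum, mass_eq_tsum, mass_eq_tsum, ← ENNReal.tsum_add]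
  refine ENNReal.tsum_le_tsum fun σ => ?_
  rw [← add_mul]
  refine mul_le_mul_left ?_ _
  rw [Finsupp.add_apply]
  exact_mod_cast Int.natAbs_add_le _ _

theorem mass_smul {k : ℕ} (c : ℤ) (a : LipChain n k) :
    mass G (c • a) = (c.natAbs : ℝ≥0∞) * mass G a := by
  rw [mass_eq_tsum, mass_eq_tsum, ← ENNReal.tsum_mul_left]
  refine tsum_congr fun σ => ?_
  rw [Finsupp.smul_apply, smul_eq_mul, Int.natAbs_mul, Nat.cast_mul, mul_assoc]

theorem mass_neg {k : ℕ} (a : LipChain n k) : mass G (-a) = mass G a := by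
  have := mass_smul G (-1) a
  simpa using this

theorem mass_sum_le {k : ℕ} {ι : Type*} (s : Finset ι) (a : ι → LipChain n k) :
    mass G (∑ i ∈ s, a i) ≤ ∑ i ∈ s, mass G (a i) := by
  classical
  induction s using Finset.induction_on with
  | empty => simp [mass_zero]
  | insert i s hi ih =>
    rw [Finset.sum_insert hi, Finset.sum_insert hi]
    exact (mass_add_le G _ _).trans (add_le_add le_rfl ih)

end Pool.Agent.Lib.P6a08f9
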