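import Mathlib

/-!
# Filling functions of simply connected nilpotent Lie groups: definitions

A connected, simply connected nilpotent Lie group is diffeomorphic to its Lie algebra through
the exponential map.  We therefore work with Lie group structures on `ℝⁿ` written in
exponential coordinates.
-/

open MeasureTheory
open scoped ENNReal

namespace Pool.Agent.Lib.P6a08f9

/-- `ℝⁿ` with its Euclidean inner product. -/
abbrev E (n : ℕ) : Type := EuclideanSpace ℝ (Fin n)

/-- A Lie group structure on `ℝⁿ` written in exponential coordinates: a smooth associative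
multiplication for which every line `s ↦ s • v` through `0` is a one-parameter subgroup.
Then `0` is the neutral element and `-x` is the inverse of `x`, the tangent space at the neutral
element is `ℝⁿ`, and the exponential map is the identity. -/
structure ExpLieGroup (n : ℕ) where
  /-- the multiplication -/
  mul : E n → E n → E n
  /-- the multiplication is smooth -/
  contDiff_mul : ContDiff ℝ ((⊤ : ℕ∞) : WithTop ℕ∞) (fun p : E n × E n => mul p.1 p.2)
  /-- the multiplication is associative -/
  mul_assoc : ∀ x y z : E n, mul (mul x y) z = mul x (mul y z)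
  /-- lines through `0` are one-parameter subgroups -/
  mul_line : ∀ (s t : ℝ) (v : E n), mul (s • v) (t • v) = (s + t) • v

namespace ExpLieGroup

variable {n : ℕ} (G : ExpLieGroup n)

theorem zero_mul (x : E n) : G.mul 0 x = x := by
  have := G.mul_line 0 1 x; simpa using this

theorem mul_zero (x : E n) : G.mul x 0 = x := by
  have := G.mul_line 1 0 x; simpa using this

theorem neg_mul (x : E n) : G.mul (-x) x = 0 := by
  have := G.mul_line (-1) 1 x; simpa using this

theorem mul_neg (x : E n) : G.mul x (-x) = 0 := by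
  have := G.mul_line 1 (-1) x; simpa using this

/-- The group structure: `0` is the neutral element and `-x` is the inverse of `x`. -/
abbrev group : Group (E n) where
  mul := G.mul
  mul_assoc := G.mul_assoc
  one := 0
  one_mul := G.zero_mul
  mul_one := G.mul_zero
  inv := fun x => -x
  inv_mul_cancel := G.neg_mul

/-- Nilpotency of the group (Mathlib's notion). -/
def IsNilpotent : Prop := @Group.IsNilpotent (E n) G.group

/-- The left trivialisation of the tangent vector `v` at the point `x`: the derivative at `x` of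
the left translation by the inverse of `x`, applied to `v`.  The left-invariant Riemannian metric
extending the inner product of `ℝⁿ` at the neutral element `0` is
`⟪v, w⟫_x = ⟪G.triv x v, G.triv x w⟫`. -/
noncomputable def triv (x v : E n) : E n := fderiv ℝ (fun y => G.mul (-x) y) x v

end ExpLieGroup

/-! ### Lipschitz chains -/

/-- The standard `k`-simplex, in barycentric coordinates. -/
abbrev Splx (k : ℕ) : Type := stdSimplex ℝ (Fin (k + 1))

/-- The `i`-th face inclusion `Δᵏ → Δᵏ⁺¹`: insert `0` as the `i`-th barycentric coordinate. -/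
noncomputable def faceMap {k : ℕ} (i : Fin (k + 2)) (p : Splx k) : Splx (k + 1) :=
  ⟨i.insertNth 0 p.1, by
    constructor
    · intro j
      refine Fin.succAboveCases i ?_ (fun j => ?_) j
      · simp
      · simpa using p.2.1 j
    · rw [Fin.sum_univ_succAbove _ i]
      simpa using p.2.2⟩

theorem faceMap_lipschitz {k : ℕ} (i : Fin (k + 2)) : LipschitzWith 1 (faceMap (k := k) i) := by
  refine LipschitzWith.of_dist_le_mul fun p q => ?_
  rw [NNReal.coe_one, one_mul, Subtype.dist_eq, Subtype.dist_eq]
  refine (dist_pi_le_iff dist_nonneg).2 fun j => ?_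
  refine Fin.succAboveCases i ?_ (fun j => ?_) j
  · simp [faceMap]
  · simp only [faceMap, Fin.insertNth_apply_succAbove]
    exact dist_le_pi_dist p.1 q.1 j

/-- Lipschitz `k`-simplices in `ℝⁿ`.  As `Δᵏ` is compact, a map `Δᵏ → ℝⁿ` is Lipschitz for the
Euclidean distance if and only if it is Lipschitz for the distance of any smooth Riemannian
metric on `ℝⁿ`. -/
def LipSimplex (n k : ℕ) : Type := {σ : Splx k → E n // ∃ K : NNReal, LipschitzWith K σ}

/-- The `i`-th face of a Lipschitz simplex. -/
noncomputable def LipSimplex.face {n k : ℕ} (σ : LipSimplex n (k + 1)) (i : Fin (k + 2)) :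
    LipSimplex n k :=
  ⟨fun p => σ.1 (faceMap i p), by
    obtain ⟨K, hK⟩ := σ.2
    exact ⟨K * 1, hK.comp (faceMap_lipschitz i)⟩⟩

/-- Lipschitz `k`-chains: finite formal sums of Lipschitz `k`-simplices with integer
coefficients. -/
abbrev LipChain (n k : ℕ) : Type := LipSimplex n k →₀ ℤ

/-- The boundary operator `∂ σ = ∑ i, (-1)^i (i-th face of σ)`. -/
noncomputable def boundary {n : ℕ} (k : ℕ) : LipChain n (k + 1) →+ LipChain n k :=
  Finsupp.liftAddHom fun σ =>
    ∑ i : Fin (k + 2), ((-1 : ℤ) ^ (i : ℕ)) • Finsupp.singleAddHom (σ.face i)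

/-- A `k`-cycle is a `k`-chain with zero boundary. -/
def IsCycle {n : ℕ} : (k : ℕ) → LipChain n k → Prop
  | 0, _ => True
  | k + 1, a => boundary k a = 0

/-- Coordinates on the standard simplex: the affine parametrisation of `Δᵏ` by the ordered simplex
`0 ≤ y₀ ≤ y₁ ≤ ⋯ ≤ y_{k-1} ≤ 1` in `ℝᵏ`; the barycentric coordinates of the image of `y` are
`y₀, y₁ - y₀, …, 1 - y_{k-1}`. -/
noncomputable def ordParam {k : ℕ} (y : Fin k → ℝ) : Fin (k + 1) → ℝ :=
  fun j => (Fin.snoc y 1 : Fin (k + 1) → ℝ) j - (Fin.cons 0 y : Fin (k + 1) → ℝ) j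

/-- The interior of the ordered simplex. -/
def ordInterior (k : ℕ) : Set (Fin k → ℝ) := {y | ∀ j, 0 < ordParam y j}

open Classical in
/-- A simplex in the coordinates `ordParam` (extended by `0` outside of the simplex). -/
noncomputable def LipSimplex.coord {n k : ℕ} (σ : LipSimplex n k) (y : Fin k → ℝ) : E n :=
  if h : ordParam y ∈ stdSimplex ℝ (Fin (k + 1)) then σ.1 ⟨ordParam y, h⟩ else 0

/-- The Gram matrix at `y` of the partial derivatives of `σ` for the left-invariant Riemannian
metric. -/
noncomputable def gram {n k : ℕ} (G : ExpLieGroup n) (σ : LipSimplex n k) (y : Fin k → ℝ) :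
    Matrix (Fin k) (Fin k) ℝ :=
  Matrix.of fun i j =>
    inner ℝ (G.triv (σ.coord y) (fderiv ℝ σ.coord y (Pi.single i 1)))
      (G.triv (σ.coord y) (fderiv ℝ σ.coord y (Pi.single j 1)))

/-- The `k`-dimensional Riemannian volume of a Lipschitz `k`-simplex, counted with multiplicity:
the integral over `Δᵏ`, in the coordinates `ordParam`, of the Jacobian (the square root of the Gram
determinant of the partial derivatives), which is defined almost everywhere.  By the change of
variables formula the value does not depend on the choice of the coordinates on `Δᵏ`. -/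
noncomputable def simplexVol {n k : ℕ} (G : ExpLieGroup n) (σ : LipSimplex n k) : ℝ≥0∞ :=
  ∫⁻ y in ordInterior k, ENNReal.ofReal (Real.sqrt (gram G σ y).det)

/-- The mass of a Lipschitz chain `∑ aᵢ σᵢ` is `∑ |aᵢ| vol(σᵢ)`. -/
noncomputable def mass {n k : ℕ} (G : ExpLieGroup n) (a : LipChain n k) : ℝ≥0∞ :=
  a.sum fun σ m => (m.natAbs : ℝ≥0∞) * simplexVol G σ

/-- The filling volume function `FV^{k+1}`: the supremum over all `k`-cycles `a` of mass at most
`ℓ` of the infimum of the masses of the `(k+1)`-chains `b` with `∂ b = a`. -/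
noncomputable def fillVol {n : ℕ} (G : ExpLieGroup n) (k : ℕ) (ℓ : ℝ) : ℝ≥0∞ :=
  ⨆ (a : LipChain n k) (_ : IsCycle k a) (_ : mass G a ≤ ENNReal.ofReal ℓ),
    ⨅ (b : LipChain n (k + 1)) (_ : boundary k b = a), mass G b

/-- The relation `f ≼ g`: there is `C > 0` with `f(ℓ) ≤ C g(C ℓ) + C ℓ + C` for all `ℓ ≥ 0`. -/
def Preceq (f g : ℝ → ℝ≥0∞) : Prop :=
  ∃ C : ℝ, 0 < C ∧ ∀ ℓ : ℝ, 0 ≤ ℓ →
    f ℓ ≤ ENNReal.ofReal C * g (C * ℓ) + ENNReal.ofReal (C * ℓ + C)

/-- `FV^{k+1}` is super-Euclidean if it is not `≼ ℓ^{(k+1)/k}`. -/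
def SuperEuclidean {n : ℕ} (G : ExpLieGroup n) (k : ℕ) : Prop :=
  ¬ Preceq (fillVol G k) (fun ℓ => ENNReal.ofReal (ℓ ^ (((k : ℝ) + 1) / k)))

end Pool.Agent.Lib.P6a08f9
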