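import Mathlib

/-!
Mollification of Lipschitz maps: smooth approximations which converge together with the
derivative at every point of differentiability.
-/

open MeasureTheory Set Filter Topology

namespace Pool.Agent.Lib.P6a08f9

section

variable {m : ℕ} {W : Type*} [NormedAddCommGroup W] [NormedSpace ℝ W]

/-- A fixed bump function. -/
noncomputable def bumpφ (m : ℕ) : ContDiffBump (0 : Fin m → ℝ) := ⟨1 / 2, 1, by norm_num, by norm_num⟩

/-- the normalised kernel -/
noncomputable def ker (m : ℕ) : (Fin m → ℝ) → ℝ := (bumpφ m).normed volume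

theorem ker_contDiff (m : ℕ) (n : ℕ∞) : ContDiff ℝ n (ker m) := (bumpφ m).contDiff_normed

theorem ker_compact (m : ℕ) : HasCompactSupport (ker m) := (bumpφ m).hasCompactSupport_normed

theorem ker_nonneg (m : ℕ) (x) : 0 ≤ ker m x := (bumpφ m).nonneg_normed x

theorem ker_integral (m : ℕ) : ∫ x, ker m x = 1 := (bumpφ m).integral_normed

theorem ker_integrable (m : ℕ) : Integrable (ker m) := (bumpφ m).integrable_normed

theorem ker_zero {m : ℕ} {x : Fin m → ℝ} (hx : 1 < ‖x‖) : ker m x = 0 := by
  by_contra h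
  have h1 : x ∈ Function.support (ker m) := h
  rw [ker, (bumpφ m).support_normed_eq] at h1
  simp only [bumpφ, Metric.mem_ball, dist_zero_right] at h1
  linarith

theorem fderiv_ker_zero {m : ℕ} {x : Fin m → ℝ} (hx : 1 < ‖x‖) : fderiv ℝ (ker m) x = 0 := by
  have h1 : ker m =ᶠ[𝓝 x] fun _ => 0 := by
    have : {y : Fin m → ℝ | 1 < ‖y‖} ∈ 𝓝 x :=
      (isOpen_lt continuous_const continuous_norm).mem_nhds hx
    filter_upwards [this] with y hy using ker_zero hy
  rw [h1.fderiv_eq]; simp

/-- mollification at scale `ε`. -/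
noncomputable def moll (ε : ℝ) (f : (Fin m → ℝ) → W) (x : Fin m → ℝ) : W :=
  ∫ y, ker m y • f (x - ε • y)

theorem moll_integrable {f : (Fin m → ℝ) → W} (hf : Continuous f) (ε : ℝ) (x : Fin m → ℝ) :
    Integrable (fun y => ker m y • f (x - ε • y)) := by
  refine Continuous.integrable_of_hasCompactSupport ?_ ?_
  · exact ((ker_contDiff m 0).continuous).smul (hf.comp (by fun_prop))
  · exact (ker_compact m).smul_right

theorem moll_eq_conv {f : (Fin m → ℝ) → W} {ε : ℝ} (hε : ε ≠ 0) (x : Fin m → ℝ) :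
    moll ε f x = convolution (ker m) (fun u => f (ε • u)) (ContinuousLinearMap.lsmul ℝ ℝ) volume
      (ε⁻¹ • x) := by
  rw [moll, convolution_def]
  refine integral_congr_ae (ae_of_all _ fun y => ?_)
  simp only [ContinuousLinearMap.lsmul_apply]
  congr 2
  rw [smul_sub, smul_smul, mul_inv_cancel₀ hε, one_smul]

theorem moll_contDiff {f : (Fin m → ℝ) → W} (hf : Continuous f) {ε : ℝ} (hε : ε ≠ 0) (n : ℕ∞) :
    ContDiff ℝ n (moll ε f) := by
  have h1 : ContDiff ℝ n (convolution (ker m) (fun u => f (ε • u))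
      (ContinuousLinearMap.lsmul ℝ ℝ) volume) := by
    refine (ker_compact m).contDiff_convolution_left _ (ker_contDiff m n) ?_
    exact (hf.comp (by fun_prop)).locallyIntegrable
  have h2 : moll ε f = fun x => convolution (ker m) (fun u => f (ε • u))
      (ContinuousLinearMap.lsmul ℝ ℝ) volume (ε⁻¹ • x) := by
    funext x; exact moll_eq_conv hε x
  rw [h2]
  exact h1.comp (contDiff_const_smul _)

theorem moll_hasFDerivAt {f : (Fin m → ℝ) → W} (hf : Continuous f) {ε : ℝ} (hε : ε ≠ 0)
    (x : Fin m → ℝ) :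
    HasFDerivAt (moll ε f)
      (ε⁻¹ • ∫ y, (fderiv ℝ (ker m) y).smulRight (f (x - ε • y))) x := by
  have h1 := (ker_compact m).hasFDerivAt_convolution_left (𝕜 := ℝ) (μ := volume)
    (ContinuousLinearMap.lsmul ℝ ℝ) (ker_contDiff m 1)
    (g := fun u => f (ε • u)) ((hf.comp (by fun_prop)).locallyIntegrable) (ε⁻¹ • x)
  have h2 : HasFDerivAt (fun x : Fin m → ℝ => ε⁻¹ • x)
      (ε⁻¹ • ContinuousLinearMap.id ℝ (Fin m → ℝ)) x := by
    simpa using (hasFDerivAt_id (𝕜 := ℝ) x).const_smul ε⁻¹
  have h3 := h1.comp x h2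
  have h4 : moll ε f = (convolution (ker m) (fun u => f (ε • u))
      (ContinuousLinearMap.lsmul ℝ ℝ) volume) ∘ fun x => ε⁻¹ • x := by
    funext x; exact moll_eq_conv hε x
  rw [h4]
  refine h3.congr_fderiv ?_
  have h5 : (convolution (fderiv ℝ (ker m)) (fun u => f (ε • u))
      (ContinuousLinearMap.precompL (Fin m → ℝ) (ContinuousLinearMap.lsmul ℝ ℝ)) volume
      (ε⁻¹ • x)) = ∫ y, (fderiv ℝ (ker m) y).smulRight (f (x - ε • y)) := by
    rw [convolution_def]
    refine integral_congr_ae (ae_of_all _ fun y => ?_)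
    ext w
    simp only [ContinuousLinearMap.smulRight_apply, ContinuousLinearMap.precompL_apply,
      ContinuousLinearMap.lsmul_apply]
    congr 2
    rw [smul_sub, smul_smul, mul_inv_cancel₀ hε, one_smul]
  rw [h5]
  ext v
  simp

theorem ker_smul_integrable {f : (Fin m → ℝ) → W} (hf : Continuous f) :
    Integrable (fun y => ker m y • f y) := by
  refine Continuous.integrable_of_hasCompactSupport ?_ ?_
  · exact ((ker_contDiff m 0).continuous).smul hf
  · exact (ker_compact m).smul_right

theorem moll_lipschitz {f : (Fin m → ℝ) → W} {K : NNReal} (hf : LipschitzWith K f) (ε : ℝ) :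
    LipschitzWith K (moll ε f) := by
  refine LipschitzWith.of_dist_le_mul fun x x' => ?_
  rw [dist_eq_norm, moll, moll, ← integral_sub (moll_integrable hf.continuous ε x)
    (moll_integrable hf.continuous ε x')]
  have h1 : ∀ y, ‖ker m y • f (x - ε • y) - ker m y • f (x' - ε • y)‖ ≤
      ker m y * (K * dist x x') := by
    intro y
    rw [← smul_sub, norm_smul, Real.norm_of_nonneg (ker_nonneg m y)]
    refine mul_le_mul_of_nonneg_left ?_ (ker_nonneg m y)
    have := hf.dist_le_mul (x - ε • y) (x' - ε • y)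
    rwa [dist_eq_norm, dist_sub_right] at this
  calc ‖∫ y, (ker m y • f (x - ε • y) - ker m y • f (x' - ε • y))‖
      ≤ ∫ y, ker m y * (K * dist x x') :=
        norm_integral_le_of_norm_le ((ker_integrable m).mul_const _) (ae_of_all _ h1)
    _ = K * dist x x' := by rw [integral_mul_const, ker_integral, one_mul]

theorem moll_sub_le {f : (Fin m → ℝ) → W} {K : NNReal} (hf : LipschitzWith K f) (ε : ℝ)
    (x : Fin m → ℝ) [CompleteSpace W] : ‖moll ε f x - f x‖ ≤ K * |ε| := by
  have h0 : f x = ∫ y, ker m y • f x := by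
    rw [integral_smul_const, ker_integral, one_smul]
  rw [h0, moll, ← integral_sub (moll_integrable hf.continuous ε x)
    ((ker_integrable m).smul_const _)]
  have h1 : ∀ y, ‖ker m y • f (x - ε • y) - ker m y • f x‖ ≤ ker m y * (K * |ε|) := by
    intro y
    rw [← smul_sub, norm_smul, Real.norm_of_nonneg (ker_nonneg m y)]
    by_cases hy : 1 < ‖y‖
    · rw [ker_zero hy]; simp
    · refine mul_le_mul_of_nonneg_left ?_ (ker_nonneg m y)
      have := hf.dist_le_mul (x - ε • y) x
      rw [dist_eq_norm, dist_eq_norm, sub_sub_cancel_left, norm_neg, norm_smul,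
        Real.norm_eq_abs] at this
      refine this.trans ?_
      refine mul_le_mul_of_nonneg_left ?_ K.2
      push Not at hy
      nlinarith [abs_nonneg ε, norm_nonneg y]
  calc ‖∫ y, (ker m y • f (x - ε • y) - ker m y • f x)‖
      ≤ ∫ y, ker m y * (K * |ε|) :=
        norm_integral_le_of_norm_le ((ker_integrable m).mul_const _) (ae_of_all _ h1)
    _ = K * |ε| := by rw [integral_mul_const, ker_integral, one_mul]

theorem fderiv_moll_affine [CompleteSpace W] (c : W) (T : (Fin m → ℝ) →L[ℝ] W)
    (x0 : Fin m → ℝ) (ε : ℝ) (x : Fin m → ℝ) :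
    HasFDerivAt (moll ε (fun z => c + T (z - x0))) T x := by
  have h1 : moll ε (fun z => c + T (z - x0)) =
      fun z => c + T (z - x0) - ε • ∫ y, ker m y • T y := by
    funext z
    rw [moll]
    have h2 : ∀ y, ker m y • (c + T (z - ε • y - x0)) =
        ker m y • (c + T (z - x0)) - ε • (ker m y • T y) := by
      intro y
      have : z - ε • y - x0 = (z - x0) - ε • y := by abel
      rw [this, T.map_sub, T.map_smul, ← add_sub_assoc, smul_sub]
      congr 1
      rw [smul_comm]
    simp only [h2]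
    rw [integral_sub, integral_smul_const, ker_integral, one_smul, integral_smul]
    · exact (ker_integrable m).smul_const _
    · exact (ker_smul_integrable T.continuous).smul ε
  rw [h1]
  have h3 : HasFDerivAt (fun z => T (z - x0)) T x := by
    have h4 : HasFDerivAt (fun z : Fin m → ℝ => z - x0) (ContinuousLinearMap.id ℝ _) x :=
      (hasFDerivAt_id (𝕜 := ℝ) x).sub_const x0
    have h5 : HasFDerivAt T T (x - x0) := T.hasFDerivAt
    exact h5.comp x h4
  exact (h3.const_add c).sub_const _

theorem fderiv_moll_tendsto [CompleteSpace W] {f : (Fin m → ℝ) → W} (hf : Continuous f)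
    {x : Fin m → ℝ} (hx : DifferentiableAt ℝ f x) :
    Tendsto (fun k : ℕ => fderiv ℝ (moll (1 / ((k : ℝ) + 1)) f) x) atTop (𝓝 (fderiv ℝ f x)) := by
  set T := fderiv ℝ f x with hT
  set g : (Fin m → ℝ) → W := fun z => f z - (f x + T (z - x)) with hg
  have hgc : Continuous g := hf.sub (by fun_prop)
  have hsplit : ∀ ε : ℝ, ε ≠ 0 → fderiv ℝ (moll ε f) x =
      (ε⁻¹ • ∫ y, (fderiv ℝ (ker m) y).smulRight (g (x - ε • y))) + T := by
    intro ε hε
    have h1 := moll_hasFDerivAt hgc hε x
    have h2 := fderiv_moll_affine (f x) T x ε x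
    have h3 : moll ε f = fun z => moll ε g z + moll ε (fun z => f x + T (z - x)) z := by
      funext z
      have hac : Continuous (fun z => f x + T (z - x)) := by fun_prop
      rw [moll, moll, moll, ← integral_add (moll_integrable hgc ε z)
        (moll_integrable hac ε z)]
      refine integral_congr_ae (ae_of_all _ fun y => ?_)
      simp only [hg]
      rw [← smul_add, sub_add_cancel]
    rw [h3]
    exact (h1.add h2).fderiv
  have hI : Integrable (fun y => ‖fderiv ℝ (ker m) y‖) := by
    refine Continuous.integrable_of_hasCompactSupport ?_ ?_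
    · exact ((ker_contDiff m 1).continuous_fderiv (by norm_num)).norm
    · exact ((ker_compact m).fderiv ℝ).norm
  set M : ℝ := ∫ y, ‖fderiv ℝ (ker m) y‖ with hM
  have hM0 : 0 ≤ M := integral_nonneg fun y => norm_nonneg _
  rw [Metric.tendsto_atTop]
  intro δ hδ
  have hδ' : 0 < δ / (2 * (M + 1)) := by positivity
  have h1 := hx.hasFDerivAt.isLittleO
  have h2 := h1.def hδ'
  rw [Metric.eventually_nhds_iff] at h2
  obtain ⟨ρ, hρ, h2⟩ := h2
  obtain ⟨N, hN⟩ := exists_nat_one_div_lt hρ
  refine ⟨N, fun k hk => ?_⟩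
  set ε : ℝ := 1 / ((k : ℝ) + 1) with hε
  have hε0 : 0 < ε := by positivity
  have hερ : ε < ρ := by
    refine lt_of_le_of_lt ?_ hN
    refine one_div_le_one_div_of_le (by positivity) ?_
    have : (N : ℝ) ≤ k := by exact_mod_cast hk
    linarith
  rw [hsplit ε hε0.ne', dist_eq_norm, add_sub_cancel_right, norm_smul, norm_inv,
    Real.norm_of_nonneg hε0.le]
  have h3 : ∀ y, ‖(fderiv ℝ (ker m) y).smulRight (g (x - ε • y))‖ ≤
      ‖fderiv ℝ (ker m) y‖ * (δ / (2 * (M + 1)) * ε) := by
    intro y
    rw [ContinuousLinearMap.norm_smulRight_apply]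
    by_cases hy : 1 < ‖y‖
    · rw [fderiv_ker_zero hy]; simp
    · push Not at hy
      refine mul_le_mul_of_nonneg_left ?_ (norm_nonneg _)
      have h4 : dist (x - ε • y) x < ρ := by
        rw [dist_eq_norm, sub_sub_cancel_left, norm_neg, norm_smul, Real.norm_of_nonneg hε0.le]
        nlinarith
      have h5 := h2 h4
      have h6 : g (x - ε • y) = f (x - ε • y) - f x - T (x - ε • y - x) := by
        simp only [hg]; abel
      rw [h6]
      refine h5.trans ?_
      refine mul_le_mul_of_nonneg_left ?_ hδ'.le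
      rw [sub_sub_cancel_left, norm_neg, norm_smul, Real.norm_of_nonneg hε0.le]
      nlinarith
  have h4 : ‖∫ y, (fderiv ℝ (ker m) y).smulRight (g (x - ε • y))‖ ≤
      M * (δ / (2 * (M + 1)) * ε) := by
    rw [hM, ← integral_mul_const]
    exact norm_integral_le_of_norm_le (hI.mul_const _) (ae_of_all _ h3)
  calc ε⁻¹ * ‖∫ y, (fderiv ℝ (ker m) y).smulRight (g (x - ε • y))‖
      ≤ ε⁻¹ * (M * (δ / (2 * (M + 1)) * ε)) :=
        mul_le_mul_of_nonneg_left h4 (inv_nonneg.2 hε0.le)
    _ = M / (M + 1) * (δ / 2) := by field_simp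
    _ ≤ 1 * (δ / 2) := by
        refine mul_le_mul_of_nonneg_right ?_ (by positivity)
        rw [div_le_one (by positivity)]; linarith
    _ < δ := by linarith

theorem moll_tendsto [CompleteSpace W] {f : (Fin m → ℝ) → W} {K : NNReal}
    (hf : LipschitzWith K f) (x : Fin m → ℝ) :
    Tendsto (fun k : ℕ => moll (1 / ((k : ℝ) + 1)) f x) atTop (𝓝 (f x)) := by
  rw [tendsto_iff_norm_sub_tendsto_zero]
  have h1 : Tendsto (fun k : ℕ => (K : ℝ) * |1 / ((k : ℝ) + 1)|) atTop (𝓝 0) := by
    have h2 := (tendsto_one_div_add_atTop_nhds_zero_nat (𝕜 := ℝ)).abs.const_mul (K : ℝ)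
    simpa using h2
  exact squeeze_zero (fun k => norm_nonneg _) (fun k => moll_sub_le hf _ x) h1

end

end Pool.Agent.Lib.P6a08f9
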