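import Pool.Agent.Lib.P6a08f9.Forms
import Pool.Agent.Lib.P6a08f9.Mollify

/-!
Stokes' theorem on a cube for Lipschitz maps.
-/

open MeasureTheory Set Filter Topology

namespace Pool.Agent.Lib.P6a08f9

/-- clamp a real number to `[0,1]` -/
noncomputable def cl (t : ℝ) : ℝ := max 0 (min t 1)

/-- clamp all coordinates to `[0,1]` -/
noncomputable def clampV {m : ℕ} (x : Fin m → ℝ) : Fin m → ℝ := fun i => cl (x i)

theorem cl_of_one_le {t : ℝ} (h : 1 ≤ t) : cl t = 1 := by
  rw [cl, min_eq_right h]; norm_num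

theorem cl_of_nonpos {t : ℝ} (h : t ≤ 0) : cl t = 0 := by
  rw [cl, min_eq_left (h.trans zero_le_one), max_eq_left h]

theorem cl_of_mem {t : ℝ} (h0 : 0 ≤ t) (h : t ≤ 1) : cl t = t := by
  rw [cl, min_eq_left h, max_eq_right h0]

theorem cl_nonneg (t : ℝ) : 0 ≤ cl t := le_max_left _ _

theorem cl_le_one (t : ℝ) : cl t ≤ 1 := by
  rw [cl]; exact max_le zero_le_one (min_le_right _ _)

theorem cl_lipschitz : LipschitzWith 1 cl := by
  have h1 : LipschitzWith 1 (fun t : ℝ => min t 1) := LipschitzWith.id.min_const 1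
  exact h1.const_max 0

theorem clampV_lipschitz {m : ℕ} : LipschitzWith 1 (clampV (m := m)) := by
  refine LipschitzWith.of_dist_le_mul fun x y => ?_
  rw [NNReal.coe_one, one_mul]
  refine (dist_pi_le_iff dist_nonneg).2 fun i => ?_
  refine (cl_lipschitz.dist_le_mul (x i) (y i)).trans ?_
  rw [NNReal.coe_one, one_mul]
  exact dist_le_pi_dist x y i

set_option linter.unusedSectionVars false

variable {W : Type*} [NormedAddCommGroup W] [NormedSpace ℝ W] [FiniteDimensional ℝ W] {m : ℕ}

/-- the restriction to a hyperplane `x_i = c` -/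
def slice (f : (Fin (m + 1) → ℝ) → W) (i : Fin (m + 1)) (c : ℝ) : (Fin m → ℝ) → W :=
  fun z => f (i.insertNth c z)

theorem dist_insertNth (i : Fin (m + 1)) (c : ℝ) (z z' : Fin m → ℝ) :
    dist (i.insertNth c z : Fin (m + 1) → ℝ) (i.insertNth c z') ≤ dist z z' := by
  refine (dist_pi_le_iff dist_nonneg).2 fun j => ?_
  refine Fin.succAboveCases i ?_ (fun j => ?_) j
  · simp
  · simp only [Fin.insertNth_apply_succAbove]
    exact dist_le_pi_dist z z' j

theorem slice_lipschitz {f : (Fin (m + 1) → ℝ) → W} {K : NNReal} (hf : LipschitzWith K f)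
    (i : Fin (m + 1)) (c : ℝ) : LipschitzWith K (slice f i c) := by
  refine LipschitzWith.of_dist_le_mul fun z z' => ?_
  refine (hf.dist_le_mul _ _).trans ?_
  exact mul_le_mul_of_nonneg_left (dist_insertNth i c z z') K.2

/-- removing the `i`-th coordinate, as a continuous linear map -/
noncomputable def remL (m : ℕ) (i : Fin (m + 1)) : (Fin (m + 1) → ℝ) →L[ℝ] (Fin m → ℝ) :=
  ContinuousLinearMap.pi fun j => ContinuousLinearMap.proj (i.succAbove j)

theorem remL_apply (i : Fin (m + 1)) (x : Fin (m + 1) → ℝ) : remL m i x = i.removeNth x := rfl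

theorem remL_stdE (i : Fin (m + 1)) (j : Fin m) :
    remL m i (stdE (m + 1) (i.succAbove j)) = stdE m j := by
  ext k
  simp only [remL_apply, Fin.removeNth, stdE, Pi.single_apply, Fin.succAbove_right_inj]

theorem eventually_eq_slice {f : (Fin (m + 1) → ℝ) → W} (hc : ∀ x, f x = f (clampV x))
    (i : Fin (m + 1)) (c c' : ℝ) (hcc : (1 < c ∧ c' = 1) ∨ (c < 0 ∧ c' = 0)) (z : Fin m → ℝ) :
    f =ᶠ[𝓝 (i.insertNth c z)] fun x => slice f i c' (remL m i x) := by
  have key : ∀ x : Fin (m + 1) → ℝ, cl (x i) = cl c' → f x = slice f i c' (remL m i x) := by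
    intro x hx
    rw [slice, hc x, hc (i.insertNth c' _)]
    congr 1
    funext j
    refine Fin.succAboveCases i ?_ (fun j => ?_) j
    · simp only [clampV, Fin.insertNth_apply_same, hx]
    · simp only [clampV, Fin.insertNth_apply_succAbove, remL_apply, Fin.removeNth]
  have hcont : Continuous fun x : Fin (m + 1) → ℝ => x i := continuous_apply i
  rcases hcc with ⟨h1, rfl⟩ | ⟨h1, rfl⟩
  · have : {x : Fin (m + 1) → ℝ | 1 < x i} ∈ 𝓝 (i.insertNth c z : Fin (m + 1) → ℝ) :=
      (isOpen_lt continuous_const hcont).mem_nhds (by simpa using h1)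
    filter_upwards [this] with x hx
    refine key x ?_
    rw [cl_of_one_le (le_of_lt hx), cl_of_one_le le_rfl]
  · have : {x : Fin (m + 1) → ℝ | x i < 0} ∈ 𝓝 (i.insertNth c z : Fin (m + 1) → ℝ) :=
      (isOpen_lt hcont continuous_const).mem_nhds (by simpa using h1)
    filter_upwards [this] with x hx
    refine key x ?_
    rw [cl_of_nonpos (le_of_lt hx), cl_of_nonpos le_rfl]

theorem norm_alt_le (F : W [⋀^Fin m]→L[ℝ] ℝ) (v : Fin m → W) (C : ℝ)
    (hv : ∀ i, ‖v i‖ ≤ C) : |F v| ≤ ‖F‖ * C ^ m := by
  rw [← Real.norm_eq_abs]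
  refine (F.le_opNorm v).trans ?_
  refine mul_le_mul_of_nonneg_left ?_ (norm_nonneg _)
  calc ∏ i, ‖v i‖ ≤ ∏ _i : Fin m, C :=
        Finset.prod_le_prod (fun i _ => norm_nonneg _) (fun i _ => hv i)
    _ = C ^ m := by simp

theorem norm_stdE (i : Fin m) : ‖stdE m i‖ = 1 := by
  rw [stdE, Pi.norm_single, norm_one]

theorem norm_fderiv_stdE_le {f : (Fin m → ℝ) → W} {K : NNReal} (hf : LipschitzWith K f)
    (x : Fin m → ℝ) (i : Fin m) : ‖fderiv ℝ f x (stdE m i)‖ ≤ K := by
  refine ((fderiv ℝ f x).le_opNorm _).trans ?_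
  rw [norm_stdE, mul_one]
  exact norm_fderiv_le_of_lipschitz ℝ hf

theorem volume_Icc_lt_top (a b : Fin m → ℝ) : volume (Icc a b) < ⊤ := isCompact_Icc.measure_lt_top

theorem stokes_lipschitz (F : W [⋀^Fin (m + 1)]→L[ℝ] ℝ) (f : (Fin (m + 1) → ℝ) → W) {K : NNReal}
    (hf : LipschitzWith K f) (hc : ∀ x, f x = f (clampV x)) :
    ((m : ℝ) + 1) * ∫ x in Icc (fun _ => (-1 : ℝ)) (fun _ => (2 : ℝ)),
        F (fun j => fderiv ℝ f x (stdE (m + 1) j)) =
      ∑ i : Fin (m + 1), (-1 : ℝ) ^ (i : ℕ) *
        ((∫ z in Icc (fun _ => (-1 : ℝ)) (fun _ => (2 : ℝ)), pb F (slice f i 1) z (stdE m)) -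
          ∫ z in Icc (fun _ => (-1 : ℝ)) (fun _ => (2 : ℝ)), pb F (slice f i 0) z (stdE m)) := by
  classical
  set fk : ℕ → (Fin (m + 1) → ℝ) → W := fun k => moll (1 / ((k : ℝ) + 1)) f with hfk
  have hε : ∀ k : ℕ, (1 / ((k : ℝ) + 1)) ≠ 0 := fun k => by positivity
  have hfkc : ∀ k, ContDiff ℝ 2 (fk k) := fun k => moll_contDiff hf.continuous (hε k) 2
  have hfkL : ∀ k, LipschitzWith K (fk k) := fun k => moll_lipschitz hf _
  have hab : (fun _ : Fin (m + 1) => (-1 : ℝ)) ≤ fun _ => (2 : ℝ) := fun i => by norm_num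
  have hst := fun k => stokes_box (pb F (fk k)) (pb_differentiable F (hfkc k))
    (fun i => pb_contDiff F (hfkc k) _) _ _ hab
  -- left hand side
  have hL : Tendsto (fun k => ∫ x in Icc (fun _ : Fin (m + 1) => (-1 : ℝ)) (fun _ => (2 : ℝ)),
      extDeriv (pb F (fk k)) x (stdE (m + 1))) atTop
      (𝓝 (((m : ℝ) + 1) * ∫ x in Icc (fun _ => (-1 : ℝ)) (fun _ => (2 : ℝ)),
        F (fun j => fderiv ℝ f x (stdE (m + 1) j)))) := by
    rw [← integral_const_mul]
    refine tendsto_integral_of_dominated_convergence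
      (fun _ => ((m : ℝ) + 1) * (‖F‖ * (K : ℝ) ^ (m + 1))) ?_ ?_ ?_ ?_
    · intro k
      have : Continuous fun x => extDeriv (pb F (fk k)) x (stdE (m + 1)) := by
        have h1 : (fun x => extDeriv (pb F (fk k)) x (stdE (m + 1))) =
            fun x => ((m : ℝ) + 1) * F (fun j => fderiv ℝ (fk k) x (stdE (m + 1) j)) := by
          funext x; exact pb_extDeriv F (hfkc k) x _
        rw [h1]
        refine continuous_const.mul (F.cont.comp (continuous_pi fun j => ?_))
        exact ((hfkc k).continuous_fderiv (by norm_num)).clm_apply continuous_const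
      exact this.aestronglyMeasurable
    · exact integrableOn_const (volume_Icc_lt_top _ _).ne
    · intro k
      refine ae_of_all _ fun x => ?_
      rw [pb_extDeriv F (hfkc k), norm_mul]
      have h1 : ‖(m : ℝ) + 1‖ = (m : ℝ) + 1 := Real.norm_of_nonneg (by positivity)
      rw [h1]
      refine mul_le_mul_of_nonneg_left ?_ (by positivity)
      rw [Real.norm_eq_abs]
      exact norm_alt_le F _ _ (fun i => norm_fderiv_stdE_le (hfkL k) x i)
    · have hae : ∀ᵐ x ∂(volume.restrict (Icc (fun _ : Fin (m + 1) => (-1 : ℝ)) (fun _ => (2 : ℝ)))),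
          DifferentiableAt ℝ f x := ae_restrict_of_ae hf.ae_differentiableAt
      filter_upwards [hae] with x hx
      have h1 : ∀ k, extDeriv (pb F (fk k)) x (stdE (m + 1)) =
          ((m : ℝ) + 1) * F (fun j => fderiv ℝ (fk k) x (stdE (m + 1) j)) :=
        fun k => pb_extDeriv F (hfkc k) x _
      simp only [h1]
      refine Tendsto.const_mul _ ?_
      refine (F.cont.tendsto _).comp ?_
      refine tendsto_pi_nhds.2 fun j => ?_
      have h2 := fderiv_moll_tendsto hf.continuous hx
      exact ((ContinuousLinearMap.apply ℝ W (stdE (m + 1) j)).continuous.tendsto _).comp h2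
  -- the faces
  have hface : ∀ (i : Fin (m + 1)) (c c' : ℝ), ((1 < c ∧ c' = 1) ∨ (c < 0 ∧ c' = 0)) →
      Tendsto (fun k => ∫ z in Icc (fun _ : Fin m => (-1 : ℝ)) (fun _ => (2 : ℝ)),
        pb F (fk k) (i.insertNth c z) (i.removeNth (stdE (m + 1)))) atTop
        (𝓝 (∫ z in Icc (fun _ => (-1 : ℝ)) (fun _ => (2 : ℝ)),
          pb F (slice f i c') z (stdE m))) := by
    intro i c c' hcc
    have hins : Continuous fun z : Fin m → ℝ => (i.insertNth c z : Fin (m + 1) → ℝ) := by
      refine continuous_pi fun j => ?_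
      refine Fin.succAboveCases i ?_ (fun j => ?_) j
      · simpa using continuous_const
      · simpa using continuous_apply j
    set C : ℝ := ‖f (fun _ => 0)‖ + K * 3 + (K + K * |c|) with hC
    have hC0 : 0 ≤ C := by positivity
    refine tendsto_integral_of_dominated_convergence
      (fun _ => ‖F‖ * C ^ (m + 1)) ?_ ?_ ?_ ?_
    · intro k
      have : Continuous fun z => pb F (fk k) (i.insertNth c z) (i.removeNth (stdE (m + 1))) :=
        (pb_contDiff F (hfkc k) _).continuous.comp hins
      exact this.aestronglyMeasurable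
    · exact integrableOn_const (volume_Icc_lt_top _ _).ne
    · intro k
      filter_upwards [ae_restrict_mem measurableSet_Icc] with z hz
      rw [pb_apply, Real.norm_eq_abs]
      refine norm_alt_le F _ _ fun j => ?_
      refine Fin.cases ?_ (fun j => ?_) j
      · simp only [Fin.cons_zero]
        have h1 : ‖fk k (i.insertNth c z) - f (i.insertNth c z)‖ ≤ K := by
          refine (moll_sub_le hf _ _).trans ?_
          have h2 : |1 / ((k : ℝ) + 1)| ≤ 1 := by
            rw [abs_of_pos (by positivity), div_le_one (by positivity)]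
            have : (0 : ℝ) ≤ k := by positivity
            linarith
          calc (K : ℝ) * |1 / ((k : ℝ) + 1)| ≤ K * 1 := mul_le_mul_of_nonneg_left h2 K.2
            _ = K := mul_one _
        have h3 : ‖f (i.insertNth c z) - f (fun _ => 0)‖ ≤ K * (2 + |c|) := by
          rw [← dist_eq_norm]
          refine (hf.dist_le_mul _ _).trans ?_
          refine mul_le_mul_of_nonneg_left ?_ K.2
          refine (dist_pi_le_iff (by positivity)).2 fun j => ?_
          refine Fin.succAboveCases i ?_ (fun j => ?_) j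
          · simp only [Fin.insertNth_apply_same, Real.dist_eq, sub_zero]; linarith
          · simp only [Fin.insertNth_apply_succAbove, Real.dist_eq, sub_zero]
            have h4 := hz.1 j
            have h5 := hz.2 j
            simp only at h4 h5
            have : |z j| ≤ 2 := abs_le.2 ⟨by linarith, h5⟩
            have := abs_nonneg c
            linarith
        have h6 : ‖fk k (i.insertNth c z)‖ ≤ ‖fk k (i.insertNth c z) - f (i.insertNth c z)‖ +
            ‖f (i.insertNth c z) - f (fun _ => 0)‖ + ‖f (fun _ => 0)‖ := by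
          have : fk k (i.insertNth c z) = (fk k (i.insertNth c z) - f (i.insertNth c z)) +
            (f (i.insertNth c z) - f (fun _ => 0)) + f (fun _ => 0) := by abel
          calc ‖fk k (i.insertNth c z)‖ = ‖(fk k (i.insertNth c z) - f (i.insertNth c z)) +
            (f (i.insertNth c z) - f (fun _ => 0)) + f (fun _ => 0)‖ := by rw [← this]
            _ ≤ _ := norm_add₃_le
        have hK0 : (0 : ℝ) ≤ K := K.2
        have : (K : ℝ) * (2 + |c|) = 2 * K + K * |c| := by ring
        rw [hC]
        linarith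
      · simp only [Fin.cons_succ, Fin.removeNth]
        refine (norm_fderiv_stdE_le (hfkL k) _ _).trans ?_
        have hK0 : (0 : ℝ) ≤ K := K.2
        rw [hC]
        have : 0 ≤ (K : ℝ) * |c| := by positivity
        have := norm_nonneg (f (fun _ => 0))
        linarith
    · have hae : ∀ᵐ z ∂(volume.restrict (Icc (fun _ : Fin m => (-1 : ℝ)) (fun _ => (2 : ℝ)))),
          DifferentiableAt ℝ (slice f i c') z :=
        ae_restrict_of_ae (slice_lipschitz hf i c').ae_differentiableAt
      filter_upwards [hae] with z hz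
      have hev := eventually_eq_slice hc i c c' hcc z
      have hR : remL m i (i.insertNth c z) = z := by
        rw [remL_apply]; simp
      have hdf : HasFDerivAt f ((fderiv ℝ (slice f i c') z).comp (remL m i)) (i.insertNth c z) := by
        have h1 : HasFDerivAt (slice f i c') (fderiv ℝ (slice f i c') z)
            (remL m i (i.insertNth c z)) := by rw [hR]; exact hz.hasFDerivAt
        exact (h1.comp _ (remL m i).hasFDerivAt).congr_of_eventuallyEq hev
      have h2 := fderiv_moll_tendsto hf.continuous hdf.differentiableAt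
      have h3 := moll_tendsto hf (i.insertNth c z)
      simp only [pb_apply]
      refine (F.cont.tendsto _).comp ?_
      refine tendsto_pi_nhds.2 fun j => ?_
      refine Fin.cases ?_ (fun j => ?_) j
      · simp only [Fin.cons_zero]
        have h4 : f (i.insertNth c z) = slice f i c' z := by
          have h5 := hev.self_of_nhds
          simp only [hR] at h5
          exact h5
        rw [← h4]; exact h3
      · simp only [Fin.cons_succ]
        have h4 : fderiv ℝ (slice f i c') z (stdE m j) =
            fderiv ℝ f (i.insertNth c z) (i.removeNth (stdE (m + 1)) j) := by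
          rw [hdf.fderiv, ContinuousLinearMap.comp_apply]
          congr 1
          exact (remL_stdE i j).symm
        rw [h4]
        exact ((ContinuousLinearMap.apply ℝ W _).continuous.tendsto _).comp h2
  have hR := tendsto_finsetSum (Finset.univ : Finset (Fin (m + 1))) fun i _ =>
    (((hface i 2 1 (Or.inl ⟨by norm_num, rfl⟩)).sub
      (hface i (-1) 0 (Or.inr ⟨by norm_num, rfl⟩))).const_mul ((-1 : ℝ) ^ (i : ℕ)))
  refine tendsto_nhds_unique hL (hR.congr fun k => ?_)
  rw [hst k]
  rfl

end Pool.Agent.Lib.P6a08f9
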