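import Pool.Agent.Lib.P6a08f9.Chains
import Pool.Agent.Lib.P6a08f9.StokesLip

/-!
Cubical parametrisation of simplices, and Stokes' theorem for Lipschitz simplices in top
dimension.
-/

open MeasureTheory Set Filter Topology

namespace Pool.Agent.Lib.P6a08f9

/-- `Y s j = ∏_{l ≥ j} s l` -/
noncomputable def Yp {k : ℕ} (s : Fin k → ℝ) (j : Fin (k + 1)) : ℝ :=
  ∏ l : Fin k, if j ≤ l.castSucc then s l else 1

theorem Yp_last {k : ℕ} (s : Fin k → ℝ) : Yp s (Fin.last k) = 1 := by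
  refine Finset.prod_eq_one fun l _ => ?_
  rw [if_neg]
  rw [not_le]; exact Fin.castSucc_lt_last l

theorem Yp_step {k : ℕ} (s : Fin k → ℝ) (i : Fin k) :
    Yp s i.castSucc = s i * Yp s i.succ := by
  classical
  rw [Yp, Yp, ← Finset.mul_prod_erase Finset.univ _ (Finset.mem_univ i),
    ← Finset.mul_prod_erase Finset.univ
      (fun l : Fin k => if i.succ ≤ l.castSucc then s l else 1) (Finset.mem_univ i)]
  simp only [le_refl, if_true]
  have h1 : ¬ (i.succ ≤ i.castSucc) := by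
    rw [not_le]; exact Fin.castSucc_lt_succ
  rw [if_neg h1, one_mul]
  congr 1
  refine Finset.prod_congr rfl fun l hl => ?_
  have hne : l ≠ i := (Finset.mem_erase.1 hl).1
  have : (i.castSucc ≤ l.castSucc) ↔ (i.succ ≤ l.castSucc) := by
    have hne' : (l : ℕ) ≠ i := fun h => hne (Fin.ext h)
    simp only [Fin.le_def, Fin.val_castSucc, Fin.val_succ]
    omega
  simp only [this]

theorem Yp_nonneg {k : ℕ} {s : Fin k → ℝ} (hs : ∀ i, 0 ≤ s i) (j : Fin (k + 1)) : 0 ≤ Yp s j := by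
  refine Finset.prod_nonneg fun l _ => ?_
  split_ifs
  · exact hs l
  · exact zero_le_one

theorem Yp_pos {k : ℕ} {s : Fin k → ℝ} (hs : ∀ i, 0 < s i) (j : Fin (k + 1)) : 0 < Yp s j := by
  refine Finset.prod_pos fun l _ => ?_
  split_ifs
  · exact hs l
  · exact zero_lt_one

/-- the point of the ordered simplex with cube coordinates `s` -/
noncomputable def Yc {k : ℕ} (s : Fin k → ℝ) : Fin k → ℝ := fun i => Yp s i.castSucc

theorem snoc_Yc {k : ℕ} (s : Fin k → ℝ) : (Fin.snoc (Yc s) 1 : Fin (k + 1) → ℝ) = Yp s := by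
  funext j
  refine Fin.lastCases ?_ (fun j => ?_) j
  · rw [Fin.snoc_last, Yp_last]
  · rw [Fin.snoc_castSucc]; rfl

/-- barycentric coordinates as a function of the cube coordinates -/
noncomputable def duffy {k : ℕ} (s : Fin k → ℝ) : Fin (k + 1) → ℝ := ordParam (Yc s)

theorem duffy_zero {k : ℕ} (s : Fin k → ℝ) : duffy s 0 = Yp s 0 := by
  rw [duffy, ordParam, snoc_Yc]; simp

theorem duffy_succ {k : ℕ} (s : Fin k → ℝ) (i : Fin k) :
    duffy s i.succ = (1 - s i) * Yp s i.succ := by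
  rw [duffy, ordParam, snoc_Yc]
  simp only [Fin.cons_succ, Yc]
  rw [Yp_step]; ring

theorem sum_ordParam {k : ℕ} (y : Fin k → ℝ) : ∑ j, ordParam y j = 1 := by
  simp only [ordParam, Finset.sum_sub_distrib]
  rw [Fin.sum_univ_castSucc, Fin.sum_univ_succ (f := (Fin.cons 0 y : Fin (k + 1) → ℝ))]
  simp

theorem duffy_nonneg {k : ℕ} {s : Fin k → ℝ} (h0 : ∀ i, 0 ≤ s i) (h1 : ∀ i, s i ≤ 1)
    (j : Fin (k + 1)) : 0 ≤ duffy s j := by
  refine Fin.cases ?_ (fun i => ?_) j
  · rw [duffy_zero]; exact Yp_nonneg h0 _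
  · rw [duffy_succ]
    exact mul_nonneg (by linarith [h1 i]) (Yp_nonneg h0 _)

theorem duffy_pos {k : ℕ} {s : Fin k → ℝ} (h0 : ∀ i, 0 < s i) (h1 : ∀ i, s i < 1)
    (j : Fin (k + 1)) : 0 < duffy s j := by
  refine Fin.cases ?_ (fun i => ?_) j
  · rw [duffy_zero]; exact Yp_pos h0 _
  · rw [duffy_succ]
    exact mul_pos (by linarith [h1 i]) (Yp_pos h0 _)

/-- the map from the (clamped) cube to the simplex -/
noncomputable def cubeMap {k : ℕ} (s : Fin k → ℝ) : Splx k :=
  ⟨duffy (clampV s), ⟨fun j => duffy_nonneg (fun i => cl_nonneg _) (fun i => cl_le_one _) j,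
    sum_ordParam _⟩⟩

theorem cubeMap_clamp {k : ℕ} (s : Fin k → ℝ) : cubeMap (clampV s) = cubeMap s := by
  apply Subtype.ext
  change duffy (clampV (clampV s)) = duffy (clampV s)
  congr 1
  funext i
  exact cl_of_mem (cl_nonneg _) (cl_le_one _)

theorem Yp_contDiff {k : ℕ} (j : Fin (k + 1)) : ContDiff ℝ (⊤ : ℕ∞) (fun s : Fin k → ℝ => Yp s j) := by
  unfold Yp
  refine contDiff_prod fun l _ => ?_
  split_ifs
  · exact contDiff_apply ℝ ℝ l
  · exact contDiff_const

theorem duffy_contDiff {k : ℕ} : ContDiff ℝ (⊤ : ℕ∞) (fun s : Fin k → ℝ => duffy s) := by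
  refine contDiff_pi.2 fun j => ?_
  refine Fin.cases ?_ (fun i => ?_) j
  · simp only [duffy_zero]; exact Yp_contDiff 0
  · simp only [duffy_succ]
    exact (contDiff_const.sub (contDiff_apply ℝ ℝ i)).mul (Yp_contDiff _)

theorem exists_lipschitzOn {V W : Type*} [NormedAddCommGroup V] [NormedSpace ℝ V]
    [NormedAddCommGroup W] [NormedSpace ℝ W] {f : V → W} (hf : ContDiff ℝ 1 f) {s : Set V}
    (hs : IsCompact s) (hc : Convex ℝ s) : ∃ K : NNReal, LipschitzOnWith K f s := by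
  obtain ⟨C, hC⟩ := hs.exists_bound_of_continuousOn (hf.continuous_fderiv one_ne_zero).continuousOn
  refine ⟨Real.toNNReal C, ?_⟩
  refine hc.lipschitzOnWith_of_nnnorm_fderiv_le
    (fun x _ => hf.differentiable one_ne_zero x) fun x hx => ?_
  rw [← NNReal.coe_le_coe, coe_nnnorm]
  exact (hC x hx).trans (Real.le_coe_toNNReal C)

theorem clampV_mem {k : ℕ} (s : Fin k → ℝ) : clampV s ∈ Icc (fun _ : Fin k => (0 : ℝ)) (fun _ => 1) :=
  ⟨fun _ => cl_nonneg _, fun _ => cl_le_one _⟩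

theorem cubeMap_lipschitz {k : ℕ} : ∃ K : NNReal, LipschitzWith K (cubeMap (k := k)) := by
  obtain ⟨K, hK⟩ := exists_lipschitzOn (f := fun s : Fin k → ℝ => duffy s)
    (duffy_contDiff.of_le (by exact_mod_cast le_top))
    (s := Icc (fun _ : Fin k => (0 : ℝ)) (fun _ => 1)) isCompact_Icc (convex_Icc _ _)
  refine ⟨K, LipschitzWith.of_dist_le_mul fun s s' => ?_⟩
  rw [Subtype.dist_eq]
  refine (hK.dist_le_mul _ (clampV_mem s) _ (clampV_mem s')).trans ?_
  refine mul_le_mul_of_nonneg_left ?_ K.2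
  have := clampV_lipschitz.dist_le_mul s s'
  simpa using this

variable {n : ℕ}

/-- A simplex in cube coordinates. -/
noncomputable def sq {k : ℕ} (σ : LipSimplex n k) (s : Fin k → ℝ) : E n := σ.1 (cubeMap s)

theorem sq_lipschitz {k : ℕ} (σ : LipSimplex n k) : ∃ K : NNReal, LipschitzWith K (sq σ) := by
  obtain ⟨K, hK⟩ := σ.2
  obtain ⟨K', hK'⟩ := cubeMap_lipschitz (k := k)
  exact ⟨K * K', hK.comp hK'⟩

theorem sq_clamp {k : ℕ} (σ : LipSimplex n k) (s : Fin k → ℝ) : sq σ s = sq σ (clampV s) := by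
  rw [sq, sq, cubeMap_clamp]

theorem Yp_insert_one {k : ℕ} (i : Fin (k + 1)) (s : Fin k → ℝ) (j : Fin (k + 1)) :
    Yp (i.insertNth 1 s : Fin (k + 1) → ℝ) (i.succ.succAbove j) = Yp s j := by
  rw [Yp, Fin.prod_univ_succAbove _ i]
  simp only [Fin.insertNth_apply_same, Fin.insertNth_apply_succAbove, ite_self, one_mul]
  rw [Yp]
  refine Finset.prod_congr rfl fun l _ => ?_
  have : (i.succ.succAbove j ≤ (i.succAbove l).castSucc) ↔ (j ≤ l.castSucc) := by
    simp only [Fin.succAbove, Fin.lt_def, Fin.le_def]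
    split_ifs <;> simp at * <;> omega
  simp only [this]

theorem Yp_insert_one_same {k : ℕ} (i : Fin (k + 1)) (s : Fin k → ℝ) :
    Yp (i.insertNth 1 s : Fin (k + 1) → ℝ) i.succ =
      Yp (i.insertNth 1 s : Fin (k + 1) → ℝ) i.castSucc := by
  rw [Yp_step, Fin.insertNth_apply_same, one_mul]

theorem duffy_insert_one {k : ℕ} (i : Fin (k + 1)) (s : Fin k → ℝ) :
    duffy (i.insertNth 1 s : Fin (k + 1) → ℝ) = i.succ.insertNth 0 (duffy s) := by
  funext j
  refine Fin.succAboveCases i.succ ?_ (fun j => ?_) j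
  · rw [Fin.insertNth_apply_same, duffy_succ, Fin.insertNth_apply_same]; ring
  · rw [Fin.insertNth_apply_succAbove]
    refine Fin.cases ?_ (fun j => ?_) j
    · have h1 : i.succ.succAbove (0 : Fin (k + 1)) = 0 := by
        simp [Fin.succAbove, Fin.lt_def]
      rw [duffy_zero, h1, duffy_zero]
      have := Yp_insert_one i s 0
      rwa [h1] at this
    · rw [duffy_succ]
      have h2 := Yp_insert_one i s j.succ
      have h3 : i.succ.succAbove j.succ = (i.succAbove j).succ := by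
        exact Fin.succ_succAbove_succ i j
      rw [h3] at h2 ⊢
      rw [duffy_succ, Fin.insertNth_apply_succAbove, h2]

theorem Yp_insert_zero {k : ℕ} (s : Fin k → ℝ) (j : Fin (k + 1)) :
    Yp ((0 : Fin (k + 1)).insertNth 0 s : Fin (k + 1) → ℝ) j.succ = Yp s j := by
  rw [Yp, Fin.prod_univ_succAbove _ 0, Yp]
  have h0 : ¬ (j.succ ≤ (0 : Fin (k + 1)).castSucc) := by
    simp [Fin.le_def]
  rw [if_neg h0, one_mul]
  refine Finset.prod_congr rfl fun l _ => ?_
  have h1 : (j.succ ≤ ((0 : Fin (k + 1)).succAbove l).castSucc) ↔ j ≤ l.castSucc := by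
    simp [Fin.le_def]
  simp only [h1, Fin.insertNth_apply_succAbove]

theorem duffy_insert_zero {k : ℕ} (s : Fin k → ℝ) :
    duffy ((0 : Fin (k + 1)).insertNth 0 s : Fin (k + 1) → ℝ) =
      (0 : Fin (k + 2)).insertNth 0 (duffy s) := by
  funext j
  refine Fin.succAboveCases (0 : Fin (k + 2)) ?_ (fun j => ?_) j
  · rw [Fin.insertNth_apply_same, duffy_zero]
    have h1 := Yp_step ((0 : Fin (k + 1)).insertNth 0 s : Fin (k + 1) → ℝ) 0
    rw [Fin.insertNth_apply_same, zero_mul] at h1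
    exact h1
  · rw [Fin.insertNth_apply_succAbove, Fin.succAbove_zero]
    rw [duffy_succ, Yp_insert_zero]
    refine Fin.cases ?_ (fun j => ?_) j
    · have h2 : ((0 : Fin (k + 1)).insertNth 0 s : Fin (k + 1) → ℝ) 0 = 0 := by
        simp
      rw [h2, duffy_zero]; ring
    · rw [duffy_succ]
      have h2 : ((0 : Fin (k + 1)).insertNth 0 s : Fin (k + 1) → ℝ) j.succ = s j := by
        simp
      rw [h2]

theorem clampV_insert {k : ℕ} (i : Fin (k + 1)) (c : ℝ) (s : Fin k → ℝ) :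
    clampV (i.insertNth c s : Fin (k + 1) → ℝ) = i.insertNth (cl c) (clampV s) := by
  funext j
  refine Fin.succAboveCases i ?_ (fun j => ?_) j
  · simp [clampV]
  · simp [clampV]

theorem slice_one {k : ℕ} (σ : LipSimplex n (k + 1)) (i : Fin (k + 1)) :
    slice (sq σ) i 1 = sq (σ.face i.succ) := by
  funext z
  change σ.1 (cubeMap (i.insertNth 1 z)) = σ.1 (faceMap i.succ (cubeMap z))
  refine congrArg σ.1 (Subtype.ext ?_)
  change duffy (clampV (i.insertNth 1 z)) = i.succ.insertNth 0 (duffy (clampV z))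
  rw [clampV_insert, cl_of_one_le le_rfl, duffy_insert_one]

theorem slice_zero {k : ℕ} (σ : LipSimplex n (k + 1)) :
    slice (sq σ) 0 0 = sq (σ.face 0) := by
  funext z
  change σ.1 (cubeMap ((0 : Fin (k + 1)).insertNth 0 z)) = σ.1 (faceMap 0 (cubeMap z))
  refine congrArg σ.1 (Subtype.ext ?_)
  change duffy (clampV ((0 : Fin (k + 1)).insertNth 0 z)) = (0 : Fin (k + 2)).insertNth 0 (duffy (clampV z))
  rw [clampV_insert, cl_of_nonpos le_rfl, duffy_insert_zero]

/-- If some coordinate `i+1` vanishes then `duffy` does not depend on the coordinate `0`. -/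
theorem duffy_indep {k : ℕ} (s s' : Fin (k + 1) → ℝ) (i : Fin k) (hi : s i.succ = 0)
    (hss : ∀ j : Fin k, s j.succ = s' j.succ) : duffy s = duffy s' := by
  have hY : ∀ j : Fin (k + 1), Yp s j.succ = Yp s' j.succ := by
    intro j
    rw [Yp, Yp, Fin.prod_univ_succ, Fin.prod_univ_succ]
    have h0 : ¬ (j.succ ≤ (0 : Fin (k + 1)).castSucc) := by
      simp [Fin.le_def]
    rw [if_neg h0, if_neg h0]
    simp only [hss]
  have hi' : s' i.succ = 0 := by rw [← hss i, hi]
  have hz : ∀ (t : Fin (k + 1) → ℝ), t i.succ = 0 → ∀ j : Fin (k + 2), j ≤ i.succ.castSucc →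
      Yp t j = 0 := by
    intro t ht j hj
    rw [Yp]
    refine Finset.prod_eq_zero (Finset.mem_univ i.succ) ?_
    rw [if_pos hj, ht]
  funext j
  refine Fin.cases ?_ (fun j => ?_) j
  · rw [duffy_zero, duffy_zero, hz s hi 0 (Fin.zero_le _), hz s' hi' 0 (Fin.zero_le _)]
  · rw [duffy_succ, duffy_succ, hY]
    refine Fin.cases ?_ (fun j => ?_) j
    · have h1 : (0 : Fin (k + 1)).succ ≤ i.succ.castSucc := by
        simp only [Fin.le_def, Fin.val_succ, Fin.val_castSucc]; simp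
      rw [hz s' hi' _ h1]; ring
    · rw [hss]

theorem insertNth_indep {k : ℕ} (i : Fin (k + 1)) (z z' : Fin (k + 1) → ℝ)
    (hz : ∀ j : Fin k, z j.succ = z' j.succ) (j : Fin (k + 1)) :
    (i.succ.insertNth 0 z : Fin (k + 2) → ℝ) j.succ =
      (i.succ.insertNth 0 z' : Fin (k + 2) → ℝ) j.succ := by
  by_cases hj : j = i
  · subst hj; simp
  · obtain ⟨l, hl⟩ := Fin.exists_succAbove_eq (show j.succ ≠ i.succ from fun h => hj (Fin.succ_inj.1 h))
    rw [← hl, Fin.insertNth_apply_succAbove, Fin.insertNth_apply_succAbove]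
    have hl0 : l ≠ 0 := by
      intro h0
      subst h0
      have : i.succ.succAbove (0 : Fin (k + 1)) = 0 := by simp
      rw [this] at hl
      exact absurd hl.symm (Fin.succ_ne_zero j)
    obtain ⟨l', rfl⟩ := Fin.exists_succ_eq.2 hl0
    exact hz l'

theorem slice_succ_indep {k : ℕ} (σ : LipSimplex n (k + 1 + 1)) (i : Fin (k + 1))
    (z z' : Fin (k + 1) → ℝ) (hz : ∀ j : Fin k, z j.succ = z' j.succ) :
    slice (sq σ) i.succ 0 z = slice (sq σ) i.succ 0 z' := by
  change σ.1 (cubeMap (i.succ.insertNth 0 z)) = σ.1 (cubeMap (i.succ.insertNth 0 z'))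
  refine congrArg σ.1 (Subtype.ext ?_)
  change duffy (clampV (i.succ.insertNth 0 z)) = duffy (clampV (i.succ.insertNth 0 z'))
  refine duffy_indep _ _ i ?_ ?_
  · simp only [clampV, Fin.insertNth_apply_same]
    exact cl_of_nonpos le_rfl
  · intro j
    simp only [clampV]
    congr 1
    exact insertNth_indep i z z' hz j

end Pool.Agent.Lib.P6a08f9
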