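import Mathlib

/-!
The multilinear extension of a function of tuples, and its alternatization.
-/

open Set Filter Topology

namespace Pool.Agent.Lib.P6a08f9

variable {S : Type} [Fintype S] {m : ℕ}

/-- multilinear extension of a function on tuples -/
noncomputable def extM (c : (Fin m → S) → ℝ) : MultilinearMap ℝ (fun _ : Fin m => S → ℝ) ℝ :=
  ∑ γ : Fin m → S, c γ • (MultilinearMap.mkPiAlgebra ℝ (Fin m) ℝ).compLinearMap
    (fun j => LinearMap.proj (γ j))

theorem extM_apply (c : (Fin m → S) → ℝ) (ν : Fin m → S → ℝ) :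
    extM c ν = ∑ γ : Fin m → S, c γ * ∏ j, ν j (γ j) := by
  simp [extM]

/-- alternatization of the multilinear extension -/
noncomputable def altF (c : (Fin m → S) → ℝ) : (S → ℝ) [⋀^Fin m]→L[ℝ] ℝ :=
  { toMultilinearMap := (MultilinearMap.alternatization (extM c)).toMultilinearMap
    cont := by
      have h : (fun ν : Fin m → S → ℝ => MultilinearMap.alternatization (extM c) ν) =
          fun ν => ∑ σ : Equiv.Perm (Fin m), Equiv.Perm.sign σ •
            ∑ γ : Fin m → S, c γ * ∏ j, ν (σ j) (γ j) := by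
        funext ν
        rw [MultilinearMap.alternatization_apply]
        refine Finset.sum_congr rfl fun σ _ => ?_
        rw [MultilinearMap.domDomCongr_apply, extM_apply]
      change Continuous (fun ν : Fin m → S → ℝ => MultilinearMap.alternatization (extM c) ν)
      rw [h]
      refine continuous_finsetSum _ fun σ _ => Continuous.const_smul ?_ _
      refine continuous_finsetSum _ fun γ _ => continuous_const.mul ?_
      refine continuous_finsetProd _ fun j _ => ?_
      exact (continuous_apply (γ j)).comp (continuous_apply (σ j))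
    map_eq_zero_of_eq' := (MultilinearMap.alternatization (extM c)).map_eq_zero_of_eq' }

theorem altF_apply (c : (Fin m → S) → ℝ) (ν : Fin m → S → ℝ) :
    altF c ν = ∑ σ : Equiv.Perm (Fin m), ((Equiv.Perm.sign σ : ℤ) : ℝ) *
      extM c (fun j => ν (σ j)) := by
  change MultilinearMap.alternatization (extM c) ν = _
  rw [MultilinearMap.alternatization_apply]
  refine Finset.sum_congr rfl fun σ _ => ?_
  rw [MultilinearMap.domDomCongr_apply, Units.smul_def, zsmul_eq_mul]

theorem sum_prod_eq (f : Fin m → S → ℝ) : ∑ γ : Fin m → S, ∏ j, f j (γ j) = ∏ j, ∑ s, f j s := by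
  classical
  rw [Finset.prod_univ_sum]
  rfl

theorem extM_bound (c : (Fin m → S) → ℝ) (ν : Fin m → S → ℝ) (κ : ℝ)
    (hc : ∀ γ : Fin m → S, (∀ j, ν j (γ j) ≠ 0) → |c γ| ≤ κ) :
    |extM c ν| ≤ κ * ∏ j, ∑ s, |ν j s| := by
  rw [extM_apply, ← sum_prod_eq, Finset.mul_sum]
  refine (Finset.abs_sum_le_sum_abs _ _).trans (Finset.sum_le_sum fun γ _ => ?_)
  rw [abs_mul, Finset.abs_prod]
  by_cases h : ∀ j, ν j (γ j) ≠ 0
  · exact mul_le_mul_of_nonneg_right (hc γ h) (Finset.prod_nonneg fun _ _ => abs_nonneg _)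
  · push Not at h
    obtain ⟨j, hj⟩ := h
    have : ∏ j, |ν j (γ j)| = 0 := Finset.prod_eq_zero (Finset.mem_univ j) (by rw [hj, abs_zero])
    rw [this, mul_zero, mul_zero]

theorem altF_bound (c : (Fin m → S) → ℝ) (ν : Fin m → S → ℝ) (κ : ℝ) (U : Set S)
    (hU : ∀ j s, ν j s ≠ 0 → s ∈ U)
    (hc : ∀ γ : Fin m → S, (∀ j, γ j ∈ U) → |c γ| ≤ κ) :
    |altF c ν| ≤ (m.factorial : ℝ) * (κ * ∏ j, ∑ s, |ν j s|) := by
  rw [altF_apply]
  refine (Finset.abs_sum_le_sum_abs _ _).trans ?_
  calc ∑ σ : Equiv.Perm (Fin m), |((Equiv.Perm.sign σ : ℤ) : ℝ) * extM c (fun j => ν (σ j))|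
      ≤ ∑ σ : Equiv.Perm (Fin m), κ * ∏ j, ∑ s, |ν j s| := by
        refine Finset.sum_le_sum fun σ _ => ?_
        rw [abs_mul]
        have h1 : |((Equiv.Perm.sign σ : ℤ) : ℝ)| = 1 := by
          rcases Int.units_eq_one_or (Equiv.Perm.sign σ) with h | h <;> simp [h]
        rw [h1, one_mul]
        refine (extM_bound c _ κ fun γ hγ => hc γ fun j => hU _ _ (hγ j)).trans ?_
        rw [Equiv.prod_comp σ (fun j => ∑ s, |ν j s|)]
    _ = _ := by
        rw [Finset.sum_const, Finset.card_univ, Fintype.card_perm, Fintype.card_fin, nsmul_eq_mul]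

/-- If `c` is, on `U`, an alternating sum of functions which do not depend on one of the
variables, then the extension vanishes on vectors of total mass zero. -/
theorem altF_zero (c : (Fin m → S) → ℝ) (c1 : Fin m → (Fin m → S) → ℝ) (U : Set S)
    (ν : Fin m → S → ℝ) (hU : ∀ j s, ν j s ≠ 0 → s ∈ U) (hν : ∀ j, ∑ s, ν j s = 0)
    (hc : ∀ γ : Fin m → S, (∀ j, γ j ∈ U) → c γ = ∑ i, c1 i γ)
    (hc1 : ∀ i (γ : Fin m → S) s, c1 i (Function.update γ i s) = c1 i γ) :
    altF c ν = 0 := by
  classical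
  rw [altF_apply]
  refine Finset.sum_eq_zero fun σ _ => ?_
  have : extM c (fun j => ν (σ j)) = 0 := by
    set ν' : Fin m → S → ℝ := fun j => ν (σ j) with hν'
    rw [extM_apply]
    have h1 : ∀ γ : Fin m → S, c γ * ∏ j, ν' j (γ j) = ∑ i, c1 i γ * ∏ j, ν' j (γ j) := by
      intro γ
      by_cases h : ∀ j, ν' j (γ j) ≠ 0
      · rw [hc γ fun j => hU _ _ (h j), Finset.sum_mul]
      · push Not at h
        obtain ⟨j, hj⟩ := h
        have : ∏ j, ν' j (γ j) = 0 := Finset.prod_eq_zero (Finset.mem_univ j) hj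
        rw [this]; simp
    simp only [h1]
    rw [Finset.sum_comm]
    refine Finset.sum_eq_zero fun i _ => ?_
    -- split off the coordinate `i`
    have hm : 0 < m := i.pos
    obtain ⟨m', rfl⟩ : ∃ m', m = m' + 1 := ⟨m - 1, by omega⟩
    rw [← (Fin.insertNthEquiv (fun _ => S) i).sum_comp, Fintype.sum_prod_type_right]
    refine Finset.sum_eq_zero fun γ _ => ?_
    have h2 : ∀ s, (Fin.insertNthEquiv (fun _ => S) i) (s, γ) = i.insertNth s γ := fun s => rfl
    simp only [h2]
    have h3 : ∀ s, c1 i (i.insertNth s γ) * ∏ j, ν' j ((i.insertNth s γ : Fin (m' + 1) → S) j) =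
        ν' i s * ((∏ j, ν' (i.succAbove j) (γ j)) * c1 i (i.insertNth s γ)) := by
      intro s
      rw [Fin.prod_univ_succAbove _ i]
      simp only [Fin.insertNth_apply_same, Fin.insertNth_apply_succAbove]
      ring
    simp only [h3]
    rcases isEmpty_or_nonempty S with hS | ⟨⟨s0⟩⟩
    · simp
    · have h4 : ∀ s, c1 i (i.insertNth s γ) = c1 i (i.insertNth s0 γ) := by
        intro s
        rw [← hc1 i (i.insertNth s0 γ) s]
        congr 1
        funext j
        refine Fin.succAboveCases i ?_ (fun j => ?_) j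
        · simp
        · simp [Function.update_of_ne (Fin.succAbove_ne i j)]
      simp only [h4]
      rw [← Finset.sum_mul, hν' ]
      simp only [hν, zero_mul]
  rw [this, mul_zero]

/-- The value of the alternatized extension of a function which is close to a determinant. -/
theorem altF_det (c : (Fin m → S) → ℝ) (v : ℝ) (A : S → Fin m → ℝ) (δ : ℝ) (U : Set S)
    (ν : Fin m → S → ℝ) (hU : ∀ j s, ν j s ≠ 0 → s ∈ U)
    (hc : ∀ γ : Fin m → S, (∀ j, γ j ∈ U) →
      |c γ - v * Matrix.det (Matrix.of fun j => A (γ j))| ≤ δ) :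
    |altF c ν - (m.factorial : ℝ) * (v * Matrix.det (Matrix.of fun j => ∑ s, ν j s • A s))| ≤
      (m.factorial : ℝ) * (δ * ∏ j, ∑ s, |ν j s|) := by
  classical
  set c' : (Fin m → S) → ℝ := fun γ => v * Matrix.det (Matrix.of fun j => A (γ j)) with hc'
  have hext : ∀ ν : Fin m → S → ℝ, extM c' ν =
      v * Matrix.det (Matrix.of fun j => ∑ s, ν j s • A s) := by
    intro ν
    rw [extM_apply]
    have h1 : Matrix.det (Matrix.of fun j => ∑ s, ν j s • A s) =
        ∑ γ : Fin m → S, (∏ j, ν j (γ j)) * Matrix.det (Matrix.of fun j => A (γ j)) := by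
      have h2 := (Matrix.detRowAlternating (R := ℝ) (n := Fin m)).toMultilinearMap.map_sum
        (fun j s => ν j s • A s)
      change Matrix.det (fun j => ∑ s, ν j s • A s) = _ at h2
      change Matrix.det (fun j => ∑ s, ν j s • A s) = _
      rw [h2]
      refine Finset.sum_congr rfl fun γ _ => ?_
      have h3 := (Matrix.detRowAlternating (R := ℝ) (n := Fin m)).toMultilinearMap.map_smul_univ
        (fun j => ν j (γ j)) (fun j => A (γ j))
      rw [h3]; rfl
    rw [h1, Finset.mul_sum]
    refine Finset.sum_congr rfl fun γ _ => ?_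
    simp only [hc']; ring
  have halt : altF c' ν = (m.factorial : ℝ) *
      (v * Matrix.det (Matrix.of fun j => ∑ s, ν j s • A s)) := by
    rw [altF_apply]
    have h1 : ∀ σ : Equiv.Perm (Fin m), ((Equiv.Perm.sign σ : ℤ) : ℝ) *
        extM c' (fun j => ν (σ j)) = v * Matrix.det (Matrix.of fun j => ∑ s, ν j s • A s) := by
      intro σ
      rw [hext]
      have h2 := Matrix.det_permute σ (Matrix.of fun j => ∑ s, ν j s • A s)
      have h3 : (Matrix.of fun j => ∑ s, ν (σ j) s • A s) =
          (Matrix.of fun j => ∑ s, ν j s • A s).submatrix σ id := rfl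
      rw [h3, h2]
      have h4 : ((Equiv.Perm.sign σ : ℤ) : ℝ) * ((Equiv.Perm.sign σ : ℤ) : ℝ) = 1 := by
        rcases Int.units_eq_one_or (Equiv.Perm.sign σ) with h | h <;> simp [h]
      calc ((Equiv.Perm.sign σ : ℤ) : ℝ) * (v * (((Equiv.Perm.sign σ : ℤ) : ℝ) *
            (Matrix.of fun j => ∑ s, ν j s • A s).det))
          = (((Equiv.Perm.sign σ : ℤ) : ℝ) * ((Equiv.Perm.sign σ : ℤ) : ℝ)) *
            (v * (Matrix.of fun j => ∑ s, ν j s • A s).det) := by ring
        _ = _ := by rw [h4, one_mul]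
    simp only [h1]
    rw [Finset.sum_const, Finset.card_univ, Fintype.card_perm, Fintype.card_fin, nsmul_eq_mul]
  rw [← halt]
  have hsub : altF c ν - altF c' ν = altF (fun γ => c γ - c' γ) ν := by
    rw [altF_apply, altF_apply, altF_apply, ← Finset.sum_sub_distrib]
    refine Finset.sum_congr rfl fun σ _ => ?_
    rw [extM_apply, extM_apply, extM_apply, ← mul_sub, ← Finset.sum_sub_distrib]
    congr 1
    refine Finset.sum_congr rfl fun γ _ => ?_
    ring
  rw [hsub]
  exact altF_bound _ ν δ U hU hc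

/-- Determinant of a matrix whose rows are `(1, b 0), (0, b 1), …, (0, b n)`. -/
theorem det_cons {n : ℕ} (b : Fin (n + 1) → Fin n → ℝ) (μ : Fin (n + 1) → ℝ) (h0 : μ 0 = 1)
    (h1 : ∀ j : Fin n, μ j.succ = 0) :
    Matrix.det (Matrix.of fun j : Fin (n + 1) => (Fin.cons (μ j) (b j) : Fin (n + 1) → ℝ)) =
      Matrix.det (Matrix.of fun j : Fin n => b j.succ) := by
  rw [Matrix.det_succ_column_zero, Fin.sum_univ_succ]
  simp only [Matrix.of_apply, Fin.cons_zero, h0, h1]
  simp
  rfl

end Pool.Agent.Lib.P6a08f9
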