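import Pool.Agent.Lib.P6a08f9.BallBox

/-!
The coarse chain map from tuples of points to Lipschitz chains, under Euclidean filling
inequalities.
-/

open MeasureTheory Set Filter Topology
open scoped ENNReal

namespace Pool.Agent.Lib.P6a08f9

open ExpLaw

variable {n : ℕ} {G : ExpLieGroup n} {N : ℕ} {b : Module.Basis (Fin n) ℝ (E n)} {w : Fin n → ℕ}

theorem isCompact_Bx (b : Module.Basis (Fin n) ℝ (E n)) (w : Fin n → ℕ) :
    IsCompact {x : E n | Bx b w 1 1 x} := by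
  have h1 : {x : E n | Bx b w 1 1 x} =
      b.equivFunL ⁻¹' (Icc (fun _ : Fin n => (-1 : ℝ)) (fun _ => 1)) := by
    ext x
    simp only [Bx, one_pow, mul_one, Set.mem_ofPred_eq, Set.mem_preimage, Set.mem_Icc, Pi.le_def,
      abs_le]
    constructor
    · intro h; exact ⟨fun i => (h i).1, fun i => (h i).2⟩
    · rintro ⟨h1, h2⟩ i; exact ⟨h1 i, h2 i⟩
  rw [h1]
  exact b.equivFunL.toHomeomorph.isCompact_preimage.2 isCompact_Icc

/-- small tuples -/
def SmE (G : ExpLieGroup n) (b : Module.Basis (Fin n) ℝ (E n)) (w : Fin n → ℕ) (t A : ℝ) {m : ℕ}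
    (g : Fin m → E n) : Prop :=
  ∀ i j, Bx b w t A (G.mul (-(g i)) (g j))

theorem SmE.comp {t A : ℝ} {m m' : ℕ} {g : Fin m → E n} (h : SmE G b w t A g)
    (f : Fin m' → Fin m) : SmE G b w t A (g ∘ f) := fun i j => h (f i) (f j)

theorem straight_mass (hN : G.law.Nilp N) (b : Module.Basis (Fin n) ℝ (E n)) (w : Fin n → ℕ)
    (k : ℕ) : ∃ C : ℝ, 0 ≤ C ∧ ∀ g : Fin (k + 1) → E n, SmE G b w 1 1 g →
      simplexVol G (straight G N g) ≤ ENNReal.ofReal C := by
  set Φ : (Fin k → ℝ) → (Fin (k + 1) → E n) → E n := fun y a => G.law.bar (ordParam y) a N with hΦ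
  have hΦs : ContDiff ℝ ((⊤ : ℕ∞) : WithTop ℕ∞)
      (fun p : (Fin k → ℝ) × (Fin (k + 1) → E n) => Φ p.1 p.2) :=
    (G.law.bar_contDiff N).comp ((contDiff_ordParam.comp contDiff_fst).prodMk contDiff_snd)
  set D : (Fin k → ℝ) × (Fin (k + 1) → E n) → (Fin k → ℝ) →L[ℝ] E n :=
    fun p => fderiv ℝ (fun y => Φ y p.2) p.1 with hD
  have hDc : Continuous D := by
    have h1 : ContDiff ℝ ((⊤ : ℕ∞) : WithTop ℕ∞)
        (Function.uncurry (fun (p : (Fin k → ℝ) × (Fin (k + 1) → E n)) (y : Fin k → ℝ) =>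
          Φ y p.2)) :=
      hΦs.comp (contDiff_snd.prodMk (contDiff_snd.comp contDiff_fst))
    exact (ContDiff.fderiv (n := 0)
      (f := fun (p : (Fin k → ℝ) × (Fin (k + 1) → E n)) (y : Fin k → ℝ) => Φ y p.2)
      (g := Prod.fst) h1 contDiff_fst (by simp)).continuous
  set f : (Fin k → ℝ) × (Fin (k + 1) → E n) → ℝ := fun p => Real.sqrt (Matrix.det
    (Matrix.of fun i j : Fin k => inner ℝ (G.law.Λ (Φ p.1 p.2) (D p (Pi.single i 1)))
      (G.law.Λ (Φ p.1 p.2) (D p (Pi.single j 1))))) with hf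
  have hfc : Continuous f := by
    refine Real.continuous_sqrt.comp (Continuous.matrix_det ?_)
    refine continuous_matrix fun i j => ?_
    have h1 : ∀ i : Fin k, Continuous (fun p : (Fin k → ℝ) × (Fin (k + 1) → E n) =>
        G.law.Λ (Φ p.1 p.2) (D p (Pi.single i 1))) := by
      intro i
      exact ((G.law.Λ_contDiff.continuous).comp hΦs.continuous).clm_apply
        (hDc.clm_apply continuous_const)
    exact (h1 i).inner (h1 j)
  have hK : IsCompact ((Icc (fun _ : Fin k => (0 : ℝ)) (fun _ => 1)) ×ˢ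
      (Set.pi Set.univ (fun _ : Fin (k + 1) => {x : E n | Bx b w 1 1 x}))) :=
    isCompact_Icc.prod (isCompact_univ_pi fun _ => isCompact_Bx b w)
  obtain ⟨C, hC⟩ := hK.exists_bound_of_continuousOn hfc.continuousOn
  refine ⟨max C 0, le_max_right _ _, fun g hg => ?_⟩
  set a : Fin (k + 1) → E n := fun i => G.mul (-(g 0)) (g i) with ha
  have hga : g = fun i => G.mul (g 0) (a i) := by
    funext i
    exact (G.law.mul_neg_cancel (g 0) (g i)).symm
  have h1 : simplexVol G (straight G N g) = simplexVol G (straight G N a) := by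
    conv_lhs => rw [hga]
    rw [straight_trans G hN, simplexVol_trans]
  rw [h1]
  refine simplexVol_le_of_bound G _ _ fun y hy => ?_
  have hc : ∀ y ∈ ordInterior k, (straight G N a).coord y = Φ y a := by
    intro y hy
    rw [coord_of_mem _ (ordParam_mem hy)]; rfl
  have hd : fderiv ℝ (straight G N a).coord y = D (y, a) := by
    have h2 : (straight G N a).coord =ᶠ[𝓝 y] fun y => Φ y a := by
      filter_upwards [isOpen_ordInterior.mem_nhds hy] with y' hy'
      exact hc y' hy'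
    rw [h2.fderiv_eq]
  have hg2 : Real.sqrt (gram G (straight G N a) y).det = f (y, a) := by
    rw [hf]
    simp only
    congr 2
    ext i j
    simp only [gram, Matrix.of_apply, hd, hc y hy, triv_eq]
  rw [hg2]
  have h3 := hC (y, a) ⟨ordInterior_sub hy, fun i _ => hg 0 i⟩
  rw [Real.norm_eq_abs] at h3
  exact (le_abs_self _).trans (h3.trans (le_max_left _ _))

/-- Euclidean fillings of cycles. -/
theorem exists_fill {k : ℕ} (hk : 1 ≤ k)
    (hP : Preceq (fillVol G k) (fun ℓ => ENNReal.ofReal (ℓ ^ (((k : ℝ) + 1) / k))))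
    (K : ℝ) (hK : 0 ≤ K) : ∃ K' : ℝ, 0 ≤ K' ∧ ∀ t : ℝ, 1 ≤ t → ∀ a : LipChain n k,
      IsCycle k a → mass G a ≤ ENNReal.ofReal (K * t ^ k) →
      ∃ c : LipChain n (k + 1), boundary k c = a ∧ mass G c ≤ ENNReal.ofReal (K' * t ^ (k + 1)) := by
  obtain ⟨C, hC, hCb⟩ := hP
  have hk0 : (0 : ℝ) < k := by exact_mod_cast hk
  set K'' : ℝ := C * (C * K) ^ (((k : ℝ) + 1) / k) + (C * K + C) with hK''
  have hK''0 : 0 ≤ K'' := by
    have : 0 ≤ (C * K) ^ (((k : ℝ) + 1) / k) := Real.rpow_nonneg (by positivity) _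
    positivity
  refine ⟨K'' + 1, by positivity, fun t ht a ha hm => ?_⟩
  have ht0 : 0 < t := zero_lt_one.trans_le ht
  have h1 := hCb (K * t ^ k) (by positivity)
  have h2 : fillVol G k (K * t ^ k) ≤ ENNReal.ofReal (K'' * t ^ (k + 1)) := by
    refine h1.trans ?_
    simp only
    rw [← ENNReal.ofReal_mul hC.le, ← ENNReal.ofReal_add]
    · refine ENNReal.ofReal_le_ofReal ?_
      have h3 : (C * (K * t ^ k)) ^ (((k : ℝ) + 1) / k) =
          (C * K) ^ (((k : ℝ) + 1) / k) * t ^ (k + 1) := by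
        rw [← mul_assoc, Real.mul_rpow (by positivity) (by positivity)]
        congr 1
        rw [← Real.rpow_natCast t k, ← Real.rpow_mul ht0.le, mul_div_cancel₀ _ hk0.ne',
          ← Real.rpow_natCast t (k + 1)]
        congr 1
        push_cast; ring
      rw [h3]
      have h4 : t ^ k ≤ t ^ (k + 1) := pow_le_pow_right₀ ht (Nat.le_succ k)
      have h5 : 1 ≤ t ^ (k + 1) := one_le_pow₀ ht
      have h6 : C * (K * t ^ k) ≤ C * K * t ^ (k + 1) := by
        rw [← mul_assoc]; exact mul_le_mul_of_nonneg_left h4 (by positivity)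
      have h7 : C ≤ C * t ^ (k + 1) := le_mul_of_one_le_right hC.le h5
      rw [hK'']
      linarith
    · exact mul_nonneg hC.le (Real.rpow_nonneg (by positivity) _)
    · positivity
  have h3 : (⨅ (c : LipChain n (k + 1)) (_ : boundary k c = a), mass G c) ≤
      fillVol G k (K * t ^ k) := by
    rw [fillVol]
    exact le_iSup_of_le a (le_iSup_of_le ha (le_iSup_of_le hm le_rfl))
  have h4 : (⨅ (c : LipChain n (k + 1)) (_ : boundary k c = a), mass G c) <
      ENNReal.ofReal ((K'' + 1) * t ^ (k + 1)) := by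
    refine (h3.trans h2).trans_lt ?_
    rw [ENNReal.ofReal_lt_ofReal_iff (by positivity)]
    have : 0 < t ^ (k + 1) := by positivity
    linarith
  obtain ⟨c, hc⟩ := iInf_lt_iff.1 h4
  obtain ⟨hc1, hc2⟩ := iInf_lt_iff.1 hc
  exact ⟨c, hc1, hc2.le⟩

/-- the existence of a chain map in degree `k` -/
def HasΦ (G : ExpLieGroup n) (N : ℕ) (b : Module.Basis (Fin n) ℝ (E n)) (w : Fin n → ℕ) (A : ℝ)
    (k : ℕ) : Prop :=
  ∃ C : ℝ, 0 ≤ C ∧ ∀ t : ℝ, 1 ≤ t → ∃ φ : (Fin (k + 1) → E n) → LipChain n k,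
    (∀ g, SmE G b w t A g → mass G (φ g) ≤ ENNReal.ofReal (C * t ^ k)) ∧
    (∀ g, SmE G b w 1 1 g → φ g = Finsupp.single (straight G N g) 1) ∧
    (∀ g : Fin (k + 2) → E n, SmE G b w t A g →
      IsCycle k (∑ i : Fin (k + 2), ((-1 : ℤ) ^ (i : ℕ)) • φ (g ∘ i.succAbove)))

theorem cycle_of_boundary {k : ℕ} {t A : ℝ} (φ : (Fin (k + 1) → E n) → LipChain n k)
    (ψ : (Fin (k + 2) → E n) → LipChain n (k + 1))
    (h : ∀ g : Fin (k + 2) → E n, SmE G b w t A g →
      boundary k (ψ g) = ∑ i : Fin (k + 2), ((-1 : ℤ) ^ (i : ℕ)) • φ (g ∘ i.succAbove))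
    (g : Fin (k + 3) → E n) (hg : SmE G b w t A g) :
    IsCycle (k + 1) (∑ i : Fin (k + 3), ((-1 : ℤ) ^ (i : ℕ)) • ψ (g ∘ i.succAbove)) := by
  change boundary k _ = 0
  rw [map_sum]
  simp only [map_zsmul]
  have h1 : ∀ i : Fin (k + 3), boundary k (ψ (g ∘ i.succAbove)) =
      ∑ j : Fin (k + 2), ((-1 : ℤ) ^ (j : ℕ)) • φ ((g ∘ i.succAbove) ∘ j.succAbove) :=
    fun i => h _ (hg.comp _)
  simp only [h1]
  refine alt_sum_zero (fun j i => φ ((g ∘ j.succAbove) ∘ i.succAbove)) (fun i j hij => ?_)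
  congr 1
  funext l
  simp only [Function.comp_apply]
  rw [succAbove_comm i j hij l]

/-- the inductive step, given a way to fill -/
theorem HasΦ_of_fill (hN : G.law.Nilp N) {k : ℕ} (A C' : ℝ) (hC' : 0 ≤ C')
    (h : ∀ t : ℝ, 1 ≤ t → ∃ φ : (Fin (k + 1) → E n) → LipChain n k,
      (∀ g, SmE G b w 1 1 g → φ g = Finsupp.single (straight G N g) 1) ∧
      ∀ g : Fin (k + 2) → E n, SmE G b w t A g → ∃ c : LipChain n (k + 1),
        boundary k c = ∑ i : Fin (k + 2), ((-1 : ℤ) ^ (i : ℕ)) • φ (g ∘ i.succAbove) ∧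
        mass G c ≤ ENNReal.ofReal (C' * t ^ (k + 1))) : HasΦ G N b w A (k + 1) := by
  classical
  obtain ⟨C0, hC0, hC0b⟩ := straight_mass hN b w (k + 1)
  refine ⟨C0 + C', by positivity, fun t ht => ?_⟩
  obtain ⟨φ, hφ1, hφ2⟩ := h t ht
  have hpow : 1 ≤ t ^ (k + 1) := one_le_pow₀ ht
  set ψ : (Fin (k + 2) → E n) → LipChain n (k + 1) := fun g =>
    if SmE G b w 1 1 g then Finsupp.single (straight G N g) 1 else
      if hg : SmE G b w t A g then (hφ2 g hg).choose else 0 with hψ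
  have htiny : ∀ g, SmE G b w 1 1 g → ψ g = Finsupp.single (straight G N g) 1 := by
    intro g hg
    simp only [hψ, if_pos hg]
  have hbd : ∀ g : Fin (k + 2) → E n, SmE G b w t A g →
      boundary k (ψ g) = ∑ i : Fin (k + 2), ((-1 : ℤ) ^ (i : ℕ)) • φ (g ∘ i.succAbove) := by
    intro g hg
    by_cases hg1 : SmE G b w 1 1 g
    · rw [htiny g hg1, boundary_single]
      refine Finset.sum_congr rfl fun i _ => ?_
      rw [straight_face, hφ1 _ (hg1.comp _)]
    · simp only [hψ, if_neg hg1, dif_pos hg]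
      exact (hφ2 g hg).choose_spec.1
  refine ⟨ψ, fun g hg => ?_, htiny, fun g hg => cycle_of_boundary φ ψ hbd g hg⟩
  by_cases hg1 : SmE G b w 1 1 g
  · rw [htiny g hg1, mass_single]
    simp only [Int.natAbs_one, Nat.cast_one, one_mul]
    refine (hC0b g hg1).trans (ENNReal.ofReal_le_ofReal ?_)
    nlinarith
  · simp only [hψ, if_neg hg1, dif_pos hg]
    refine (hφ2 g hg).choose_spec.2.trans (ENNReal.ofReal_le_ofReal ?_)
    nlinarith

theorem HasΦ_one (h : G.law.Adapted b w) (hN : G.law.Nilp N) (A : ℝ) : HasΦ G N b w A 1 := by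
  obtain ⟨C, hC, hCb⟩ := ball_box h hN A
  refine HasΦ_of_fill hN (k := 0) A C hC fun t ht =>
    ⟨fun g => Finsupp.single (straight G N g) 1, fun g _ => rfl, fun g hg => ?_⟩
  obtain ⟨a, ha1, ha2⟩ := hCb t ht _ (hg 0 1)
  refine ⟨ctrans G (g 0) 1 a, ?_, ?_⟩
  · rw [boundary_ctrans, ha1, map_sub, ctrans_single, ctrans_single, pt_trans hN, pt_trans hN,
      Fin.sum_univ_two]
    have e1 : G.mul (g 0) (G.mul (-(g 0)) (g 1)) = g 1 := G.law.mul_neg_cancel _ _
    have e2 : G.mul (g 0) 0 = g 0 := G.mul_zero _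
    have h1 : g ∘ (0 : Fin 2).succAbove = fun _ : Fin 1 => g 1 := by
      funext j; fin_cases j; rfl
    have h2 : g ∘ (1 : Fin 2).succAbove = fun _ : Fin 1 => g 0 := by
      funext j; fin_cases j; rfl
    rw [e1, e2, h1, h2]
    simp only [Fin.val_zero, pow_zero, one_smul, Fin.val_one, pow_one, neg_smul]
    rw [← sub_eq_add_neg]; rfl
  · refine (mass_ctrans_le G (g 0) a).trans ?_
    rw [zero_add, pow_one]; exact ha2

theorem HasΦ_succ (hN : G.law.Nilp N) (A : ℝ) {k : ℕ} (hk : 1 ≤ k)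
    (hP : Preceq (fillVol G k) (fun ℓ => ENNReal.ofReal (ℓ ^ (((k : ℝ) + 1) / k))))
    (h : HasΦ G N b w A k) : HasΦ G N b w A (k + 1) := by
  obtain ⟨C, hC, hCb⟩ := h
  obtain ⟨K', hK', hfill⟩ := exists_fill (G := G) hk hP (((k : ℝ) + 2) * C) (by positivity)
  refine HasΦ_of_fill hN A K' hK' fun t ht => ?_
  obtain ⟨φ, h1, h2, h3⟩ := hCb t ht
  refine ⟨φ, h2, fun g hg => ?_⟩
  have ht0 : 0 < t := zero_lt_one.trans_le ht
  refine hfill t ht _ (h3 g hg) ?_
  refine (mass_sum_le G _ _).trans ?_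
  calc ∑ i : Fin (k + 2), mass G (((-1 : ℤ) ^ (i : ℕ)) • φ (g ∘ i.succAbove))
      ≤ ∑ i : Fin (k + 2), ENNReal.ofReal (C * t ^ k) := by
        refine Finset.sum_le_sum fun i _ => ?_
        rw [mass_smul]
        have : ((-1 : ℤ) ^ (i : ℕ)).natAbs = 1 := by simp [Int.natAbs_pow]
        rw [this, Nat.cast_one, one_mul]
        exact h1 _ (hg.comp _)
    _ = ENNReal.ofReal (((k : ℝ) + 2) * C * t ^ k) := by
        rw [Finset.sum_const, Finset.card_univ, Fintype.card_fin, nsmul_eq_mul]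
        have : (((k + 2 : ℕ)) : ℝ≥0∞) = ENNReal.ofReal ((k : ℝ) + 2) := by
          rw [show ((k : ℝ) + 2) = ((k + 2 : ℕ) : ℝ) by push_cast; ring, ENNReal.ofReal_natCast]
        rw [this, ← ENNReal.ofReal_mul (by positivity), mul_assoc]

theorem HasΦ_all (h : G.law.Adapted b w) (hN : G.law.Nilp N) (A : ℝ)
    (hP : ∀ k : ℕ, 1 ≤ k → k + 1 ≤ n →
      Preceq (fillVol G k) (fun ℓ => ENNReal.ofReal (ℓ ^ (((k : ℝ) + 1) / k))))
    (k : ℕ) (hk : k + 1 ≤ n) : HasΦ G N b w A (k + 1) := by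
  induction k with
  | zero => exact HasΦ_one h hN A
  | succ k ih => exact HasΦ_succ hN A (by omega) (hP (k + 1) (by omega) hk) (ih (by omega))

/-- the bounded cocycle -/
theorem exists_cocycle {m : ℕ} {G : ExpLieGroup (m + 1)} {b : Module.Basis (Fin (m + 1)) ℝ (E (m + 1))}
    {w : Fin (m + 1) → ℕ} (h : G.law.Adapted b w) (hN : G.law.Nilp N)
    (hP : ∀ k : ℕ, 1 ≤ k → k + 1 ≤ m + 1 →
      Preceq (fillVol G k) (fun ℓ => ENNReal.ofReal (ℓ ^ (((k : ℝ) + 1) / k))))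
    (A : ℝ) : ∃ K : ℝ, 0 ≤ K ∧ ∀ t : ℝ, 1 ≤ t →
      ∃ c : (Fin (m + 2) → E (m + 1)) → ℝ,
        (∀ g, SmE G b w t A g → |c g| ≤ K * t ^ (m + 1)) ∧
        (∀ g : Fin (m + 3) → E (m + 1), SmE G b w t A g →
          ∑ i : Fin (m + 3), (-1 : ℝ) ^ (i : ℕ) * c (g ∘ i.succAbove) = 0) ∧
        (∀ g, SmE G b w 1 1 g → c g = volI (straight G N g)) := by
  have hdet : ∀ x, LinearMap.det (G.law.Λ x : E (m + 1) →ₗ[ℝ] E (m + 1)) = 1 := fun x =>
    h.det_eq_one (G.law.Λ x) (fun i => hN.Λ_mem x (h.basis_mem i))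
  obtain ⟨K, hK, hKb⟩ := HasΦ_all h hN A hP m le_rfl
  refine ⟨K, hK, fun t ht => ?_⟩
  obtain ⟨φ, h1, h2, h3⟩ := hKb t ht
  refine ⟨fun g => volIc (φ g), fun g hg => ?_, fun g hg => ?_, fun g hg => ?_⟩
  · have h4 := (volIc_le G hdet (φ g)).trans (h1 g hg)
    have ht0 : 0 < t := zero_lt_one.trans_le ht
    exact (ENNReal.ofReal_le_ofReal_iff (by positivity)).1 h4
  · have h4 := volIc_cycle _ (h3 g hg)
    rw [map_sum] at h4
    simp only [map_zsmul] at h4
    rw [← h4]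
    refine Finset.sum_congr rfl fun i _ => ?_
    rw [zsmul_eq_mul]; push_cast; ring
  · simp only [h2 g hg]
    rw [volIc_single]; simp

end Pool.Agent.Lib.P6a08f9
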