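import Pool.Agent.Lib.P6a08f9.Transport

/-!
Some filling function of a non-abelian simply connected nilpotent Lie group is super-Euclidean.
-/

open Set Filter Topology

namespace Pool.Agent.Lib.P6a08f9

variable {m : ℕ}

theorem detE_basis (b : Module.Basis (Fin (m + 1)) ℝ (E (m + 1))) : detE (m + 1) b ≠ 0 := by
  rw [detE_eq]
  exact (Module.Basis.isUnit_det (EuclideanSpace.basisFun (Fin (m + 1)) ℝ).toBasis b).ne_zero

theorem detE_coord (D : (Fin (m + 1) → ℝ) →L[ℝ] E (m + 1)) (u : Fin (m + 1) → Fin (m + 1) → ℝ) :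
    detE (m + 1) (fun j => D (u j)) =
      Matrix.det (Matrix.of u) * detE (m + 1) (fun j => D (stdE (m + 1) j)) := by
  have h := detE_comp_right D (LinearMap.toContinuousLinearMap (Matrix.toLin' (Matrix.of u).transpose))
  have h1 : ∀ j, (LinearMap.toContinuousLinearMap (Matrix.toLin' (Matrix.of u).transpose))
      (stdE (m + 1) j) = u j := by
    intro j
    rw [LinearMap.coe_toContinuousLinearMap', Matrix.toLin'_apply]
    have : stdE (m + 1) j = Pi.single j 1 := rfl
    rw [this, Matrix.mulVec_single_one]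
    rfl
  simp only [h1] at h
  rw [h]
  congr 1
  have h2 : ((LinearMap.toContinuousLinearMap (Matrix.toLin' (Matrix.of u).transpose)) :
      (Fin (m + 1) → ℝ) →ₗ[ℝ] (Fin (m + 1) → ℝ)) = Matrix.toLin' (Matrix.of u).transpose := by
    ext; rfl
  rw [h2, LinearMap.det_toLin', Matrix.det_transpose]

theorem exists_superEuclidean (G : ExpLieGroup (m + 1)) (hG : G.IsNilpotent)
    (hna : ∃ x y, G.mul x y ≠ G.mul y x) :
    ∃ k, 1 ≤ k ∧ k + 1 ≤ m + 1 ∧ SuperEuclidean G k := by
  by_contra hcon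
  have hP : ∀ k : ℕ, 1 ≤ k → k + 1 ≤ m + 1 →
      Preceq (fillVol G k) (fun ℓ => ENNReal.ofReal (ℓ ^ (((k : ℝ) + 1) / k))) := by
    intro k h1 h2
    by_contra h3
    exact hcon ⟨k, h1, h2, h3⟩
  obtain ⟨N, hN0⟩ := G.exists_nilp hG
  have hN : G.law.Nilp (N + 1) := by
    rw [ExpLaw.Nilp, eq_bot_iff]
    exact (G.law.F_succ_le N).trans hN0.le
  obtain ⟨b, w, hb⟩ := G.law.exists_adapted hN
    (by simp : Module.finrank ℝ (E (m + 1)) = m + 1)
  have hw : ∃ i, 2 ≤ w i := by
    by_contra hw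
    have hw' : ∀ i, w i < 2 := fun i => by
      by_contra h
      exact hw ⟨i, not_lt.1 h⟩
    have hF2 : ∀ x ∈ G.law.F 2, x = 0 := by
      intro x hx
      have h1 := (hb.mem_iff 2 x).1 hx
      apply b.repr.injective
      ext i
      rw [h1 i (hw' i)]
      simp
    obtain ⟨x, y, hxy⟩ := hna
    refine hxy (G.comm_of_ad_zero (fun x y => hF2 _ ?_) x y)
    exact G.law.ad_mem_F x (j := 1) Submodule.mem_top
  have hQ : (m + 1) + 1 ≤ ∑ i, w i := by
    obtain ⟨i0, hi0⟩ := hw
    have h1 : ∑ _i : Fin (m + 1), 1 < ∑ i, w i :=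
      Finset.sum_lt_sum (fun i _ => hb.one_le i) ⟨i0, Finset.mem_univ _, hi0⟩
    simpa using h1
  set e : E (m + 1) ≃L[ℝ] (Fin (m + 1) → ℝ) := b.equivFunL with he
  have he' : ∀ x i, e x i = b.repr x i := fun x i => rfl
  have hes : ∀ i, e.symm (stdE (m + 1) i) = b i := by
    intro i
    apply e.injective
    rw [e.apply_symm_apply]
    funext j
    rw [he', Module.Basis.repr_self, Finsupp.single_apply]
    have : stdE (m + 1) i = Pi.single i 1 := rfl
    rw [this, Pi.single_apply]
    simp only [eq_comm]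
  have hdet : ∀ a x, LinearMap.det (G.law.dL a x : E (m + 1) →ₗ[ℝ] E (m + 1)) = 1 := fun a x =>
    hb.det_eq_one _ fun i => hN.dL_mem a x (hb.basis_mem i)
  obtain ⟨v0, hv0, has⟩ := asym G N
  have hvb : detE (m + 1) (fun j => e.symm (stdE (m + 1) j)) ≠ 0 := by
    have h1 : (fun j => e.symm (stdE (m + 1) j)) = b := funext hes
    rw [h1]
    exact detE_basis b
  have hsm : ∀ t A {k : ℕ} (g : Fin k → Fin (m + 1) → ℝ),
      ExpLaw.Sm (G.law.transport e) w t A g → SmE G b w t A (fun i => e.symm (g i)) := by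
    intro t A k g hg i j l
    have h1 := hg i j l
    rw [ExpLaw.transport_mul, he', map_neg] at h1
    exact h1
  refine ExpLaw.smear_contradiction (G.law.transport_adapted hb e he')
    (G.law.transport_nilp e hN) hQ
    (fun a => volI (straight G (N + 1) (fun i => e.symm (a i)))) ?_
    (v0 * detE (m + 1) (fun j => e.symm (stdE (m + 1) j))) (mul_ne_zero hv0 hvb) ?_ ?_
  · intro a g
    have h1 : (fun i => e.symm ((G.law.transport e).mul a (g i))) =
        fun i => G.mul (e.symm a) (e.symm (g i)) := by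
      funext i
      rw [ExpLaw.transport_mul, e.symm_apply_apply]
      rfl
    simp only [h1]
    rw [straight_trans G hN (e.symm a) (fun i => e.symm (g i)), volI_trans G hdet]
  · intro ε' hε'
    set c : ℝ := ‖(e.symm : (Fin (m + 1) → ℝ) →L[ℝ] E (m + 1))‖ + 1 with hc
    have hc0 : 0 < c := by positivity
    obtain ⟨r0, hr0, h0⟩ := has (ε' / c ^ (m + 1)) (by positivity)
    refine ⟨r0 / c, by positivity, fun r hr hrr a ha => ?_⟩
    have h1 := h0 (c * r) (by positivity) (by
      rw [le_div_iff₀ hc0] at hrr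
      linarith [mul_comm r c]) (fun i => e.symm (a i)) (fun i => by
        calc ‖e.symm (a i)‖ ≤ ‖(e.symm : (Fin (m + 1) → ℝ) →L[ℝ] E (m + 1))‖ * ‖a i‖ :=
              (e.symm : (Fin (m + 1) → ℝ) →L[ℝ] E (m + 1)).le_opNorm (a i)
          _ ≤ c * r := by
              refine mul_le_mul ?_ (ha i) (norm_nonneg _) hc0.le
              rw [hc]; linarith)
    have h2 : detE (m + 1) (fun i : Fin (m + 1) => e.symm (a i.succ) - e.symm (a 0)) =
        Matrix.det (Matrix.of fun j : Fin (m + 1) => a j.succ - a 0) *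
          detE (m + 1) (fun j => e.symm (stdE (m + 1) j)) := by
      have h3 := detE_coord (e.symm : (Fin (m + 1) → ℝ) →L[ℝ] E (m + 1))
        (fun j : Fin (m + 1) => a j.succ - a 0)
      rw [← ContinuousLinearEquiv.coe_coe, ← h3]
      congr 1
      funext i
      rw [map_sub]
    rw [h2] at h1
    have h4 : ε' / c ^ (m + 1) * (c * r) ^ (m + 1) = ε' * r ^ (m + 1) := by
      rw [mul_pow]; field_simp
    rw [h4] at h1
    refine le_trans (le_of_eq ?_) h1
    congr 2
    ring
  · intro A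
    obtain ⟨K, hK, hc⟩ := exists_cocycle hb hN hP A
    refine ⟨K, hK, fun t ht => ?_⟩
    obtain ⟨c, h1, h2, h3⟩ := hc t ht
    refine ⟨fun g => c (fun i => e.symm (g i)), fun g hg => h1 _ (hsm t A g hg), ?_,
      fun g hg => h3 _ (hsm 1 1 g hg)⟩
    intro g hg
    exact h2 _ (hsm t A g hg)

end Pool.Agent.Lib.P6a08f9
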