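import Mathlib

/-!
Stokes on boxes for smooth alternating forms, and compactly supported exactness.
-/

open MeasureTheory Set

namespace Pool.Agent.Lib.P6a08f9

/-- standard basis vectors of `Fin m → ℝ`. -/
noncomputable def stdE (m : ℕ) (i : Fin m) : Fin m → ℝ := Pi.single i 1

theorem extDeriv_curryLeft {W : Type*} [NormedAddCommGroup W] [NormedSpace ℝ W] {m : ℕ}
    (F : W [⋀^Fin (m + 1)]→L[ℝ] ℝ) (y : W) :
    extDeriv (fun y => F.curryLeft y) y = (m + 1) • F := by
  have h : fderiv ℝ (fun y => F.curryLeft y) y = F.curryLeft := F.curryLeft.fderiv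
  rw [extDeriv, h, ContinuousAlternatingMap.alternatizeUncurryFin_curryLeft]

/-- Stokes' theorem on a box for a `C¹` form of codegree one. -/
theorem stokes_box {m : ℕ} (η : (Fin (m + 1) → ℝ) → (Fin (m + 1) → ℝ) [⋀^Fin m]→L[ℝ] ℝ)
    (hd : Differentiable ℝ η)
    (hη : ∀ i : Fin (m + 1), ContDiff ℝ 1 (fun x => η x (i.removeNth (stdE (m + 1)))))
    (a b : Fin (m + 1) → ℝ) (hab : a ≤ b) :
    ∫ x in Icc a b, extDeriv η x (stdE (m + 1)) =
      ∑ i : Fin (m + 1), (-1 : ℝ) ^ (i : ℕ) *
        ((∫ z in Icc (a ∘ i.succAbove) (b ∘ i.succAbove),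
            η (i.insertNth (b i) z) (i.removeNth (stdE (m + 1)))) -
          ∫ z in Icc (a ∘ i.succAbove) (b ∘ i.succAbove),
            η (i.insertNth (a i) z) (i.removeNth (stdE (m + 1)))) := by
  classical
  set f : (Fin (m + 1) → ℝ) → Fin (m + 1) → ℝ := fun x i =>
    (-1 : ℝ) ^ (i : ℕ) * η x (i.removeNth (stdE (m + 1))) with hf
  have hfd : ∀ i, ContDiff ℝ 1 (fun x => f x i) := by
    intro i
    simp only [hf]
    exact contDiff_const.mul (hη i)
  have hfc : ContDiff ℝ 1 f := contDiff_pi.2 hfd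
  have key := integral_divergence_of_hasFDerivAt_off_countable a b hab f (fun x => fderiv ℝ f x)
    ∅ countable_empty hfc.continuous.continuousOn
    (fun x _ => (hfc.differentiable one_ne_zero x).hasFDerivAt)
    (by
      refine Continuous.integrableOn_Icc ?_
      refine continuous_finsetSum _ fun i _ => ?_
      have := (hfc.continuous_fderiv one_ne_zero)
      exact (continuous_apply i).comp (this.clm_apply continuous_const))
  have h1 : ∀ x, ∑ i, (fderiv ℝ f x) (Pi.single i 1) i = extDeriv η x (stdE (m + 1)) := by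
    intro x
    rw [extDeriv_apply (hd x)]
    refine Finset.sum_congr rfl fun i _ => ?_
    have h2 : fderiv ℝ f x (Pi.single i 1) i = fderiv ℝ (fun x => f x i) x (Pi.single i 1) := by
      have h3 : HasFDerivAt f (fderiv ℝ f x) x := (hfc.differentiable one_ne_zero x).hasFDerivAt
      have h4 := (hasFDerivAt_pi'.1 h3 i).fderiv
      rw [h4]; rfl
    rw [h2]
    have h5 : DifferentiableAt ℝ (fun x => η x (i.removeNth (stdE (m + 1)))) x :=
      (hη i).differentiable one_ne_zero x
    simp only [hf]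
    rw [fderiv_const_mul h5]
    simp [stdE, smul_eq_mul]
  simp only [h1] at key
  rw [key]
  refine Finset.sum_congr rfl fun i _ => ?_
  rw [mul_sub, ← integral_const_mul, ← integral_const_mul]

section pullback

variable {V W : Type*} [NormedAddCommGroup V] [NormedSpace ℝ V]
  [NormedAddCommGroup W] [NormedSpace ℝ W] {m : ℕ}

/-- The pull back under `f` of the `m`-form `y ↦ F (y, ·, …, ·)`. -/
noncomputable def pb (F : W [⋀^Fin (m + 1)]→L[ℝ] ℝ) (f : V → W) (x : V) : V [⋀^Fin m]→L[ℝ] ℝ :=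
  (F.curryLeft (f x)).compContinuousLinearMap (fderiv ℝ f x)

theorem pb_apply (F : W [⋀^Fin (m + 1)]→L[ℝ] ℝ) (f : V → W) (x : V) (v : Fin m → V) :
    pb F f x v = F (Fin.cons (f x) (fun j => fderiv ℝ f x (v j))) := by
  rfl

theorem pb_differentiable (F : W [⋀^Fin (m + 1)]→L[ℝ] ℝ) {f : V → W} (hf : ContDiff ℝ 2 f) :
    Differentiable ℝ (pb F f) := by
  intro x
  have h1 : DifferentiableAt ℝ (fun x => F.curryLeft (f x)) x :=
    F.curryLeft.differentiable.comp (hf.differentiable two_ne_zero) x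
  have h2 : DifferentiableAt ℝ (fun x => fderiv ℝ f x) x :=
    ((hf.fderiv_right (m := 1) (by norm_num)).differentiable one_ne_zero) x
  exact h1.continuousAlternatingMapCompContinuousLinearMap h2

theorem pb_contDiff (F : W [⋀^Fin (m + 1)]→L[ℝ] ℝ) {f : V → W} (hf : ContDiff ℝ 2 f)
    (v : Fin m → V) : ContDiff ℝ 1 (fun x => pb F f x v) := by
  simp only [pb_apply]
  refine (F.toContinuousMultilinearMap.contDiff (n := 1)).comp ?_
  refine contDiff_pi.2 fun j => ?_
  refine Fin.cases ?_ (fun j => ?_) j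
  · simpa using hf.of_le one_le_two
  · simp only [Fin.cons_succ]
    exact (hf.fderiv_right (m := 1) (by norm_num)).clm_apply contDiff_const

theorem pb_extDeriv (F : W [⋀^Fin (m + 1)]→L[ℝ] ℝ) {f : V → W} (hf : ContDiff ℝ 2 f) (x : V)
    (v : Fin (m + 1) → V) :
    extDeriv (pb F f) x v = (m + 1) * F (fun j => fderiv ℝ f x (v j)) := by
  have h := extDeriv_pullback (𝕜 := ℝ) (r := 2) (ω := fun y => F.curryLeft y) (f := f) (x := x)
    (F.curryLeft.differentiable _) hf.contDiffAt (by simp)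
  have h' : extDeriv (pb F f) x = ((m + 1) • F).compContinuousLinearMap (fderiv ℝ f x) := by
    rw [← extDeriv_curryLeft F (f x)]
    exact h
  rw [h']
  simp [ContinuousAlternatingMap.compContinuousLinearMap_apply, Function.comp_def]

end pullback

/-- Homotopy invariance, with compact support: the integral of the pull back of the form
`y ↦ F (y, ·, …, ·)` does not change under a compactly supported perturbation `κ`, provided the
exterior derivative `(n+1) F` vanishes along the homotopy. -/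
theorem integral_pb_eq_of_compact {W : Type*} [NormedAddCommGroup W] [NormedSpace ℝ W] {n : ℕ}
    (F : W [⋀^Fin (n + 1)]→L[ℝ] ℝ) (μ κ : (Fin n → ℝ) → W) (hμ : ContDiff ℝ 2 μ)
    (hκ : ContDiff ℝ 2 κ) (B : ℝ) (hB : 0 ≤ B)
    (hsupp : ∀ x, (∃ i, |x i| = B) → κ x = 0)
    (hclosed : ∀ x, ∀ s ∈ Icc (0 : ℝ) 1,
      F (Fin.cons (κ x) (fun j => fderiv ℝ μ x (stdE n j) + s • fderiv ℝ κ x (stdE n j))) = 0) :
    ∫ x in Icc (fun _ : Fin n => -B) (fun _ => B), pb F (fun y => μ y + κ y) x (stdE n) =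
      ∫ x in Icc (fun _ : Fin n => -B) (fun _ => B), pb F μ x (stdE n) := by
  classical
  -- the tail projection
  set T : (Fin (n + 1) → ℝ) →L[ℝ] (Fin n → ℝ) :=
    ContinuousLinearMap.pi fun j => ContinuousLinearMap.proj j.succ with hT
  have hTapp : ∀ y, T y = Fin.tail y := fun y => rfl
  set p0 : (Fin (n + 1) → ℝ) →L[ℝ] ℝ := ContinuousLinearMap.proj 0 with hp0
  set Ψ : (Fin (n + 1) → ℝ) → W := fun y => μ (T y) + p0 y • κ (T y) with hΨ
  have hΨc : ContDiff ℝ 2 Ψ :=
    (hμ.comp T.contDiff).add (p0.contDiff.smul (hκ.comp T.contDiff))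
  have hμd : Differentiable ℝ μ := hμ.differentiable two_ne_zero
  have hκd : Differentiable ℝ κ := hκ.differentiable two_ne_zero
  have hfd : ∀ y v, fderiv ℝ Ψ y v =
      fderiv ℝ μ (T y) (T v) + (p0 y • fderiv ℝ κ (T y) (T v) + p0 v • κ (T y)) := by
    intro y v
    have h1 : HasFDerivAt (fun y => μ (T y)) ((fderiv ℝ μ (T y)).comp T) y :=
      (hμd (T y)).hasFDerivAt.comp y T.hasFDerivAt
    have h2 : HasFDerivAt (fun y => κ (T y)) ((fderiv ℝ κ (T y)).comp T) y :=
      (hκd (T y)).hasFDerivAt.comp y T.hasFDerivAt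
    have h3 := h1.add (p0.hasFDerivAt.smul h2 (x := y))
    have h4 : HasFDerivAt Ψ _ y := h3
    rw [h4.fderiv]
    simp [ContinuousLinearMap.smulRight_apply]
  have hTe0 : T (stdE (n + 1) 0) = 0 := by
    ext j; simp [hTapp, stdE, Fin.tail]
  have hTes : ∀ j : Fin n, T (stdE (n + 1) j.succ) = stdE n j := by
    intro j; ext k
    simp only [hTapp, stdE, Fin.tail, Pi.single_apply, Fin.succ_inj]
  have hpe0 : p0 (stdE (n + 1) 0) = 1 := by simp [hp0, stdE]
  have hpes : ∀ j : Fin n, p0 (stdE (n + 1) j.succ) = 0 := by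
    intro j
    have : (0 : Fin (n + 1)) ≠ j.succ := (Fin.succ_ne_zero j).symm
    simp [hp0, stdE, this]
  set a : Fin (n + 1) → ℝ := Fin.cons 0 (fun _ => -B) with ha
  set b : Fin (n + 1) → ℝ := Fin.cons 1 (fun _ => B) with hb
  have hab : a ≤ b := by
    intro i
    refine Fin.cases ?_ (fun j => ?_) i
    · simp [ha, hb]
    · simp only [ha, hb, Fin.cons_succ]; linarith
  have key := stokes_box (pb F Ψ) (pb_differentiable F hΨc) (fun i => pb_contDiff F hΨc _) a b hab
  have hL : ∫ x in Icc a b, extDeriv (pb F Ψ) x (stdE (n + 1)) = 0 := by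
    rw [← integral_zero (Fin (n + 1) → ℝ) ℝ (μ := volume.restrict (Icc a b))]
    refine setIntegral_congr_fun measurableSet_Icc fun y hy => ?_
    change extDeriv (pb F Ψ) y (stdE (n + 1)) = 0
    rw [pb_extDeriv F hΨc]
    have hs : p0 y ∈ Icc (0 : ℝ) 1 := by
      have h1 := hy.1 0
      have h2 := hy.2 0
      simp only [ha, hb, Fin.cons_zero] at h1 h2
      exact ⟨h1, h2⟩
    have : (fun j => fderiv ℝ Ψ y (stdE (n + 1) j)) =
        Fin.cons (κ (T y)) (fun j => fderiv ℝ μ (T y) (stdE n j) +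
          p0 y • fderiv ℝ κ (T y) (stdE n j)) := by
      funext j
      refine Fin.cases ?_ (fun j => ?_) j
      · rw [hfd, hTe0, hpe0]; simp
      · rw [hfd, hTes, hpes]; simp
    rw [this, hclosed _ _ hs, mul_zero]
  rw [hL, Fin.sum_univ_succ] at key
  have hz : ∀ (y : Fin (n + 1) → ℝ) (j : Fin n), |y j.succ| = B →
      pb F Ψ y ((j.succ).removeNth (stdE (n + 1))) = 0 := by
    intro y j hy
    have hn : 0 < n := j.pos
    obtain ⟨n', rfl⟩ : ∃ n', n = n' + 1 := ⟨n - 1, by omega⟩
    rw [pb_apply]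
    refine F.toMultilinearMap.map_coord_zero (1 : Fin (n' + 1 + 1)) ?_
    have h1 : (1 : Fin (n' + 1 + 1)) = Fin.succ 0 := rfl
    rw [h1, Fin.cons_succ]
    have h2 : (j.succ).removeNth (stdE (n' + 1 + 1)) 0 = stdE (n' + 1 + 1) 0 := by
      simp [Fin.removeNth]
    rw [h2, hfd, hTe0, hpe0]
    have h3 : κ (T y) = 0 := hsupp _ ⟨j, by simpa [hTapp, Fin.tail] using hy⟩
    simp [h3]
  have hrest : ∑ i : Fin n, (-1 : ℝ) ^ ((i.succ : Fin (n + 1)) : ℕ) *
        ((∫ z in Icc (a ∘ (i.succ).succAbove) (b ∘ (i.succ).succAbove),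
            pb F Ψ ((i.succ).insertNth (b i.succ) z) ((i.succ).removeNth (stdE (n + 1)))) -
          ∫ z in Icc (a ∘ (i.succ).succAbove) (b ∘ (i.succ).succAbove),
            pb F Ψ ((i.succ).insertNth (a i.succ) z) ((i.succ).removeNth (stdE (n + 1)))) = 0 := by
    refine Finset.sum_eq_zero fun i _ => ?_
    have h1 : ∀ z : Fin n → ℝ, pb F Ψ ((i.succ).insertNth (b i.succ) z)
        ((i.succ).removeNth (stdE (n + 1))) = 0 := by
      intro z
      refine hz _ _ ?_
      simp [hb, abs_of_nonneg hB]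
    have h2 : ∀ z : Fin n → ℝ, pb F Ψ ((i.succ).insertNth (a i.succ) z)
        ((i.succ).removeNth (stdE (n + 1))) = 0 := by
      intro z
      refine hz _ _ ?_
      simp [ha, abs_of_nonneg hB]
    simp only [h1, h2]
    simp
  rw [hrest] at key
  have hface : ∀ (c : ℝ) (z : Fin n → ℝ),
      pb F Ψ ((0 : Fin (n + 1)).insertNth c z) ((0 : Fin (n + 1)).removeNth (stdE (n + 1))) =
        pb F (fun y => μ y + c • κ y) z (stdE n) := by
    intro c z
    rw [pb_apply, pb_apply]
    have h1 : ((0 : Fin (n + 1)).insertNth c z : Fin (n + 1) → ℝ) = Fin.cons c z := by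
      simp
    have h2 : T (Fin.cons c z) = z := by
      rw [hTapp]; simp
    have h3 : p0 (Fin.cons c z) = c := by simp [hp0]
    have h4 : fderiv ℝ (fun y => μ y + c • κ y) z = fderiv ℝ μ z + c • fderiv ℝ κ z :=
      ((hμd z).hasFDerivAt.add ((hκd z).hasFDerivAt.const_smul c)).fderiv
    congr 1
    funext j
    refine Fin.cases ?_ (fun j => ?_) j
    · simp only [Fin.cons_zero, h1, hΨ, h2, h3]
    · simp only [Fin.cons_succ]
      have h5 : (0 : Fin (n + 1)).removeNth (stdE (n + 1)) j = stdE (n + 1) j.succ := by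
        simp [Fin.removeNth]
      rw [h5, hfd, h1, h2, h3, hTes, hpes, h4]
      simp
  have hIcc : Icc (a ∘ (0 : Fin (n + 1)).succAbove) (b ∘ (0 : Fin (n + 1)).succAbove) =
      Icc (fun _ : Fin n => -B) (fun _ => B) := by
    congr 1
  simp only [hface, hIcc] at key
  simp only [hb, ha, Fin.cons_zero, one_smul, zero_smul, add_zero, Fin.val_zero, pow_zero,
    one_mul] at key
  linarith

end Pool.Agent.Lib.P6a08f9
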