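import Pool.Agent.Lib.P6a08f9.LawMeasure
import Pool.Agent.Lib.P6a08f9.Mollify

/-!
Scaled kernels.
-/

open MeasureTheory Set Filter Topology

namespace Pool.Agent.Lib.P6a08f9

variable {n : ℕ}

/-- coordinatewise division -/
noncomputable def dv (a y : Fin n → ℝ) : Fin n → ℝ := fun i => y i / a i

/-- coordinatewise division as a linear map -/
noncomputable def dvL (a : Fin n → ℝ) : (Fin n → ℝ) →L[ℝ] (Fin n → ℝ) :=
  ContinuousLinearMap.pi fun i => (a i)⁻¹ • ContinuousLinearMap.proj i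

theorem dvL_apply (a y : Fin n → ℝ) : dvL a y = dv a y := by
  funext i
  simp [dvL, dv, div_eq_inv_mul]

theorem integral_scale (a : Fin n → ℝ) (ha : ∀ i, 0 < a i) (f : (Fin n → ℝ) → ℝ) :
    ∫ y, (∏ i, a i)⁻¹ * f (dv a y) = ∫ y, f y := by
  classical
  have hp : 0 < ∏ i, a i := Finset.prod_pos fun i _ => ha i
  set L : (Fin n → ℝ) →L[ℝ] (Fin n → ℝ) :=
    LinearMap.toContinuousLinearMap (Matrix.toLin' (Matrix.diagonal a)) with hL
  have hLa : ∀ y, L y = fun i => a i * y i := by
    intro y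
    funext i
    simp [hL, Matrix.mulVec_diagonal]
  have hdet : |L.det| = ∏ i, a i := by
    rw [hL, ContinuousLinearMap.det]
    change |LinearMap.det (Matrix.toLin' (Matrix.diagonal a))| = _
    rw [LinearMap.det_toLin', Matrix.det_diagonal, abs_of_pos hp]
  have hdv : ∀ y, dv a (L y) = y := by
    intro y
    funext i
    rw [hLa]
    simp only [dv]
    rw [mul_div_cancel_left₀ _ (ha i).ne']
  have hLdv : ∀ y, L (dv a y) = y := by
    intro y
    funext i
    rw [hLa]
    simp only [dv]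
    rw [mul_div_cancel₀ _ (ha i).ne']
  have hinj : Function.Injective L := fun x y h => by rw [← hdv x, h, hdv]
  have hsurj : Function.Surjective L := fun y => ⟨dv a y, hLdv y⟩
  have key := integral_image_eq_integral_abs_det_fderiv_smul volume MeasurableSet.univ
    (f := L) (f' := fun _ => L) (fun x _ => L.hasFDerivAt.hasFDerivWithinAt) hinj.injOn
    (fun y => (∏ i, a i)⁻¹ * f (dv a y))
  rw [Set.image_univ, hsurj.range_eq, setIntegral_univ, setIntegral_univ] at key
  rw [key]
  refine integral_congr_ae (Filter.Eventually.of_forall fun y => ?_)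
  simp only [hdet, hdv, smul_eq_mul]
  rw [← mul_assoc, mul_inv_cancel₀ hp.ne', one_mul]

/-- scaled kernel -/
noncomputable def kerS (a : Fin n → ℝ) (y : Fin n → ℝ) : ℝ := (∏ i, a i)⁻¹ * ker n (dv a y)

theorem kerS_contDiff (a : Fin n → ℝ) : ContDiff ℝ ((⊤ : ℕ∞) : WithTop ℕ∞) (kerS a) := by
  have h : kerS a = fun y => (∏ i, a i)⁻¹ * ker n (dvL a y) := by
    funext y; rw [kerS, dvL_apply]
  rw [h]
  exact contDiff_const.mul ((ker_contDiff n ⊤).comp (dvL a).contDiff)

theorem kerS_nonneg {a : Fin n → ℝ} (ha : ∀ i, 0 < a i) (y : Fin n → ℝ) : 0 ≤ kerS a y :=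
  mul_nonneg (inv_nonneg.2 (Finset.prod_nonneg fun i _ => (ha i).le)) (ker_nonneg n _)

theorem kerS_integral {a : Fin n → ℝ} (ha : ∀ i, 0 < a i) : ∫ y, kerS a y = 1 := by
  rw [← ker_integral n]
  exact integral_scale a ha (ker n)

theorem dv_norm_le {a : Fin n → ℝ} (ha : ∀ i, 0 < a i) {y : Fin n → ℝ} {M : ℝ} (hM : 0 ≤ M) :
    ‖dv a y‖ ≤ M ↔ ∀ i, |y i| ≤ M * a i := by
  rw [pi_norm_le_iff_of_nonneg hM]
  refine forall_congr' fun i => ?_
  rw [dv, Real.norm_eq_abs, abs_div, abs_of_pos (ha i), div_le_iff₀ (ha i)]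

theorem kerS_tsupport {a : Fin n → ℝ} (ha : ∀ i, 0 < a i) {y : Fin n → ℝ}
    (hy : y ∈ tsupport (kerS a)) (i : Fin n) : |y i| ≤ a i := by
  have hcl : IsClosed {y : Fin n → ℝ | ∀ i, |y i| ≤ a i} := by
    simp only [Set.ofPred_forall]
    exact isClosed_iInter fun i => isClosed_le ((continuous_apply i).abs) continuous_const
  have hsub : Function.support (kerS a) ⊆ {y : Fin n → ℝ | ∀ i, |y i| ≤ a i} := by
    intro y hy
    by_contra hc
    refine hy ?_
    have h1 : 1 < ‖dv a y‖ := by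
      by_contra h2
      exact hc (by
        have := (dv_norm_le ha zero_le_one).1 (not_lt.1 h2)
        simpa using this)
    rw [kerS, ker_zero h1, mul_zero]
  exact closure_minimal hsub hcl hy i

theorem kerS_compact {a : Fin n → ℝ} (ha : ∀ i, 0 < a i) : HasCompactSupport (kerS a) := by
  refine HasCompactSupport.of_support_subset_isCompact
    (isCompact_Icc (a := fun i => - a i) (b := a)) ?_
  intro y hy
  have := fun i => kerS_tsupport ha (subset_tsupport _ hy) i
  exact ⟨fun i => (abs_le.1 (this i)).1, fun i => (abs_le.1 (this i)).2⟩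

theorem kerS_abs_integral {a : Fin n → ℝ} (ha : ∀ i, 0 < a i) : ∫ y, |kerS a y| = 1 := by
  rw [← kerS_integral ha]
  refine integral_congr_ae (Filter.Eventually.of_forall fun y => ?_)
  exact abs_of_nonneg (kerS_nonneg ha y)

/-- the constant `∫ ‖Dψ‖` -/
noncomputable def Cψ (n : ℕ) : ℝ := ∫ y, ‖fderiv ℝ (ker n) y‖

theorem Cψ_nonneg (n : ℕ) : 0 ≤ Cψ n := integral_nonneg fun _ => norm_nonneg _

theorem fker_cont (n : ℕ) : Continuous (fun y => ‖fderiv ℝ (ker n) y‖) :=
  ((ker_contDiff n 1).continuous_fderiv (by simp)).norm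

theorem fker_integrable (n : ℕ) : Integrable (fun y => ‖fderiv ℝ (ker n) y‖) := by
  refine (fker_cont n).integrable_of_hasCompactSupport ?_
  exact ((ker_compact n).fderiv ℝ).norm

namespace ExpLaw

theorem XU_kerS_bound (G : ExpLaw (Fin n → ℝ)) {a : Fin n → ℝ} (ha : ∀ i, 0 < a i)
    (v : Fin n → ℝ) (M : ℝ) (hM : 0 ≤ M)
    (hb : ∀ y : Fin n → ℝ, (∀ i, |y i| ≤ a i) → ∀ i, |G.dL y 0 v i| ≤ M * a i)
    (y : Fin n → ℝ) :
    |XU G (kerS a) v y| ≤ (∏ i, a i)⁻¹ * (M * ‖fderiv ℝ (ker n) (dv a y)‖) := by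
  have hp : 0 < ∏ i, a i := Finset.prod_pos fun i _ => ha i
  have h1 : HasFDerivAt (kerS a)
      ((∏ i, a i)⁻¹ • (fderiv ℝ (ker n) (dv a y)).comp (dvL a)) y := by
    have h2 : HasFDerivAt (ker n) (fderiv ℝ (ker n) (dv a y)) (dvL a y) := by
      rw [dvL_apply]
      exact ((ker_contDiff n 1).differentiable (by simp) _).hasFDerivAt
    have h3 := (h2.comp y (dvL a).hasFDerivAt).const_mul ((∏ i, a i)⁻¹)
    have h4 : kerS a = fun y => (∏ i, a i)⁻¹ * (ker n ∘ (dvL a)) y := by
      funext z; rw [kerS, Function.comp_apply, dvL_apply]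
    rw [h4]
    exact h3
  rw [XU, h1.fderiv]
  simp only [_root_.smul_apply, ContinuousLinearMap.comp_apply, smul_eq_mul]
  rw [abs_mul, abs_of_pos (inv_pos.2 hp)]
  refine mul_le_mul_of_nonneg_left ?_ (inv_nonneg.2 hp.le)
  by_cases hy : 1 < ‖dv a y‖
  · rw [fderiv_ker_zero hy]; simp
  · have hy' : ∀ i, |y i| ≤ a i := by
      have := (dv_norm_le ha zero_le_one).1 (not_lt.1 hy)
      simpa using this
    rw [← Real.norm_eq_abs, mul_comm M]
    refine ((fderiv ℝ (ker n) (dv a y)).le_opNorm _).trans ?_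
    refine mul_le_mul_of_nonneg_left ?_ (norm_nonneg _)
    rw [dvL_apply]
    exact (dv_norm_le ha hM).2 (hb y hy')

theorem XU_kerS_integral (G : ExpLaw (Fin n → ℝ)) {a : Fin n → ℝ} (ha : ∀ i, 0 < a i)
    (v : Fin n → ℝ) (M : ℝ) (hM : 0 ≤ M)
    (hb : ∀ y : Fin n → ℝ, (∀ i, |y i| ≤ a i) → ∀ i, |G.dL y 0 v i| ≤ M * a i) :
    ∫ y, |XU G (kerS a) v y| ≤ M * Cψ n := by
  have hp : 0 < ∏ i, a i := Finset.prod_pos fun i _ => ha i
  calc ∫ y, |XU G (kerS a) v y|
      ≤ ∫ y, (∏ i, a i)⁻¹ * (M * ‖fderiv ℝ (ker n) (dv a y)‖) := by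
        refine integral_mono_of_nonneg (Filter.Eventually.of_forall fun _ => abs_nonneg _) ?_
          (Filter.Eventually.of_forall fun y => XU_kerS_bound G ha v M hM hb y)
        refine Continuous.integrable_of_hasCompactSupport ?_ ?_
        · refine continuous_const.mul (continuous_const.mul ((fker_cont n).comp ?_))
          have : dv a = fun y => dvL a y := by funext y; rw [dvL_apply]
          rw [this]
          exact (dvL a).continuous
        · refine HasCompactSupport.of_support_subset_isCompact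
            (isCompact_Icc (a := fun i => - a i) (b := a)) ?_
          intro y hy
          have h1 : ‖dv a y‖ ≤ 1 := by
            by_contra h2
            refine hy ?_
            simp only
            rw [fderiv_ker_zero (not_le.1 h2)]; simp
          have := (dv_norm_le ha zero_le_one).1 h1
          simp only [one_mul] at this
          exact ⟨fun i => (abs_le.1 (this i)).1, fun i => (abs_le.1 (this i)).2⟩
    _ = ∫ y, M * ‖fderiv ℝ (ker n) y‖ :=
        integral_scale a ha (fun y => M * ‖fderiv ℝ (ker n) y‖)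
    _ = M * Cψ n := by rw [integral_const_mul, Cψ]

end ExpLaw

end Pool.Agent.Lib.P6a08f9
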