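import Mathlib

/-!
Smoothness of integrals depending on a parameter.
-/

open MeasureTheory Set Filter Topology

namespace Pool.Agent.Lib.P6a08f9

section

variable {P F : Type} [NormedAddCommGroup P] [NormedSpace ℝ P] [ProperSpace P]
  [NormedAddCommGroup F] [NormedSpace ℝ F] {m : ℕ}

theorem exists_bound_param {Y : Type*} [NormedAddCommGroup Y] (g : P → (Fin m → ℝ) → Y)
    (hg : Continuous (Function.uncurry g)) {K : Set (Fin m → ℝ)} (hK : IsCompact K) (x₀ : P) :
    ∃ C : ℝ, ∀ x ∈ Metric.closedBall x₀ 1, ∀ h ∈ K, ‖g x h‖ ≤ C := by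
  obtain ⟨C, hC⟩ := ((isCompact_closedBall x₀ 1).prod hK).exists_bound_of_continuousOn
    hg.continuousOn
  exact ⟨C, fun x hx h hh => hC (x, h) ⟨hx, hh⟩⟩

theorem param_integrable {Y : Type*} [NormedAddCommGroup Y] [NormedSpace ℝ Y]
    {f : (Fin m → ℝ) → Y} (hf : Continuous f)
    {K Q : Set (Fin m → ℝ)} (hK : IsCompact K) (hQ : Q ⊆ K) :
    Integrable f (volume.restrict Q) :=
  (hf.continuousOn.integrableOn_compact hK).mono_set hQ

theorem param_hasFDerivAt (g : P → (Fin m → ℝ) → F) (hg : ContDiff ℝ 1 (Function.uncurry g))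
    {K Q : Set (Fin m → ℝ)} (hK : IsCompact K) (hQ : Q ⊆ K) (hQm : MeasurableSet Q) (x₀ : P) :
    HasFDerivAt (fun x => ∫ h in Q, g x h) (∫ h in Q, fderiv ℝ (fun x => g x h) x₀) x₀ := by
  have hg' : Continuous (Function.uncurry (fun (x : P) (h : Fin m → ℝ) =>
      fderiv ℝ (fun x => g x h) x)) := by
    have h1 : ContDiff ℝ 1 (Function.uncurry (fun (p : P × (Fin m → ℝ)) (x' : P) => g x' p.2)) := by
      have : (Function.uncurry (fun (p : P × (Fin m → ℝ)) (x' : P) => g x' p.2)) =
        (Function.uncurry g) ∘ (fun q : (P × (Fin m → ℝ)) × P => (q.2, q.1.2)) := rfl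
      rw [this]
      exact hg.comp (contDiff_snd.prodMk (contDiff_snd.comp contDiff_fst))
    have h2 := ContDiff.fderiv (n := 0) (f := fun (p : P × (Fin m → ℝ)) (x' : P) => g x' p.2)
      (g := Prod.fst) h1 contDiff_fst (by simp)
    exact h2.continuous
  obtain ⟨C, hC⟩ := exists_bound_param _ hg' hK x₀
  have hcont : ∀ x, Continuous (g x) := fun x =>
    hg.continuous.comp (continuous_const.prodMk continuous_id)
  have hcont' : Continuous (fun h => fderiv ℝ (fun x => g x h) x₀) :=
    hg'.comp (continuous_const.prodMk continuous_id)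
  have hfin : IsFiniteMeasure (volume.restrict Q) := by
    refine ⟨?_⟩
    rw [Measure.restrict_apply_univ]
    exact (measure_mono hQ).trans_lt hK.measure_lt_top
  refine hasFDerivAt_integral_of_dominated_of_fderiv_le (bound := fun _ => C)
    (F' := fun x h => fderiv ℝ (fun x => g x h) x) (s := Metric.closedBall x₀ 1)
    (Metric.closedBall_mem_nhds x₀ one_pos) ?_ ?_ ?_ ?_ ?_ ?_
  · exact Filter.Eventually.of_forall fun x => (hcont x).aestronglyMeasurable
  · exact param_integrable (hcont x₀) hK hQ
  · exact hcont'.aestronglyMeasurable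
  · rw [ae_restrict_iff' hQm]
    exact Filter.Eventually.of_forall fun h hh x hx => hC x hx h (hQ hh)
  · exact integrable_const C
  · refine Filter.Eventually.of_forall fun h x hx => ?_
    have h1 : ContDiff ℝ 1 (fun x => g x h) := hg.comp (contDiff_id.prodMk contDiff_const)
    exact (h1.differentiable one_ne_zero x).hasFDerivAt

theorem param_continuous (g : P → (Fin m → ℝ) → F) (hg : Continuous (Function.uncurry g))
    {K Q : Set (Fin m → ℝ)} (hK : IsCompact K) (hQ : Q ⊆ K) (hQm : MeasurableSet Q) :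
    Continuous (fun x => ∫ h in Q, g x h) := by
  rw [continuous_iff_continuousAt]
  intro x₀
  obtain ⟨C, hC⟩ := exists_bound_param _ hg hK x₀
  have hfin : IsFiniteMeasure (volume.restrict Q) := by
    refine ⟨?_⟩
    rw [Measure.restrict_apply_univ]
    exact (measure_mono hQ).trans_lt hK.measure_lt_top
  refine continuousAt_of_dominated (bound := fun _ => C) ?_ ?_ (integrable_const C) ?_
  · exact Filter.Eventually.of_forall fun x =>
      (hg.comp (continuous_const.prodMk continuous_id)).aestronglyMeasurable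
  · filter_upwards [Metric.closedBall_mem_nhds x₀ one_pos] with x hx
    rw [ae_restrict_iff' hQm]
    exact Filter.Eventually.of_forall fun h hh => hC x hx h (hQ hh)
  · exact Filter.Eventually.of_forall fun h =>
      (hg.comp (continuous_id.prodMk continuous_const)).continuousAt

end

theorem param_contDiff {P : Type} [NormedAddCommGroup P] [NormedSpace ℝ P] [ProperSpace P]
    {m : ℕ} {K Q : Set (Fin m → ℝ)} (hK : IsCompact K) (hQ : Q ⊆ K) (hQm : MeasurableSet Q)
    (k : ℕ) :
    ∀ {F : Type} [NormedAddCommGroup F] [NormedSpace ℝ F]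
      (g : P → (Fin m → ℝ) → F) (_ : ContDiff ℝ k (Function.uncurry g)),
      ContDiff ℝ k (fun x => ∫ h in Q, g x h) := by
  induction k with
  | zero =>
    intro F _ _ g hg
    rw [Nat.cast_zero, contDiff_zero] at hg ⊢
    exact param_continuous g hg hK hQ hQm
  | succ k ih =>
    intro F _ _ g hg
    rw [Nat.cast_add, Nat.cast_one, contDiff_succ_iff_hasFDerivAt]
    · refine ⟨fun x₀ => ∫ h in Q, fderiv ℝ (fun x => g x h) x₀, ?_, fun x₀ => ?_⟩
      · refine ih (fun x₀ h => fderiv ℝ (fun x => g x h) x₀) ?_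
        have h1 : ContDiff ℝ ((k + 1 : ℕ) : WithTop ℕ∞)
            (Function.uncurry (fun (p : P × (Fin m → ℝ)) (x' : P) => g x' p.2)) := by
          have : (Function.uncurry (fun (p : P × (Fin m → ℝ)) (x' : P) => g x' p.2)) =
            (Function.uncurry g) ∘ (fun q : (P × (Fin m → ℝ)) × P => (q.2, q.1.2)) := rfl
          rw [this]
          exact hg.comp (contDiff_snd.prodMk (contDiff_snd.comp contDiff_fst))
        exact ContDiff.fderiv (n := k)
          (f := fun (p : P × (Fin m → ℝ)) (x' : P) => g x' p.2)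
          (g := Prod.fst) h1 contDiff_fst (by simp)
      · exact param_hasFDerivAt g (hg.of_le (by
          exact_mod_cast Nat.le_add_left 1 k)) hK hQ hQm x₀

theorem param_fderiv_apply {P F : Type} [NormedAddCommGroup P] [NormedSpace ℝ P] [ProperSpace P]
    [NormedAddCommGroup F] [NormedSpace ℝ F] {m : ℕ}
    (g : P → (Fin m → ℝ) → F) (hg : ContDiff ℝ 1 (Function.uncurry g))
    {K Q : Set (Fin m → ℝ)} (hK : IsCompact K) (hQ : Q ⊆ K) (hQm : MeasurableSet Q)
    (x₀ v : P) :
    fderiv ℝ (fun x => ∫ h in Q, g x h) x₀ v = ∫ h in Q, fderiv ℝ (fun x => g x h) x₀ v := by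
  have hg' : Continuous (fun (h : Fin m → ℝ) => fderiv ℝ (fun x => g x h) x₀) := by
    have h1 : ContDiff ℝ 1 (Function.uncurry (fun (h : Fin m → ℝ) (x' : P) => g x' h)) := by
      have : (Function.uncurry (fun (h : Fin m → ℝ) (x' : P) => g x' h)) =
        (Function.uncurry g) ∘ (fun q : (Fin m → ℝ) × P => (q.2, q.1)) := rfl
      rw [this]
      exact hg.comp (contDiff_snd.prodMk contDiff_fst)
    have h2 := ContDiff.fderiv (n := 0) (f := fun (h : Fin m → ℝ) (x' : P) => g x' h)
      (g := fun _ => x₀) h1 contDiff_const (by simp)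
    exact h2.continuous
  rw [(param_hasFDerivAt g hg hK hQ hQm x₀).fderiv]
  exact ContinuousLinearMap.integral_apply (param_integrable hg' hK hQ) v

end Pool.Agent.Lib.P6a08f9
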