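import Pool.Agent.Lib.P6a08f9.Adapted
import Pool.Agent.Lib.P6a08f9.Param

/-!
Unimodularity, and smeared maps to probability vectors.
-/

open MeasureTheory Set Filter Topology

namespace Pool.Agent.Lib.P6a08f9

theorem measurePreserving_of_det {m : ℕ} (f : (Fin m → ℝ) → (Fin m → ℝ))
    (f' : (Fin m → ℝ) → (Fin m → ℝ) →L[ℝ] (Fin m → ℝ))
    (hf : ∀ x, HasFDerivAt f (f' x) x) (hb : Function.Bijective f)
    (hd : ∀ x, |(f' x).det| = 1) : MeasurePreserving f volume volume := by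
  have hc : Continuous f := continuous_iff_continuousAt.2 fun x => (hf x).continuousAt
  refine ⟨hc.measurable, ?_⟩
  ext s hs
  rw [Measure.map_apply hc.measurable hs]
  have := lintegral_abs_det_fderiv_eq_addHaar_image volume (hc.measurable hs)
    (fun x _ => (hf x).hasFDerivWithinAt) (hb.1.injOn)
  simp only [hd, ENNReal.ofReal_one, lintegral_const, Measure.restrict_apply MeasurableSet.univ,
    Set.univ_inter, one_mul] at this
  rw [Set.image_preimage_eq _ hb.2] at this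
  exact this

namespace ExpLaw

section adapted

variable {n : ℕ} {G : ExpLaw (Fin n → ℝ)} {w : Fin n → ℕ} {N : ℕ}

theorem mp_left (h : G.Adapted (Pi.basisFun ℝ (Fin n)) w) (hN : G.Nilp N) (a : Fin n → ℝ) :
    MeasurePreserving (fun x => G.mul a x) volume volume := by
  refine measurePreserving_of_det _ (fun x => G.dL a x) (G.hasFDerivAt_left a) ?_ fun x => ?_
  · exact ⟨fun x y hxy => by
      have := congrArg (G.mul (-a)) hxy
      simpa only [G.neg_mul_cancel] using this, fun y => ⟨G.mul (-a) y, G.mul_neg_cancel a y⟩⟩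
  · rw [ContinuousLinearMap.det,
      h.det_eq_one (G.dL a x) (fun i => hN.dL_mem a x (h.basis_mem i)), abs_one]

theorem mp_Ad (h : G.Adapted (Pi.basisFun ℝ (Fin n)) w) (a : Fin n → ℝ) :
    MeasurePreserving (fun x => G.Ad a x) volume volume := by
  refine measurePreserving_of_det _ (fun _ => G.Ad a) (fun x => (G.Ad a).hasFDerivAt) ?_
    fun x => ?_
  · exact ⟨fun x y hxy => by
      have := congrArg (G.Ad (-a)) hxy
      simpa only [G.Ad_neg_apply] using this, fun y => ⟨G.Ad (-a) y, G.Ad_apply_neg a y⟩⟩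
  · rw [ContinuousLinearMap.det,
      h.det_eq_one (G.Ad a) (fun i => G.Ad_sub_mem a (h.basis_mem i)), abs_one]

theorem mul_eq_mul_Ad {V : Type*} [NormedAddCommGroup V] [NormedSpace ℝ V] (G : ExpLaw V)
    (x a : V) : G.mul x a = G.mul a (G.Ad (-a) x) := by
  rw [G.Ad_apply, conj, neg_neg, ← G.assoc, ← G.assoc, G.mul_neg_self, G.zero_mul]

theorem mp_right (h : G.Adapted (Pi.basisFun ℝ (Fin n)) w) (hN : G.Nilp N) (a : Fin n → ℝ) :
    MeasurePreserving (fun x => G.mul x a) volume volume := by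
  have : (fun x => G.mul x a) = (fun x => G.mul a x) ∘ (fun x => G.Ad (-a) x) := by
    funext x; exact G.mul_eq_mul_Ad x a
  rw [this]
  exact (mp_left h hN a).comp (mp_Ad h (-a))

theorem mp_negmul (h : G.Adapted (Pi.basisFun ℝ (Fin n)) w) (hN : G.Nilp N) (x : Fin n → ℝ) :
    MeasurePreserving (fun y => G.mul (-y) x) volume volume :=
  (mp_right h hN x).comp (Measure.measurePreserving_neg volume)

theorem integral_negmul (h : G.Adapted (Pi.basisFun ℝ (Fin n)) w) (hN : G.Nilp N)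
    (x : Fin n → ℝ) {u : (Fin n → ℝ) → ℝ} (hu : Continuous u) :
    ∫ y, u (G.mul (-y) x) = ∫ y, u y := by
  have h1 := mp_negmul h hN x
  rw [← h1.map_eq, integral_map h1.measurable.aemeasurable hu.aestronglyMeasurable, h1.map_eq]

theorem integrable_negmul (h : G.Adapted (Pi.basisFun ℝ (Fin n)) w) (hN : G.Nilp N)
    (x : Fin n → ℝ) {u : (Fin n → ℝ) → ℝ} (hu : Integrable u) :
    Integrable (fun y => u (G.mul (-y) x)) :=
  (mp_negmul h hN x).integrable_comp_of_integrable hu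

/-- left-invariant derivative -/
noncomputable def XU (G : ExpLaw (Fin n → ℝ)) (u : (Fin n → ℝ) → ℝ) (v y : Fin n → ℝ) : ℝ :=
  fderiv ℝ u y (G.dL y 0 v)

theorem dL_zero_continuous (G : ExpLaw (Fin n → ℝ)) : Continuous (fun y => G.dL y 0) := by
  have h : ContDiff ℝ ((⊤ : ℕ∞) : WithTop ℕ∞)
      (Function.uncurry (fun g v : Fin n → ℝ => G.mul g v)) := G.smooth
  exact (ContDiff.fderiv (n := 0) (f := fun g v : Fin n → ℝ => G.mul g v) (g := fun _ => 0) h
    contDiff_const (by simp)).continuous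

theorem XU_continuous (G : ExpLaw (Fin n → ℝ)) {u : (Fin n → ℝ) → ℝ}
    (hu : ContDiff ℝ ((⊤ : ℕ∞) : WithTop ℕ∞) u) (v : Fin n → ℝ) : Continuous (XU G u v) :=
  (hu.continuous_fderiv (by simp)).clm_apply ((dL_zero_continuous G).clm_apply continuous_const)

theorem XU_support (G : ExpLaw (Fin n → ℝ)) {u : (Fin n → ℝ) → ℝ} (v y : Fin n → ℝ)
    (hy : XU G u v y ≠ 0) : y ∈ tsupport u := by
  by_contra hc
  have : fderiv ℝ u y = 0 := by
    have h1 := Filter.EventuallyEq.fderiv_eq (𝕜 := ℝ) (notMem_tsupport_iff_eventuallyEq.1 hc)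
    rw [h1]; simp
  exact hy (by rw [XU, this]; simp)

theorem XU_integrable (G : ExpLaw (Fin n → ℝ)) {u : (Fin n → ℝ) → ℝ}
    (hu : ContDiff ℝ ((⊤ : ℕ∞) : WithTop ℕ∞) u) (hc : HasCompactSupport u) (v : Fin n → ℝ) :
    Integrable (XU G u v) := by
  refine (XU_continuous G hu v).integrable_of_hasCompactSupport ?_
  refine hc.mono' ?_
  intro y hy
  exact XU_support G v y hy

theorem smooth_negmul (G : ExpLaw (Fin n → ℝ)) {u : (Fin n → ℝ) → ℝ}
    (hu : ContDiff ℝ ((⊤ : ℕ∞) : WithTop ℕ∞) u) :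
    ContDiff ℝ ((⊤ : ℕ∞) : WithTop ℕ∞)
      (Function.uncurry (fun x h : Fin n → ℝ => u (G.mul (-h) x))) :=
  hu.comp (G.contDiff_mul contDiff_snd.neg contDiff_fst)

theorem fderiv_negmul (G : ExpLaw (Fin n → ℝ)) {u : (Fin n → ℝ) → ℝ}
    (hu : ContDiff ℝ ((⊤ : ℕ∞) : WithTop ℕ∞) u) (h x v : Fin n → ℝ) :
    fderiv ℝ (fun x => u (G.mul (-h) x)) x (G.dL x 0 v) = XU G u v (G.mul (-h) x) := by
  have h1 : HasFDerivAt (fun x => u (G.mul (-h) x))
      ((fderiv ℝ u (G.mul (-h) x)).comp (G.dL (-h) x)) x :=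
    (hu.differentiable (by simp) _).hasFDerivAt.comp x (G.hasFDerivAt_left (-h) x)
  rw [h1.fderiv, ContinuousLinearMap.comp_apply, G.dL_L, XU]

theorem fderiv_param (G : ExpLaw (Fin n → ℝ)) {u : (Fin n → ℝ) → ℝ}
    (hu : ContDiff ℝ ((⊤ : ℕ∞) : WithTop ℕ∞) u) {K Q : Set (Fin n → ℝ)} (hK : IsCompact K)
    (hQ : Q ⊆ K) (hQm : MeasurableSet Q) (x v : Fin n → ℝ) :
    fderiv ℝ (fun x => ∫ h in Q, u (G.mul (-h) x)) x (G.dL x 0 v) =
      ∫ h in Q, XU G u v (G.mul (-h) x) := by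
  have h1 : ContDiff ℝ 1 (Function.uncurry (fun x h : Fin n → ℝ => u (G.mul (-h) x))) :=
    (smooth_negmul G hu).of_le (by exact_mod_cast le_top)
  rw [param_fderiv_apply _ h1 hK hQ hQm]
  refine setIntegral_congr_fun hQm fun h _ => ?_
  exact fderiv_negmul G hu h x v

theorem setIntegral_eq_of_support {K : Set (Fin n → ℝ)}
    {f : (Fin n → ℝ) → ℝ} (hf : ∀ h, f h ≠ 0 → h ∈ K) : ∫ h in K, f h = ∫ h, f h :=
  setIntegral_eq_integral_of_forall_compl_eq_zero fun h hh => by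
    by_contra hc
    exact hh (hf h hc)

theorem integral_XU (h : G.Adapted (Pi.basisFun ℝ (Fin n)) w) (hN : G.Nilp N)
    {u : (Fin n → ℝ) → ℝ} (hu : ContDiff ℝ ((⊤ : ℕ∞) : WithTop ℕ∞) u)
    (hc : HasCompactSupport u) (v : Fin n → ℝ) : ∫ y, XU G u v y = 0 := by
  set K : Set (Fin n → ℝ) := (fun p : (Fin n → ℝ) × (Fin n → ℝ) => G.mul p.1 (-p.2)) ''
    (Metric.closedBall 0 1 ×ˢ tsupport u) with hK
  have hKc : IsCompact K := by
    refine IsCompact.image ((isCompact_closedBall 0 1).prod hc) ?_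
    exact (G.contDiff_mul contDiff_fst contDiff_snd.neg).continuous
  have hKm : MeasurableSet K := hKc.measurableSet
  have hmem : ∀ x ∈ Metric.closedBall (0 : Fin n → ℝ) 1, ∀ y, G.mul (-y) x ∈ tsupport u →
      y ∈ K := by
    intro x hx y hy
    refine ⟨(x, G.mul (-y) x), ⟨hx, hy⟩, ?_⟩
    simp only [G.neg_mul_rev, neg_neg]
    exact G.mul_neg_cancel x y
  have h1 : ∀ x ∈ Metric.closedBall (0 : Fin n → ℝ) 1,
      ∫ y in K, u (G.mul (-y) x) = ∫ y, u y := by
    intro x hx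
    rw [setIntegral_eq_of_support, integral_negmul h hN x hu.continuous]
    intro y hy
    exact hmem x hx y (subset_tsupport u hy)
  have h2 := fderiv_param G hu hKc (le_refl K) hKm 0 v
  have h3 : (fun x => ∫ y in K, u (G.mul (-y) x)) =ᶠ[𝓝 0] fun _ => ∫ y, u y := by
    filter_upwards [Metric.closedBall_mem_nhds (0 : Fin n → ℝ) one_pos] with x hx
    exact h1 x hx
  rw [h3.fderiv_eq] at h2
  simp only [fderiv_fun_const, Pi.zero_apply, _root_.zero_apply] at h2
  rw [setIntegral_eq_of_support, integral_negmul h hN 0 (XU_continuous G hu v)] at h2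
  · exact h2.symm
  · intro y hy
    exact hmem 0 (Metric.mem_closedBall_self zero_le_one) y (XU_support G v _ hy)

theorem integral_XU_mul (h : G.Adapted (Pi.basisFun ℝ (Fin n)) w) (hN : G.Nilp N)
    {u : (Fin n → ℝ) → ℝ} (hu : ContDiff ℝ ((⊤ : ℕ∞) : WithTop ℕ∞) u)
    (hc : HasCompactSupport u) (v : Fin n → ℝ) (i : Fin n) :
    ∫ y, XU G u v y * y i = - ∫ y, u y * G.dL y 0 v i := by
  have hφ : ContDiff ℝ ((⊤ : ℕ∞) : WithTop ℕ∞) (fun y : Fin n → ℝ => u y * y i) :=
    hu.mul (contDiff_apply ℝ ℝ i)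
  have hφc : HasCompactSupport (fun y : Fin n → ℝ => u y * y i) := hc.mul_right
  have h1 := integral_XU h hN hφ hφc v
  have h2 : ∀ y, XU G (fun y : Fin n → ℝ => u y * y i) v y =
      XU G u v y * y i + u y * G.dL y 0 v i := by
    intro y
    have h3 : HasFDerivAt (fun y : Fin n → ℝ => y i) (ContinuousLinearMap.proj i) y :=
      (ContinuousLinearMap.proj (R := ℝ) (φ := fun _ : Fin n => ℝ) i).hasFDerivAt
    have h4 := ((hu.differentiable (by simp) y).hasFDerivAt).mul h3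
    have h5 : HasFDerivAt (fun y : Fin n → ℝ => u y * y i) _ y := h4
    rw [XU, h5.fderiv, XU]
    simp only [_root_.add_apply, _root_.smul_apply, ContinuousLinearMap.proj_apply, smul_eq_mul]
    ring
  simp only [h2] at h1
  rw [integral_add] at h1
  · linarith
  · refine Continuous.integrable_of_hasCompactSupport
      ((XU_continuous G hu v).mul (continuous_apply i)) ?_
    refine hc.mono' ?_
    intro y hy
    refine XU_support G v y ?_
    intro h0
    exact hy (by simp [h0])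
  · refine Continuous.integrable_of_hasCompactSupport
      (hu.continuous.mul ((continuous_apply i).comp
        ((dL_zero_continuous G).clm_apply continuous_const))) hc.mul_right

end adapted

/-! ### Grids -/

/-- A finite measurable partition of a compact set in small pieces. -/
structure Grid (n : ℕ) (K : Set (Fin n → ℝ)) (η : ℝ) where
  /-- index of the pieces -/
  S : Type
  /-- finite -/
  fin : Fintype S
  /-- the piece containing a point -/
  π : (Fin n → ℝ) → S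
  /-- measurability -/
  meas : ∀ s, MeasurableSet (π ⁻¹' {s})
  /-- representatives -/
  g : S → (Fin n → ℝ)
  /-- small diameter -/
  close : ∀ h ∈ K, ‖h - g (π h)‖ ≤ η

attribute [instance] Grid.fin

theorem exists_grid {n : ℕ} {K : Set (Fin n → ℝ)} (hK : IsCompact K) {η : ℝ} (hη : 0 < η) :
    Nonempty (Grid n K η) := by
  obtain ⟨B, hB⟩ := hK.isBounded.exists_norm_le
  set M := ⌊2 * B / η⌋₊ with hM
  refine ⟨⟨Fin n → Fin (M + 1), inferInstance,
    fun h i => ⟨min ⌊(h i + B) / η⌋₊ M, by omega⟩, fun s => ?_,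
    fun s i => -B + η * (s i : ℕ), fun h hh => ?_⟩⟩
  · refine measurableSet_preimage ?_ (measurableSet_singleton s)
    refine measurable_pi_iff.2 fun i => ?_
    have h1 : Measurable (fun k : ℕ => (⟨min k M, by omega⟩ : Fin (M + 1))) :=
      measurable_from_top
    refine h1.comp (Nat.measurable_floor.comp ?_)
    have h2 : Continuous (fun h : Fin n → ℝ => (h i + B) / η) := by fun_prop
    exact h2.measurable
  · have hn := hB h hh
    have hB0 : 0 ≤ B := (norm_nonneg _).trans hn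
    refine (pi_norm_le_iff_of_nonneg hη.le).2 fun i => ?_
    have hi : |h i| ≤ B := (norm_le_pi_norm h i).trans hn
    have h1 : 0 ≤ (h i + B) / η := div_nonneg (by linarith [(abs_le.1 hi).1]) hη.le
    have h2 : (h i + B) / η ≤ 2 * B / η := by
      refine div_le_div_of_nonneg_right ?_ hη.le
      linarith [(abs_le.1 hi).2]
    have h3 : ⌊(h i + B) / η⌋₊ ≤ M := Nat.floor_le_floor h2
    have h4 : ((min ⌊(h i + B) / η⌋₊ M : ℕ) : ℝ) = (⌊(h i + B) / η⌋₊ : ℝ) := by
      rw [min_eq_left h3]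
    simp only [Pi.sub_apply, Real.norm_eq_abs]
    rw [h4]
    have h5 := Nat.floor_le h1
    have h6 := Nat.lt_floor_add_one ((h i + B) / η)
    rw [le_div_iff₀ hη] at h5
    rw [div_lt_iff₀ hη] at h6
    rw [abs_le]
    constructor <;> nlinarith

namespace Grid

variable {n : ℕ} {K : Set (Fin n → ℝ)} {η : ℝ} (Γ : Grid n K η) {G : ExpLaw (Fin n → ℝ)}
  {w : Fin n → ℕ} {N : ℕ}

/-- the pieces -/
def Q (s : Γ.S) : Set (Fin n → ℝ) := K ∩ Γ.π ⁻¹' {s}

theorem Q_sub (s : Γ.S) : Γ.Q s ⊆ K := Set.inter_subset_left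

theorem Q_meas (hK : IsCompact K) (s : Γ.S) : MeasurableSet (Γ.Q s) :=
  hK.measurableSet.inter (Γ.meas s)

theorem sum_integral (hK : IsCompact K) {f : (Fin n → ℝ) → ℝ} (hf : IntegrableOn f K) :
    ∑ s, ∫ h in Γ.Q s, f h = ∫ h in K, f h := by
  have hU : K = ⋃ s, Γ.Q s := by
    ext h
    simp only [Q, Set.mem_iUnion, Set.mem_inter_iff, Set.mem_preimage, Set.mem_singleton_iff]
    constructor
    · intro hh; exact ⟨Γ.π h, hh, rfl⟩
    · rintro ⟨s, hh, -⟩; exact hh
  conv_rhs => rw [hU]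
  rw [integral_iUnion_fintype (Γ.Q_meas hK)]
  · intro s s' hss
    refine Set.disjoint_left.2 fun h h1 h2 => hss ?_
    exact h1.2.symm.trans h2.2
  · intro s
    exact hf.mono_set (Γ.Q_sub s)

/-- the smeared map -/
noncomputable def sm (G : ExpLaw (Fin n → ℝ)) (u : (Fin n → ℝ) → ℝ) (x : Fin n → ℝ) (s : Γ.S) :
    ℝ := ∫ h in Γ.Q s, u (G.mul (-h) x)

theorem sm_contDiff (hK : IsCompact K) {u : (Fin n → ℝ) → ℝ}
    (hu : ContDiff ℝ ((⊤ : ℕ∞) : WithTop ℕ∞) u) : ContDiff ℝ 2 (Γ.sm G u) := by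
  refine contDiff_pi.2 fun s => ?_
  have h1 : ContDiff ℝ ((2 : ℕ) : WithTop ℕ∞)
      (Function.uncurry (fun x h : Fin n → ℝ => u (G.mul (-h) x))) := by
    refine (ExpLaw.smooth_negmul G hu).of_le ?_
    change (((2 : ℕ∞)) : WithTop ℕ∞) ≤ _
    exact WithTop.coe_le_coe.2 le_top
  exact param_contDiff hK (Γ.Q_sub s) (Γ.Q_meas hK s) 2 _ h1

theorem fderiv_sm (hK : IsCompact K) {u : (Fin n → ℝ) → ℝ}
    (hu : ContDiff ℝ ((⊤ : ℕ∞) : WithTop ℕ∞) u) (x v : Fin n → ℝ) (s : Γ.S) :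
    fderiv ℝ (Γ.sm G u) x (G.dL x 0 v) s = ∫ h in Γ.Q s, XU G u v (G.mul (-h) x) := by
  rw [← fderiv_param G hu hK (Γ.Q_sub s) (Γ.Q_meas hK s) x v]
  have h1 : DifferentiableAt ℝ (Γ.sm G u) x :=
    (Γ.sm_contDiff hK hu).differentiable two_ne_zero x
  have h2 := hasFDerivAt_pi'.1 h1.hasFDerivAt s
  have h3 : HasFDerivAt (fun x => ∫ h in Γ.Q s, u (G.mul (-h) x)) _ x := h2
  rw [h3.fderiv]; rfl

theorem integrable_comp (f : (Fin n → ℝ) → ℝ) (hf : Continuous f) (hK : IsCompact K)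
    (x : Fin n → ℝ) : IntegrableOn (fun h => f (G.mul (-h) x)) K := by
  refine (Continuous.continuousOn ?_).integrableOn_compact hK
  exact hf.comp (G.contDiff_mul contDiff_neg contDiff_const).continuous

theorem sum_abs_le (h : G.Adapted (Pi.basisFun ℝ (Fin n)) w) (hN : G.Nilp N) (hK : IsCompact K)
    {f : (Fin n → ℝ) → ℝ} (hf : Continuous f) (hfi : Integrable f) (x : Fin n → ℝ) :
    ∑ s, |∫ h in Γ.Q s, f (G.mul (-h) x)| ≤ ∫ y, |f y| := by
  calc ∑ s, |∫ h in Γ.Q s, f (G.mul (-h) x)| ≤ ∑ s, ∫ h in Γ.Q s, |f (G.mul (-h) x)| :=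
        Finset.sum_le_sum fun s _ => abs_integral_le_integral_abs
    _ = ∫ h in K, |f (G.mul (-h) x)| :=
        Γ.sum_integral hK (integrable_comp (fun y => |f y|) hf.abs hK x)
    _ ≤ ∫ h, |f (G.mul (-h) x)| := by
        refine setIntegral_le_integral ?_ (Filter.Eventually.of_forall fun _ => abs_nonneg _)
        exact (integrable_negmul h hN x hfi).abs
    _ = ∫ y, |f y| := integral_negmul h hN x hf.abs

theorem sum_eq (h : G.Adapted (Pi.basisFun ℝ (Fin n)) w) (hN : G.Nilp N) (hK : IsCompact K)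
    {f : (Fin n → ℝ) → ℝ} (hf : Continuous f) (x : Fin n → ℝ)
    (hx : ∀ y, f (G.mul (-y) x) ≠ 0 → y ∈ K) :
    ∑ s, ∫ h in Γ.Q s, f (G.mul (-h) x) = ∫ y, f y := by
  rw [Γ.sum_integral hK (integrable_comp f hf hK x), setIntegral_eq_of_support hx,
    integral_negmul h hN x hf]

theorem exists_of_ne_zero (hK : IsCompact K) {f : (Fin n → ℝ) → ℝ} (x : Fin n → ℝ) (s : Γ.S)
    (hs : ∫ h in Γ.Q s, f (G.mul (-h) x) ≠ 0) :
    ∃ h ∈ K, Γ.π h = s ∧ f (G.mul (-h) x) ≠ 0 := by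
  by_contra hc
  push Not at hc
  refine hs ?_
  rw [← integral_zero (Fin n → ℝ) ℝ (μ := volume.restrict (Γ.Q s))]
  refine setIntegral_congr_fun (Γ.Q_meas hK s) fun h hh => ?_
  exact hc h hh.1 hh.2

end Grid

end ExpLaw

end Pool.Agent.Lib.P6a08f9
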