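import Mathlib

/-!
Lie group structures on a vector space in exponential coordinates: adjoint action, bracket,
the left trivialisation.
-/

open Set Filter Topology

namespace Pool.Agent.Lib.P6a08f9

/-- A Lie group law on a vector space in exponential coordinates. -/
structure ExpLaw (V : Type*) [NormedAddCommGroup V] [NormedSpace ℝ V] where
  /-- multiplication -/
  mul : V → V → V
  /-- smooth -/
  smooth : ContDiff ℝ ((⊤ : ℕ∞) : WithTop ℕ∞) (fun p : V × V => mul p.1 p.2)
  /-- associative -/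
  assoc : ∀ x y z : V, mul (mul x y) z = mul x (mul y z)
  /-- lines through zero are one-parameter subgroups -/
  line : ∀ (s t : ℝ) (v : V), mul (s • v) (t • v) = (s + t) • v

namespace ExpLaw

variable {V : Type*} [NormedAddCommGroup V] [NormedSpace ℝ V] (G : ExpLaw V)

theorem zero_mul (x : V) : G.mul 0 x = x := by
  have := G.line 0 1 x; simpa using this

theorem mul_zero (x : V) : G.mul x 0 = x := by
  have := G.line 1 0 x; simpa using this

theorem neg_mul_self (x : V) : G.mul (-x) x = 0 := by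
  have := G.line (-1) 1 x; simpa using this

theorem mul_neg_self (x : V) : G.mul x (-x) = 0 := by
  have := G.line 1 (-1) x; simpa using this

theorem neg_mul_cancel (x y : V) : G.mul (-x) (G.mul x y) = y := by
  rw [← G.assoc, neg_mul_self, zero_mul]

theorem mul_neg_cancel (x y : V) : G.mul x (G.mul (-x) y) = y := by
  rw [← G.assoc, mul_neg_self, zero_mul]

theorem mul_cancel_right (x y : V) : G.mul (G.mul x y) (-y) = x := by
  rw [G.assoc, mul_neg_self, mul_zero]

theorem mul_cancel_right' (x y : V) : G.mul (G.mul x (-y)) y = x := by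
  rw [G.assoc, neg_mul_self, mul_zero]

theorem eq_neg_of_mul {x y : V} (h : G.mul x y = 0) : y = -x := by
  have := G.neg_mul_cancel x y
  rw [h, mul_zero] at this
  exact this.symm

theorem neg_mul_rev (x y : V) : -(G.mul x y) = G.mul (-y) (-x) := by
  symm
  apply G.eq_neg_of_mul
  rw [G.assoc, G.mul_neg_cancel, G.mul_neg_self]

section smoothness

variable {W : Type*} [NormedAddCommGroup W] [NormedSpace ℝ W]

theorem contDiff_mul {f g : W → V} (hf : ContDiff ℝ ((⊤ : ℕ∞) : WithTop ℕ∞) f)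
    (hg : ContDiff ℝ ((⊤ : ℕ∞) : WithTop ℕ∞) g) :
    ContDiff ℝ ((⊤ : ℕ∞) : WithTop ℕ∞) (fun w => G.mul (f w) (g w)) :=
  G.smooth.comp (hf.prodMk hg)

theorem diff_mul {f g : W → V} (hf : ContDiff ℝ ((⊤ : ℕ∞) : WithTop ℕ∞) f)
    (hg : ContDiff ℝ ((⊤ : ℕ∞) : WithTop ℕ∞) g) (w : W) :
    DifferentiableAt ℝ (fun w => G.mul (f w) (g w)) w :=
  (G.contDiff_mul hf hg).differentiable (by simp) w

end smoothness

/-- derivative of the left translation by `x`, at `y` -/
noncomputable def dL (x y : V) : V →L[ℝ] V := fderiv ℝ (fun z => G.mul x z) y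

/-- derivative of the right translation by `y`, at `x` -/
noncomputable def dR (x y : V) : V →L[ℝ] V := fderiv ℝ (fun z => G.mul z y) x

theorem hasFDerivAt_left (x y : V) : HasFDerivAt (fun z => G.mul x z) (G.dL x y) y :=
  (G.diff_mul contDiff_const contDiff_id y).hasFDerivAt

theorem hasFDerivAt_right (x y : V) : HasFDerivAt (fun z => G.mul z y) (G.dR x y) x :=
  (G.diff_mul contDiff_id contDiff_const x).hasFDerivAt

theorem hasFDerivAt_mul (x y : V) :
    HasFDerivAt (fun p : V × V => G.mul p.1 p.2)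
      ((G.dR x y).comp (ContinuousLinearMap.fst ℝ V V) +
        (G.dL x y).comp (ContinuousLinearMap.snd ℝ V V)) (x, y) := by
  have h : HasFDerivAt (fun p : V × V => G.mul p.1 p.2)
      (fderiv ℝ (fun p : V × V => G.mul p.1 p.2) (x, y)) (x, y) :=
    (G.smooth.differentiable (by simp) (x, y)).hasFDerivAt
  have h1 : (fderiv ℝ (fun p : V × V => G.mul p.1 p.2) (x, y)).comp
      (ContinuousLinearMap.inl ℝ V V) = G.dR x y := by
    have h2 : HasFDerivAt (fun z : V => (z, y)) (ContinuousLinearMap.inl ℝ V V) x := by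
      have := (hasFDerivAt_id (𝕜 := ℝ) x).prodMk (hasFDerivAt_const (𝕜 := ℝ) y x)
      exact this
    have h3 := HasFDerivAt.comp x (g := fun p : V × V => G.mul p.1 p.2) h h2
    exact (h3.unique (G.hasFDerivAt_right x y))
  have h2 : (fderiv ℝ (fun p : V × V => G.mul p.1 p.2) (x, y)).comp
      (ContinuousLinearMap.inr ℝ V V) = G.dL x y := by
    have h2 : HasFDerivAt (fun z : V => (x, z)) (ContinuousLinearMap.inr ℝ V V) y := by
      have := (hasFDerivAt_const (𝕜 := ℝ) x y).prodMk (hasFDerivAt_id (𝕜 := ℝ) y)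
      exact this
    have h3 := HasFDerivAt.comp y (g := fun p : V × V => G.mul p.1 p.2) h h2
    exact (h3.unique (G.hasFDerivAt_left x y))
  convert h using 1
  rw [← h1, ← h2]
  ext p
  · simp only [ContinuousLinearMap.comp_apply, ContinuousLinearMap.inl_apply,
      _root_.add_apply, ContinuousLinearMap.coe_fst', ContinuousLinearMap.coe_snd',
      ContinuousLinearMap.inr_apply]
    rw [show ((0 : V), (0 : V)) = 0 from rfl, map_zero, add_zero]
  · simp only [ContinuousLinearMap.comp_apply, ContinuousLinearMap.inl_apply,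
      _root_.add_apply, ContinuousLinearMap.coe_fst', ContinuousLinearMap.coe_snd',
      ContinuousLinearMap.inr_apply]
    rw [show ((0 : V), (0 : V)) = 0 from rfl, map_zero, zero_add]

theorem hasDerivAt_mul {f g : ℝ → V} {f' g' : V} {s : ℝ} (hf : HasDerivAt f f' s)
    (hg : HasDerivAt g g' s) :
    HasDerivAt (fun s => G.mul (f s) (g s)) (G.dR (f s) (g s) f' + G.dL (f s) (g s) g') s := by
  have h := (G.hasFDerivAt_mul (f s) (g s)).comp_hasDerivAt s (hf.prodMk hg)
  simpa [Function.comp_def] using h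

theorem dL_zero_left (y : V) : G.dL 0 y = ContinuousLinearMap.id ℝ V := by
  have h : (fun z => G.mul 0 z) = id := by funext z; exact G.zero_mul z
  rw [dL, h, fderiv_id]

theorem dR_zero_right (x : V) : G.dR x 0 = ContinuousLinearMap.id ℝ V := by
  have h : (fun z => G.mul z 0) = id := by funext z; exact G.mul_zero z
  rw [dR, h, fderiv_id]

theorem hasDerivAt_mul_zero {f g : ℝ → V} {f' g' : V} {s : ℝ} (hf : HasDerivAt f f' s)
    (hg : HasDerivAt g g' s) (hf0 : f s = 0) (hg0 : g s = 0) :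
    HasDerivAt (fun s => G.mul (f s) (g s)) (f' + g') s := by
  have h := G.hasDerivAt_mul hf hg
  rw [hf0, hg0, dL_zero_left, dR_zero_right] at h
  simpa using h

/-- Smooth one-parameter subgroups are lines. -/
theorem eq_line {φ : ℝ → V} {v : V} (hv : HasDerivAt φ v 0)
    (hφ : ∀ s h, φ (s + h) = G.mul (φ s) (φ h)) (s : ℝ) : φ s = s • v := by
  have h0 : φ 0 = 0 := by
    have := hφ 0 0
    rw [add_zero] at this
    have h2 := G.neg_mul_cancel (φ 0) (φ 0)
    rw [← this, G.neg_mul_self] at h2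
    exact h2.symm
  set ψ : ℝ → V := fun s => G.mul (-(s • v)) (φ s) with hψ
  have hq : HasDerivAt (fun h : ℝ => G.mul (-(h • v)) (φ h)) 0 0 := by
    have h1 : HasDerivAt (fun h : ℝ => -(h • v)) (-((1 : ℝ) • v)) 0 :=
      ((hasDerivAt_id (0 : ℝ)).smul_const v).neg
    have := G.hasDerivAt_mul_zero h1 hv (by simp) h0
    simpa using this
  have hd : ∀ s, HasDerivAt ψ 0 s := by
    intro s
    have hP : HasFDerivAt (fun y => G.mul (-(s • v)) (G.mul y (φ s)))
        (fderiv ℝ (fun y => G.mul (-(s • v)) (G.mul y (φ s))) 0) (G.mul (-((0:ℝ) • v)) (φ 0)) := by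
      have : G.mul (-((0:ℝ) • v)) (φ 0) = 0 := by rw [h0]; simp [G.mul_zero]
      rw [this]
      exact (G.diff_mul contDiff_const (G.contDiff_mul contDiff_id contDiff_const) 0).hasFDerivAt
    have h1 := hP.comp_hasDerivAt (0 : ℝ) hq
    rw [map_zero] at h1
    have h2 : (fun y => G.mul (-(s • v)) (G.mul y (φ s))) ∘
        (fun h : ℝ => G.mul (-(h • v)) (φ h)) = fun h : ℝ => ψ (h + s) := by
      funext h
      simp only [Function.comp_apply, hψ]
      have e1 : -((h + s) • v) = G.mul (-(s • v)) (-(h • v)) := by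
        have := G.line (-s) (-h) v
        rw [← neg_smul, ← neg_smul, ← neg_smul, this]
        congr 1; ring
      rw [e1, hφ h s]
      simp only [G.assoc]
    rw [h2] at h1
    have h3 : HasDerivAt (fun h : ℝ => ψ (h + s)) 0 (s - s) := by rwa [sub_self]
    have h4 := h3.comp_sub_const s s
    simpa using h4
  have hc : ψ s = ψ 0 := is_const_of_deriv_eq_zero (fun s => (hd s).differentiableAt)
    (fun s => (hd s).deriv) s 0
  have h5 : ψ 0 = 0 := by simp [hψ, h0, G.mul_zero]
  rw [h5] at hc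
  have := G.eq_neg_of_mul hc
  rw [this, neg_neg]

/-! ### The adjoint action -/

/-- conjugation -/
def conj (g v : V) : V := G.mul (G.mul g v) (-g)

theorem conj_mul (g v w : V) : G.conj g (G.mul v w) = G.mul (G.conj g v) (G.conj g w) := by
  simp only [conj, G.assoc]
  rw [G.neg_mul_cancel]

theorem conj_conj (g h v : V) : G.conj g (G.conj h v) = G.conj (G.mul g h) v := by
  simp only [conj, G.neg_mul_rev, G.assoc]

theorem conj_smooth : ContDiff ℝ ((⊤ : ℕ∞) : WithTop ℕ∞) (fun p : V × V => G.conj p.1 p.2) :=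
  G.contDiff_mul (G.contDiff_mul contDiff_fst contDiff_snd) contDiff_fst.neg

/-- The adjoint action, as a linear map. -/
noncomputable def Ad (g : V) : V →L[ℝ] V := fderiv ℝ (fun v => G.conj g v) 0

theorem conj_hasFDerivAt (g : V) : HasFDerivAt (fun v => G.conj g v) (G.Ad g) 0 :=
  ((G.conj_smooth.comp (contDiff_const.prodMk contDiff_id)).differentiable
    (by simp) 0).hasFDerivAt

theorem conj_zero (g : V) : G.conj g 0 = 0 := by
  rw [conj, G.mul_zero, G.mul_neg_self]

theorem Ad_apply (g v : V) : G.Ad g v = G.conj g v := by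
  have h1 : HasDerivAt (fun s : ℝ => G.conj g (s • v)) (G.Ad g v) 0 := by
    have h2 : HasDerivAt (fun s : ℝ => s • v) ((1 : ℝ) • v) 0 :=
      (hasDerivAt_id (0 : ℝ)).smul_const v
    have h3 : HasFDerivAt (fun v => G.conj g v) (G.Ad g) ((0 : ℝ) • v) := by
      rw [zero_smul]; exact G.conj_hasFDerivAt g
    have := h3.comp_hasDerivAt (0 : ℝ) h2
    simpa [Function.comp_def] using this
  have h2 := G.eq_line h1 (fun s h => by rw [← G.conj_mul, G.line]) 1
  simpa using h2.symm

theorem Ad_mul (g v w : V) : G.Ad g (G.mul v w) = G.mul (G.Ad g v) (G.Ad g w) := by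
  simp only [Ad_apply, conj_mul]

theorem Ad_comp (g h : V) : G.Ad (G.mul g h) = (G.Ad g).comp (G.Ad h) := by
  ext v
  simp only [Ad_apply, ContinuousLinearMap.comp_apply, conj_conj]

theorem Ad_zero : G.Ad 0 = ContinuousLinearMap.id ℝ V := by
  ext v
  rw [Ad_apply, conj, G.zero_mul, neg_zero, G.mul_zero]; rfl

theorem Ad_line (X : V) (s h : ℝ) : G.Ad ((s + h) • X) = (G.Ad (s • X)).comp (G.Ad (h • X)) := by
  rw [← G.Ad_comp, G.line]

theorem Ad_self (X : V) (s : ℝ) : G.Ad (s • X) X = X := by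
  rw [Ad_apply, conj]
  have h1 : G.mul (s • X) X = (s + 1) • X := by
    have := G.line s 1 X
    rwa [one_smul] at this
  rw [h1]
  have := G.line (s + 1) (-s) X
  rw [neg_smul] at this
  rw [this]; simp

theorem Ad_neg_comp (g : V) : (G.Ad (-g)).comp (G.Ad g) = ContinuousLinearMap.id ℝ V := by
  rw [← G.Ad_comp, G.neg_mul_self, G.Ad_zero]

theorem Ad_neg_apply (g v : V) : G.Ad (-g) (G.Ad g v) = v := by
  have := G.Ad_neg_comp g
  exact DFunLike.congr_fun this v

theorem Ad_apply_neg (g v : V) : G.Ad g (G.Ad (-g) v) = v := by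
  have := G.Ad_neg_apply (-g) v
  rwa [neg_neg] at this

theorem Ad_contDiff : ContDiff ℝ ((⊤ : ℕ∞) : WithTop ℕ∞) (fun g => G.Ad g) := by
  have h : ContDiff ℝ ((⊤ : ℕ∞) : WithTop ℕ∞)
      (Function.uncurry (fun g v : V => G.conj g v)) := G.conj_smooth
  exact ContDiff.fderiv (f := fun g v : V => G.conj g v) (g := fun _ => (0 : V)) h
    contDiff_const (by simp)

/-- The Lie bracket, as a bilinear map. -/
noncomputable def ad : V →L[ℝ] (V →L[ℝ] V) := fderiv ℝ (fun g => G.Ad g) 0

theorem Ad_hasFDerivAt_zero : HasFDerivAt (fun g => G.Ad g) G.ad 0 :=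
  (G.Ad_contDiff.differentiable (by simp) 0).hasFDerivAt

theorem Ad_hasDerivAt_zero (X : V) : HasDerivAt (fun s : ℝ => G.Ad (s • X)) (G.ad X) 0 := by
  have h2 : HasDerivAt (fun s : ℝ => s • X) ((1 : ℝ) • X) 0 :=
    (hasDerivAt_id (0 : ℝ)).smul_const X
  have h3 : HasFDerivAt (fun v => G.Ad v) G.ad ((0 : ℝ) • X) := by
    rw [zero_smul]; exact G.Ad_hasFDerivAt_zero
  have := h3.comp_hasDerivAt (0 : ℝ) h2
  rw [one_smul] at this
  exact this

theorem Ad_hasDerivAt (X : V) (s : ℝ) :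
    HasDerivAt (fun s : ℝ => G.Ad (s • X)) ((G.Ad (s • X)).comp (G.ad X)) s := by
  have h1 : HasDerivAt (fun h : ℝ => (G.Ad (s • X)).comp (G.Ad (h • X)))
      ((G.Ad (s • X)).comp (G.ad X)) (s - s) := by
    rw [sub_self]
    have h0 := (hasDerivAt_const (0 : ℝ) (G.Ad (s • X))).clm_comp (G.Ad_hasDerivAt_zero X)
    simpa using h0
  have h2 := h1.comp_sub_const s s
  refine h2.congr_of_eventuallyEq (Filter.Eventually.of_forall fun x => ?_)
  change G.Ad (x • X) = (G.Ad (s • X)).comp (G.Ad ((x - s) • X))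
  rw [← G.Ad_line]
  congr 2; ring

theorem Ad_hasDerivAt' (X : V) (s : ℝ) :
    HasDerivAt (fun s : ℝ => G.Ad (s • X)) ((G.ad X).comp (G.Ad (s • X))) s := by
  have h1 : HasDerivAt (fun h : ℝ => (G.Ad (h • X)).comp (G.Ad (s • X)))
      ((G.ad X).comp (G.Ad (s • X))) (s - s) := by
    rw [sub_self]
    have h0 := (G.Ad_hasDerivAt_zero X).clm_comp (hasDerivAt_const (0 : ℝ) (G.Ad (s • X)))
    simpa using h0
  have h2 := h1.comp_sub_const s s
  refine h2.congr_of_eventuallyEq (Filter.Eventually.of_forall fun x => ?_)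
  change G.Ad (x • X) = (G.Ad ((x - s) • X)).comp (G.Ad (s • X))
  rw [← G.Ad_line]
  congr 2; ring

theorem Ad_apply_hasDerivAt (X v : V) (s : ℝ) :
    HasDerivAt (fun s : ℝ => G.Ad (s • X) v) (G.Ad (s • X) (G.ad X v)) s := by
  have := (G.Ad_hasDerivAt X s).clm_apply (hasDerivAt_const s v)
  simpa using this

theorem ad_self (X : V) : G.ad X X = 0 := by
  have h1 := G.Ad_apply_hasDerivAt X X 0
  have h2 : (fun s : ℝ => G.Ad (s • X) X) = fun _ => X := by
    funext s; exact G.Ad_self X s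
  rw [h2] at h1
  have h3 := h1.unique (hasDerivAt_const (0 : ℝ) X)
  rw [zero_smul, G.Ad_zero] at h3
  exact h3

theorem ad_antisymm (X Y : V) : G.ad X Y = -G.ad Y X := by
  have h := G.ad_self (X + Y)
  simp only [map_add, _root_.add_apply, G.ad_self, zero_add, add_zero] at h
  rwa [add_comm, ← eq_neg_iff_add_eq_zero] at h

theorem Ad_Ad (g h v : V) : G.Ad g (G.Ad h v) = G.Ad (G.Ad g h) (G.Ad g v) := by
  have h1 : G.mul (G.Ad g h) g = G.mul g h := by
    rw [G.Ad_apply, conj, G.mul_cancel_right']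
  rw [← ContinuousLinearMap.comp_apply, ← G.Ad_comp, ← ContinuousLinearMap.comp_apply,
    ← G.Ad_comp, h1]

theorem Ad_ad (g Y v : V) : G.Ad g (G.ad Y v) = G.ad (G.Ad g Y) (G.Ad g v) := by
  have h1 : HasDerivAt (fun s : ℝ => G.Ad g (G.Ad (s • Y) v)) (G.Ad g (G.ad Y v)) 0 := by
    have := (G.Ad g).hasFDerivAt.comp_hasDerivAt (0 : ℝ) (G.Ad_apply_hasDerivAt Y v 0)
    rw [zero_smul, G.Ad_zero] at this
    exact this
  have h2 : HasDerivAt (fun s : ℝ => G.Ad (s • G.Ad g Y) (G.Ad g v))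
      (G.ad (G.Ad g Y) (G.Ad g v)) 0 := by
    have := G.Ad_apply_hasDerivAt (G.Ad g Y) (G.Ad g v) 0
    rwa [zero_smul, G.Ad_zero] at this
  have h3 : (fun s : ℝ => G.Ad g (G.Ad (s • Y) v)) =
      fun s : ℝ => G.Ad (s • G.Ad g Y) (G.Ad g v) := by
    funext s
    rw [G.Ad_Ad, map_smul]
  rw [h3] at h1
  exact h1.unique h2

theorem jacobi (X Y v : V) :
    G.ad X (G.ad Y v) = G.ad (G.ad X Y) v + G.ad Y (G.ad X v) := by
  have h1 : HasDerivAt (fun s : ℝ => G.Ad (s • X) (G.ad Y v)) (G.ad X (G.ad Y v)) 0 := by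
    have := G.Ad_apply_hasDerivAt X (G.ad Y v) 0
    rwa [zero_smul, G.Ad_zero] at this
  have h2 : HasDerivAt (fun s : ℝ => G.ad (G.Ad (s • X) Y) (G.Ad (s • X) v))
      (G.ad (G.ad X Y) v + G.ad Y (G.ad X v)) 0 := by
    have e1 := G.Ad_apply_hasDerivAt X Y 0
    have e2 := G.Ad_apply_hasDerivAt X v 0
    rw [zero_smul, G.Ad_zero] at e1 e2
    have e3 := G.ad.hasFDerivAt.comp_hasDerivAt (0 : ℝ) e1
    have e4 := e3.clm_apply e2
    simp only [Function.comp_def, zero_smul, G.Ad_zero, ContinuousLinearMap.coe_id',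
      id_eq] at e4
    exact e4
  have h3 : (fun s : ℝ => G.Ad (s • X) (G.ad Y v)) =
      fun s : ℝ => G.ad (G.Ad (s • X) Y) (G.Ad (s • X) v) := by
    funext s
    rw [G.Ad_ad]
  rw [h3] at h1
  exact h1.unique h2

/-! ### Left trivialisation -/

/-- left trivialisation -/
noncomputable def Λ (x : V) : V →L[ℝ] V := G.dL (-x) x

theorem dL_comp (x y z : V) : (G.dL x (G.mul y z)).comp (G.dL y z) = G.dL (G.mul x y) z := by
  have h1 := (G.hasFDerivAt_left x (G.mul y z)).comp z (G.hasFDerivAt_left y z)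
  have h2 : (fun w => G.mul x w) ∘ (fun w => G.mul y w) = fun w => G.mul (G.mul x y) w := by
    funext w; simp [G.assoc]
  rw [h2] at h1
  exact h1.unique (G.hasFDerivAt_left _ _)

theorem Λ_comp_dL (a w : V) : (G.Λ (G.mul a w)).comp (G.dL a w) = G.Λ w := by
  rw [Λ, G.dL_comp, G.neg_mul_rev, G.assoc, G.neg_mul_self, G.mul_zero]; rfl

theorem Λ_zero : G.Λ 0 = ContinuousLinearMap.id ℝ V := by
  rw [Λ, neg_zero, G.dL_zero_left]

theorem Λ_comp_L (x : V) : (G.Λ x).comp (G.dL x 0) = ContinuousLinearMap.id ℝ V := by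
  have := G.Λ_comp_dL x 0
  rwa [G.mul_zero, G.Λ_zero] at this

theorem L_comp_Λ (x : V) : (G.dL x 0).comp (G.Λ x) = ContinuousLinearMap.id ℝ V := by
  have := G.dL_comp x (-x) x
  rw [G.neg_mul_self, G.mul_neg_self, G.dL_zero_left] at this
  exact this

theorem dL_eq (a w v : V) : G.dL a w v = G.dL (G.mul a w) 0 (G.Λ w v) := by
  have h1 := DFunLike.congr_fun (G.L_comp_Λ (G.mul a w)) (G.dL a w v)
  have h2 := DFunLike.congr_fun (G.Λ_comp_dL a w) v
  simp only [ContinuousLinearMap.comp_apply] at h1 h2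
  rw [← h2, h1]; rfl

theorem dL_L (a w v : V) : G.dL a w (G.dL w 0 v) = G.dL (G.mul a w) 0 v := by
  have := DFunLike.congr_fun (G.dL_comp a w 0) v
  rw [G.mul_zero] at this
  exact this

/-- the function `s ↦ s Λ(s X) W` -/
noncomputable def Th (X W : V) (s : ℝ) : V := s • G.Λ (s • X) W

theorem Th_zero (X W : V) : G.Th X W 0 = 0 := by simp [Th]

theorem Th_hasDerivAt_eps (X W : V) (s : ℝ) :
    HasDerivAt (fun ε : ℝ => G.mul (-(s • X)) (s • (X + ε • W))) (G.Th X W s) 0 := by
  have h1 : HasDerivAt (fun ε : ℝ => s • (X + ε • W)) (s • W) 0 := by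
    have := (((hasDerivAt_id (0 : ℝ)).smul_const W).const_add X).const_smul s
    rw [one_smul] at this
    exact this
  have h2 : HasFDerivAt (fun z => G.mul (-(s • X)) z) (G.Λ (s • X)) (s • (X + (0 : ℝ) • W)) := by
    rw [zero_smul, add_zero]
    exact G.hasFDerivAt_left _ _
  have := h2.comp_hasDerivAt (0 : ℝ) h1
  rw [map_smul] at this
  exact this

theorem Th_add (X W : V) (s h : ℝ) :
    G.Th X W (s + h) = G.Ad (-(h • X)) (G.Th X W s) + G.Th X W h := by
  have h1 := G.Th_hasDerivAt_eps X W (s + h)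
  have h2 := (G.Ad (-(h • X))).hasFDerivAt.comp_hasDerivAt (0 : ℝ) (G.Th_hasDerivAt_eps X W s)
  have h3 := G.hasDerivAt_mul_zero h2 (G.Th_hasDerivAt_eps X W h) ?_ ?_
  · refine h1.unique ?_
    convert h3 using 1
    funext ε
    simp only [Function.comp_apply, G.Ad_apply, conj, neg_neg]
    have e1 : -((s + h) • X) = G.mul (-(h • X)) (-(s • X)) := by
      have := G.line (-h) (-s) X
      rw [← neg_smul, ← neg_smul, ← neg_smul, this]
      congr 1; ring
    have e2 : (s + h) • (X + ε • W) = G.mul (s • (X + ε • W)) (h • (X + ε • W)) := by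
      rw [G.line]
    rw [e1, e2]
    simp only [G.assoc]
    rw [G.mul_neg_cancel]
  · simp [G.neg_mul_self]
  · simp [G.neg_mul_self]

theorem Λ_contDiff : ContDiff ℝ ((⊤ : ℕ∞) : WithTop ℕ∞) (fun x => G.Λ x) := by
  have h : ContDiff ℝ ((⊤ : ℕ∞) : WithTop ℕ∞)
      (Function.uncurry (fun g v : V => G.mul (-g) v)) :=
    G.contDiff_mul contDiff_fst.neg contDiff_snd
  exact ContDiff.fderiv (f := fun g v : V => G.mul (-g) v) (g := fun x => x) h
    contDiff_id (by simp)

theorem Th_hasDerivAt_zero (X W : V) : HasDerivAt (G.Th X W) W 0 := by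
  have h2 : ContDiff ℝ ((⊤ : ℕ∞) : WithTop ℕ∞) (fun s : ℝ => G.Λ (s • X) W) :=
    (G.Λ_contDiff.comp (contDiff_id.smul contDiff_const)).clm_apply contDiff_const
  have h3 := (h2.differentiable (by simp) 0).hasDerivAt
  have h4 := (hasDerivAt_id (0 : ℝ)).smul h3
  have h5 : HasDerivAt (G.Th X W) _ 0 := h4
  convert h5 using 1
  simp [G.Λ_zero]

theorem Th_hasDerivAt (X W : V) (s : ℝ) :
    HasDerivAt (G.Th X W) (W - G.ad X (G.Th X W s)) s := by
  have h1 : HasDerivAt (fun h : ℝ => G.Ad (-(h • X)) (G.Th X W s) + G.Th X W h)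
      (-(G.ad X (G.Th X W s)) + W) 0 := by
    refine HasDerivAt.add ?_ (G.Th_hasDerivAt_zero X W)
    have h2 := G.Ad_apply_hasDerivAt (-X) (G.Th X W s) 0
    rw [zero_smul, G.Ad_zero] at h2
    simp only [map_neg, _root_.neg_apply, ContinuousLinearMap.coe_id', id_eq,
      smul_neg] at h2
    exact h2
  have h2 : HasDerivAt (fun h : ℝ => G.Th X W (s + h)) (-(G.ad X (G.Th X W s)) + W) (s - s) := by
    rw [sub_self]
    refine h1.congr_of_eventuallyEq (Filter.Eventually.of_forall fun x => ?_)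
    exact G.Th_add X W s x
  have h3 := h2.comp_sub_const s s
  convert h3 using 1
  · funext x; simp
  · abel

end ExpLaw

end Pool.Agent.Lib.P6a08f9
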