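import Pool.Agent.Lib.P6a08f9.Lie

/-!
The lower central filtration of the Lie algebra and its consequences for the group law.
-/

open Set Filter Topology

namespace Pool.Agent.Lib.P6a08f9

namespace ExpLaw

variable {V : Type*} [NormedAddCommGroup V] [NormedSpace ℝ V] (G : ExpLaw V)

/-- the lower central series of the Lie algebra (starting at `1`, and `F 0 = ⊤`) -/
def F : ℕ → Submodule ℝ V
  | 0 => ⊤
  | 1 => ⊤
  | (j + 2) => Submodule.span ℝ {z | ∃ x : V, ∃ y ∈ F (j + 1), G.ad x y = z}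

theorem F_one : G.F 1 = ⊤ := rfl

theorem ad_mem_F {j : ℕ} (x : V) {y : V} (hy : y ∈ G.F j) : G.ad x y ∈ G.F (j + 1) := by
  cases j with
  | zero => exact Submodule.mem_top
  | succ j => exact Submodule.subset_span ⟨x, y, hy, rfl⟩

theorem F_succ_le (j : ℕ) : G.F (j + 1) ≤ G.F j := by
  induction j with
  | zero => exact le_top
  | succ j ih =>
    change Submodule.span ℝ {z | ∃ x : V, ∃ y ∈ G.F (j + 1), G.ad x y = z} ≤ _
    rw [Submodule.span_le]
    rintro z ⟨x, y, hy, rfl⟩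
    exact G.ad_mem_F x (ih hy)

theorem F_anti {i j : ℕ} (h : i ≤ j) : G.F j ≤ G.F i := by
  induction h with
  | refl => exact le_rfl
  | step _ ih => exact (G.F_succ_le _).trans ih

theorem ad_mem_F_add : ∀ (i : ℕ) {j : ℕ} {x y : V}, x ∈ G.F i → y ∈ G.F j →
    G.ad x y ∈ G.F (i + j)
  | 0, j, x, y, _, hy => by
    rw [zero_add]; exact G.F_succ_le _ (G.ad_mem_F x hy)
  | 1, j, x, y, _, hy => by
    rw [add_comm]; exact G.ad_mem_F x hy
  | (i + 2), j, x, y, hx, hy => by
    change x ∈ Submodule.span ℝ {z | ∃ x : V, ∃ y ∈ G.F (i + 1), G.ad x y = z} at hx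
    induction hx using Submodule.span_induction with
    | mem z hz =>
      obtain ⟨a, b, hb, rfl⟩ := hz
      have h := G.jacobi a b y
      have h' : G.ad (G.ad a b) y = G.ad a (G.ad b y) - G.ad b (G.ad a y) := by
        rw [h]; abel
      rw [h']
      refine Submodule.sub_mem _ ?_ ?_
      · have := G.ad_mem_F a (ad_mem_F_add (i + 1) hb hy)
        convert this using 2; omega
      · have := ad_mem_F_add (i + 1) hb (G.ad_mem_F a hy)
        convert this using 2; omega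
    | zero => simp
    | add a b _ _ ha hb =>
      rw [map_add, _root_.add_apply]
      exact Submodule.add_mem _ ha hb
    | smul c a _ ha =>
      rw [map_smul, _root_.smul_apply]
      exact Submodule.smul_mem _ _ ha

theorem Ad_mem_F (g : V) : ∀ {j : ℕ} {v : V}, v ∈ G.F j → G.Ad g v ∈ G.F j
  | 0, _, _ => Submodule.mem_top
  | 1, _, _ => Submodule.mem_top
  | (j + 2), v, hv => by
    change v ∈ Submodule.span ℝ {z | ∃ x : V, ∃ y ∈ G.F (j + 1), G.ad x y = z} at hv
    induction hv using Submodule.span_induction with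
    | mem z hz =>
      obtain ⟨a, b, hb, rfl⟩ := hz
      rw [G.Ad_ad]
      exact G.ad_mem_F _ (Ad_mem_F g hb)
    | zero => simp
    | add a b _ _ ha hb =>
      rw [map_add]; exact Submodule.add_mem _ ha hb
    | smul c a _ ha =>
      rw [map_smul]; exact Submodule.smul_mem _ _ ha

theorem ad_pow_mem (x : V) {j : ℕ} {y : V} (hy : y ∈ G.F j) (k : ℕ) :
    ((G.ad x) ^ k) y ∈ G.F (j + k) := by
  induction k with
  | zero => simpa using hy
  | succ k ih =>
    rw [pow_succ', _root_.mul_apply_eq_comp]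
    exact G.ad_mem_F x ih

section fd

variable [FiniteDimensional ℝ V]

theorem exists_proj (S : Submodule ℝ V) : ∃ P : V →L[ℝ] V, ∀ x, P x = 0 ↔ x ∈ S := by
  obtain ⟨q, hq⟩ := S.exists_isCompl
  refine ⟨LinearMap.toContinuousLinearMap
    (q.subtype ∘ₗ (Submodule.projectionOnto q S hq.symm)), fun x => ?_⟩
  change ((Submodule.projectionOnto q S hq.symm) x : V) = 0 ↔ _
  rw [Submodule.coe_eq_zero, Submodule.projectionOnto_apply_eq_zero_iff]

theorem sub_mem_of_deriv {f : ℝ → V} {f' : ℝ → V} (S : Submodule ℝ V)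
    (hf : ∀ s, HasDerivAt f (f' s) s) (hS : ∀ s, f' s ∈ S) (a b : ℝ) : f a - f b ∈ S := by
  obtain ⟨P, hP⟩ := exists_proj S
  rw [← hP, map_sub, sub_eq_zero]
  have h1 : ∀ s, HasDerivAt (fun s => P (f s)) 0 s := by
    intro s
    have := P.hasFDerivAt.comp_hasDerivAt s (hf s)
    rwa [(hP _).2 (hS s)] at this
  exact is_const_of_deriv_eq_zero (fun s => (h1 s).differentiableAt) (fun s => (h1 s).deriv) a b

theorem Ad_sub_mem (g : V) {j : ℕ} {v : V} (hv : v ∈ G.F j) : G.Ad g v - v ∈ G.F (j + 1) := by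
  have := sub_mem_of_deriv (G.F (j + 1)) (G.Ad_apply_hasDerivAt g v)
    (fun s => G.Ad_mem_F _ (G.ad_mem_F g hv)) 1 0
  rwa [one_smul, zero_smul, G.Ad_zero] at this

theorem Ad_sub_sub_mem (g : V) {j : ℕ} {v : V} (hv : v ∈ G.F j) :
    G.Ad g v - v - G.ad g v ∈ G.F (j + 2) := by
  have h1 : ∀ s : ℝ, HasDerivAt (fun s : ℝ => G.Ad (s • g) v - s • G.ad g v)
      (G.Ad (s • g) (G.ad g v) - G.ad g v) s := by
    intro s
    have := (G.Ad_apply_hasDerivAt g v s).sub ((hasDerivAt_id s).smul_const (G.ad g v))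
    rw [one_smul] at this
    exact this
  have := sub_mem_of_deriv (G.F (j + 2)) h1
    (fun s => G.Ad_sub_mem _ (G.ad_mem_F g hv)) 1 0
  rw [one_smul, zero_smul, G.Ad_zero, one_smul, zero_smul, sub_zero] at this
  convert this using 1
  change _ = G.Ad g v - G.ad g v - v
  abel

omit [FiniteDimensional ℝ V] in
theorem Th_eq (X W : V) (N : ℕ) (hN : ((G.ad X) ^ N) W = 0) (s : ℝ) :
    G.Th X W s = ∑ k ∈ Finset.range N,
      ((-1 : ℝ) ^ k * s ^ (k + 1) / ((k + 1).factorial : ℝ)) • ((G.ad X) ^ k) W := by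
  set P : ℝ → V := fun s => ∑ k ∈ Finset.range N,
      ((-1 : ℝ) ^ k * s ^ (k + 1) / ((k + 1).factorial : ℝ)) • ((G.ad X) ^ k) W with hP
  have hP' : ∀ s, HasDerivAt P (W - G.ad X (P s)) s := by
    intro s
    have h1 : HasDerivAt P (∑ k ∈ Finset.range N,
        ((-1 : ℝ) ^ k * s ^ k / (k.factorial : ℝ)) • ((G.ad X) ^ k) W) s := by
      refine HasDerivAt.fun_sum fun k _ => ?_
      refine HasDerivAt.smul_const ?_ _
      have h2 := ((hasDerivAt_pow (k + 1) s).const_mul ((-1 : ℝ) ^ k)).div_const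
        ((k + 1).factorial : ℝ)
      convert h2 using 1
      rw [Nat.factorial_succ]
      have : ((k : ℝ) + 1) ≠ 0 := by positivity
      push_cast
      rw [mul_left_comm, mul_div_mul_left _ _ this]
    convert h1 using 1
    have h3 : G.ad X (P s) = ∑ k ∈ Finset.range N,
        ((-1 : ℝ) ^ k * s ^ (k + 1) / ((k + 1).factorial : ℝ)) • ((G.ad X) ^ (k + 1)) W := by
      simp only [hP, map_sum, map_smul]
      refine Finset.sum_congr rfl fun k _ => ?_
      rw [pow_succ' (G.ad X), _root_.mul_apply_eq_comp]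
    have h4 : ∑ k ∈ Finset.range (N + 1),
        ((-1 : ℝ) ^ k * s ^ k / (k.factorial : ℝ)) • ((G.ad X) ^ k) W =
        ∑ k ∈ Finset.range N,
        ((-1 : ℝ) ^ k * s ^ k / (k.factorial : ℝ)) • ((G.ad X) ^ k) W := by
      rw [Finset.sum_range_succ, hN, smul_zero, add_zero]
    rw [← h4, Finset.sum_range_succ', h3, sub_eq_add_neg, ← Finset.sum_neg_distrib, add_comm]
    congr 1
    · refine Finset.sum_congr rfl fun k _ => ?_
      rw [← neg_smul]
      congr 1
      ring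
    · simp
  have hΔ : ∀ s, HasDerivAt (fun s : ℝ => G.Ad (s • X) (G.Th X W s - P s)) 0 s := by
    intro s
    have h1 := (G.Th_hasDerivAt X W s).sub (hP' s)
    have h2 := (G.Ad_hasDerivAt X s).clm_apply h1
    have h3 : HasDerivAt (fun s : ℝ => G.Ad (s • X) (G.Th X W s - P s)) _ s := h2
    convert h3 using 1
    rw [Pi.sub_apply, ContinuousLinearMap.comp_apply, ← map_add]
    rw [show G.ad X (G.Th X W s - P s) + (W - G.ad X (G.Th X W s) - (W - G.ad X (P s))) = 0 by
      rw [map_sub]; abel, map_zero]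
  have h3 := is_const_of_deriv_eq_zero (fun s => (hΔ s).differentiableAt)
    (fun s => (hΔ s).deriv) s 0
  have h4 : G.Th X W 0 - P 0 = 0 := by
    rw [G.Th_zero, hP]; simp
  simp only [h4, map_zero] at h3
  have h5 := G.Ad_neg_apply (s • X) (G.Th X W s - P s)
  rw [h3, map_zero] at h5
  exact sub_eq_zero.1 h5.symm

omit [FiniteDimensional ℝ V] in
theorem Λ_eq (X W : V) (N : ℕ) (hN : ((G.ad X) ^ N) W = 0) :
    G.Λ X W = ∑ k ∈ Finset.range N,
      ((-1 : ℝ) ^ k / ((k + 1).factorial : ℝ)) • ((G.ad X) ^ k) W := by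
  have := G.Th_eq X W N hN 1
  simpa [Th] using this

omit [FiniteDimensional ℝ V] in
theorem Λ_sub_eq (X W : V) (N : ℕ) (hN : ((G.ad X) ^ (N + 1)) W = 0) :
    G.Λ X W = W + ∑ k ∈ Finset.range N,
      ((-1 : ℝ) ^ (k + 1) / ((k + 2).factorial : ℝ)) • ((G.ad X) ^ (k + 1)) W := by
  rw [G.Λ_eq X W (N + 1) hN, Finset.sum_range_succ', add_comm]
  simp

/-- nilpotency of step `< N` -/
def Nilp (N : ℕ) : Prop := G.F N = ⊥

variable {G}

omit [FiniteDimensional ℝ V] in
theorem Nilp.ad_pow {N : ℕ} (h : G.Nilp N) (x y : V) {k : ℕ} (hk : N ≤ k) :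
    ((G.ad x) ^ k) y = 0 := by
  have h1 : ((G.ad x) ^ k) y ∈ G.F (0 + k) := G.ad_pow_mem x (j := 0) (Submodule.mem_top) k
  rw [zero_add] at h1
  have h2 := G.F_anti hk h1
  rw [h] at h2
  exact (Submodule.mem_bot ℝ).1 h2

omit [FiniteDimensional ℝ V] in
theorem Nilp.Λ_mem {N : ℕ} (h : G.Nilp N) (x : V) {j : ℕ} {z : V} (hz : z ∈ G.F j) :
    G.Λ x z - z ∈ G.F (j + 1) := by
  rw [G.Λ_sub_eq x z N (h.ad_pow x z (Nat.le_succ N)), add_sub_cancel_left]
  refine Submodule.sum_mem _ fun k _ => Submodule.smul_mem _ _ ?_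
  exact G.F_anti (by omega) (G.ad_pow_mem x hz (k + 1))

omit [FiniteDimensional ℝ V] in
theorem Nilp.L_mem {N : ℕ} (h : G.Nilp N) (x : V) {j : ℕ} {z : V} (hz : z ∈ G.F j) :
    G.dL x 0 z - z ∈ G.F (j + 1) := by
  set y := G.dL x 0 z with hy
  have hΛ : G.Λ x y = z := DFunLike.congr_fun (G.Λ_comp_L x) z
  have h1 : ∀ i ≤ j, y ∈ G.F i := by
    intro i
    induction i with
    | zero => intro _; exact Submodule.mem_top
    | succ i ih =>
      intro hi
      have h2 := h.Λ_mem x (ih (by omega))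
      rw [hΛ] at h2
      have h3 : y = z - (z - y) := by abel
      rw [h3]
      exact Submodule.sub_mem _ (G.F_anti hi hz) h2
  have h2 := h.Λ_mem x (h1 j le_rfl)
  rw [hΛ] at h2
  have : y - z = -(z - y) := by abel
  rw [this]
  exact Submodule.neg_mem _ h2

omit [FiniteDimensional ℝ V] in
theorem Nilp.dL_mem {N : ℕ} (h : G.Nilp N) (a w : V) {j : ℕ} {z : V} (hz : z ∈ G.F j) :
    G.dL a w z - z ∈ G.F (j + 1) := by
  rw [G.dL_eq]
  have h1 := h.Λ_mem w hz
  have h2 : G.Λ w z ∈ G.F j := by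
    have : G.Λ w z = (G.Λ w z - z) + z := by abel
    rw [this]
    exact Submodule.add_mem _ (G.F_succ_le _ h1) hz
  have h3 := h.L_mem (G.mul a w) h2
  have : G.dL (G.mul a w) 0 (G.Λ w z) - z =
    (G.dL (G.mul a w) 0 (G.Λ w z) - G.Λ w z) + (G.Λ w z - z) := by abel
  rw [this]
  exact Submodule.add_mem _ h3 h1

theorem Nilp.mul_add_left {N : ℕ} (h : G.Nilp N) (a w : V) {j : ℕ} {z : V} (hz : z ∈ G.F j) :
    G.mul a (w + z) - G.mul a w - z ∈ G.F (j + 1) := by
  have h1 : ∀ s : ℝ, HasDerivAt (fun s : ℝ => G.mul a (w + s • z) - s • z)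
      (G.dL a (w + s • z) z - z) s := by
    intro s
    have h2 : HasDerivAt (fun s : ℝ => w + s • z) ((1 : ℝ) • z) s :=
      ((hasDerivAt_id s).smul_const z).const_add w
    rw [one_smul] at h2
    have h3 := (G.hasFDerivAt_left a (w + s • z)).comp_hasDerivAt s h2
    have h4 := h3.sub ((hasDerivAt_id s).smul_const z)
    rw [one_smul] at h4
    exact h4
  have := sub_mem_of_deriv (G.F (j + 1)) h1 (fun s => h.dL_mem _ _ hz) 1 0
  simp only [one_smul, zero_smul, add_zero, sub_zero] at this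
  convert this using 1
  abel

theorem Nilp.mul_add_right {N : ℕ} (h : G.Nilp N) (a w : V) {j : ℕ} {z : V} (hz : z ∈ G.F j) :
    G.mul (w + z) a - G.mul w a - z ∈ G.F (j + 1) := by
  have e : ∀ y, G.mul y a = G.mul a (G.Ad (-a) y) := by
    intro y
    rw [G.Ad_apply, conj, neg_neg, ← G.assoc, ← G.assoc, G.mul_neg_self, G.zero_mul]
  rw [e, e, map_add]
  have h1 := G.Ad_sub_mem (-a) hz
  have h2 := h.mul_add_left a (G.Ad (-a) w) (G.Ad_mem_F (-a) hz)
  have : G.mul a (G.Ad (-a) w + G.Ad (-a) z) - G.mul a (G.Ad (-a) w) - z =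
    (G.mul a (G.Ad (-a) w + G.Ad (-a) z) - G.mul a (G.Ad (-a) w) - G.Ad (-a) z) +
      (G.Ad (-a) z - z) := by abel
  rw [this]
  exact Submodule.add_mem _ h2 h1

theorem Nilp.comm_mem {N : ℕ} (h : G.Nilp N) (a : V) {j : ℕ} {b : V} (hb : b ∈ G.F j) :
    G.mul (G.mul (G.mul a b) (-a)) (-b) - G.ad a b ∈ G.F (j + 2) := by
  have h1 : G.mul (G.mul a b) (-a) = b + (G.Ad a b - b) := by
    rw [G.Ad_apply, conj]; abel
  have h2 := h.mul_add_right (-b) b (G.Ad_sub_mem a hb)
  rw [G.mul_neg_self, sub_zero] at h2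
  rw [h1]
  have h3 := G.Ad_sub_sub_mem a hb
  have : G.mul (b + (G.Ad a b - b)) (-b) - G.ad a b =
    (G.mul (b + (G.Ad a b - b)) (-b) - (G.Ad a b - b)) + (G.Ad a b - b - G.ad a b) := by abel
  rw [this]
  exact Submodule.add_mem _ h2 h3

end fd

end ExpLaw

end Pool.Agent.Lib.P6a08f9
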