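import Pool.Agent.Lib.P6a08f9.Nil
import Pool.Agent.Lib.P6a08f9.Defs

/-!
A nilpotent group has a nilpotent Lie algebra.
-/

open Set Filter Topology
open scoped commutatorElement

namespace Pool.Agent.Lib.P6a08f9

namespace ExpLieGroup

variable {n : ℕ} (G : ExpLieGroup n)

/-- the same structure as an `ExpLaw` -/
def law : ExpLaw (E n) := ⟨G.mul, G.contDiff_mul, G.mul_assoc, G.mul_line⟩

/-- derivatives at the identity of curves in the lower central series -/
def T (k : ℕ) : Submodule ℝ (E n) :=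
  Submodule.span ℝ {v | ∃ γ : ℝ → E n, HasDerivAt γ v 0 ∧ γ 0 = 0 ∧
    ∀ s, γ s ∈ @Subgroup.lowerCentralSeries (E n) G.group ⊤ k}

theorem ad_mem_T (k : ℕ) (x y : E n) (hy : y ∈ G.T k) : G.law.ad x y ∈ G.T (k + 1) := by
  have hAd : ∀ a, G.law.Ad a y - y ∈ G.T (k + 1) := by
    intro a
    induction hy using Submodule.span_induction with
    | mem z hz =>
      obtain ⟨γ, h1, h2, h3⟩ := hz
      refine Submodule.subset_span ⟨fun s => G.law.mul (G.law.Ad a (γ s)) (-(γ s)), ?_, ?_, ?_⟩
      · have h4 := (G.law.Ad a).hasFDerivAt.comp_hasDerivAt (0 : ℝ) h1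
        have h5 := G.law.hasDerivAt_mul_zero h4 h1.neg (by simp [h2]) (by simp [h2])
        exact h5
      · simp [h2, G.law.zero_mul]
      · intro s
        change G.law.mul (G.law.Ad a (γ s)) (-γ s) ∈ _
        rw [G.law.Ad_apply]
        let _ := G.group
        have h4 : ⁅a, γ s⁆ ∈ ⁅(⊤ : Subgroup (E n)), Subgroup.lowerCentralSeries ⊤ k⁆ :=
          Subgroup.commutator_mem_commutator (Subgroup.mem_top a) (h3 s)
        rw [Subgroup.commutator_comm] at h4
        exact h4
    | zero => simp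
    | add u v _ _ hu hv =>
      rw [map_add, add_sub_add_comm]; exact Submodule.add_mem _ hu hv
    | smul c u _ hu =>
      rw [map_smul, ← smul_sub]; exact Submodule.smul_mem _ _ hu
  obtain ⟨P, hP⟩ := ExpLaw.exists_proj (G.T (k + 1))
  rw [← hP]
  have h1 := G.law.Ad_apply_hasDerivAt x y 0
  rw [zero_smul, G.law.Ad_zero] at h1
  have h2 := P.hasFDerivAt.comp_hasDerivAt (0 : ℝ) (h1.sub_const y)
  have h3 : (P ∘ fun s : ℝ => G.law.Ad (s • x) y - y) = fun _ => (0 : E n) := by
    funext s
    exact (hP _).2 (hAd _)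
  rw [h3] at h2
  exact h2.unique (hasDerivAt_const _ _)

theorem F_le_T (k : ℕ) : G.law.F (k + 1) ≤ G.T k := by
  induction k with
  | zero =>
    intro v _
    refine Submodule.subset_span ⟨fun s => s • v, ?_, by simp, fun s => ?_⟩
    · have := (hasDerivAt_id (0 : ℝ)).smul_const v
      rw [one_smul] at this
      exact this
    · let _ := G.group
      exact Subgroup.mem_top _
  | succ k ih =>
    change Submodule.span ℝ {z | ∃ x : E n, ∃ y ∈ G.law.F (k + 1), G.law.ad x y = z} ≤ _
    rw [Submodule.span_le]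
    rintro z ⟨x, y, hy, rfl⟩
    exact G.ad_mem_T k x y (ih hy)

theorem exists_nilp (h : G.IsNilpotent) : ∃ N, G.law.Nilp N := by
  let _ := G.group
  have : Group.IsNilpotent (E n) := h
  obtain ⟨c, hc⟩ := Subgroup.nilpotent_iff_lowerCentralSeries.1 this
  refine ⟨c + 1, ?_⟩
  rw [ExpLaw.Nilp, eq_bot_iff]
  refine (G.F_le_T c).trans ?_
  rw [T, Submodule.span_le]
  rintro v ⟨γ, h1, h2, h3⟩
  have h4 : γ = fun _ => (0 : E n) := by
    funext s
    have := h3 s
    rw [hc] at this
    exact this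
  rw [h4] at h1
  exact h1.unique (hasDerivAt_const _ _)

/-- if all brackets vanish the group is abelian -/
theorem comm_of_ad_zero (h : ∀ x y, G.law.ad x y = 0) (x y : E n) : G.mul x y = G.mul y x := by
  have h1 : ∀ s : ℝ, HasDerivAt (fun s : ℝ => G.law.Ad (s • x) y) 0 s := by
    intro s
    have := G.law.Ad_apply_hasDerivAt x y s
    rwa [h, map_zero] at this
  have h2 := is_const_of_deriv_eq_zero (fun s => (h1 s).differentiableAt) (fun s => (h1 s).deriv)
    1 0
  simp only [one_smul, zero_smul, G.law.Ad_zero, G.law.Ad_apply] at h2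
  have h3 : G.law.mul (G.law.mul x y) (-x) = y := h2
  have h4 := G.law.mul_cancel_right' (G.law.mul x y) x
  rw [h3] at h4
  exact h4.symm

end ExpLieGroup

end Pool.Agent.Lib.P6a08f9
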