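import Pool.Agent.Lib.P6a08f9.Kernel
import Pool.Agent.Lib.P6a08f9.Ext
import Pool.Agent.Lib.P6a08f9.Forms

/-!
Smearing of bounded cocycles: algebraic preliminaries.
-/

open MeasureTheory Set Filter Topology

namespace Pool.Agent.Lib.P6a08f9

namespace ExpLaw

variable {n : ℕ}

/-- the weighted box in `ℝⁿ` -/
def WB (w : Fin n → ℕ) (t A : ℝ) (x : Fin n → ℝ) : Prop := ∀ i, |x i| ≤ A * t ^ (w i)

theorem Bx_basisFun {w : Fin n → ℕ} {t A : ℝ} {x : Fin n → ℝ} :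
    Bx (Pi.basisFun ℝ (Fin n)) w t A x ↔ WB w t A x := by
  simp [Bx, WB]

theorem WB.neg {w : Fin n → ℕ} {t A : ℝ} {x : Fin n → ℝ} (h : WB w t A x) : WB w t A (-x) := by
  intro i; rw [Pi.neg_apply, abs_neg]; exact h i

theorem WB.mono {w : Fin n → ℕ} {t A B : ℝ} {x : Fin n → ℝ} (h : WB w t A x) (ht : 0 ≤ t)
    (hAB : A ≤ B) : WB w t B x := fun i =>
  (h i).trans (mul_le_mul_of_nonneg_right hAB (pow_nonneg ht _))

theorem WB_zero {w : Fin n → ℕ} {t A : ℝ} (ht : 0 ≤ t) (hA : 0 ≤ A) : WB w t A 0 := by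
  intro i
  rw [Pi.zero_apply, abs_zero]
  exact mul_nonneg hA (pow_nonneg ht _)

/-- tuples of points at bounded distance at scale `t` -/
def Sm (G : ExpLaw (Fin n → ℝ)) (w : Fin n → ℕ) (t A : ℝ) {m : ℕ}
    (g : Fin m → (Fin n → ℝ)) : Prop :=
  ∀ i j, WB w t A (G.mul (-(g i)) (g j))

/-- cocycles on small tuples -/
def Cocyc (G : ExpLaw (Fin n → ℝ)) (w : Fin n → ℕ) (t A : ℝ)
    (c : (Fin (n + 1) → (Fin n → ℝ)) → ℝ) : Prop :=
  ∀ g : Fin (n + 2) → (Fin n → ℝ), Sm G w t A g →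
    ∑ i : Fin (n + 2), (-1 : ℝ) ^ (i : ℕ) * c (g ∘ i.succAbove) = 0

theorem neg_mul_eq (G : ExpLaw (Fin n → ℝ)) (x a b : Fin n → ℝ) :
    G.mul (-a) b = G.mul (-(G.mul (-x) a)) (G.mul (-x) b) := by
  rw [G.neg_mul_rev, neg_neg, G.assoc, G.mul_neg_cancel]

theorem sm_of_near {G : ExpLaw (Fin n → ℝ)} {w : Fin n → ℕ} {t A : ℝ}
    (hbox : ∀ x y, WB w t 2 x → WB w t 2 y → WB w t A (G.mul x y)) (x : Fin n → ℝ) {m : ℕ}
    (g : Fin m → (Fin n → ℝ)) (hg : ∀ j, WB w t 2 (G.mul (-x) (g j))) : Sm G w t A g := by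
  intro i j
  rw [neg_mul_eq G x]
  exact hbox _ _ (hg i).neg (hg j)

theorem F_zero {S : Type} [Fintype S] {G : ExpLaw (Fin n → ℝ)} {w : Fin n → ℕ} {t A : ℝ}
    (ht : 0 ≤ t)
    (hbox : ∀ x y, WB w t 2 x → WB w t 2 y → WB w t A (G.mul x y))
    (c : (Fin (n + 1) → (Fin n → ℝ)) → ℝ) (hc : Cocyc G w t A c) (g : S → (Fin n → ℝ))
    (x : Fin n → ℝ) (ν : Fin (n + 1) → S → ℝ)
    (hU : ∀ j s, ν j s ≠ 0 → WB w t 2 (G.mul (-x) (g s))) (hν : ∀ j, ∑ s, ν j s = 0) :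
    altF (fun γ : Fin (n + 1) → S => c (g ∘ γ)) ν = 0 := by
  refine altF_zero _ (fun i γ => (-1 : ℝ) ^ (i : ℕ) *
    c (Fin.cons x (fun j => g (γ (i.succAbove j))) : Fin (n + 1) → (Fin n → ℝ)))
    {s | WB w t 2 (G.mul (-x) (g s))} ν hU hν ?_ ?_
  · intro γ hγ
    have h1 := hc (Fin.cons x (g ∘ γ)) ?_
    · rw [Fin.sum_univ_succ] at h1
      have h2 : (Fin.cons x (g ∘ γ) : Fin (n + 2) → (Fin n → ℝ)) ∘ (0 : Fin (n + 2)).succAbove =
          g ∘ γ := by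
        funext j; simp
      have h3 : ∀ i : Fin (n + 1), (Fin.cons x (g ∘ γ) : Fin (n + 2) → (Fin n → ℝ)) ∘
          (i.succ).succAbove =
            (Fin.cons x (fun j => g (γ (i.succAbove j))) : Fin (n + 1) → (Fin n → ℝ)) := by
        intro i
        funext j
        refine Fin.cases ?_ (fun j => ?_) j
        · simp
        · simp [Fin.succ_succAbove_succ]
      rw [h2] at h1
      simp only [h3, Fin.val_zero, pow_zero, one_mul, Fin.val_succ, pow_succ] at h1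
      have h4 : ∑ i : Fin (n + 1), (-1 : ℝ) ^ (i : ℕ) * -1 *
          c (Fin.cons x (fun j => g (γ (i.succAbove j))) : Fin (n + 1) → (Fin n → ℝ)) =
          -∑ i : Fin (n + 1), (-1 : ℝ) ^ (i : ℕ) *
            c (Fin.cons x (fun j => g (γ (i.succAbove j))) : Fin (n + 1) → (Fin n → ℝ)) := by
        rw [← Finset.sum_neg_distrib]
        refine Finset.sum_congr rfl fun i _ => ?_
        ring
      rw [h4] at h1
      linarith
    · have hz : ∀ y, WB w t 2 y → WB w t A y := by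
        intro y hy
        have := hbox y 0 hy (WB_zero ht zero_le_two)
        rwa [G.mul_zero] at this
      intro i j
      refine Fin.cases ?_ (fun i => ?_) i
      · refine Fin.cases ?_ (fun j => ?_) j
        · simp only [Fin.cons_zero, G.neg_mul_self]
          exact hz 0 (WB_zero ht zero_le_two)
        · simp only [Fin.cons_zero, Fin.cons_succ, Function.comp_apply]
          exact hz _ (hγ j)
      · refine Fin.cases ?_ (fun j => ?_) j
        · simp only [Fin.cons_zero, Fin.cons_succ, Function.comp_apply]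
          have h5 : G.mul (-(g (γ i))) x = -(G.mul (-x) (g (γ i))) := by
            rw [G.neg_mul_rev, neg_neg]
          rw [h5]
          exact (hz _ (hγ i)).neg
        · simp only [Fin.cons_succ]
          exact sm_of_near hbox x (g ∘ γ) hγ i j
  · intro i γ s
    congr 2
    congr 1
    funext j
    rw [Function.update_of_ne (Fin.succAbove_ne i j)]

theorem F_bound {S : Type} [Fintype S] {G : ExpLaw (Fin n → ℝ)} {w : Fin n → ℕ} {t A : ℝ}
    (hbox : ∀ x y, WB w t 2 x → WB w t 2 y → WB w t A (G.mul x y))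
    (c : (Fin (n + 1) → (Fin n → ℝ)) → ℝ) (κ : ℝ) (hc : ∀ g, Sm G w t A g → |c g| ≤ κ)
    (g : S → (Fin n → ℝ))
    (x : Fin n → ℝ) (ν : Fin (n + 1) → S → ℝ)
    (hU : ∀ j s, ν j s ≠ 0 → WB w t 2 (G.mul (-x) (g s))) :
    |altF (fun γ : Fin (n + 1) → S => c (g ∘ γ)) ν| ≤
      ((n + 1).factorial : ℝ) * (κ * ∏ j, ∑ s, |ν j s|) := by
  refine altF_bound _ ν κ {s | WB w t 2 (G.mul (-x) (g s))} hU fun γ hγ => ?_
  exact hc _ (sm_of_near hbox x (g ∘ γ) hγ)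

theorem det_row_sub (a : Fin (n + 1) → (Fin n → ℝ)) :
    Matrix.det (Matrix.of fun j : Fin (n + 1) => (Fin.cons 1 (a j) : Fin (n + 1) → ℝ)) =
      Matrix.det (Matrix.of fun j : Fin n => a j.succ - a 0) := by
  classical
  have h1 := Matrix.det_eq_of_forall_row_eq_smul_add_const
    (A := Matrix.of fun j : Fin (n + 1) => (Fin.cons 1 (a j) : Fin (n + 1) → ℝ))
    (B := Matrix.of fun j : Fin (n + 1) =>
      (Fin.cons (if j = 0 then 1 else 0) (if j = 0 then a 0 else a j - a 0) : Fin (n + 1) → ℝ))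
    (fun j => if j = 0 then 0 else 1) 0 (by simp) (by
      intro i j
      by_cases hi : i = 0
      · subst hi
        refine Fin.cases ?_ (fun j => ?_) j <;> simp
      · refine Fin.cases ?_ (fun j => ?_) j <;> simp [hi])
  rw [h1]
  have h2 := det_cons (fun j : Fin (n + 1) => if j = 0 then a 0 else a j - a 0)
    (fun j : Fin (n + 1) => if j = 0 then 1 else 0) (by simp) (by simp)
  rw [h2]
  simp

theorem bulk {S : Type} [Fintype S] {G : ExpLaw (Fin n → ℝ)} {w : Fin n → ℕ}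
    (V : (Fin (n + 1) → (Fin n → ℝ)) → ℝ) (hVinv : ∀ a g, V (fun i => G.mul a (g i)) = V g)
    (vn r δ P : ℝ)
    (hVas : ∀ a : Fin (n + 1) → (Fin n → ℝ), (∀ i, ‖a i‖ ≤ 2 * r) →
      |V a - vn * Matrix.det (Matrix.of fun j : Fin n => a j.succ - a 0)| ≤ δ)
    (htiny : ∀ a a' : Fin n → ℝ, ‖a‖ ≤ 2 * r → ‖a'‖ ≤ 2 * r → WB w 1 1 (G.mul (-a) a'))
    (c : (Fin (n + 1) → (Fin n → ℝ)) → ℝ) (hcV : ∀ g, Sm G w 1 1 g → c g = V g)
    (g : S → (Fin n → ℝ)) (x : Fin n → ℝ) (ν : Fin (n + 1) → S → ℝ)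
    (hU : ∀ j s, ν j s ≠ 0 → ‖G.mul (-x) (g s)‖ ≤ 2 * r)
    (h0 : ∑ s, ν 0 s = 1) (h1 : ∀ j : Fin n, ∑ s, ν j.succ s = 0)
    (hP0 : ∑ s, |ν 0 s| ≤ 1) (hP : ∀ j : Fin n, ∑ s, |ν j.succ s| ≤ P) (hδ : 0 ≤ δ) :
    |altF (fun γ : Fin (n + 1) → S => c (g ∘ γ)) ν - ((n + 1).factorial : ℝ) *
      (vn * Matrix.det (Matrix.of fun j : Fin n =>
        ∑ s, ν j.succ s • G.mul (-x) (g s)))| ≤ ((n + 1).factorial : ℝ) * (δ * P ^ n) := by
  have h2 := altF_det (fun γ : Fin (n + 1) → S => c (g ∘ γ)) vn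
    (fun s => (Fin.cons 1 (G.mul (-x) (g s)) : Fin (n + 1) → ℝ)) δ
    {s | ‖G.mul (-x) (g s)‖ ≤ 2 * r} ν hU ?_
  · have h3 : (fun j : Fin (n + 1) => ∑ s, ν j s •
        (Fin.cons 1 (G.mul (-x) (g s)) : Fin (n + 1) → ℝ)) =
        fun j : Fin (n + 1) => (Fin.cons (∑ s, ν j s) (∑ s, ν j s • G.mul (-x) (g s)) :
          Fin (n + 1) → ℝ) := by
      funext j i
      refine Fin.cases ?_ (fun i => ?_) i
      · simp
      · simp
    rw [h3, det_cons (fun j => ∑ s, ν j s • G.mul (-x) (g s)) (fun j => ∑ s, ν j s) h0 h1] at h2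
    refine h2.trans ?_
    refine mul_le_mul_of_nonneg_left (mul_le_mul_of_nonneg_left ?_ hδ) (Nat.cast_nonneg _)
    rw [Fin.prod_univ_succ]
    calc (∑ s, |ν 0 s|) * ∏ j : Fin n, ∑ s, |ν j.succ s| ≤ 1 * ∏ j : Fin n, P := by
          refine mul_le_mul hP0 (Finset.prod_le_prod (fun j _ => Finset.sum_nonneg
            fun s _ => abs_nonneg _) fun j _ => hP j) (Finset.prod_nonneg fun j _ =>
              Finset.sum_nonneg fun s _ => abs_nonneg _) zero_le_one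
      _ = P ^ n := by simp
  · intro γ hγ
    rw [det_row_sub]
    have h3 : Sm G w 1 1 (g ∘ γ) := by
      intro i j
      rw [neg_mul_eq G x]
      exact htiny _ _ (hγ i) (hγ j)
    rw [hcV _ h3]
    have h4 := hVinv (-x) (g ∘ γ)
    rw [← h4]
    exact hVas _ hγ

end ExpLaw

end Pool.Agent.Lib.P6a08f9
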