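import Pool.Agent.Lib.P6a08f9.SmearA

/-!
Smearing of bounded cocycles: data of the smeared maps.
-/

open MeasureTheory Set Filter Topology

namespace Pool.Agent.Lib.P6a08f9

theorem pb_frame {n : ℕ} {W : Type*} [NormedAddCommGroup W] [NormedSpace ℝ W]
    (F : W [⋀^Fin (n + 1)]→L[ℝ] ℝ) (f : (Fin n → ℝ) → W) (x : Fin n → ℝ)
    (L : (Fin n → ℝ) →L[ℝ] (Fin n → ℝ)) (hL : LinearMap.det (L : (Fin n → ℝ) →ₗ[ℝ] (Fin n → ℝ)) = 1) :
    F (Fin.cons (f x) (fun j => fderiv ℝ f x (L (stdE n j)))) = pb F f x (stdE n) := by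
  have h1 : pb F f x (fun j => L (stdE n j)) = F (Fin.cons (f x) (fun j => fderiv ℝ f x
      (L (stdE n j)))) := pb_apply F f x _
  rw [← h1]
  set e := Pi.basisFun ℝ (Fin n) with he
  have he' : (e : Fin n → Fin n → ℝ) = stdE n := by
    funext j; rw [he, Pi.basisFun_apply]; rfl
  have h2 := (pb F f x).toAlternatingMap.eq_smul_basis_det e
  have h3 : ∀ v, pb F f x v = (pb F f x (stdE n)) * e.det v := by
    intro v
    have h4 := DFunLike.congr_fun h2 v
    rw [he'] at h4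
    exact h4
  rw [h3 (fun j => L (stdE n j))]
  have h5 : (fun j => L (stdE n j)) = (L : (Fin n → ℝ) →ₗ[ℝ] (Fin n → ℝ)) ∘ e := by
    funext j; rw [he']; rfl
  rw [h5, e.det_comp, hL, e.det_self, mul_one, mul_one]

namespace ExpLaw

variable {n : ℕ} {G : ExpLaw (Fin n → ℝ)} {w : Fin n → ℕ} {N : ℕ}

theorem det_L (h : G.Adapted (Pi.basisFun ℝ (Fin n)) w) (hN : G.Nilp N) (x : Fin n → ℝ) :
    LinearMap.det (G.dL x 0 : (Fin n → ℝ) →ₗ[ℝ] (Fin n → ℝ)) = 1 :=
  h.det_eq_one (G.dL x 0) (fun i => hN.dL_mem x 0 (h.basis_mem i))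

namespace Grid

variable {K : Set (Fin n → ℝ)} {η : ℝ} (Γ : Grid n K η) {a : Fin n → ℝ}

theorem kerS_ne_zero (ha : ∀ i, 0 < a i) {y : Fin n → ℝ} (hy : kerS a y ≠ 0) (i : Fin n) :
    |y i| ≤ a i := kerS_tsupport ha (subset_tsupport _ hy) i

theorem XU_ne_zero (ha : ∀ i, 0 < a i) {v y : Fin n → ℝ} (hy : XU G (kerS a) v y ≠ 0)
    (i : Fin n) : |y i| ≤ a i := kerS_tsupport ha (XU_support G v y hy) i

theorem sm_sum (h : G.Adapted (Pi.basisFun ℝ (Fin n)) w) (hN : G.Nilp N) (hK : IsCompact K)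
    (ha : ∀ i, 0 < a i) (x : Fin n → ℝ)
    (hx : ∀ y, (∀ i, |G.mul (-y) x i| ≤ a i) → y ∈ K) :
    ∑ s, Γ.sm G (kerS a) x s = 1 := by
  rw [← kerS_integral ha]
  exact Γ.sum_eq h hN hK (kerS_contDiff a).continuous x
    (fun y hy => hx y fun i => kerS_ne_zero ha hy i)

theorem sm_sum_abs (h : G.Adapted (Pi.basisFun ℝ (Fin n)) w) (hN : G.Nilp N) (hK : IsCompact K)
    (ha : ∀ i, 0 < a i) (x : Fin n → ℝ) :
    ∑ s, |Γ.sm G (kerS a) x s| ≤ 1 := by
  rw [← kerS_abs_integral ha]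
  exact Γ.sum_abs_le h hN hK (kerS_contDiff a).continuous
    ((kerS_contDiff a).continuous.integrable_of_hasCompactSupport (kerS_compact ha)) x

theorem dsm_sum (h : G.Adapted (Pi.basisFun ℝ (Fin n)) w) (hN : G.Nilp N) (hK : IsCompact K)
    (ha : ∀ i, 0 < a i) (x v : Fin n → ℝ)
    (hx : ∀ y, (∀ i, |G.mul (-y) x i| ≤ a i) → y ∈ K) :
    ∑ s, fderiv ℝ (Γ.sm G (kerS a)) x (G.dL x 0 v) s = 0 := by
  simp only [Γ.fderiv_sm hK (kerS_contDiff a)]
  rw [← integral_XU h hN (kerS_contDiff a) (kerS_compact ha) v]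
  exact Γ.sum_eq h hN hK (XU_continuous G (kerS_contDiff a) v) x
    (fun y hy => hx y fun i => XU_ne_zero ha hy i)

theorem dsm_sum_abs (h : G.Adapted (Pi.basisFun ℝ (Fin n)) w) (hN : G.Nilp N) (hK : IsCompact K)
    (ha : ∀ i, 0 < a i) (x v : Fin n → ℝ) (M : ℝ) (hM : 0 ≤ M)
    (hb : ∀ y : Fin n → ℝ, (∀ i, |y i| ≤ a i) → ∀ i, |G.dL y 0 v i| ≤ M * a i) :
    ∑ s, |fderiv ℝ (Γ.sm G (kerS a)) x (G.dL x 0 v) s| ≤ M * Cψ n := by
  simp only [Γ.fderiv_sm hK (kerS_contDiff a)]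
  exact (Γ.sum_abs_le h hN hK (XU_continuous G (kerS_contDiff a) v)
    (XU_integrable G (kerS_contDiff a) (kerS_compact ha) v) x).trans
    (XU_kerS_integral G ha v M hM hb)

theorem near_of_ne_zero (hK : IsCompact K) {f : (Fin n → ℝ) → ℝ} (x : Fin n → ℝ) (η₁ : ℝ)
    (hcl : ∀ h ∈ K, ∀ i, |G.mul (-(Γ.g (Γ.π h))) x i - G.mul (-h) x i| ≤ η₁)
    (hf : ∀ y, f y ≠ 0 → ∀ i, |y i| ≤ a i) (s : Γ.S)
    (hs : ∫ h in Γ.Q s, f (G.mul (-h) x) ≠ 0) (i : Fin n) :
    |G.mul (-x) (Γ.g s) i| ≤ a i + η₁ := by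
  obtain ⟨h, hhK, hhs, hhf⟩ := Γ.exists_of_ne_zero hK x s hs
  have h1 := hcl h hhK i
  rw [hhs] at h1
  have h2 := hf _ hhf i
  have h3 : G.mul (-x) (Γ.g s) = -(G.mul (-(Γ.g s)) x) := by
    rw [G.neg_mul_rev, neg_neg]
  rw [h3, Pi.neg_apply, abs_neg]
  calc |G.mul (-(Γ.g s)) x i| = |G.mul (-h) x i + (G.mul (-(Γ.g s)) x i - G.mul (-h) x i)| := by
        rw [add_sub_cancel]
    _ ≤ _ := (abs_add_le _ _).trans (add_le_add h2 h1)

theorem sm_near (hK : IsCompact K) (ha : ∀ i, 0 < a i) (x : Fin n → ℝ) (η₁ : ℝ)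
    (hcl : ∀ h ∈ K, ∀ i, |G.mul (-(Γ.g (Γ.π h))) x i - G.mul (-h) x i| ≤ η₁)
    (s : Γ.S) (hs : Γ.sm G (kerS a) x s ≠ 0) (i : Fin n) :
    |G.mul (-x) (Γ.g s) i| ≤ a i + η₁ :=
  Γ.near_of_ne_zero hK x η₁ hcl (fun _ hy i => kerS_ne_zero ha hy i) s hs i

theorem dsm_near (hK : IsCompact K) (ha : ∀ i, 0 < a i) (x v : Fin n → ℝ) (η₁ : ℝ)
    (hcl : ∀ h ∈ K, ∀ i, |G.mul (-(Γ.g (Γ.π h))) x i - G.mul (-h) x i| ≤ η₁)
    (s : Γ.S) (hs : fderiv ℝ (Γ.sm G (kerS a)) x (G.dL x 0 v) s ≠ 0) (i : Fin n) :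
    |G.mul (-x) (Γ.g s) i| ≤ a i + η₁ := by
  rw [Γ.fderiv_sm hK (kerS_contDiff a)] at hs
  exact Γ.near_of_ne_zero hK x η₁ hcl (fun _ hy i => XU_ne_zero (v := v) ha hy i) s hs i

theorem dsm_moment (h : G.Adapted (Pi.basisFun ℝ (Fin n)) w) (hN : G.Nilp N)
    (hK : IsCompact K) (ha : ∀ i, 0 < a i) (x : Fin n → ℝ) (j : Fin n) (η₁ ρ M : ℝ)
    (hM : 0 ≤ M)
    (hb : ∀ y : Fin n → ℝ, (∀ i, |y i| ≤ a i) → ∀ i, |G.dL y 0 (stdE n j) i| ≤ M * a i)
    (hx : ∀ y, (∀ i, |G.mul (-y) x i| ≤ a i) → y ∈ K)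
    (hcl : ∀ h ∈ K, ∀ i, |G.mul (-(Γ.g (Γ.π h))) x i - G.mul (-h) x i| ≤ η₁)
    (hρ : ∀ y : Fin n → ℝ, (∀ i, |y i| ≤ a i) → ∀ i, |G.dL y 0 (stdE n j) i - stdE n j i| ≤ ρ)
    (i : Fin n) :
    |(∑ s, fderiv ℝ (Γ.sm G (kerS a)) x (G.dL x 0 (stdE n j)) s • G.mul (-x) (Γ.g s)) i -
      stdE n j i| ≤ M * Cψ n * η₁ + ρ := by
  set f := XU G (kerS a) (stdE n j) with hf
  have hfc : Continuous f := XU_continuous G (kerS_contDiff a) _
  have hfi : Integrable f := XU_integrable G (kerS_contDiff a) (kerS_compact ha) _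
  have hcomp : Continuous (fun h => G.mul (-h) x) :=
    (G.contDiff_mul contDiff_neg contDiff_const).continuous
  -- the exact first moment
  have h1 : ∑ s, ∫ h in Γ.Q s, (fun y => f y * y i) (G.mul (-h) x) =
      - ∫ y, kerS a y * G.dL y 0 (stdE n j) i := by
    rw [← integral_XU_mul h hN (kerS_contDiff a) (kerS_compact ha) (stdE n j) i]
    refine Γ.sum_eq h hN hK (hfc.mul (continuous_apply i)) x (fun y hy => hx y fun k => ?_)
    refine XU_ne_zero (G := G) (v := stdE n j) ha ?_ k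
    intro h0
    exact hy (by simp [hf, h0])
  have h2 : |(∫ y, kerS a y * G.dL y 0 (stdE n j) i) - stdE n j i| ≤ ρ := by
    have h3 : stdE n j i = ∫ y, kerS a y * stdE n j i := by
      rw [integral_mul_const, kerS_integral ha, one_mul]
    have hki : Integrable (kerS a) :=
      (kerS_contDiff a).continuous.integrable_of_hasCompactSupport (kerS_compact ha)
    rw [h3, ← integral_sub]
    · calc |∫ y, (kerS a y * G.dL y 0 (stdE n j) i - kerS a y * stdE n j i)|
          ≤ ∫ y, |kerS a y * G.dL y 0 (stdE n j) i - kerS a y * stdE n j i| :=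
            abs_integral_le_integral_abs
        _ ≤ ∫ y, kerS a y * ρ := by
            refine integral_mono_of_nonneg (Filter.Eventually.of_forall fun _ => abs_nonneg _)
              (hki.mul_const ρ) (Filter.Eventually.of_forall fun y => ?_)
            simp only
            rw [← mul_sub, abs_mul, abs_of_nonneg (kerS_nonneg ha y)]
            by_cases hy : kerS a y = 0
            · rw [hy, MulZeroClass.zero_mul, MulZeroClass.zero_mul]
            · exact mul_le_mul_of_nonneg_left (hρ y (fun k => kerS_ne_zero ha hy k) i)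
                (kerS_nonneg ha y)
        _ = ρ := by rw [integral_mul_const, kerS_integral ha, one_mul]
    · refine Continuous.integrable_of_hasCompactSupport ((kerS_contDiff a).continuous.mul
        ((continuous_apply i).comp ((dL_zero_continuous G).clm_apply continuous_const)))
        (kerS_compact ha).mul_right
    · exact hki.mul_const _
  -- the discretised first moment
  have h4 : (∑ s, fderiv ℝ (Γ.sm G (kerS a)) x (G.dL x 0 (stdE n j)) s •
      G.mul (-x) (Γ.g s)) i = ∑ s, ∫ h in Γ.Q s, f (G.mul (-h) x) * G.mul (-x) (Γ.g s) i := by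
    rw [Finset.sum_apply]
    refine Finset.sum_congr rfl fun s _ => ?_
    rw [Pi.smul_apply, smul_eq_mul, Γ.fderiv_sm hK (kerS_contDiff a), integral_mul_const]
  have hint1 : ∀ s, IntegrableOn (fun h => f (G.mul (-h) x) * G.mul (-x) (Γ.g s) i) (Γ.Q s) :=
    fun s => (((hfc.comp hcomp).mul continuous_const).continuousOn.integrableOn_compact
      hK).mono_set (Γ.Q_sub s)
  have hint2 : ∀ s, IntegrableOn (fun h => f (G.mul (-h) x) * G.mul (-h) x i) (Γ.Q s) :=
    fun s => (((hfc.comp hcomp).mul ((continuous_apply i).comp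
      hcomp)).continuousOn.integrableOn_compact hK).mono_set (Γ.Q_sub s)
  have h5 : |(∑ s, ∫ h in Γ.Q s, f (G.mul (-h) x) * G.mul (-x) (Γ.g s) i) +
      ∑ s, ∫ h in Γ.Q s, f (G.mul (-h) x) * G.mul (-h) x i| ≤ M * Cψ n * η₁ := by
    rw [← Finset.sum_add_distrib]
    have h6 : ∀ s, (∫ h in Γ.Q s, f (G.mul (-h) x) * G.mul (-x) (Γ.g s) i) +
        ∫ h in Γ.Q s, f (G.mul (-h) x) * G.mul (-h) x i =
        ∫ h in Γ.Q s, f (G.mul (-h) x) * (G.mul (-h) x i - G.mul (-(Γ.g s)) x i) := by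
      intro s
      rw [← integral_add (hint1 s) (hint2 s)]
      refine setIntegral_congr_fun (Γ.Q_meas hK s) fun h _ => ?_
      have h3 : G.mul (-x) (Γ.g s) = -(G.mul (-(Γ.g s)) x) := by
        rw [G.neg_mul_rev, neg_neg]
      simp only [h3, Pi.neg_apply]
      ring
    simp only [h6]
    calc |∑ s, ∫ h in Γ.Q s, f (G.mul (-h) x) * (G.mul (-h) x i - G.mul (-(Γ.g s)) x i)|
        ≤ ∑ s, |∫ h in Γ.Q s, f (G.mul (-h) x) * (G.mul (-h) x i - G.mul (-(Γ.g s)) x i)| :=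
          Finset.abs_sum_le_sum_abs _ _
      _ ≤ ∑ s, ∫ h in Γ.Q s, |f (G.mul (-h) x)| * η₁ := by
          refine Finset.sum_le_sum fun s _ => ?_
          refine abs_integral_le_integral_abs.trans ?_
          refine setIntegral_mono_on ?_ ?_ (Γ.Q_meas hK s) ?_
          · refine ((Continuous.continuousOn ?_).integrableOn_compact hK).mono_set (Γ.Q_sub s)
            exact ((hfc.comp hcomp).mul (((continuous_apply i).comp hcomp).sub
              continuous_const)).abs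
          · refine ((Continuous.continuousOn ?_).integrableOn_compact hK).mono_set (Γ.Q_sub s)
            exact (hfc.comp hcomp).abs.mul continuous_const
          · intro h hh
            rw [abs_mul]
            refine mul_le_mul_of_nonneg_left ?_ (abs_nonneg _)
            have := hcl h hh.1 i
            rw [show Γ.π h = s from hh.2, abs_sub_comm] at this
            exact this
      _ = (∫ h in K, |f (G.mul (-h) x)|) * η₁ := by
          simp only [integral_mul_const]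
          rw [← Finset.sum_mul]
          congr 1
          exact Γ.sum_integral hK (integrable_comp (fun y => |f y|) hfc.abs hK x)
      _ ≤ M * Cψ n * η₁ := by
          by_cases hKe : K.Nonempty
          · obtain ⟨h0, hh⟩ := hKe
            have hη : 0 ≤ η₁ := (abs_nonneg _).trans (hcl h0 hh i)
            refine mul_le_mul_of_nonneg_right ?_ hη
            calc ∫ h in K, |f (G.mul (-h) x)| ≤ ∫ h, |f (G.mul (-h) x)| := by
                  refine setIntegral_le_integral ?_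
                    (Filter.Eventually.of_forall fun _ => abs_nonneg _)
                  exact (integrable_negmul h hN x hfi).abs
              _ = ∫ y, |f y| := integral_negmul h hN x hfc.abs
              _ ≤ M * Cψ n := XU_kerS_integral G ha _ M hM hb
          · exfalso
            have h7 := hx x (fun i => by rw [G.neg_mul_self]; simpa using (ha i).le)
            exact hKe ⟨x, h7⟩
  rw [h4]
  simp only at h1
  rw [h1] at h5
  have h8 : (∑ s, ∫ h in Γ.Q s, f (G.mul (-h) x) * G.mul (-x) (Γ.g s) i) - stdE n j i =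
      ((∑ s, ∫ h in Γ.Q s, f (G.mul (-h) x) * G.mul (-x) (Γ.g s) i) +
        -∫ y, kerS a y * G.dL y 0 (stdE n j) i) +
      ((∫ y, kerS a y * G.dL y 0 (stdE n j) i) - stdE n j i) := by ring
  rw [h8]
  exact (abs_add_le _ _).trans (add_le_add h5 h2)

end Grid

end ExpLaw

end Pool.Agent.Lib.P6a08f9
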