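import Pool.Agent.Lib.P6a08f9.SmearB

/-!
Smearing of bounded cocycles: the volume inequality.
-/

open MeasureTheory Set Filter Topology

namespace Pool.Agent.Lib.P6a08f9

theorem integral_ineq {m : ℕ} {D1 D2 : Set (Fin m → ℝ)} (hD1 : MeasurableSet D1)
    (hD2 : IsCompact D2) (hsub : D1 ⊆ D2) {f g : (Fin m → ℝ) → ℝ} (hf : Continuous f)
    (vn c0 b1 b2 : ℝ) (heq : ∫ x in D2, f x = ∫ x in D2, g x)
    (h0 : ∀ x ∈ D1, c0 ≤ vn * f x) (h1 : ∀ x ∈ D2, |g x| ≤ b1) (h2 : ∀ x ∈ D2, |f x| ≤ b2) :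
    c0 * volume.real D1 ≤ |vn| * b1 * volume.real D2 +
      |vn| * b2 * (volume.real D2 - volume.real D1) := by
  have hfin : volume D2 < ⊤ := hD2.measure_lt_top
  have hfi : IntegrableOn f D2 := hf.continuousOn.integrableOn_compact hD2
  have hfin1 : volume D1 < ⊤ := (measure_mono hsub).trans_lt hfin
  have hD2m : MeasurableSet D2 := hD2.measurableSet
  have e1 : ∫ x in D2, f x = (∫ x in D1, f x) + ∫ x in D2 \ D1, f x := by
    rw [← setIntegral_union Set.disjoint_sdiff_right (hD2m.diff hD1)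
      (hfi.mono_set hsub) (hfi.mono_set Set.sdiff_subset), Set.union_sdiff_cancel hsub]
  have e2 : c0 * volume.real D1 ≤ vn * ∫ x in D1, f x := by
    rw [← integral_const_mul]
    have h3 : ∫ _ in D1, c0 = c0 * volume.real D1 := by
      rw [setIntegral_const, smul_eq_mul, mul_comm]
    rw [← h3]
    refine setIntegral_mono_on ?_ ?_ hD1 h0
    · exact integrableOn_const hfin1.ne
    · exact (hfi.mono_set hsub).const_mul vn
  have e3 : |∫ x in D2 \ D1, f x| ≤ b2 * volume.real (D2 \ D1) := by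
    have := norm_setIntegral_le_of_norm_le_const (μ := volume) (s := D2 \ D1) (f := f) (C := b2)
      ((measure_mono Set.sdiff_subset).trans_lt hfin) (fun x hx => h2 x hx.1)
    simpa [Real.norm_eq_abs] using this
  have e4 : |∫ x in D2, g x| ≤ b1 * volume.real D2 := by
    have := norm_setIntegral_le_of_norm_le_const (μ := volume) (s := D2) (f := g) (C := b1)
      hfin (fun x hx => h1 x hx)
    simpa [Real.norm_eq_abs] using this
  have e5 : volume.real (D2 \ D1) = volume.real D2 - volume.real D1 :=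
    measureReal_sdiff hsub hD1 (h₁ := hfin.ne)
  rw [e5] at e3
  have e6 : vn * ∫ x in D1, f x = vn * (∫ x in D2, g x) - vn * ∫ x in D2 \ D1, f x := by
    rw [← heq, e1]; ring
  have e7 : vn * (∫ x in D2, g x) ≤ |vn| * (b1 * volume.real D2) :=
    (le_abs_self _).trans (by rw [abs_mul]; exact mul_le_mul_of_nonneg_left e4 (abs_nonneg _))
  have e8 : -(vn * ∫ x in D2 \ D1, f x) ≤ |vn| * (b2 * (volume.real D2 - volume.real D1)) :=
    (neg_le_abs _).trans (by rw [abs_mul]; exact mul_le_mul_of_nonneg_left e3 (abs_nonneg _))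
  calc c0 * volume.real D1 ≤ vn * ∫ x in D1, f x := e2
    _ ≤ |vn| * (b1 * volume.real D2) + |vn| * (b2 * (volume.real D2 - volume.real D1)) := by
        rw [e6]; linarith
    _ = _ := by ring

namespace ExpLaw

variable {n : ℕ} {G : ExpLaw (Fin n → ℝ)} {w : Fin n → ℕ} {N : ℕ}

/-- uniform continuity of the law on compact sets -/
theorem exists_close (G : ExpLaw (Fin n → ℝ)) {K D : Set (Fin n → ℝ)} (hK : IsCompact K)
    (hD : IsCompact D) {η₁ : ℝ} (hη₁ : 0 < η₁) :
    ∃ η : ℝ, 0 < η ∧ ∀ Γ : Grid n K η, ∀ x ∈ D, ∀ h ∈ K, ∀ i,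
      |G.mul (-(Γ.g (Γ.π h))) x i - G.mul (-h) x i| ≤ η₁ := by
  have hK' : IsCompact (Metric.cthickening 1 K) := hK.cthickening
  have hc : Continuous (fun p : (Fin n → ℝ) × (Fin n → ℝ) => G.mul (-p.1) p.2) :=
    (G.contDiff_mul contDiff_fst.neg contDiff_snd).continuous
  have huc := (hK'.prod hD).uniformContinuousOn_of_continuous hc.continuousOn
  rw [Metric.uniformContinuousOn_iff] at huc
  obtain ⟨δ, hδ, hδ'⟩ := huc η₁ hη₁
  refine ⟨min (δ / 2) 1, lt_min (half_pos hδ) one_pos, fun Γ x hx h hh i => ?_⟩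
  have h1 := Γ.close h hh
  have h2 : h ∈ Metric.cthickening 1 K := Metric.self_subset_cthickening K hh
  have h3 : Γ.g (Γ.π h) ∈ Metric.cthickening 1 K := by
    refine Metric.mem_cthickening_of_dist_le _ h _ _ hh ?_
    rw [dist_comm, dist_eq_norm]
    exact h1.trans (min_le_right _ _)
  have h4 := hδ' (Γ.g (Γ.π h), x) ⟨h3, hx⟩ (h, x) ⟨h2, hx⟩ (by
    rw [Prod.dist_eq, dist_self, max_eq_left dist_nonneg, dist_comm, dist_eq_norm]
    calc ‖h - Γ.g (Γ.π h)‖ ≤ δ / 2 := h1.trans (min_le_left _ _)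
      _ < δ := half_lt_self hδ)
  rw [dist_eq_norm] at h4
  exact (norm_le_pi_norm (G.mul (-(Γ.g (Γ.π h))) x - G.mul (-h) x) i).trans h4.le

theorem step2 (h : G.Adapted (Pi.basisFun ℝ (Fin n)) w) (hN : G.Nilp N)
    {t A : ℝ} (ht : 1 ≤ t)
    (hbox : ∀ x y, WB w t 2 x → WB w t 2 y → WB w t A (G.mul x y))
    (CL : ℝ) (hCL0 : 0 ≤ CL)
    (hCL : ∀ t : ℝ, 1 ≤ t → ∀ x, WB w t 2 x → ∀ j i,
      |G.dL x 0 (stdE n j) i| * t ^ (w j) ≤ CL * t ^ (w i))
    (c : (Fin (n + 1) → (Fin n → ℝ)) → ℝ) (κ : ℝ)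
    (hκ : ∀ g, Sm G w t A g → |c g| ≤ κ) (hcoc : Cocyc G w t A c)
    {r : ℝ} (hr : 0 < r) (hr1 : r ≤ 1) (ρ : ℝ) (hρ : 0 < ρ)
    (hρL : ∀ y : Fin n → ℝ, (∀ i, |y i| ≤ r) → ∀ j i,
      |G.dL y 0 (stdE n j) i - stdE n j i| ≤ ρ / 2)
    (vn c0 : ℝ)
    (hbulk : ∀ (S : Type) [Fintype S] (g : S → (Fin n → ℝ)) (x : Fin n → ℝ)
      (ν : Fin (n + 1) → S → ℝ),
      (∀ j s, ν j s ≠ 0 → ‖G.mul (-x) (g s)‖ ≤ 2 * r) → ∑ s, ν 0 s = 1 →
      (∀ j : Fin n, ∑ s, ν j.succ s = 0) →
      ∑ s, |ν 0 s| ≤ 1 → (∀ j : Fin n, ∑ s, |ν j.succ s| ≤ CL / r * Cψ n) →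
      (∀ j i : Fin n, |(∑ s, ν j.succ s • G.mul (-x) (g s)) i - stdE n j i| ≤ ρ) →
      c0 ≤ vn * altF (fun γ : Fin (n + 1) → S => c (g ∘ γ)) ν)
    {ε : ℝ} (hε : 0 < ε) (hε1 : ε ≤ 1) :
    c0 ≤ |vn| * (((n + 1).factorial : ℝ) * (κ * ((CL * Cψ n) ^ n / t ^ (∑ i, w i)))) *
        (1 + ε) ^ n +
      |vn| * (((n + 1).factorial : ℝ) * (κ * (CL * Cψ n + CL / r * Cψ n + 2) ^ n)) *
        ((1 + ε) ^ n - 1) := by
  have ht0 : 0 < t := zero_lt_one.trans_le ht
  have hCψ := Cψ_nonneg n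
  have hκ0 : 0 ≤ κ := (abs_nonneg _).trans (hκ (fun _ => 0) (fun i j => by
    have := hbox 0 0 (WB_zero ht0.le zero_le_two) (WB_zero ht0.le zero_le_two)
    simpa [G.mul_zero] using this))
  -- the cut-off function
  set bmp : ContDiffBump (0 : Fin n → ℝ) := ⟨1, 1 + ε, one_pos, by linarith⟩ with hbmp
  have hbsm : ContDiff ℝ ((⊤ : ℕ∞) : WithTop ℕ∞) (bmp : (Fin n → ℝ) → ℝ) := bmp.contDiff
  obtain ⟨Bχ, hBχ⟩ : ∃ Bχ : ℝ, ∀ y, ‖fderiv ℝ (bmp : (Fin n → ℝ) → ℝ) y‖ ≤ Bχ :=
    (bmp.hasCompactSupport.fderiv ℝ).exists_bound_of_continuous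
      (hbsm.continuous_fderiv (by simp))
  have hBχ0 : 0 ≤ Bχ := (norm_nonneg _).trans (hBχ 0)
  set R : ℝ := max 1 (Bχ * CL) with hR
  have hR1 : 1 ≤ R := le_max_left _ _
  have hR0 : 0 < R := zero_lt_one.trans_le hR1
  set aR : Fin n → ℝ := fun i => R ^ (w i) with haR
  have haR0 : ∀ i, 0 < aR i := fun i => pow_pos hR0 _
  set χ : (Fin n → ℝ) → ℝ := fun x => bmp (dv aR x) with hχ
  have hχL : χ = fun x => bmp (dvL aR x) := by funext x; rw [hχ]; simp only [dvL_apply]
  have hχsm : ContDiff ℝ ((⊤ : ℕ∞) : WithTop ℕ∞) χ := by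
    rw [hχL]; exact hbsm.comp (dvL aR).contDiff
  have hχ0 : ∀ x, 0 ≤ χ x := fun x => bmp.nonneg
  have hχ1 : ∀ x, χ x ≤ 1 := fun x => bmp.le_one
  have hχone : ∀ x, ‖dv aR x‖ ≤ 1 → χ x = 1 := fun x hx => by
    refine bmp.one_of_mem_closedBall ?_
    rw [mem_closedBall_zero_iff]; exact hx
  have hχzero : ∀ x, 1 + ε ≤ ‖dv aR x‖ → χ x = 0 := fun x hx => by
    refine bmp.zero_of_le_dist ?_
    rw [dist_zero_right]; exact hx
  -- the boxes
  set D2 : Set (Fin n → ℝ) := Icc (fun i => -((1 + ε) * aR i)) (fun i => (1 + ε) * aR i) with hD2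
  set D1 : Set (Fin n → ℝ) := Set.pi Set.univ (fun i => Ioo (-(aR i)) (aR i)) with hD1
  have hD2c : IsCompact D2 := isCompact_Icc
  have hD1m : MeasurableSet D1 := MeasurableSet.univ_pi fun i => measurableSet_Ioo
  have hD2mem : ∀ x, x ∈ D2 ↔ ‖dv aR x‖ ≤ 1 + ε := by
    intro x
    rw [dv_norm_le haR0 (by linarith)]
    simp only [hD2, Set.mem_Icc, Pi.le_def]
    constructor
    · rintro ⟨h1, h2⟩ i; exact abs_le.2 ⟨h1 i, h2 i⟩
    · intro h1; exact ⟨fun i => (abs_le.1 (h1 i)).1, fun i => (abs_le.1 (h1 i)).2⟩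
  have hD1sub : D1 ⊆ D2 := by
    intro x hx
    rw [hD2mem, dv_norm_le haR0 (by linarith)]
    intro i
    have h1 := hx i (Set.mem_univ i)
    have h2 : |x i| < aR i := abs_lt.2 h1
    have := haR0 i
    nlinarith
  have hD1one : ∀ x ∈ D1, ∀ᶠ y in 𝓝 x, χ y = 1 := by
    intro x hx
    have hop : IsOpen D1 := isOpen_set_pi Set.finite_univ fun i _ => isOpen_Ioo
    filter_upwards [hop.mem_nhds hx] with y hy
    refine hχone y ((dv_norm_le haR0 zero_le_one).2 fun i => ?_)
    rw [one_mul]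
    exact (abs_lt.2 (hy i (Set.mem_univ i))).le
  have hD2zero : ∀ x, x ∉ D2 → ∀ᶠ y in 𝓝 x, χ y = 0 := by
    intro x hx
    filter_upwards [hD2c.isClosed.isOpen_compl.mem_nhds hx] with y hy
    refine hχzero y ?_
    have : ¬ ‖dv aR y‖ ≤ 1 + ε := fun h' => hy ((hD2mem y).2 h')
    exact (not_le.1 this).le
  have hWB : ∀ x ∈ D2, WB w R 2 x := by
    intro x hx i
    have := (dv_norm_le haR0 (by linarith)).1 ((hD2mem x).1 hx) i
    refine this.trans (mul_le_mul_of_nonneg_right (by linarith) (haR0 i).le)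
  have hdχ : ∀ x ∈ D2, ∀ j, |fderiv ℝ χ x (G.dL x 0 (stdE n j))| ≤ 1 := by
    intro x hx j
    have h1 : HasFDerivAt χ ((fderiv ℝ (bmp : (Fin n → ℝ) → ℝ) (dvL aR x)).comp (dvL aR)) x := by
      rw [hχL]
      exact ((hbsm.differentiable (by simp) _).hasFDerivAt).comp x (dvL aR).hasFDerivAt
    rw [h1.fderiv, ContinuousLinearMap.comp_apply, ← Real.norm_eq_abs]
    refine ((fderiv ℝ (bmp : (Fin n → ℝ) → ℝ) (dvL aR x)).le_opNorm _).trans ?_
    have h2 : ‖dvL aR (G.dL x 0 (stdE n j))‖ ≤ CL / R := by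
      rw [dvL_apply]
      refine (dv_norm_le haR0 (by positivity)).2 fun i => ?_
      have h3 := hCL R hR1 x (hWB x hx) j i
      have h4 : R ≤ R ^ (w j) := le_self_pow₀ hR1 (by have := h.one_le j; omega)
      have h5 : |G.dL x 0 (stdE n j) i| * R ≤ CL * R ^ (w i) :=
        (mul_le_mul_of_nonneg_left h4 (abs_nonneg _)).trans h3
      rw [div_mul_eq_mul_div, le_div_iff₀ hR0]
      exact h5
    calc ‖fderiv ℝ (bmp : (Fin n → ℝ) → ℝ) (dvL aR x)‖ * ‖dvL aR (G.dL x 0 (stdE n j))‖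
        ≤ Bχ * (CL / R) := mul_le_mul (hBχ _) h2 (norm_nonneg _) hBχ0
      _ ≤ 1 := by
          rw [← mul_div_assoc, div_le_one hR0]
          exact le_max_right _ _
  -- kernels
  set at' : Fin n → ℝ := fun i => t ^ (w i) with hat
  have hat0 : ∀ i, 0 < at' i := fun i => pow_pos ht0 _
  have hat1 : ∀ i, 1 ≤ at' i := fun i => one_le_pow₀ ht
  set ar : Fin n → ℝ := fun _ => r with har
  have har0 : ∀ i, 0 < ar i := fun _ => hr
  have hbt : ∀ j, ∀ y : Fin n → ℝ, (∀ i, |y i| ≤ at' i) → ∀ i,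
      |G.dL y 0 (stdE n j) i| ≤ (CL / t ^ (w j)) * at' i := by
    intro j y hy i
    have h1 := hCL t ht y (fun i => (hy i).trans (by
      have := (hat0 i).le; simp only [hat] at this ⊢; linarith)) j i
    rw [div_mul_eq_mul_div, le_div_iff₀ (pow_pos ht0 _)]
    exact h1
  have hbr : ∀ j, ∀ y : Fin n → ℝ, (∀ i, |y i| ≤ ar i) → ∀ i,
      |G.dL y 0 (stdE n j) i| ≤ (CL / r) * ar i := by
    intro j y hy i
    have h1 := hCL 1 le_rfl y (fun i => (hy i).trans (by
      simp only [har, one_pow]; linarith)) j i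
    simp only [har]
    rw [div_mul_cancel₀ _ hr.ne']
    simpa using h1
  -- the compact set of centres
  set T : Set (Fin n → ℝ) := Icc (fun i => -(at' i)) at' with hT
  set K : Set (Fin n → ℝ) := (fun p : (Fin n → ℝ) × (Fin n → ℝ) => G.mul p.1 (-p.2)) ''
    (D2 ×ˢ T) with hKdef
  have hK : IsCompact K := by
    refine IsCompact.image (hD2c.prod isCompact_Icc) ?_
    exact (G.contDiff_mul contDiff_fst contDiff_snd.neg).continuous
  have hKmem : ∀ x ∈ D2, ∀ y, (∀ i, |G.mul (-y) x i| ≤ at' i) → y ∈ K := by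
    intro x hx y hy
    refine ⟨(x, G.mul (-y) x), ⟨hx, ⟨fun i => (abs_le.1 (hy i)).1,
      fun i => (abs_le.1 (hy i)).2⟩⟩, ?_⟩
    simp only [G.neg_mul_rev, neg_neg]
    exact G.mul_neg_cancel x y
  have hKmem' : ∀ x ∈ D2, ∀ y, (∀ i, |G.mul (-y) x i| ≤ ar i) → y ∈ K := by
    intro x hx y hy
    exact hKmem x hx y fun i => (hy i).trans ((hr1).trans (hat1 i))
  -- the grid
  set P : ℝ := CL / r * Cψ n with hPdef
  have hP0 : 0 ≤ P := by positivity
  set η₁ : ℝ := min r (ρ / 2 / (P + 1)) with hη₁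
  have hη₁0 : 0 < η₁ := lt_min hr (by positivity)
  obtain ⟨η, hη, hηΓ⟩ := exists_close G hK hD2c hη₁0
  obtain ⟨Γ⟩ := exists_grid hK hη
  have hcl := hηΓ Γ
  set μt := Γ.sm G (kerS at') with hμt
  set μr := Γ.sm G (kerS ar) with hμr
  have hμts : ContDiff ℝ 2 μt := Γ.sm_contDiff hK (kerS_contDiff _)
  have hμrs : ContDiff ℝ 2 μr := Γ.sm_contDiff hK (kerS_contDiff _)
  have hμtd : Differentiable ℝ μt := hμts.differentiable two_ne_zero
  have hμrd : Differentiable ℝ μr := hμrs.differentiable two_ne_zero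
  have hχ2 : ContDiff ℝ 2 χ := hχsm.of_le (by
    change (((2 : ℕ∞)) : WithTop ℕ∞) ≤ _
    exact WithTop.coe_le_coe.2 le_top)
  have hχd : Differentiable ℝ χ := hχ2.differentiable two_ne_zero
  set κκ : (Fin n → ℝ) → (Γ.S → ℝ) := fun x => χ x • (μr x - μt x) with hκκ
  have hκκs : ContDiff ℝ 2 κκ := hχ2.smul (hμrs.sub hμts)
  have hκκd : ∀ x v, fderiv ℝ κκ x v = χ x • (fderiv ℝ μr x v - fderiv ℝ μt x v) +
      fderiv ℝ χ x v • (μr x - μt x) := by
    intro x v
    have h1 := (hχd x).hasFDerivAt.smul ((hμrd x).hasFDerivAt.sub (hμtd x).hasFDerivAt)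
    have h2 : HasFDerivAt κκ _ x := h1
    rw [h2.fderiv]
    simp [ContinuousLinearMap.smulRight_apply]
  have hdir : ∀ x v, v = G.dL x 0 (G.Λ x v) := fun x v =>
    (DFunLike.congr_fun (G.L_comp_Λ x) v).symm
  have hη₁r : η₁ ≤ r := min_le_left _ _
  have hnt : ∀ x ∈ D2, ∀ s, μt x s ≠ 0 → WB w t 2 (G.mul (-x) (Γ.g s)) := by
    intro x hx s hs i
    have h1 := Γ.sm_near hK hat0 x η₁ (hcl x hx) s hs i
    have := hat1 i
    have h3 : at' i = t ^ (w i) := rfl
    rw [← h3]; linarith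
  have hndt : ∀ x ∈ D2, ∀ v s, fderiv ℝ μt x v s ≠ 0 → WB w t 2 (G.mul (-x) (Γ.g s)) := by
    intro x hx v s hs i
    rw [hdir x v] at hs
    have h1 := Γ.dsm_near hK hat0 x _ η₁ (hcl x hx) s hs i
    have := hat1 i
    have h3 : at' i = t ^ (w i) := rfl
    rw [← h3]; linarith
  have hnr' : ∀ x ∈ D2, ∀ s, μr x s ≠ 0 → ‖G.mul (-x) (Γ.g s)‖ ≤ 2 * r := by
    intro x hx s hs
    refine (pi_norm_le_iff_of_nonneg (by positivity)).2 fun i => ?_
    have h1 := Γ.sm_near hK har0 x η₁ (hcl x hx) s hs i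
    rw [Real.norm_eq_abs]
    have h3 : ar i = r := rfl
    rw [h3] at h1; linarith
  have hndr' : ∀ x ∈ D2, ∀ v s, fderiv ℝ μr x v s ≠ 0 → ‖G.mul (-x) (Γ.g s)‖ ≤ 2 * r := by
    intro x hx v s hs
    refine (pi_norm_le_iff_of_nonneg (by positivity)).2 fun i => ?_
    rw [hdir x v] at hs
    have h1 := Γ.dsm_near hK har0 x _ η₁ (hcl x hx) s hs i
    rw [Real.norm_eq_abs]
    have h3 : ar i = r := rfl
    rw [h3] at h1; linarith
  have hto : ∀ y : Fin n → ℝ, ‖y‖ ≤ 2 * r → WB w t 2 y := by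
    intro y hy i
    have h1 := (norm_le_pi_norm y i).trans hy
    rw [Real.norm_eq_abs] at h1
    have := hat1 i
    have h3 : at' i = t ^ (w i) := rfl
    rw [← h3]; nlinarith
  have hmt : ∀ x ∈ D2, ∑ s, μt x s = 1 := fun x hx => Γ.sm_sum h hN hK hat0 x (hKmem x hx)
  have hmr : ∀ x ∈ D2, ∑ s, μr x s = 1 := fun x hx => Γ.sm_sum h hN hK har0 x (hKmem' x hx)
  have hmdt : ∀ x ∈ D2, ∀ v, ∑ s, fderiv ℝ μt x v s = 0 := by
    intro x hx v
    rw [hdir x v]
    exact Γ.dsm_sum h hN hK hat0 x _ (hKmem x hx)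
  have hmdr : ∀ x ∈ D2, ∀ v, ∑ s, fderiv ℝ μr x v s = 0 := by
    intro x hx v
    rw [hdir x v]
    exact Γ.dsm_sum h hN hK har0 x _ (hKmem' x hx)
  have hat_ : ∀ x, ∑ s, |μt x s| ≤ 1 := fun x => Γ.sm_sum_abs h hN hK hat0 x
  have har_ : ∀ x, ∑ s, |μr x s| ≤ 1 := fun x => Γ.sm_sum_abs h hN hK har0 x
  have hadt : ∀ x j, ∑ s, |fderiv ℝ μt x (G.dL x 0 (stdE n j)) s| ≤ CL / t ^ (w j) * Cψ n :=
    fun x j => Γ.dsm_sum_abs h hN hK hat0 x _ _ (by positivity) (hbt j)
  have hadr : ∀ x j, ∑ s, |fderiv ℝ μr x (G.dL x 0 (stdE n j)) s| ≤ CL / r * Cψ n :=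
    fun x j => Γ.dsm_sum_abs h hN hK har0 x _ _ (by positivity) (hbr j)
  set F := altF (fun γ : Fin (n + 1) → Γ.S => c (Γ.g ∘ γ)) with hF
  -- closedness
  have hclosed : ∀ x, ∀ s ∈ Icc (0 : ℝ) 1,
      F (Fin.cons (κκ x) (fun j => fderiv ℝ μt x (stdE n j) +
        s • fderiv ℝ κκ x (stdE n j))) = 0 := by
    intro x s _
    by_cases hx : x ∈ D2
    · refine F_zero ht0.le hbox c hcoc Γ.g x _ ?_ ?_
      · intro j s' hne
        by_contra hW
        have z1 : μt x s' = 0 := by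
          by_contra h'; exact hW (hnt x hx s' h')
        have z2 : μr x s' = 0 := by
          by_contra h'; exact hW (hto _ (hnr' x hx s' h'))
        have z3 : ∀ v, fderiv ℝ μt x v s' = 0 := fun v => by
          by_contra h'; exact hW (hndt x hx v s' h')
        have z4 : ∀ v, fderiv ℝ μr x v s' = 0 := fun v => by
          by_contra h'; exact hW (hto _ (hndr' x hx v s' h'))
        apply hne
        refine Fin.cases ?_ (fun j => ?_) j
        · simp [hκκ, z1, z2]
        · simp [hκκd, z1, z2, z3, z4]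
      · intro j
        refine Fin.cases ?_ (fun j => ?_) j
        · simp [hκκ, ← Finset.mul_sum, Finset.sum_sub_distrib, hmt x hx, hmr x hx]
        · simp [hκκd, ← Finset.mul_sum, Finset.sum_sub_distrib, Finset.sum_add_distrib,
            hmt x hx, hmr x hx, hmdt x hx, hmdr x hx]
    · have h1 : κκ x = 0 := by
        rw [hκκ]; simp only [(hD2zero x hx).self_of_nhds, zero_smul]
      rw [h1]
      exact F.toMultilinearMap.map_coord_zero 0 (by simp)
  -- the large box
  set B : ℝ := 1 + 2 * ∑ i, aR i with hB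
  have hB0 : 0 ≤ B := by
    have : 0 ≤ ∑ i, aR i := Finset.sum_nonneg fun i _ => (haR0 i).le
    linarith
  have hBi : ∀ i, (1 + ε) * aR i < B := by
    intro i
    have h1 : aR i ≤ ∑ i, aR i := Finset.single_le_sum (fun i _ => (haR0 i).le) (Finset.mem_univ i)
    have h2 := haR0 i
    nlinarith
  have hsupp : ∀ x, (∃ i, |x i| = B) → κκ x = 0 := by
    rintro x ⟨i, hi⟩
    have hx : x ∉ D2 := by
      intro hx
      have := (dv_norm_le haR0 (by linarith)).1 ((hD2mem x).1 hx) i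
      rw [hi] at this
      exact absurd (hBi i) (not_lt.2 this)
    rw [hκκ]; simp only [(hD2zero x hx).self_of_nhds, zero_smul]
  have key := integral_pb_eq_of_compact F μt κκ hμts hκκs B hB0 hsupp hclosed
  set f : (Fin n → ℝ) → ℝ := fun x => pb F (fun y => μt y + κκ y) x (stdE n) with hf
  set g : (Fin n → ℝ) → ℝ := fun x => pb F μt x (stdE n) with hg
  have hfc : Continuous f := (pb_contDiff F (hμts.add hκκs) _).continuous
  have hgc : Continuous g := (pb_contDiff F hμts _).continuous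
  have hD2B : D2 ⊆ Icc (fun _ : Fin n => -B) (fun _ => B) := by
    intro x hx
    constructor
    · intro i; exact (neg_le_neg (hBi i).le).trans (hx.1 i)
    · intro i; exact (hx.2 i).trans (hBi i).le
  have hfg : ∀ x, x ∉ D2 → f x = g x := by
    intro x hx
    have h1 : (fun y => μt y + κκ y) =ᶠ[𝓝 x] μt := by
      filter_upwards [hD2zero x hx] with y hy
      rw [hκκ]; simp only [hy, zero_smul, add_zero]
    simp only [hf, hg, pb_apply]
    have h2 := h1.self_of_nhds
    simp only at h2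
    rw [h1.fderiv_eq, h2]
  have heq : ∫ x in D2, f x = ∫ x in D2, g x := by
    have hfi : IntegrableOn f (Icc (fun _ : Fin n => -B) (fun _ => B)) :=
      hfc.continuousOn.integrableOn_compact isCompact_Icc
    have hgi : IntegrableOn g (Icc (fun _ : Fin n => -B) (fun _ => B)) :=
      hgc.continuousOn.integrableOn_compact isCompact_Icc
    have h1 : ∫ x in Icc (fun _ : Fin n => -B) (fun _ => B), (f x - g x) = 0 := by
      rw [integral_sub hfi hgi, sub_eq_zero]; exact key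
    rw [setIntegral_eq_of_subset_of_forall_sdiff_eq_zero (s := D2) measurableSet_Icc hD2B
      (fun x hx => by rw [hfg x hx.2, sub_self]),
      integral_sub (hfi.mono_set hD2B) (hgi.mono_set hD2B), sub_eq_zero] at h1
    exact h1
  -- bounds
  have hfb1 : ∀ x ∈ D1, c0 ≤ vn * f x := by
    intro x hx
    have hx2 := hD1sub hx
    have h1 : (fun y => μt y + κκ y) =ᶠ[𝓝 x] μr := by
      filter_upwards [hD1one x hx] with y hy
      rw [hκκ]; simp only [hy, one_smul, add_sub_cancel]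
    have h2 : f x = pb F μr x (stdE n) := by
      simp only [hf, pb_apply]
      have h2 := h1.self_of_nhds
      simp only at h2
      rw [h1.fderiv_eq, h2]
    rw [h2, ← pb_frame F μr x (G.dL x 0) (det_L h hN x)]
    refine hbulk Γ.S Γ.g x _ ?_ ?_ ?_ ?_ ?_ ?_
    · intro j s
      refine Fin.cases ?_ (fun j => ?_) j
      · intro hs; exact hnr' x hx2 s hs
      · intro hs; exact hndr' x hx2 _ s hs
    · simpa using hmr x hx2
    · intro j; simpa using hmdr x hx2 _
    · simpa using har_ x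
    · intro j; simpa using hadr x j
    · intro j i
      have h3 := Γ.dsm_moment h hN hK har0 x j η₁ (ρ / 2) (CL / r) (by positivity) (hbr j)
        (hKmem' x hx2) (hcl x hx2) (fun y hy i => hρL y hy j i) i
      simp only [Fin.cons_succ]
      refine h3.trans ?_
      have h4 : P * η₁ ≤ ρ / 2 := by
        calc P * η₁ ≤ P * (ρ / 2 / (P + 1)) :=
              mul_le_mul_of_nonneg_left (min_le_right _ _) hP0
          _ = (ρ / 2) * (P / (P + 1)) := by ring
          _ ≤ (ρ / 2) * 1 := by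
              refine mul_le_mul_of_nonneg_left ?_ (by positivity)
              rw [div_le_one (by positivity)]; linarith
          _ = ρ / 2 := mul_one _
      have h5 : CL / r * Cψ n * η₁ = P * η₁ := rfl
      rw [h5]; linarith
  have hfac : (0 : ℝ) ≤ ((n + 1).factorial : ℝ) := Nat.cast_nonneg _
  have hgb : ∀ x ∈ D2, |g x| ≤
      ((n + 1).factorial : ℝ) * (κ * ((CL * Cψ n) ^ n / t ^ (∑ i, w i))) := by
    intro x hx
    have h1 : g x = F (Fin.cons (μt x) (fun j => fderiv ℝ μt x (G.dL x 0 (stdE n j)))) := by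
      simp only [hg]
      rw [← pb_frame F μt x (G.dL x 0) (det_L h hN x)]
    rw [h1]
    refine (F_bound hbox c κ hκ Γ.g x _ ?_).trans ?_
    · intro j s
      refine Fin.cases ?_ (fun j => ?_) j
      · intro hs; exact hnt x hx s hs
      · intro hs; exact hndt x hx _ s hs
    · refine mul_le_mul_of_nonneg_left (mul_le_mul_of_nonneg_left ?_ hκ0) hfac
      rw [Fin.prod_univ_succ]
      simp only [Fin.cons_zero, Fin.cons_succ]
      calc (∑ s, |μt x s|) * ∏ j, ∑ s, |fderiv ℝ μt x (G.dL x 0 (stdE n j)) s|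
          ≤ 1 * ∏ j : Fin n, (CL / t ^ (w j) * Cψ n) := by
            refine mul_le_mul (hat_ x) (Finset.prod_le_prod (fun j _ => Finset.sum_nonneg
              fun s _ => abs_nonneg _) fun j _ => hadt x j) (Finset.prod_nonneg fun j _ =>
                Finset.sum_nonneg fun s _ => abs_nonneg _) zero_le_one
        _ = (CL * Cψ n) ^ n / t ^ (∑ i, w i) := by
            rw [one_mul]
            have h2 : ∀ j, CL / t ^ (w j) * Cψ n = (CL * Cψ n) * (t ^ (w j))⁻¹ := by
              intro j; ring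
            simp only [h2]
            rw [Finset.prod_mul_distrib, Finset.prod_const, Finset.card_univ, Fintype.card_fin,
              Finset.prod_inv_distrib, Finset.prod_pow_eq_pow_sum, div_eq_mul_inv]
  have hfb2 : ∀ x ∈ D2, |f x| ≤
      ((n + 1).factorial : ℝ) * (κ * (CL * Cψ n + CL / r * Cψ n + 2) ^ n) := by
    intro x hx
    have h1 : f x = F (Fin.cons (μt x + κκ x) (fun j =>
        fderiv ℝ (fun y => μt y + κκ y) x (G.dL x 0 (stdE n j)))) := by
      simp only [hf]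
      rw [← pb_frame F (fun y => μt y + κκ y) x (G.dL x 0) (det_L h hN x)]
    have h2 : ∀ v, fderiv ℝ (fun y => μt y + κκ y) x v = fderiv ℝ μt x v + fderiv ℝ κκ x v := by
      intro v
      have h3 : HasFDerivAt (fun y => μt y + κκ y) (fderiv ℝ μt x + fderiv ℝ κκ x) x :=
        (hμtd x).hasFDerivAt.add ((hκκs.differentiable two_ne_zero) x).hasFDerivAt
      rw [h3.fderiv]; rfl
    simp only [h2, hκκd] at h1
    rw [h1]
    have hz1 : ∀ s, ¬ WB w t 2 (G.mul (-x) (Γ.g s)) → μt x s = 0 ∧ μr x s = 0 ∧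
        (∀ v, fderiv ℝ μt x v s = 0) ∧ (∀ v, fderiv ℝ μr x v s = 0) := by
      intro s hW
      refine ⟨?_, ?_, fun v => ?_, fun v => ?_⟩
      · by_contra h'; exact hW (hnt x hx s h')
      · by_contra h'; exact hW (hto _ (hnr' x hx s h'))
      · by_contra h'; exact hW (hndt x hx v s h')
      · by_contra h'; exact hW (hto _ (hndr' x hx v s h'))
    refine (F_bound hbox c κ hκ Γ.g x _ ?_).trans ?_
    · intro j s hne
      by_contra hW
      obtain ⟨z1, z2, z3, z4⟩ := hz1 s hW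
      apply hne
      refine Fin.cases ?_ (fun j => ?_) j
      · simp [hκκ, z1, z2]
      · simp [z1, z2, z3, z4]
    · refine mul_le_mul_of_nonneg_left (mul_le_mul_of_nonneg_left ?_ hκ0) hfac
      rw [Fin.prod_univ_succ]
      simp only [Fin.cons_zero, Fin.cons_succ]
      have hx0 := hχ0 x
      have hx1 := hχ1 x
      have h3 : ∑ s, |(μt x + κκ x) s| ≤ 1 := by
        calc ∑ s, |(μt x + κκ x) s| ≤ ∑ s, ((1 - χ x) * |μt x s| + χ x * |μr x s|) := by
              refine Finset.sum_le_sum fun s _ => ?_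
              have h4 : (μt x + κκ x) s = (1 - χ x) * μt x s + χ x * μr x s := by
                simp only [hκκ, Pi.add_apply, Pi.smul_apply, Pi.sub_apply, smul_eq_mul]; ring
              rw [h4]
              refine (abs_add_le _ _).trans ?_
              rw [abs_mul, abs_mul, abs_of_nonneg (sub_nonneg.2 hx1), abs_of_nonneg hx0]
          _ = (1 - χ x) * ∑ s, |μt x s| + χ x * ∑ s, |μr x s| := by
              rw [Finset.sum_add_distrib, Finset.mul_sum, Finset.mul_sum]
          _ ≤ (1 - χ x) * 1 + χ x * 1 := add_le_add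
              (mul_le_mul_of_nonneg_left (hat_ x) (sub_nonneg.2 hx1))
              (mul_le_mul_of_nonneg_left (har_ x) hx0)
          _ = 1 := by ring
      have h4 : ∀ j, ∑ s, |(fderiv ℝ μt x (G.dL x 0 (stdE n j)) +
          (χ x • (fderiv ℝ μr x (G.dL x 0 (stdE n j)) - fderiv ℝ μt x (G.dL x 0 (stdE n j))) +
          fderiv ℝ χ x (G.dL x 0 (stdE n j)) • (μr x - μt x))) s| ≤
          CL * Cψ n + CL / r * Cψ n + 2 := by
        intro j
        set a1 := fderiv ℝ μt x (G.dL x 0 (stdE n j)) with ha1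
        set a2 := fderiv ℝ μr x (G.dL x 0 (stdE n j)) with ha2
        set d := fderiv ℝ χ x (G.dL x 0 (stdE n j)) with hd
        have hd1 : |d| ≤ 1 := hdχ x hx j
        calc ∑ s, |(a1 + (χ x • (a2 - a1) + d • (μr x - μt x))) s|
            ≤ ∑ s, (|a1 s| + |a2 s| + (|μr x s| + |μt x s|)) := by
              refine Finset.sum_le_sum fun s _ => ?_
              have h5 : (a1 + (χ x • (a2 - a1) + d • (μr x - μt x))) s =
                  ((1 - χ x) * a1 s + χ x * a2 s) + d * (μr x s - μt x s) := by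
                simp only [Pi.add_apply, Pi.smul_apply, Pi.sub_apply, smul_eq_mul]; ring
              rw [h5]
              refine (abs_add_le _ _).trans (add_le_add ((abs_add_le _ _).trans ?_) ?_)
              · rw [abs_mul, abs_mul, abs_of_nonneg (sub_nonneg.2 hx1), abs_of_nonneg hx0]
                refine add_le_add ?_ ?_
                · exact mul_le_of_le_one_left (abs_nonneg _) (by linarith)
                · exact mul_le_of_le_one_left (abs_nonneg _) hx1
              · rw [abs_mul]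
                refine (mul_le_of_le_one_left (abs_nonneg _) hd1).trans ?_
                exact abs_sub _ _
          _ = ∑ s, |a1 s| + ∑ s, |a2 s| + (∑ s, |μr x s| + ∑ s, |μt x s|) := by
              rw [Finset.sum_add_distrib, Finset.sum_add_distrib, Finset.sum_add_distrib]
          _ ≤ CL * Cψ n + CL / r * Cψ n + 2 := by
              have h6 : ∑ s, |a1 s| ≤ CL * Cψ n := by
                refine (hadt x j).trans (mul_le_mul_of_nonneg_right ?_ hCψ)
                exact div_le_self hCL0 (one_le_pow₀ ht)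
              have h7 : ∑ s, |a2 s| ≤ CL / r * Cψ n := hadr x j
              have h8 := hat_ x
              have h9 := har_ x
              linarith
      calc (∑ s, |(μt x + κκ x) s|) * ∏ j, ∑ s, |(fderiv ℝ μt x (G.dL x 0 (stdE n j)) +
          (χ x • (fderiv ℝ μr x (G.dL x 0 (stdE n j)) - fderiv ℝ μt x (G.dL x 0 (stdE n j))) +
          fderiv ℝ χ x (G.dL x 0 (stdE n j)) • (μr x - μt x))) s|
          ≤ 1 * ∏ j : Fin n, (CL * Cψ n + CL / r * Cψ n + 2) := by
            refine mul_le_mul h3 (Finset.prod_le_prod (fun j _ => Finset.sum_nonneg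
              fun s _ => abs_nonneg _) fun j _ => h4 j) (Finset.prod_nonneg fun j _ =>
                Finset.sum_nonneg fun s _ => abs_nonneg _) zero_le_one
        _ = (CL * Cψ n + CL / r * Cψ n + 2) ^ n := by simp
  have hfin := integral_ineq hD1m hD2c hD1sub hfc vn c0 _ _ heq hfb1 hgb hfb2
  have hV1 : volume.real D1 = ∏ i, (aR i - -(aR i)) :=
    Real.volume_pi_Ioo_toReal (fun i => by have := haR0 i; linarith)
  have hV2 : volume.real D2 = (1 + ε) ^ n * ∏ i, (aR i - -(aR i)) := by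
    have h1 : volume.real D2 = ∏ i, ((1 + ε) * aR i - -((1 + ε) * aR i)) :=
      Real.volume_Icc_pi_toReal (fun i => by
        have := haR0 i
        have h2 : 0 ≤ (1 + ε) * aR i := by positivity
        linarith)
    rw [h1]
    have h2 : ∀ i, (1 + ε) * aR i - -((1 + ε) * aR i) = (1 + ε) * (aR i - -(aR i)) := by
      intro i; ring
    simp only [h2]
    rw [Finset.prod_mul_distrib, Finset.prod_const, Finset.card_univ, Fintype.card_fin]
  have hV0 : 0 < ∏ i, (aR i - -(aR i)) := Finset.prod_pos fun i _ => by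
    have := haR0 i; linarith
  rw [hV1, hV2] at hfin
  refine le_of_mul_le_mul_right (hfin.trans (le_of_eq ?_)) hV0
  ring

end ExpLaw

end Pool.Agent.Lib.P6a08f9
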