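import Pool.Agent.Lib.P6a08f9.SmearC

/-!
Smearing of bounded cocycles: the final contradiction.
-/

open MeasureTheory Set Filter Topology

namespace Pool.Agent.Lib.P6a08f9

namespace ExpLaw

variable {n : ℕ} {G : ExpLaw (Fin n → ℝ)} {w : Fin n → ℕ} {N : ℕ}

theorem exists_det_close (n : ℕ) : ∃ ρ : ℝ, 0 < ρ ∧ ∀ M : Fin n → Fin n → ℝ,
    (∀ j i, |M j i - stdE n j i| ≤ ρ) → 1 / 2 ≤ Matrix.det (Matrix.of M) := by
  have hc : Continuous (fun M : Fin n → Fin n → ℝ => Matrix.det (Matrix.of M)) :=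
    Continuous.matrix_det continuous_id
  have h1 : Matrix.det (Matrix.of (fun j => stdE n j)) = 1 := by
    have : (Matrix.of (fun j => stdE n j)) = (1 : Matrix (Fin n) (Fin n) ℝ) := by
      ext j i
      simp [stdE, Matrix.one_apply, Pi.single_apply, eq_comm]
    rw [this, Matrix.det_one]
  have h2 : ∀ᶠ M in 𝓝 (fun j => stdE n j), 1 / 2 < Matrix.det (Matrix.of M) :=
    hc.continuousAt.eventually_const_lt (by
      change 1 / 2 < (Matrix.of fun j => stdE n j).det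
      rw [h1]; norm_num)
  obtain ⟨ρ, hρ, hρ'⟩ := Metric.eventually_nhds_iff.1 h2
  refine ⟨ρ / 2, half_pos hρ, fun M hM => (hρ' ?_).le⟩
  refine ((dist_pi_le_iff (half_pos hρ).le).2 fun j => ?_).trans_lt (half_lt_self hρ)
  refine (dist_pi_le_iff (half_pos hρ).le).2 fun i => ?_
  rw [Real.dist_eq]; exact hM j i

theorem smear_contradiction (h : G.Adapted (Pi.basisFun ℝ (Fin n)) w) (hN : G.Nilp N)
    (hQ : n + 1 ≤ ∑ i, w i)
    (V : (Fin (n + 1) → (Fin n → ℝ)) → ℝ) (hVinv : ∀ a g, V (fun i => G.mul a (g i)) = V g)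
    (vn : ℝ) (hvn : vn ≠ 0)
    (hVas : ∀ ε' : ℝ, 0 < ε' → ∃ r0 : ℝ, 0 < r0 ∧ ∀ r : ℝ, 0 < r → r ≤ r0 →
      ∀ a : Fin (n + 1) → (Fin n → ℝ), (∀ i, ‖a i‖ ≤ r) →
      |V a - vn * Matrix.det (Matrix.of fun j : Fin n => a j.succ - a 0)| ≤ ε' * r ^ n)
    (hc : ∀ A : ℝ, ∃ K : ℝ, 0 ≤ K ∧ ∀ t : ℝ, 1 ≤ t →
      ∃ c : (Fin (n + 1) → (Fin n → ℝ)) → ℝ,
        (∀ g, Sm G w t A g → |c g| ≤ K * t ^ n) ∧ Cocyc G w t A c ∧
        (∀ g, Sm G w 1 1 g → c g = V g)) : False := by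
  obtain ⟨A, hA2, hbox0⟩ := h.exists_box hN 2 zero_le_two
  have hbox : ∀ t : ℝ, 1 ≤ t → ∀ x y, WB w t 2 x → WB w t 2 y → WB w t A (G.mul x y) := by
    intro t ht x y hx hy
    have := (hbox0 t ht x y (Bx_basisFun.2 hx) (Bx_basisFun.2 hy)).1
    exact Bx_basisFun.1 this
  obtain ⟨CL, hCL0, hCL1⟩ := h.exists_L_bound hN 2
  have hCL : ∀ t : ℝ, 1 ≤ t → ∀ x, WB w t 2 x → ∀ j i,
      |G.dL x 0 (stdE n j) i| * t ^ (w j) ≤ CL * t ^ (w i) := by
    intro t ht x hx j i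
    have := hCL1 t ht x (Bx_basisFun.2 hx) j i
    simpa [Pi.basisFun_apply, stdE] using this
  obtain ⟨K, hK0, hK⟩ := hc A
  have hCψ := Cψ_nonneg n
  have hvn2 : 0 < |vn| := abs_pos.2 hvn
  set ε' : ℝ := |vn| / (4 * ((2 * CL * Cψ n) ^ n + 1)) with hε'
  have hε'0 : 0 < ε' := by positivity
  obtain ⟨r0, hr0, hr0'⟩ := hVas ε' hε'0
  obtain ⟨ρ, hρ, hρ'⟩ := exists_det_close n
  -- choice of `r`
  have hev1 : ∀ᶠ y : Fin n → ℝ in 𝓝 0, ∀ j i, |G.dL y 0 (stdE n j) i - stdE n j i| < ρ / 2 := by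
    rw [eventually_all]
    intro j
    rw [eventually_all]
    intro i
    have hcont : Continuous (fun y => |G.dL y 0 (stdE n j) i - stdE n j i|) :=
      (((continuous_apply i).comp ((dL_zero_continuous G).clm_apply continuous_const)).sub
        continuous_const).abs
    refine hcont.continuousAt.eventually_lt_const ?_
    change |G.dL 0 0 (stdE n j) i - stdE n j i| < ρ / 2
    rw [G.dL_zero_left]
    simpa using half_pos hρ
  have hev2 : ∀ᶠ p : (Fin n → ℝ) × (Fin n → ℝ) in 𝓝 0, ‖G.mul (-p.1) p.2‖ < 1 := by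
    have hcont : Continuous (fun p : (Fin n → ℝ) × (Fin n → ℝ) => ‖G.mul (-p.1) p.2‖) :=
      (G.contDiff_mul contDiff_fst.neg contDiff_snd).continuous.norm
    refine hcont.continuousAt.eventually_lt_const ?_
    simp [G.mul_zero]
  obtain ⟨r1, hr1, hr1'⟩ := Metric.eventually_nhds_iff.1 hev1
  obtain ⟨r2, hr2, hr2'⟩ := Metric.eventually_nhds_iff.1 hev2
  set r : ℝ := min (min 1 (r0 / 2)) (min (r1 / 2) (r2 / 4)) with hr
  have hrpos : 0 < r := by
    refine lt_min (lt_min one_pos (half_pos hr0)) (lt_min (half_pos hr1) (by positivity))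
  have hrle1 : r ≤ 1 := (min_le_left _ _).trans (min_le_left _ _)
  have hrle0 : r ≤ r0 / 2 := (min_le_left _ _).trans (min_le_right _ _)
  have hrler1 : r ≤ r1 / 2 := (min_le_right _ _).trans (min_le_left _ _)
  have hrler2 : r ≤ r2 / 4 := (min_le_right _ _).trans (min_le_right _ _)
  have hρL : ∀ y : Fin n → ℝ, (∀ i, |y i| ≤ r) → ∀ j i,
      |G.dL y 0 (stdE n j) i - stdE n j i| ≤ ρ / 2 := by
    intro y hy j i
    refine (hr1' (y := y) ?_ j i).le
    rw [dist_zero_right]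
    calc ‖y‖ ≤ r := (pi_norm_le_iff_of_nonneg hrpos.le).2 hy
      _ ≤ r1 / 2 := hrler1
      _ < r1 := half_lt_self hr1
  have htiny : ∀ a a' : Fin n → ℝ, ‖a‖ ≤ 2 * r → ‖a'‖ ≤ 2 * r → WB w 1 1 (G.mul (-a) a') := by
    intro a a' ha ha' i
    have h1 : ‖G.mul (-a) a'‖ < 1 := by
      refine hr2' (y := (a, a')) ?_
      rw [dist_zero_right, Prod.norm_def]
      have : max ‖a‖ ‖a'‖ ≤ 2 * r := max_le ha ha'
      calc max ‖a‖ ‖a'‖ ≤ 2 * r := this
        _ ≤ r2 / 2 := by linarith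
        _ < r2 := half_lt_self hr2
    rw [one_pow, mul_one]
    have h2 := norm_le_pi_norm (G.mul (-a) a') i
    rw [Real.norm_eq_abs] at h2
    exact h2.trans h1.le
  set fac : ℝ := ((n + 1).factorial : ℝ) with hfac
  have hfac0 : 0 < fac := by
    rw [hfac]; exact_mod_cast Nat.factorial_pos _
  set δ : ℝ := ε' * (2 * r) ^ n with hδ
  have hδ0 : 0 ≤ δ := by positivity
  set P : ℝ := CL / r * Cψ n with hP
  have hδP : δ * P ^ n ≤ |vn| / 4 := by
    have h1 : δ * P ^ n = ε' * (2 * CL * Cψ n) ^ n := by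
      rw [hδ, hP, mul_assoc, ← mul_pow]
      congr 2
      field_simp
    rw [h1, hε', div_mul_eq_mul_div, div_le_div_iff₀ (by positivity) (by norm_num)]
    nlinarith [pow_nonneg (mul_nonneg (mul_nonneg zero_le_two hCL0) hCψ) n]
  set c0 : ℝ := fac * vn ^ 2 / 4 with hc0
  have hc0pos : 0 < c0 := by positivity
  have main : ∀ t : ℝ, 1 ≤ t → c0 ≤ |vn| * (fac * (K * t ^ n * ((CL * Cψ n) ^ n /
      t ^ (∑ i, w i)))) := by
    intro t ht
    obtain ⟨c, hc1, hc2, hc3⟩ := hK t ht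
    have hbulk : ∀ (S : Type) [Fintype S] (g : S → (Fin n → ℝ)) (x : Fin n → ℝ)
        (ν : Fin (n + 1) → S → ℝ),
        (∀ j s, ν j s ≠ 0 → ‖G.mul (-x) (g s)‖ ≤ 2 * r) → ∑ s, ν 0 s = 1 →
        (∀ j : Fin n, ∑ s, ν j.succ s = 0) →
        ∑ s, |ν 0 s| ≤ 1 → (∀ j : Fin n, ∑ s, |ν j.succ s| ≤ CL / r * Cψ n) →
        (∀ j i : Fin n, |(∑ s, ν j.succ s • G.mul (-x) (g s)) i - stdE n j i| ≤ ρ) →
        c0 ≤ vn * altF (fun γ : Fin (n + 1) → S => c (g ∘ γ)) ν := by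
      intro S _ g x ν h1 h2 h3 h4 h5 h6
      have h7 := bulk (w := w) V hVinv vn r δ P
        (fun a ha => by
          have := hr0' (2 * r) (by positivity) (by linarith) a ha
          exact this) htiny c hc3 g x ν h1 h2 h3 h4 h5 hδ0
      have h8 : 1 / 2 ≤ Matrix.det (Matrix.of fun j : Fin n =>
          ∑ s, ν j.succ s • G.mul (-x) (g s)) := hρ' _ h6
      set D := Matrix.det (Matrix.of fun j : Fin n =>
          ∑ s, ν j.succ s • G.mul (-x) (g s)) with hD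
      set X := altF (fun γ : Fin (n + 1) → S => c (g ∘ γ)) ν with hX
      have h9 : |X - fac * (vn * D)| ≤ fac * (|vn| / 4) :=
        h7.trans (mul_le_mul_of_nonneg_left hδP hfac0.le)
      have h10 : |vn * (X - fac * (vn * D))| ≤ |vn| * (fac * (|vn| / 4)) := by
        rw [abs_mul]; exact mul_le_mul_of_nonneg_left h9 (abs_nonneg _)
      have h11 : |vn| * (fac * (|vn| / 4)) = fac * vn ^ 2 / 4 := by
        rw [← sq_abs vn]; ring
      have h12 := (abs_le.1 h10).1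
      rw [h11] at h12
      have h13 : fac * vn ^ 2 * D ≥ fac * vn ^ 2 * (1 / 2) :=
        mul_le_mul_of_nonneg_left h8 (by positivity)
      have h14 : vn * (X - fac * (vn * D)) = vn * X - fac * vn ^ 2 * D := by ring
      rw [h14] at h12
      rw [hc0]
      linarith
    have hst : ∀ ε : ℝ, 0 < ε → ε ≤ 1 → _ := fun ε hε hε1 =>
      step2 h hN ht (hbox t ht) CL hCL0 hCL c (K * t ^ n) hc1 hc2 hrpos hrle1 ρ hρ hρL vn c0
        hbulk hε hε1
    set C1 := |vn| * (fac * (K * t ^ n * ((CL * Cψ n) ^ n / t ^ (∑ i, w i)))) with hC1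
    set C2 := |vn| * (fac * (K * t ^ n * (CL * Cψ n + CL / r * Cψ n + 2) ^ n)) with hC2
    have hcont : Continuous (fun ε : ℝ => C1 * (1 + ε) ^ n + C2 * ((1 + ε) ^ n - 1)) := by
      fun_prop
    have hlim : Tendsto (fun ε : ℝ => C1 * (1 + ε) ^ n + C2 * ((1 + ε) ^ n - 1)) (𝓝[>] 0)
        (𝓝 C1) := by
      have h1 := (hcont.tendsto 0).mono_left (nhdsWithin_le_nhds (s := Set.Ioi (0 : ℝ)))
      simpa using h1
    refine ge_of_tendsto hlim ?_
    have hmem : Set.Ioc (0 : ℝ) 1 ∈ 𝓝[>] (0 : ℝ) := Ioc_mem_nhdsGT one_pos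
    filter_upwards [hmem] with ε hε
    exact hst ε hε.1 hε.2
  -- conclusion
  set C1 : ℝ := |vn| * (fac * (K * (CL * Cψ n) ^ n)) with hC1
  have hC10 : 0 ≤ C1 := by positivity
  have main2 : ∀ t : ℝ, 1 ≤ t → c0 * t ≤ C1 := by
    intro t ht
    have ht0 : 0 < t := zero_lt_one.trans_le ht
    have h1 := main t ht
    have h2 : t ^ n * t ≤ t ^ (∑ i, w i) := by
      rw [← pow_succ]; exact pow_le_pow_right₀ ht hQ
    have h3 : |vn| * (fac * (K * t ^ n * ((CL * Cψ n) ^ n / t ^ (∑ i, w i)))) =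
        C1 * (t ^ n / t ^ (∑ i, w i)) := by
      rw [hC1]; ring
    rw [h3] at h1
    have h4 : t ^ n / t ^ (∑ i, w i) * t ≤ 1 := by
      rw [div_mul_eq_mul_div, div_le_one (pow_pos ht0 _)]; exact h2
    calc c0 * t ≤ C1 * (t ^ n / t ^ (∑ i, w i)) * t := mul_le_mul_of_nonneg_right h1 ht0.le
      _ = C1 * (t ^ n / t ^ (∑ i, w i) * t) := by ring
      _ ≤ C1 * 1 := mul_le_mul_of_nonneg_left h4 hC10
      _ = C1 := mul_one _
  have h1 := main2 (1 + C1 / c0) (by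
    have : 0 ≤ C1 / c0 := by positivity
    linarith)
  have h2 : c0 * (1 + C1 / c0) = c0 + C1 := by
    field_simp
  rw [h2] at h1
  linarith

end ExpLaw

end Pool.Agent.Lib.P6a08f9
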