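import Pool.Agent.Lib.P6a08f9.VolLe

/-!
Straight simplices in nilpotent groups (barycentres), translations of simplices.
-/

open MeasureTheory Set Filter Topology
open scoped ENNReal

namespace Pool.Agent.Lib.P6a08f9

namespace ExpLaw

variable {V : Type*} [NormedAddCommGroup V] [NormedSpace ℝ V] (G : ExpLaw V) {k : ℕ}

/-- residual of the barycentre equation -/
def res (s : Fin (k + 1) → ℝ) (g : Fin (k + 1) → V) (x : V) : V :=
  ∑ j, s j • G.mul (-x) (g j)

/-- iterative solution of the barycentre equation -/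
def bar (s : Fin (k + 1) → ℝ) (g : Fin (k + 1) → V) : ℕ → V
  | 0 => 0
  | N + 1 => bar s g N + G.res s g (bar s g N)

theorem bar_contDiff (N : ℕ) : ContDiff ℝ ((⊤ : ℕ∞) : WithTop ℕ∞)
    (fun p : (Fin (k + 1) → ℝ) × (Fin (k + 1) → V) => G.bar p.1 p.2 N) := by
  induction N with
  | zero => exact contDiff_const
  | succ N ih =>
    refine ih.add (ContDiff.sum fun j _ => ContDiff.smul ?_ (G.contDiff_mul ih.neg ?_))
    · exact (contDiff_apply ℝ ℝ j).comp contDiff_fst
    · exact (contDiff_apply ℝ V j).comp contDiff_snd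

theorem res_face (i : Fin (k + 2)) (s : Fin (k + 1) → ℝ) (g : Fin (k + 2) → V) (x : V) :
    G.res (i.insertNth 0 s : Fin (k + 2) → ℝ) g x = G.res s (g ∘ i.succAbove) x := by
  rw [res, Fin.sum_univ_succAbove _ i]
  simp [res]

theorem bar_face (i : Fin (k + 2)) (s : Fin (k + 1) → ℝ) (g : Fin (k + 2) → V) (N : ℕ) :
    G.bar (i.insertNth 0 s : Fin (k + 2) → ℝ) g N = G.bar s (g ∘ i.succAbove) N := by
  induction N with
  | zero => rfl
  | succ N ih =>
    rw [bar, bar, ih, res_face]

variable {G}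

section fd

variable [FiniteDimensional ℝ V]

theorem Nilp.res_sub {N : ℕ} (h : G.Nilp N) {s : Fin (k + 1) → ℝ} (hs : ∑ j, s j = 1)
    (g : Fin (k + 1) → V) (x : V) {j : ℕ} {z : V} (hz : z ∈ G.F j) :
    G.res s g (x + z) - G.res s g x + z ∈ G.F (j + 1) := by
  have h1 : G.res s g (x + z) - G.res s g x + z =
      ∑ i, s i • (G.mul (-x + -z) (g i) - G.mul (-x) (g i) - -z) := by
    simp only [smul_sub, Finset.sum_sub_distrib, res, neg_add, ← Finset.sum_smul, hs, one_smul]
    abel
  rw [h1]
  exact Submodule.sum_mem _ fun i _ => Submodule.smul_mem _ _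
    (h.mul_add_right (g i) (-x) (Submodule.neg_mem _ hz))

theorem Nilp.res_bar_mem {N : ℕ} (h : G.Nilp N) {s : Fin (k + 1) → ℝ} (hs : ∑ j, s j = 1)
    (g : Fin (k + 1) → V) (j : ℕ) : G.res s g (G.bar s g j) ∈ G.F j := by
  induction j with
  | zero => exact Submodule.mem_top
  | succ j ih =>
    have h1 := h.res_sub hs g (G.bar s g j) ih
    rw [sub_add_cancel] at h1
    exact h1

theorem Nilp.res_bar {N : ℕ} (h : G.Nilp N) {s : Fin (k + 1) → ℝ} (hs : ∑ j, s j = 1)
    (g : Fin (k + 1) → V) : G.res s g (G.bar s g N) = 0 := by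
  have h1 := h.res_bar_mem hs g N
  rw [h] at h1
  exact (Submodule.mem_bot ℝ).1 h1

theorem Nilp.res_unique {N : ℕ} (h : G.Nilp N) {s : Fin (k + 1) → ℝ} (hs : ∑ j, s j = 1)
    (g : Fin (k + 1) → V) {x y : V} (hx : G.res s g x = 0) (hy : G.res s g y = 0) : x = y := by
  have h1 : ∀ j, y - x ∈ G.F j := by
    intro j
    induction j with
    | zero => exact Submodule.mem_top
    | succ j ih =>
      have h2 := h.res_sub hs g x ih
      rw [add_sub_cancel, hx, hy, sub_zero, zero_add] at h2
      exact h2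
  have h2 := h1 N
  rw [h] at h2
  exact (sub_eq_zero.1 ((Submodule.mem_bot ℝ).1 h2)).symm

omit [FiniteDimensional ℝ V] in
theorem res_translate (h : V) (s : Fin (k + 1) → ℝ) (g : Fin (k + 1) → V) (x : V) :
    G.res s (fun i => G.mul h (g i)) (G.mul h x) = G.res s g x := by
  simp only [res, G.neg_mul_rev, G.assoc, G.neg_mul_cancel]

theorem Nilp.bar_translate {N : ℕ} (hN : G.Nilp N) {s : Fin (k + 1) → ℝ} (hs : ∑ j, s j = 1)
    (h : V) (g : Fin (k + 1) → V) :
    G.bar s (fun i => G.mul h (g i)) N = G.mul h (G.bar s g N) := by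
  refine hN.res_unique hs (fun i => G.mul h (g i)) (hN.res_bar hs _) ?_
  rw [res_translate]
  exact hN.res_bar hs g

end fd

end ExpLaw

variable {n : ℕ}

/-- The straight simplex with given vertices. -/
noncomputable def straight (G : ExpLieGroup n) (N : ℕ) {k : ℕ} (g : Fin (k + 1) → E n) :
    LipSimplex n k :=
  ⟨fun p => G.law.bar p.1 g N, by
    have h1 : ContDiff ℝ 1 (fun s : Fin (k + 1) → ℝ => G.law.bar s g N) :=
      ((G.law.bar_contDiff N).comp (contDiff_id.prodMk contDiff_const)).of_le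
        (by exact_mod_cast le_top)
    obtain ⟨K, hK⟩ := exists_lipschitzOn h1 (isCompact_stdSimplex ℝ (Fin (k + 1)))
      (convex_stdSimplex ℝ (Fin (k + 1)))
    refine ⟨K, LipschitzWith.of_dist_le_mul fun p q => ?_⟩
    exact hK.dist_le_mul p.1 p.2 q.1 q.2⟩

theorem straight_face (G : ExpLieGroup n) (N : ℕ) {k : ℕ} (g : Fin (k + 2) → E n)
    (i : Fin (k + 2)) : (straight G N g).face i = straight G N (g ∘ i.succAbove) := by
  apply Subtype.ext
  funext p
  exact G.law.bar_face i p.1 g N

/-- left translation of simplices -/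
noncomputable def LipSimplex.trans (G : ExpLieGroup n) (h : E n) {k : ℕ} (σ : LipSimplex n k) :
    LipSimplex n k :=
  ⟨fun p => G.mul h (σ.1 p), by
    obtain ⟨K, hK⟩ := σ.2
    have hb : ∃ R : ℝ, ∀ p, ‖σ.1 p‖ ≤ R := by
      obtain ⟨R, hR⟩ := (isCompact_range hK.continuous).isBounded.exists_norm_le
      exact ⟨R, fun p => hR _ ⟨p, rfl⟩⟩
    obtain ⟨R, hR⟩ := hb
    have h1 : ContDiff ℝ 1 (fun x : E n => G.mul h x) :=
      (G.law.contDiff_mul contDiff_const contDiff_id).of_le (by exact_mod_cast le_top)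
    obtain ⟨K', hK'⟩ := exists_lipschitzOn h1 (isCompact_closedBall (0 : E n) R)
      (convex_closedBall (0 : E n) R)
    refine ⟨K' * K, LipschitzWith.of_dist_le_mul fun p q => ?_⟩
    have h2 := hK'.dist_le_mul (σ.1 p) (mem_closedBall_zero_iff.2 (hR p)) (σ.1 q)
      (mem_closedBall_zero_iff.2 (hR q))
    refine h2.trans ?_
    rw [NNReal.coe_mul, mul_assoc]
    exact mul_le_mul_of_nonneg_left (hK.dist_le_mul p q) K'.2⟩

theorem straight_trans (G : ExpLieGroup n) {N : ℕ} (hN : G.law.Nilp N) {k : ℕ} (h : E n)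
    (g : Fin (k + 1) → E n) :
    straight G N (fun i => G.mul h (g i)) = (straight G N g).trans G h := by
  apply Subtype.ext
  funext p
  exact hN.bar_translate p.2.2 h g

theorem trans_face (G : ExpLieGroup n) {k : ℕ} (h : E n) (σ : LipSimplex n (k + 1))
    (i : Fin (k + 2)) : (σ.trans G h).face i = (σ.face i).trans G h := rfl

theorem fderiv_mul_left (G : ExpLieGroup n) (h : E n) {k : ℕ} (f : (Fin k → ℝ) → E n)
    (s : Fin k → ℝ) :
    fderiv ℝ (fun s => G.mul h (f s)) s = (G.law.dL h (f s)).comp (fderiv ℝ f s) := by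
  by_cases hd : DifferentiableAt ℝ f s
  · exact ((G.law.hasFDerivAt_left h (f s)).comp s hd.hasFDerivAt).fderiv
  · have hnd : ¬ DifferentiableAt ℝ (fun s => G.mul h (f s)) s := by
      intro hd'
      apply hd
      have h1 := (G.law.hasFDerivAt_left (-h) (G.mul h (f s))).comp s hd'.hasFDerivAt
      have h2 : (fun z => G.law.mul (-h) z) ∘ (fun s => G.mul h (f s)) = f := by
        funext s
        exact G.law.neg_mul_cancel h (f s)
      rw [h2] at h1
      exact h1.differentiableAt
    rw [fderiv_zero_of_not_differentiableAt hd, fderiv_zero_of_not_differentiableAt hnd]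
    simp

theorem gram_trans (G : ExpLieGroup n) {k : ℕ} (h : E n) (σ : LipSimplex n k)
    {y : Fin k → ℝ} (hy : y ∈ ordInterior k) : gram G (σ.trans G h) y = gram G σ y := by
  have h1 : ∀ y ∈ ordInterior k, (σ.trans G h).coord y = G.mul h (σ.coord y) := by
    intro y hy
    rw [coord_of_mem _ (ordParam_mem hy), coord_of_mem _ (ordParam_mem hy)]; rfl
  have h2 : fderiv ℝ (σ.trans G h).coord y =
      (G.law.dL h (σ.coord y)).comp (fderiv ℝ σ.coord y) := by
    rw [← fderiv_mul_left]
    refine Filter.EventuallyEq.fderiv_eq ?_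
    filter_upwards [isOpen_ordInterior.mem_nhds hy] with y' hy'
    exact h1 y' hy'
  ext i j
  simp only [gram, Matrix.of_apply, h2, h1 y hy, triv_eq, ContinuousLinearMap.comp_apply]
  have h3 : ∀ v, G.law.Λ (G.mul h (σ.coord y)) (G.law.dL h (σ.coord y) v) =
      G.law.Λ (σ.coord y) v := fun v => DFunLike.congr_fun (G.law.Λ_comp_dL h (σ.coord y)) v
  rw [h3, h3]

theorem simplexVol_trans (G : ExpLieGroup n) {k : ℕ} (h : E n) (σ : LipSimplex n k) :
    simplexVol G (σ.trans G h) = simplexVol G σ := by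
  rw [simplexVol, simplexVol]
  refine setLIntegral_congr_fun isOpen_ordInterior.measurableSet fun y hy => ?_
  rw [gram_trans G h σ hy]

theorem volI_trans {m : ℕ} (G : ExpLieGroup (m + 1))
    (hdet : ∀ a x, LinearMap.det (G.law.dL a x : E (m + 1) →ₗ[ℝ] E (m + 1)) = 1) (h : E (m + 1))
    (σ : LipSimplex (m + 1) (m + 1)) : volI (σ.trans G h) = volI σ := by
  rw [volI, volI]
  refine setIntegral_congr_fun measurableSet_Icc fun s _ => ?_
  have h1 : sq (σ.trans G h) = fun s => G.mul h (sq σ s) := rfl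
  simp only [h1, fderiv_mul_left, ContinuousLinearMap.comp_apply]
  rw [detE_comp, hdet, one_mul]

/-! ### Translation of chains -/

/-- translation of chains -/
noncomputable def ctrans (G : ExpLieGroup n) (h : E n) (k : ℕ) : LipChain n k →+ LipChain n k :=
  Finsupp.liftAddHom fun σ => Finsupp.singleAddHom (σ.trans G h)

theorem ctrans_single (G : ExpLieGroup n) (h : E n) {k : ℕ} (σ : LipSimplex n k) (m : ℤ) :
    ctrans G h k (Finsupp.single σ m) = Finsupp.single (σ.trans G h) m := by
  simp [ctrans]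

theorem boundary_ctrans (G : ExpLieGroup n) (h : E n) {k : ℕ} (a : LipChain n (k + 1)) :
    boundary k (ctrans G h (k + 1) a) = ctrans G h k (boundary k a) := by
  induction a using Finsupp.induction_linear with
  | zero => simp
  | add f g hf hg => rw [map_add, map_add, map_add, map_add, hf, hg]
  | single σ m =>
    rw [ctrans_single, boundary_single, boundary_single, map_sum]
    simp only [map_zsmul, ctrans_single, trans_face]

theorem mass_ctrans_le (G : ExpLieGroup n) (h : E n) {k : ℕ} (a : LipChain n k) :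
    mass G (ctrans G h k a) ≤ mass G a := by
  have h1 : ctrans G h k a = ∑ σ ∈ a.support, Finsupp.single (σ.trans G h) (a σ) := by
    rw [ctrans, Finsupp.liftAddHom_apply, Finsupp.sum]
    rfl
  rw [h1]
  refine (mass_sum_le G _ _).trans ?_
  rw [mass, Finsupp.sum]
  refine Finset.sum_le_sum fun σ _ => ?_
  rw [mass_single, simplexVol_trans]

end Pool.Agent.Lib.P6a08f9
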