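import Pool.Agent.Lib.P6a08f9.SmearD
import Pool.Agent.Lib.P6a08f9.Fill
import Pool.Agent.Lib.P6a08f9.Asym

/-!
Transport of the group law to adapted coordinates.
-/

open Set Filter Topology

namespace Pool.Agent.Lib.P6a08f9

namespace ExpLaw

variable {V W : Type*} [NormedAddCommGroup V] [NormedSpace ℝ V] [NormedAddCommGroup W]
  [NormedSpace ℝ W]

/-- the transported law -/
def transport (G : ExpLaw V) (e : V ≃L[ℝ] W) : ExpLaw W where
  mul x y := e (G.mul (e.symm x) (e.symm y))
  smooth := e.contDiff.comp (G.contDiff_mul (e.symm.contDiff.comp contDiff_fst)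
    (e.symm.contDiff.comp contDiff_snd))
  assoc x y z := by simp [G.assoc]
  line s t v := by rw [map_smul, map_smul, G.line, map_smul]; simp

variable (G : ExpLaw V) (e : V ≃L[ℝ] W)

theorem transport_mul (x y : W) :
    (G.transport e).mul x y = e (G.mul (e.symm x) (e.symm y)) := rfl

theorem transport_Ad (x y : W) :
    (G.transport e).Ad x y = e (G.Ad (e.symm x) (e.symm y)) := by
  rw [Ad_apply, Ad_apply, conj, conj]
  simp [transport_mul]

theorem transport_ad (x y : W) :
    (G.transport e).ad x y = e (G.ad (e.symm x) (e.symm y)) := by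
  have h1 := (G.transport e).Ad_apply_hasDerivAt x y 0
  rw [zero_smul, Ad_zero] at h1
  have h2 := G.Ad_apply_hasDerivAt (e.symm x) (e.symm y) 0
  rw [zero_smul, Ad_zero] at h2
  have h3 := (e : V →L[ℝ] W).hasFDerivAt.comp_hasDerivAt (0 : ℝ) h2
  have h4 : ((e : V →L[ℝ] W) ∘ fun s : ℝ => G.Ad (s • e.symm x) (e.symm y)) =
      fun s : ℝ => (G.transport e).Ad (s • x) y := by
    funext s
    rw [transport_Ad, map_smul]
    rfl
  rw [h4] at h3
  exact h1.unique h3

theorem transport_F (j : ℕ) : (G.transport e).F j = (G.F j).comap (e.symm : W →ₗ[ℝ] V) := by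
  match j with
  | 0 => rfl
  | 1 => rfl
  | (j + 2) =>
    have ih := transport_F (j + 1)
    apply le_antisymm
    · change Submodule.span ℝ {z | ∃ x : W, ∃ y ∈ (G.transport e).F (j + 1),
        (G.transport e).ad x y = z} ≤ _
      rw [Submodule.span_le]
      rintro z ⟨x, y, hy, rfl⟩
      rw [ih] at hy
      change e.symm ((G.transport e).ad x y) ∈ G.F (j + 2)
      rw [transport_ad, e.symm_apply_apply]
      exact G.ad_mem_F _ hy
    · intro z hz
      change e.symm z ∈ Submodule.span ℝ {z | ∃ x : V, ∃ y ∈ G.F (j + 1), G.ad x y = z} at hz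
      have key : ∀ v ∈ Submodule.span ℝ {z | ∃ x : V, ∃ y ∈ G.F (j + 1), G.ad x y = z},
          e v ∈ (G.transport e).F (j + 2) := by
        intro v hv
        induction hv using Submodule.span_induction with
        | mem u hu =>
          obtain ⟨x, y, hy, rfl⟩ := hu
          have h1 : e (G.ad x y) = (G.transport e).ad (e x) (e y) := by
            rw [transport_ad]; simp
          rw [h1]
          refine (G.transport e).ad_mem_F _ ?_
          rw [ih]
          change e.symm (e y) ∈ G.F (j + 1)
          rwa [e.symm_apply_apply]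
        | zero => rw [map_zero]; exact Submodule.zero_mem _
        | add a b _ _ ha hb => rw [map_add]; exact Submodule.add_mem _ ha hb
        | smul c a _ ha => rw [map_smul]; exact Submodule.smul_mem _ _ ha
      have := key _ hz
      rwa [e.apply_symm_apply] at this

theorem transport_nilp {N : ℕ} (h : G.Nilp N) : (G.transport e).Nilp N := by
  rw [Nilp, transport_F, h]
  rw [eq_bot_iff]
  intro z hz
  have h1 : e.symm z = 0 := hz
  rw [Submodule.mem_bot]
  simpa using h1

theorem transport_adapted {n : ℕ} {b : Module.Basis (Fin n) ℝ V} {w : Fin n → ℕ}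
    (h : G.Adapted b w) (e : V ≃L[ℝ] (Fin n → ℝ)) (he : ∀ x i, e x i = b.repr x i) :
    (G.transport e).Adapted (Pi.basisFun ℝ (Fin n)) w where
  one_le := h.one_le
  mem_iff j x := by
    rw [transport_F]
    change e.symm x ∈ G.F j ↔ _
    rw [h.mem_iff]
    simp [← he]

end ExpLaw

end Pool.Agent.Lib.P6a08f9
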