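import Pool.Agent.Lib.P6a08f9.Duffy

/-!
The signed volume of Lipschitz simplices of top dimension, and Stokes' theorem for it.
-/

open MeasureTheory Set Filter Topology

namespace Pool.Agent.Lib.P6a08f9

/-- the determinant on `ℝⁿ`, as a continuous alternating map -/
noncomputable def detE (n : ℕ) : E n [⋀^Fin n]→L[ℝ] ℝ :=
  { toMultilinearMap := (EuclideanSpace.basisFun (Fin n) ℝ).toBasis.det.toMultilinearMap
    cont := by
      have h : (fun v : Fin n → E n => (EuclideanSpace.basisFun (Fin n) ℝ).toBasis.det v) =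
          fun v => Matrix.det (Matrix.of fun i j => v j i) := by
        funext v
        rw [Module.Basis.det_apply]
        congr 1
      change Continuous (fun v : Fin n → E n => (EuclideanSpace.basisFun (Fin n) ℝ).toBasis.det v)
      rw [h]
      refine Continuous.matrix_det ?_
      refine continuous_matrix fun i j => ?_
      simp only [Matrix.of_apply]
      fun_prop
    map_eq_zero_of_eq' := (EuclideanSpace.basisFun (Fin n) ℝ).toBasis.det.map_eq_zero_of_eq' }

theorem detE_eq {n : ℕ} (v : Fin n → E n) :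
    detE n v = (EuclideanSpace.basisFun (Fin n) ℝ).toBasis.det v := rfl

theorem detE_apply {n : ℕ} (v : Fin n → E n) :
    detE n v = Matrix.det (Matrix.of fun j i => v j i) := by
  rw [detE_eq, Module.Basis.det_apply, ← Matrix.det_transpose]
  congr 1

theorem detE_comp {n : ℕ} (L : E n →L[ℝ] E n) (v : Fin n → E n) :
    detE n (fun j => L (v j)) = LinearMap.det (L : E n →ₗ[ℝ] E n) * detE n v := by
  rw [detE_eq, detE_eq]
  exact (EuclideanSpace.basisFun (Fin n) ℝ).toBasis.det_comp (L : E n →ₗ[ℝ] E n) v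

theorem detE_comp_right {n : ℕ} (D : (Fin n → ℝ) →L[ℝ] E n) (L : (Fin n → ℝ) →L[ℝ] (Fin n → ℝ)) :
    detE n (fun j => D (L (stdE n j))) =
      LinearMap.det (L : (Fin n → ℝ) →ₗ[ℝ] (Fin n → ℝ)) * detE n (fun j => D (stdE n j)) := by
  set e := Pi.basisFun ℝ (Fin n) with he
  have he' : (e : Fin n → Fin n → ℝ) = stdE n := by
    funext j; rw [he, Pi.basisFun_apply]; rfl
  set A := (detE n).compContinuousLinearMap D with hA
  have h2 := A.toAlternatingMap.eq_smul_basis_det e
  have h3 : ∀ v, A v = (A (stdE n)) * e.det v := by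
    intro v
    have h4 := DFunLike.congr_fun h2 v
    rw [he'] at h4
    exact h4
  have h4 : detE n (fun j => D (L (stdE n j))) = A (fun j => L (stdE n j)) := rfl
  have h5 : detE n (fun j => D (stdE n j)) = A (stdE n) := rfl
  rw [h4, h5, h3]
  have h6 : (fun j => L (stdE n j)) = (L : (Fin n → ℝ) →ₗ[ℝ] (Fin n → ℝ)) ∘ e := by
    funext j; rw [he']; rfl
  rw [h6, e.det_comp, e.det_self, mul_one, mul_comm]

variable {m : ℕ}

/-- signed volume of a simplex of top dimension -/
noncomputable def volI (σ : LipSimplex (m + 1) (m + 1)) : ℝ :=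
  ∫ s in Icc (fun _ => (-1 : ℝ)) (fun _ => (2 : ℝ)),
    detE (m + 1) (fun j => fderiv ℝ (sq σ) s (stdE (m + 1) j))

/-- the primitive of `volI` -/
noncomputable def volJ (τ : LipSimplex (m + 1) m) : ℝ :=
  ∫ z in Icc (fun _ => (-1 : ℝ)) (fun _ => (2 : ℝ)), pb (detE (m + 1)) (sq τ) z (stdE m)

theorem fderiv_eq_zero_of_indep {k : ℕ} {W : Type*} [NormedAddCommGroup W] [NormedSpace ℝ W]
    (f : (Fin k → ℝ) → W) (v z : Fin k → ℝ) (hf : ∀ᶠ s : ℝ in 𝓝 0, f (z + s • v) = f z) :
    fderiv ℝ f z v = 0 := by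
  by_cases hd : DifferentiableAt ℝ f z
  · have h1 : HasDerivAt (fun s : ℝ => z + s • v) ((1 : ℝ) • v) 0 :=
      ((hasDerivAt_id (0 : ℝ)).smul_const v).const_add z
    rw [one_smul] at h1
    have h2 : HasFDerivAt f (fderiv ℝ f z) (z + (0 : ℝ) • v) := by
      rw [zero_smul, add_zero]; exact hd.hasFDerivAt
    have h3 := h2.comp_hasDerivAt (0 : ℝ) h1
    have h4 : HasDerivAt (f ∘ fun s : ℝ => z + s • v) 0 0 := by
      refine (hasDerivAt_const (0 : ℝ) (f z)).congr_of_eventuallyEq ?_
      filter_upwards [hf] with s hs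
      exact hs
    exact h3.unique h4
  · rw [fderiv_zero_of_not_differentiableAt hd]; rfl

theorem pb_slice_succ (σ : LipSimplex (m + 1) (m + 1)) (i : Fin m) (z : Fin m → ℝ) :
    pb (detE (m + 1)) (slice (sq σ) i.succ 0) z (stdE m) = 0 := by
  have hm : 0 < m := i.pos
  obtain ⟨k, rfl⟩ : ∃ k, m = k + 1 := ⟨m - 1, by omega⟩
  rw [pb_apply]
  refine (detE (k + 1 + 1)).toMultilinearMap.map_coord_zero (1 : Fin (k + 1 + 1)) ?_
  have h1 : (1 : Fin (k + 1 + 1)) = Fin.succ 0 := rfl
  rw [h1, Fin.cons_succ]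
  refine fderiv_eq_zero_of_indep _ _ _ (Filter.Eventually.of_forall fun s => ?_)
  refine slice_succ_indep σ i _ _ fun j => ?_
  simp [stdE]

theorem volI_boundary (σ : LipSimplex (m + 1) (m + 1)) :
    ((m : ℝ) + 1) * volI σ = -∑ i : Fin (m + 2), (-1 : ℝ) ^ (i : ℕ) * volJ (σ.face i) := by
  obtain ⟨K, hK⟩ := sq_lipschitz σ
  rw [volI, stokes_lipschitz (detE (m + 1)) (sq σ) hK (sq_clamp σ)]
  have h1 : ∀ i : Fin (m + 1), (∫ z in Icc (fun _ => (-1 : ℝ)) (fun _ => (2 : ℝ)),
      pb (detE (m + 1)) (slice (sq σ) i 1) z (stdE m)) = volJ (σ.face i.succ) := by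
    intro i
    rw [slice_one]; rfl
  have h2 : (∫ z in Icc (fun _ => (-1 : ℝ)) (fun _ => (2 : ℝ)),
      pb (detE (m + 1)) (slice (sq σ) 0 0) z (stdE m)) = volJ (σ.face 0) := by
    rw [slice_zero]; rfl
  have h3 : ∀ i : Fin m, (∫ z in Icc (fun _ => (-1 : ℝ)) (fun _ => (2 : ℝ)),
      pb (detE (m + 1)) (slice (sq σ) i.succ 0) z (stdE m)) = 0 := by
    intro i
    simp only [pb_slice_succ]
    simp
  simp only [h1, mul_sub, Finset.sum_sub_distrib]
  have h4 : ∑ i : Fin (m + 1), (-1 : ℝ) ^ (i : ℕ) *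
      (∫ z in Icc (fun _ => (-1 : ℝ)) (fun _ => (2 : ℝ)),
        pb (detE (m + 1)) (slice (sq σ) i 0) z (stdE m)) = volJ (σ.face 0) := by
    rw [Fin.sum_univ_succ, h2]
    simp only [h3, mul_zero, Finset.sum_const_zero, add_zero, Fin.val_zero, pow_zero, one_mul]
  rw [h4, Fin.sum_univ_succ (f := fun i : Fin (m + 2) => (-1 : ℝ) ^ (i : ℕ) * volJ (σ.face i))]
  simp only [Fin.val_zero, pow_zero, one_mul, Fin.val_succ, pow_succ]
  rw [neg_add, ← Finset.sum_neg_distrib, sub_eq_neg_add]
  congr 1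
  refine Finset.sum_congr rfl fun i _ => ?_
  ring

/-- signed volume of chains -/
noncomputable def volIc : LipChain (m + 1) (m + 1) →+ ℝ :=
  Finsupp.liftAddHom fun σ => (AddMonoidHom.mulRight (volI σ)).comp (Int.castAddHom ℝ)

/-- primitive, on chains -/
noncomputable def volJc : LipChain (m + 1) m →+ ℝ :=
  Finsupp.liftAddHom fun σ => (AddMonoidHom.mulRight (volJ σ)).comp (Int.castAddHom ℝ)

theorem volIc_single (σ : LipSimplex (m + 1) (m + 1)) (k : ℤ) :
    volIc (Finsupp.single σ k) = (k : ℝ) * volI σ := by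
  simp [volIc]

theorem volJc_single (σ : LipSimplex (m + 1) m) (k : ℤ) :
    volJc (Finsupp.single σ k) = (k : ℝ) * volJ σ := by
  simp [volJc]

theorem volIc_boundary (a : LipChain (m + 1) (m + 1)) :
    ((m : ℝ) + 1) * volIc a = - volJc (boundary m a) := by
  induction a using Finsupp.induction_linear with
  | zero => simp
  | add f g hf hg => rw [map_add, map_add, map_add, mul_add, hf, hg]; ring
  | single σ k =>
    rw [volIc_single, boundary_single, map_sum]
    simp only [map_zsmul, volJc_single]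
    rw [mul_left_comm, volI_boundary, mul_neg, neg_inj, Finset.mul_sum]
    refine Finset.sum_congr rfl fun i _ => ?_
    rw [zsmul_eq_mul]
    push_cast
    ring

theorem volIc_cycle (a : LipChain (m + 1) (m + 1)) (ha : boundary m a = 0) : volIc a = 0 := by
  have h := volIc_boundary a
  rw [ha, map_zero, neg_zero] at h
  have : ((m : ℝ) + 1) ≠ 0 := by positivity
  exact (mul_eq_zero.1 h).resolve_left this

end Pool.Agent.Lib.P6a08f9
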