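import Pool.Agent.Lib.P6a08f9.VolI
import Pool.Agent.Lib.P6a08f9.NilGroup
import Pool.Agent.Lib.P6a08f9.Adapted

/-!
The signed volume is bounded by the Riemannian volume.
-/

open MeasureTheory Set Filter Topology
open scoped ENNReal

namespace Pool.Agent.Lib.P6a08f9

section coordinates

variable {k : ℕ}

theorem contDiff_snoc (j : Fin (k + 1)) :
    ContDiff ℝ ((⊤ : ℕ∞) : WithTop ℕ∞) (fun y : Fin k → ℝ => (Fin.snoc y 1 : Fin (k + 1) → ℝ) j) := by
  refine Fin.lastCases ?_ (fun j => ?_) j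
  · simp only [Fin.snoc_last]; exact contDiff_const
  · simp only [Fin.snoc_castSucc]; exact contDiff_apply ℝ ℝ j

theorem contDiff_cons (j : Fin (k + 1)) :
    ContDiff ℝ ((⊤ : ℕ∞) : WithTop ℕ∞) (fun y : Fin k → ℝ => (Fin.cons 0 y : Fin (k + 1) → ℝ) j) := by
  refine Fin.cases ?_ (fun j => ?_) j
  · simp only [Fin.cons_zero]; exact contDiff_const
  · simp only [Fin.cons_succ]; exact contDiff_apply ℝ ℝ j

theorem contDiff_ordParam :
    ContDiff ℝ ((⊤ : ℕ∞) : WithTop ℕ∞) (fun y : Fin k → ℝ => ordParam y) :=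
  contDiff_pi.2 fun j => (contDiff_snoc j).sub (contDiff_cons j)

theorem isOpen_ordInterior : IsOpen (ordInterior k) := by
  have : ordInterior k = ⋂ j, {y : Fin k → ℝ | 0 < ordParam y j} := by
    ext y; simp [ordInterior]
  rw [this]
  refine isOpen_iInter_of_finite fun j => ?_
  exact isOpen_lt continuous_const ((continuous_apply j).comp contDiff_ordParam.continuous)

/-- the open unit cube -/
def cubeU (k : ℕ) : Set (Fin k → ℝ) := Set.pi Set.univ (fun _ => Ioo (0 : ℝ) 1)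

theorem mem_cubeU {s : Fin k → ℝ} : s ∈ cubeU k ↔ ∀ i, 0 < s i ∧ s i < 1 := by
  simp [cubeU, Set.mem_pi, Set.mem_Ioo]

theorem isOpen_cubeU : IsOpen (cubeU k) := isOpen_set_pi Set.finite_univ fun _ _ => isOpen_Ioo

/-- the inverse of `Yc` -/
noncomputable def Yinv (y : Fin k → ℝ) : Fin k → ℝ :=
  fun i => y i / (Fin.snoc y 1 : Fin (k + 1) → ℝ) i.succ

theorem Yinv_Yc {s : Fin k → ℝ} (hs : ∀ i, 0 < s i) : Yinv (Yc s) = s := by
  funext i
  rw [Yinv, snoc_Yc]
  change Yp s i.castSucc / _ = _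
  rw [Yp_step, mul_div_cancel_right₀ _ (Yp_pos hs _).ne']

theorem snoc_pos {y : Fin k → ℝ} (hy : y ∈ ordInterior k) (j : Fin (k + 1)) :
    0 < (Fin.snoc y 1 : Fin (k + 1) → ℝ) j := by
  refine Fin.induction ?_ (fun i ih => ?_) j
  · have := hy 0
    simpa [ordParam] using this
  · have := hy i.succ
    simp only [ordParam, Fin.cons_succ] at this
    rw [Fin.snoc_castSucc] at ih
    linarith

theorem Yinv_mem {y : Fin k → ℝ} (hy : y ∈ ordInterior k) : Yinv y ∈ cubeU k := by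
  rw [mem_cubeU]
  intro i
  have h1 := snoc_pos hy i.castSucc
  have h2 := snoc_pos hy i.succ
  have h3 := hy i.succ
  rw [Fin.snoc_castSucc] at h1
  simp only [ordParam, Fin.cons_succ] at h3
  refine ⟨div_pos h1 h2, ?_⟩
  rw [Yinv, div_lt_one h2]
  linarith

theorem Yp_Yinv {y : Fin k → ℝ} (hy : y ∈ ordInterior k) (j : Fin (k + 1)) :
    Yp (Yinv y) j = (Fin.snoc y 1 : Fin (k + 1) → ℝ) j := by
  refine Fin.reverseInduction ?_ (fun i ih => ?_) j
  · rw [Yp_last, Fin.snoc_last]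
  · rw [Yp_step, ih, Yinv, div_mul_cancel₀ _ (snoc_pos hy _).ne', Fin.snoc_castSucc]

theorem Yc_Yinv {y : Fin k → ℝ} (hy : y ∈ ordInterior k) : Yc (Yinv y) = y := by
  funext i
  rw [Yc, Yp_Yinv hy, Fin.snoc_castSucc]

theorem Yc_mem {s : Fin k → ℝ} (hs : s ∈ cubeU k) : Yc s ∈ ordInterior k := by
  rw [mem_cubeU] at hs
  intro j
  exact duffy_pos (fun i => (hs i).1) (fun i => (hs i).2) j

theorem Yc_contDiff : ContDiff ℝ ((⊤ : ℕ∞) : WithTop ℕ∞) (fun s : Fin k → ℝ => Yc s) :=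
  contDiff_pi.2 fun i => Yp_contDiff i.castSucc

theorem Yinv_differentiableAt {y : Fin k → ℝ} (hy : y ∈ ordInterior k) :
    DifferentiableAt ℝ Yinv y := by
  refine differentiableAt_pi.2 fun i => ?_
  have h1 : DifferentiableAt ℝ (fun y : Fin k → ℝ => y i) y :=
    (contDiff_apply ℝ ℝ i (n := 1)).differentiable one_ne_zero y
  obtain ⟨f2, hf2⟩ : ∃ f2 : (Fin k → ℝ) → ℝ,
      f2 = fun y : Fin k → ℝ => (Fin.snoc y 1 : Fin (k + 1) → ℝ) i.succ := ⟨_, rfl⟩
  have h2 : DifferentiableAt ℝ f2 y := by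
    rw [hf2]; exact (contDiff_snoc i.succ).differentiable (by simp) y
  have h4 : f2 y ≠ 0 := by rw [hf2]; exact (snoc_pos hy _).ne'
  have h3 : DifferentiableAt ℝ (fun y : Fin k → ℝ => y i / f2 y) y := by
    simp only [div_eq_mul_inv]
    exact h1.fun_mul (h2.fun_inv h4)
  rw [hf2] at h3
  exact h3

theorem Yc_image : Yc '' cubeU k = ordInterior k := by
  ext y
  constructor
  · rintro ⟨s, hs, rfl⟩; exact Yc_mem hs
  · intro hy; exact ⟨Yinv y, Yinv_mem hy, Yc_Yinv hy⟩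

theorem Yc_injOn : InjOn Yc (cubeU k) := by
  intro s hs s' hs' h
  rw [← Yinv_Yc (fun i => (mem_cubeU.1 hs i).1), h, Yinv_Yc (fun i => (mem_cubeU.1 hs' i).1)]

end coordinates

variable {n : ℕ}

theorem coord_of_mem {k : ℕ} (σ : LipSimplex n k) {y : Fin k → ℝ}
    (h : ordParam y ∈ stdSimplex ℝ (Fin (k + 1))) : σ.coord y = σ.1 ⟨ordParam y, h⟩ := by
  rw [LipSimplex.coord, dif_pos h]

theorem ordParam_mem {k : ℕ} {y : Fin k → ℝ} (hy : y ∈ ordInterior k) :
    ordParam y ∈ stdSimplex ℝ (Fin (k + 1)) :=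
  ⟨fun j => (hy j).le, sum_ordParam y⟩

theorem sq_eq_coord {k : ℕ} (σ : LipSimplex n k) {s : Fin k → ℝ} (hs : s ∈ cubeU k) :
    sq σ s = σ.coord (Yc s) := by
  rw [coord_of_mem σ (ordParam_mem (Yc_mem hs))]
  have h1 : clampV s = s := by
    funext i
    exact cl_of_mem (mem_cubeU.1 hs i).1.le (mem_cubeU.1 hs i).2.le
  refine congrArg σ.1 (Subtype.ext ?_)
  change duffy (clampV s) = ordParam (Yc s)
  rw [h1]; rfl

theorem fderiv_sq {k : ℕ} (σ : LipSimplex n k) {s : Fin k → ℝ} (hs : s ∈ cubeU k) :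
    fderiv ℝ (sq σ) s = (fderiv ℝ σ.coord (Yc s)).comp (fderiv ℝ Yc s) := by
  have hY : HasFDerivAt Yc (fderiv ℝ Yc s) s :=
    (Yc_contDiff.differentiable (by simp) s).hasFDerivAt
  by_cases hd : DifferentiableAt ℝ σ.coord (Yc s)
  · have h1 := hd.hasFDerivAt.comp s hY
    have h2 : sq σ =ᶠ[𝓝 s] σ.coord ∘ Yc := by
      filter_upwards [isOpen_cubeU.mem_nhds hs] with s' hs'
      exact sq_eq_coord σ hs'
    exact (h1.congr_of_eventuallyEq h2).fderiv
  · have hnd : ¬ DifferentiableAt ℝ (sq σ) s := by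
      intro hd'
      apply hd
      have hy := Yc_mem hs
      have h3 : Yinv (Yc s) = s := Yinv_Yc (fun i => (mem_cubeU.1 hs i).1)
      have h1 : DifferentiableAt ℝ (sq σ) (Yinv (Yc s)) := by rw [h3]; exact hd'
      have h2 := h1.comp (Yc s) (Yinv_differentiableAt hy)
      refine h2.congr_of_eventuallyEq ?_
      filter_upwards [isOpen_ordInterior.mem_nhds hy] with y hy'
      rw [Function.comp_apply, sq_eq_coord σ (Yinv_mem hy'), Yc_Yinv hy']
    rw [fderiv_zero_of_not_differentiableAt hd, fderiv_zero_of_not_differentiableAt hnd]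
    simp

theorem fderiv_sq_outside {k : ℕ} (σ : LipSimplex n k) {s : Fin k → ℝ} {i : Fin k}
    (hs : s i < 0 ∨ 1 < s i) : fderiv ℝ (sq σ) s (stdE k i) = 0 := by
  refine fderiv_eq_zero_of_indep _ _ _ ?_
  have h1 : ∀ᶠ τ : ℝ in 𝓝 0, cl (s i + τ) = cl (s i) := by
    rcases hs with hs | hs
    · have : ∀ᶠ τ : ℝ in 𝓝 0, s i + τ < 0 := by
        have hc : Continuous (fun τ : ℝ => s i + τ) := by fun_prop
        refine hc.continuousAt.eventually_lt_const ?_
        simpa using hs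
      filter_upwards [this] with τ hτ
      rw [cl_of_nonpos hτ.le, cl_of_nonpos hs.le]
    · have : ∀ᶠ τ : ℝ in 𝓝 0, 1 < s i + τ := by
        have hc : Continuous (fun τ : ℝ => s i + τ) := by fun_prop
        refine hc.continuousAt.eventually_const_lt ?_
        simpa using hs
      filter_upwards [this] with τ hτ
      rw [cl_of_one_le hτ.le, cl_of_one_le hs.le]
  filter_upwards [h1] with τ hτ
  rw [sq_clamp σ (s + τ • stdE k i), sq_clamp σ s]
  congr 1
  funext j
  simp only [clampV, Pi.add_apply, Pi.smul_apply, smul_eq_mul, stdE]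
  by_cases hj : j = i
  · subst hj; simpa using hτ
  · simp [Pi.single_eq_of_ne hj]

/-- The integral of the absolute value of the determinant over the simplex. -/
noncomputable def absI {m : ℕ} (σ : LipSimplex (m + 1) (m + 1)) : ℝ≥0∞ :=
  ∫⁻ y in ordInterior (m + 1), ENNReal.ofReal
    |detE (m + 1) (fun j => fderiv ℝ σ.coord y (stdE (m + 1) j))|

theorem absI_eq {m : ℕ} (σ : LipSimplex (m + 1) (m + 1)) :
    absI σ = ∫⁻ s in cubeU (m + 1), ENNReal.ofReal
      |detE (m + 1) (fun j => fderiv ℝ (sq σ) s (stdE (m + 1) j))| := by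
  rw [absI, ← Yc_image,
    lintegral_image_eq_lintegral_abs_det_fderiv_mul volume isOpen_cubeU.measurableSet
    (fun s _ => (Yc_contDiff.differentiable (by simp) s).hasFDerivAt.hasFDerivWithinAt) Yc_injOn]
  refine setLIntegral_congr_fun isOpen_cubeU.measurableSet fun s hs => ?_
  rw [fderiv_sq σ hs]
  simp only [ContinuousLinearMap.comp_apply]
  rw [detE_comp_right, abs_mul, ENNReal.ofReal_mul (abs_nonneg _)]

theorem volI_le_absI {m : ℕ} (σ : LipSimplex (m + 1) (m + 1)) :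
    ENNReal.ofReal |volI σ| ≤ absI σ := by
  rw [absI_eq]
  set f : (Fin (m + 1) → ℝ) → ℝ := fun s =>
    detE (m + 1) (fun j => fderiv ℝ (sq σ) s (stdE (m + 1) j)) with hf
  set B : Set (Fin (m + 1) → ℝ) := Icc (fun _ => (-1 : ℝ)) (fun _ => (2 : ℝ)) with hB
  have h1 : ENNReal.ofReal |volI σ| ≤ ∫⁻ s in B, ENNReal.ofReal |f s| := by
    have h2 := enorm_integral_le_lintegral_enorm (μ := volume.restrict B) f
    have h3 : ∀ x : ℝ, ENNReal.ofReal |x| = ‖x‖ₑ := fun x => by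
      rw [← Real.norm_eq_abs, ofReal_norm]
    simp only [h3]
    exact h2
  refine h1.trans ?_
  set U := cubeU (m + 1) with hU
  have h4 : ∫⁻ s in B, ENNReal.ofReal |f s| ≤
      (∫⁻ s in U, ENNReal.ofReal |f s|) + ∫⁻ s in B \ U, ENNReal.ofReal |f s| := by
    refine (lintegral_mono_set (t := U ∪ (B \ U)) ?_).trans (lintegral_union_le _ _ _)
    intro s hs
    by_cases h : s ∈ U
    · exact Or.inl h
    · exact Or.inr ⟨hs, h⟩
  have h5 : ∫⁻ s in B \ U, ENNReal.ofReal |f s| = 0 := by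
    have hnull : volume (⋃ i : Fin (m + 1), ({s : Fin (m + 1) → ℝ | s i = 0} ∪
        {s : Fin (m + 1) → ℝ | s i = 1})) = 0 := by
      refine measure_iUnion_null fun i => measure_union_null ?_ ?_
      · exact Measure.pi_hyperplane (fun _ => (volume : Measure ℝ)) i 0
      · exact Measure.pi_hyperplane (fun _ => (volume : Measure ℝ)) i 1
    have hm : MeasurableSet (B \ U) := measurableSet_Icc.diff isOpen_cubeU.measurableSet
    rw [setLIntegral_congr_fun_ae hm (g := fun _ => 0) ?_, lintegral_zero]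
    have hae : ∀ᵐ s : Fin (m + 1) → ℝ, s ∉ (⋃ i : Fin (m + 1),
        ({s : Fin (m + 1) → ℝ | s i = 0} ∪ {s : Fin (m + 1) → ℝ | s i = 1})) :=
      measure_eq_zero_iff_ae_notMem.1 hnull
    filter_upwards [hae] with s hs hsB
    have hex : ∃ i, s i < 0 ∨ 1 < s i := by
      by_contra hcon
      push Not at hcon
      refine hsB.2 (mem_cubeU.2 fun i => ?_)
      simp only [Set.mem_iUnion, not_exists, Set.mem_union, Set.mem_ofPred_eq, not_or] at hs
      exact ⟨lt_of_le_of_ne (hcon i).1 (Ne.symm (hs i).1), lt_of_le_of_ne (hcon i).2 (hs i).2⟩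
    obtain ⟨i, hi⟩ := hex
    have : f s = 0 := by
      refine (detE (m + 1)).toMultilinearMap.map_coord_zero i ?_
      exact fderiv_sq_outside σ hi
    rw [this]; simp
  rw [h5, add_zero] at h4
  exact h4

theorem triv_eq (G : ExpLieGroup n) (x v : E n) : G.triv x v = G.law.Λ x v := rfl

theorem gram_det {m : ℕ} (G : ExpLieGroup m) (σ : LipSimplex m m) (y : Fin m → ℝ)
    (hdet : LinearMap.det (G.law.Λ (σ.coord y) : E m →ₗ[ℝ] E m) = 1) :
    Real.sqrt (gram G σ y).det = |detE m (fun j => fderiv ℝ σ.coord y (stdE m j))| := by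
  set v : Fin m → E m := fun j => G.law.Λ (σ.coord y) (fderiv ℝ σ.coord y (stdE m j)) with hv
  have h1 : gram G σ y = (Matrix.of fun j i => v j i) * (Matrix.of fun j i => v j i).transpose := by
    ext i j
    rw [gram, Matrix.of_apply, Matrix.mul_apply]
    simp only [triv_eq]
    rw [PiLp.inner_apply]
    refine Finset.sum_congr rfl fun l _ => ?_
    simp only [Matrix.of_apply, Matrix.transpose_apply, hv, stdE]
    rw [real_inner_comm]
    simp
  rw [h1, Matrix.det_mul, Matrix.det_transpose, ← pow_two, Real.sqrt_sq_eq_abs, ← detE_apply, hv,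
    detE_comp, hdet, one_mul]

theorem simplexVol_eq_absI {m : ℕ} (G : ExpLieGroup (m + 1))
    (hdet : ∀ x, LinearMap.det (G.law.Λ x : E (m + 1) →ₗ[ℝ] E (m + 1)) = 1)
    (σ : LipSimplex (m + 1) (m + 1)) : simplexVol G σ = absI σ := by
  rw [simplexVol, absI]
  refine lintegral_congr fun y => ?_
  rw [gram_det G σ y (hdet _)]

theorem volI_le {m : ℕ} (G : ExpLieGroup (m + 1))
    (hdet : ∀ x, LinearMap.det (G.law.Λ x : E (m + 1) →ₗ[ℝ] E (m + 1)) = 1)
    (σ : LipSimplex (m + 1) (m + 1)) : ENNReal.ofReal |volI σ| ≤ simplexVol G σ := by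
  rw [simplexVol_eq_absI G hdet]
  exact volI_le_absI σ

theorem volIc_le {m : ℕ} (G : ExpLieGroup (m + 1))
    (hdet : ∀ x, LinearMap.det (G.law.Λ x : E (m + 1) →ₗ[ℝ] E (m + 1)) = 1)
    (a : LipChain (m + 1) (m + 1)) : ENNReal.ofReal |volIc a| ≤ mass G a := by
  have h1 : volIc a = ∑ σ ∈ a.support, (a σ : ℝ) * volI σ := by
    rw [volIc, Finsupp.liftAddHom_apply, Finsupp.sum]
    simp
  rw [h1, mass, Finsupp.sum]
  refine (ENNReal.ofReal_le_ofReal (Finset.abs_sum_le_sum_abs _ _)).trans ?_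
  rw [ENNReal.ofReal_sum_of_nonneg (fun _ _ => abs_nonneg _)]
  refine Finset.sum_le_sum fun σ _ => ?_
  rw [abs_mul, ENNReal.ofReal_mul (abs_nonneg _)]
  have h2 : ENNReal.ofReal |(a σ : ℝ)| = ((a σ).natAbs : ℝ≥0∞) := by
    rw [← Int.cast_abs, Int.abs_eq_natAbs, Int.cast_natCast, ENNReal.ofReal_natCast]
  rw [h2]
  exact mul_le_mul_right (volI_le G hdet σ) _

end Pool.Agent.Lib.P6a08f9
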